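import Mathlib

/-!
Koszul chains on finsets: toggling by levels, and adding a vertex.
-/

set_option autoImplicit false

namespace Pool.Agent.H803R3

open Finset

variable {V : Type*} [Fintype V] [LinearOrder V] {K : Type*} [CommRing K]

set_option linter.unusedSectionVars false

/-- the Koszul sign -/
def sg (K : Type*) [CommRing K] (S : Finset V) (t : V) : K :=
  (-1 : K) ^ (S.filter (· < t)).card

/-- boundary of a chain supported on subsets of `A` -/
def bd (A : Finset V) (c : Finset V → K) (S : Finset V) : K :=
  ∑ t ∈ A \ S, sg K S t * c (insert t S)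

omit [Fintype V] in
lemma sg_sq (S : Finset V) (t : V) : sg K S t * sg K S t = 1 := by
  rw [sg, ← pow_add, ← two_mul, pow_mul]; simp

omit [Fintype V] in
lemma sg_insert (S : Finset V) {b c : V} (hc : c ∉ S) :
    sg K (insert c S) b = (if c < b then -1 else 1) * sg K S b := by
  rw [sg, sg, Finset.filter_insert]
  split_ifs with h
  · rw [Finset.card_insert_of_notMem (by simp [hc]), pow_succ]; ring
  · simp

omit [Fintype V] in
lemma sg_anti (S : Finset V) {b c : V} (hb : b ∉ S) (hc : c ∉ S) (hbc : b ≠ c) :
    sg K S b * sg K (insert b S) c = -(sg K S c * sg K (insert c S) b) := by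
  rw [sg_insert S hb, sg_insert S hc]
  rcases lt_or_gt_of_ne hbc with h | h
  · rw [if_pos h, if_neg (not_lt.mpr h.le)]; ring
  · rw [if_pos h, if_neg (not_lt.mpr h.le)]; ring

omit [Fintype V] in
/-- `sg (p ∪ S) t * sg (t ∪ S) p = - sg S p * sg S t`. -/
lemma sg_swap (S : Finset V) {p t : V} (hp : p ∉ S) (ht : t ∉ S) (h : p ≠ t) :
    sg K (insert p S) t * sg K (insert t S) p = -(sg K S p * sg K S t) := by
  rw [sg_insert S hp, sg_insert S ht]
  rcases lt_or_gt_of_ne h with h | h
  · rw [if_pos h, if_neg (not_lt.mpr h.le)]; ring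
  · rw [if_pos h, if_neg (not_lt.mpr h.le)]; ring

omit [Fintype V] in
lemma double_sum_zero (A S : Finset V) (T : V → V → K)
    (hT : ∀ b c, b ∈ A \ S → c ∈ A \ S → b ≠ c → T b c + T c b = 0) :
    ∑ b ∈ A \ S, ∑ c ∈ A \ insert b S, T b c = 0 := by
  rw [Finset.sum_sigma']
  refine Finset.sum_involution (fun x _ => ⟨x.2, x.1⟩) ?_ ?_ ?_ ?_
  · rintro ⟨b, c⟩ h
    simp only [Finset.mem_sigma, Finset.mem_sdiff, Finset.mem_insert, not_or] at h
    exact hT b c (by simp [h]) (by simp [h]) (Ne.symm h.2.2.1)
  · rintro ⟨b, c⟩ h _ h'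
    simp only [Finset.mem_sigma, Finset.mem_sdiff, Finset.mem_insert, not_or] at h
    simp only [Sigma.mk.injEq, heq_eq_eq] at h'
    exact h.2.2.1 h'.1
  · rintro ⟨b, c⟩ h
    simp only [Finset.mem_sigma, Finset.mem_sdiff, Finset.mem_insert, not_or] at h ⊢
    exact ⟨⟨h.2.1, h.2.2.2⟩, h.1.1, Ne.symm h.2.2.1, h.1.2⟩
  · rintro ⟨b, c⟩ h
    rfl

omit [Fintype V] in
lemma bd_bd (A : Finset V) (c : Finset V → K) (S : Finset V) : bd A (bd A c) S = 0 := by
  simp only [bd, Finset.mul_sum]
  apply double_sum_zero
  intro b t hb ht hbt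
  rw [Finset.mem_sdiff] at hb ht
  rw [Finset.insert_comm t b S, ← mul_assoc, ← mul_assoc, sg_anti S hb.2 ht.2 hbt]
  ring

omit [Fintype V] in
lemma bd_sub (A : Finset V) (c d : Finset V → K) (S : Finset V) :
    bd A (fun T => c T - d T) S = bd A c S - bd A d S := by
  simp [bd, mul_sub, Finset.sum_sub_distrib]

omit [Fintype V] in
lemma bd_add (A : Finset V) (c d : Finset V → K) (S : Finset V) :
    bd A (fun T => c T + d T) S = bd A c S + bd A d S := by
  simp [bd, mul_add, Finset.sum_add_distrib]

/-- Every `i`-cycle on the faces (inside `A`) of `F` is a boundary. -/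
def Acyc (K : Type*) [CommRing K] (A : Finset V) (F : Finset V → Prop) (i : ℕ) : Prop :=
  ∀ c : Finset V → K, (∀ T, c T ≠ 0 → T ⊆ A ∧ F T ∧ T.card = i) → (∀ S, bd A c S = 0) →
    ∃ b : Finset V → K, (∀ T, b T ≠ 0 → T ⊆ A ∧ F T ∧ T.card = i + 1) ∧ ∀ T, bd A b T = c T

/-- toggling one level -/
theorem level_step {Λ : Type*} [LinearOrder Λ] (A : Finset V) (F : Finset V → Prop)
    (hF : ∀ S T, S ⊆ T → F T → F S) (lam : Finset V → Λ)
    (hmono : ∀ S T, S ⊆ T → T ⊆ A → F T → lam S ≤ lam T) (i : ℕ)
    (c : Finset V → K) (hc : ∀ T, c T ≠ 0 → T ⊆ A ∧ F T ∧ T.card = i) (hcyc : ∀ S, bd A c S = 0)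
    (x : Λ) (hx : ∀ T, c T ≠ 0 → lam T ≤ x) (p : V) (hpA : p ∈ A)
    (hp : ∀ T, T ⊆ A → F T → lam T = x →
      F (insert p T) ∧ lam (insert p T) = x ∧ lam (T.erase p) = x) :
    ∃ b : Finset V → K, (∀ T, b T ≠ 0 → T ⊆ A ∧ F T ∧ T.card = i + 1) ∧
      (∀ T, c T - bd A b T ≠ 0 → T ⊆ A ∧ F T ∧ T.card = i ∧ lam T < x) := by
  classical
  set b : Finset V → K := fun U => if p ∈ U ∧ lam (U.erase p) = x then
    sg K (U.erase p) p * c (U.erase p) else 0 with hb
  have hb1 : ∀ T, b T ≠ 0 → (T ⊆ A ∧ F T ∧ T.card = i + 1) ∧ lam T = x ∧ p ∈ T := by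
    intro T hT
    simp only [hb] at hT
    split_ifs at hT with h
    · have hcT : c (T.erase p) ≠ 0 := fun h0 => hT (by rw [h0, mul_zero])
      obtain ⟨h1, h2, h3⟩ := hc _ hcT
      have h4 := hp _ h1 h2 h.2
      rw [Finset.insert_erase h.1] at h4
      refine ⟨⟨?_, h4.1, ?_⟩, h4.2.1, h.1⟩
      · rw [← Finset.insert_erase h.1]
        exact Finset.insert_subset hpA h1
      · rw [Finset.card_erase_of_mem h.1] at h3
        have : 0 < T.card := Finset.card_pos.2 ⟨p, h.1⟩
        omega
    · exact absurd rfl hT
  refine ⟨b, fun T hT => (hb1 T hT).1, ?_⟩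
  intro T hT
  -- T is a face of size i of level ≤ x
  have hface : T ⊆ A ∧ F T ∧ T.card = i ∧ lam T ≤ x := by
    by_cases hcT : c T = 0
    · rw [hcT, zero_sub, neg_ne_zero] at hT
      obtain ⟨t, ht, hne⟩ := Finset.exists_ne_zero_of_sum_ne_zero hT
      rw [Finset.mem_sdiff] at ht
      have hbt : b (insert t T) ≠ 0 := fun h0 => hne (by rw [h0, mul_zero])
      obtain ⟨⟨h1, h2, h3⟩, h4, _⟩ := hb1 _ hbt
      refine ⟨(Finset.subset_insert t T).trans h1, hF _ _ (Finset.subset_insert t T) h2, ?_, ?_⟩
      · rw [Finset.card_insert_of_notMem ht.2] at h3; omega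
      · rw [← h4]; exact hmono _ _ (Finset.subset_insert t T) h1 h2
    · obtain ⟨h1, h2, h3⟩ := hc T hcT
      exact ⟨h1, h2, h3, hx T hcT⟩
  obtain ⟨hTA, hTF, hTi, hTx⟩ := hface
  refine ⟨hTA, hTF, hTi, lt_of_le_of_ne hTx ?_⟩
  intro hlx
  apply hT
  rw [sub_eq_zero]
  by_cases hpT : p ∈ T
  · set S := T.erase p with hS
    have hTS : T = insert p S := (Finset.insert_erase hpT).symm
    have hpS : p ∉ S := Finset.notMem_erase p T
    have hSx : lam S = x := (hp T hTA hTF hlx).2.2
    have hdiff : A \ S = insert p (A \ T) := by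
      ext t
      simp only [Finset.mem_sdiff, Finset.mem_insert, hTS]
      by_cases htp : t = p
      · subst htp; simp [hpA, hpS]
      · simp [htp]
    have hpAT : p ∉ A \ T := by simp [hpT]
    have h1 := hcyc S
    rw [bd, hdiff, Finset.sum_insert hpAT, ← hTS] at h1
    have h2 : bd A b T = ∑ t ∈ A \ T, -(sg K S p * (sg K S t * c (insert t S))) := by
      rw [bd]
      refine Finset.sum_congr rfl fun t ht => ?_
      rw [Finset.mem_sdiff] at ht
      have htp : t ≠ p := fun h => ht.2 (h ▸ hpT)
      have htS : t ∉ S := fun h => ht.2 (Finset.mem_of_mem_erase h)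
      have her : (insert t T).erase p = insert t S := by
        rw [hS, Finset.erase_insert_of_ne htp]
      have hbt : b (insert t T) = sg K (insert t S) p * c (insert t S) := by
        simp only [hb, her]
        by_cases hc0 : c (insert t S) = 0
        · rw [hc0]; simp
        · rw [if_pos]
          refine ⟨Finset.mem_insert_of_mem hpT, le_antisymm (hx _ hc0) ?_⟩
          rw [← hSx]
          obtain ⟨h3, h4, _⟩ := hc _ hc0
          exact hmono _ _ (Finset.subset_insert t S) h3 h4
      rw [hbt, ← mul_assoc, hTS, sg_swap S hpS htS htp.symm]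
      ring
    rw [h2, Finset.sum_neg_distrib, ← Finset.mul_sum]
    have h3 : ∑ t ∈ A \ T, sg K S t * c (insert t S) = -(sg K S p * c T) := by
      linear_combination h1
    rw [h3]
    have := sg_sq (K := K) S p
    linear_combination (-c T) * this
  · have h2 : bd A b T = c T := by
      rw [bd, Finset.sum_eq_single p]
      · simp only [hb]
        rw [Finset.erase_insert hpT, if_pos ⟨Finset.mem_insert_self p T, hlx⟩, ← mul_assoc,
          sg_sq, one_mul]
      · intro t _ htp
        have : b (insert t T) = 0 := by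
          by_contra hne
          obtain ⟨_, _, h5⟩ := hb1 _ hne
          rcases Finset.mem_insert.1 h5 with h6 | h6
          · exact htp h6.symm
          · exact hpT h6
        rw [this, mul_zero]
      · intro h
        exact absurd (Finset.mem_sdiff.2 ⟨hpA, hpT⟩) h
    rw [h2]

/-- acyclicity by toggling levels -/
theorem acyc_of_levels {Λ : Type*} [LinearOrder Λ] (A : Finset V) (F : Finset V → Prop)
    (hF : ∀ S T, S ⊆ T → F T → F S) (lam : Finset V → Λ)
    (hmono : ∀ S T, S ⊆ T → T ⊆ A → F T → lam S ≤ lam T) (i : ℕ)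
    (hp : ∀ T0, T0 ⊆ A → F T0 → T0.card = i → ∃ p ∈ A, ∀ T, T ⊆ A → F T → lam T = lam T0 →
      F (insert p T) ∧ lam (insert p T) = lam T0 ∧ lam (T.erase p) = lam T0) :
    Acyc K A F i := by
  classical
  have key : ∀ n : ℕ, ∀ c : Finset V → K, (∀ T, c T ≠ 0 → T ⊆ A ∧ F T ∧ T.card = i) →
      (∀ S, bd A c S = 0) →
      ((univ : Finset (Finset V)).filter (fun T => ∃ T', c T' ≠ 0 ∧ lam T ≤ lam T')).card ≤ n →
      ∃ b : Finset V → K, (∀ T, b T ≠ 0 → T ⊆ A ∧ F T ∧ T.card = i + 1) ∧
        ∀ T, bd A b T = c T := by
    intro n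
    induction n with
    | zero =>
      intro c hc hcyc hn
      refine ⟨fun _ => 0, by simp, ?_⟩
      intro T
      have : c T = 0 := by
        by_contra hne
        have : T ∈ ((univ : Finset (Finset V)).filter
          (fun T => ∃ T', c T' ≠ 0 ∧ lam T ≤ lam T')) := by
          simp only [Finset.mem_filter, Finset.mem_univ, true_and]
          exact ⟨T, hne, le_rfl⟩
        have := Finset.card_pos.2 ⟨T, this⟩
        omega
      rw [this]; simp [bd]
    | succ n ih =>
      intro c hc hcyc hn
      by_cases hz : ∀ T, c T = 0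
      · refine ⟨fun _ => 0, by simp, ?_⟩
        intro T
        rw [hz T]; simp [bd]
      · push Not at hz
        obtain ⟨T1, hT1⟩ := hz
        obtain ⟨T0, hT0, hmax⟩ := Finset.exists_max_image
          ((univ : Finset (Finset V)).filter (fun T => c T ≠ 0)) lam ⟨T1, by simp [hT1]⟩
        simp only [Finset.mem_filter, Finset.mem_univ, true_and] at hT0 hmax
        obtain ⟨h1, h2, h3⟩ := hc T0 hT0
        obtain ⟨p, hpA, hpt⟩ := hp T0 h1 h2 h3
        obtain ⟨b, hb1, hb2⟩ := level_step A F hF lam hmono i c hc hcyc (lam T0) hmax p hpA hpt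
        obtain ⟨b', hb1', hb2'⟩ := ih (fun T => c T - bd A b T)
          (fun T hT => ⟨(hb2 T hT).1, (hb2 T hT).2.1, (hb2 T hT).2.2.1⟩)
          (fun S => by rw [bd_sub, hcyc, bd_bd, sub_zero]) (by
            have hlt : ((univ : Finset (Finset V)).filter
                (fun T => ∃ T', c T' - bd A b T' ≠ 0 ∧ lam T ≤ lam T')).card <
                ((univ : Finset (Finset V)).filter
                (fun T => ∃ T', c T' ≠ 0 ∧ lam T ≤ lam T')).card := by
              apply Finset.card_lt_card
              rw [Finset.ssubset_iff_of_subset]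
              · refine ⟨T0, ?_, ?_⟩
                · simp only [Finset.mem_filter, Finset.mem_univ, true_and]
                  exact ⟨T0, hT0, le_rfl⟩
                · simp only [Finset.mem_filter, Finset.mem_univ, true_and, not_exists, not_and,
                    not_le]
                  intro T' hT'
                  exact (hb2 T' hT').2.2.2
              · intro T hT
                simp only [Finset.mem_filter, Finset.mem_univ, true_and] at hT ⊢
                obtain ⟨T', hT', hle⟩ := hT
                exact ⟨T0, hT0, hle.trans (hb2 T' hT').2.2.2.le⟩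
            omega)
        refine ⟨fun T => b T + b' T, ?_, ?_⟩
        · intro T hT
          replace hT : b T + b' T ≠ 0 := hT
          by_cases h0 : b T = 0
          · rw [h0, zero_add] at hT; exact hb1' T hT
          · exact hb1 T h0
        · intro T
          rw [bd_add, hb2']; ring
  intro c hc hcyc
  exact key _ c hc hcyc le_rfl

/-- adding one vertex -/
theorem acyc_insert (A : Finset V) (z : V) (hz : z ∉ A) (F : Finset V → Prop)
    (hF : ∀ S T, S ⊆ T → F T → F S) (i : ℕ) (h0 : Acyc K A F i)
    (h1 : ∀ j, j + 1 = i → Acyc K A (fun T => F (insert z T)) j) :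
    Acyc K (insert z A) F i := by
  classical
  intro c hc hcyc
  -- the part containing z
  have step : ∃ B : Finset V → K, (∀ T, B T ≠ 0 → T ⊆ insert z A ∧ F T ∧ T.card = i + 1) ∧
      ∀ T, z ∈ T → bd (insert z A) B T = c T := by
    rcases Nat.eq_zero_or_pos i with rfl | hi
    · refine ⟨fun _ => 0, by simp, ?_⟩
      intro T hzT
      have : c T = 0 := by
        by_contra hne
        have := (hc T hne).2.2
        rw [Finset.card_eq_zero] at this
        simp [this] at hzT
      rw [this]; simp [bd]
    · obtain ⟨j, rfl⟩ : ∃ j, i = j + 1 := ⟨i - 1, by omega⟩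
      set c1 : Finset V → K := fun T => if z ∈ T then 0 else sg K T z * c (insert z T) with hc1
      obtain ⟨b1, hb1, hb2⟩ := h1 j rfl c1 (by
          intro T hT
          simp only [hc1] at hT
          split_ifs at hT with h
          · exact absurd rfl hT
          · have hcT : c (insert z T) ≠ 0 := fun h0 => hT (by rw [h0, mul_zero])
            obtain ⟨h3, h4, h5⟩ := hc _ hcT
            refine ⟨?_, h4, ?_⟩
            · intro t ht
              have := h3 (Finset.mem_insert_of_mem ht)
              rcases Finset.mem_insert.1 this with h6 | h6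
              · exact absurd (h6 ▸ ht) h
              · exact h6
            · rw [Finset.card_insert_of_notMem h] at h5; omega) (by
          intro S
          by_cases hzS : z ∈ S
          · rw [bd]
            refine Finset.sum_eq_zero fun t _ => ?_
            simp only [hc1]
            rw [if_pos (Finset.mem_insert_of_mem hzS), mul_zero]
          · have h2 : bd A c1 S = -(sg K S z) * bd (insert z A) c (insert z S) := by
              rw [bd, bd, Finset.mul_sum]
              have hd : insert z A \ insert z S = A \ S := by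
                ext t
                simp only [Finset.mem_sdiff, Finset.mem_insert, not_or]
                constructor
                · rintro ⟨h3 | h3, h4, h5⟩
                  · exact absurd h3 h4
                  · exact ⟨h3, h5⟩
                · rintro ⟨h3, h4⟩
                  exact ⟨Or.inr h3, fun h => hz (h ▸ h3), h4⟩
              rw [hd]
              refine Finset.sum_congr rfl fun t ht => ?_
              rw [Finset.mem_sdiff] at ht
              have htz : t ≠ z := fun h => hz (h ▸ ht.1)
              have hzt : z ∉ insert t S := by simp [hzS, htz.symm]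
              simp only [hc1]
              rw [if_neg hzt, Finset.insert_comm z t S, ← mul_assoc, ← mul_assoc,
                sg_anti S ht.2 hzS htz]
              ring
            rw [h2, hcyc, mul_zero])
      refine ⟨fun U => if z ∈ U then -(sg K (U.erase z) z * b1 (U.erase z)) else 0, ?_, ?_⟩
      · intro T hT
        replace hT : (if z ∈ T then -(sg K (T.erase z) z * b1 (T.erase z)) else 0) ≠ 0 := hT
        split_ifs at hT with h
        · have hbT : b1 (T.erase z) ≠ 0 := fun h0 => hT (by rw [h0, mul_zero, neg_zero])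
          obtain ⟨h3, h4, h5⟩ := hb1 _ hbT
          simp only [Finset.insert_erase h] at h4
          refine ⟨?_, h4, ?_⟩
          · rw [← Finset.insert_erase h]
            exact Finset.insert_subset_insert z h3
          · rw [Finset.card_erase_of_mem h] at h5
            have : 0 < T.card := Finset.card_pos.2 ⟨z, h⟩
            omega
        · exact absurd rfl hT
      · intro T hzT
        set S := T.erase z with hS
        have hTS : T = insert z S := (Finset.insert_erase hzT).symm
        have hzS : z ∉ S := Finset.notMem_erase z T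
        have hd : insert z A \ T = A \ S := by
          rw [hTS]
          ext t
          simp only [Finset.mem_sdiff, Finset.mem_insert, not_or]
          constructor
          · rintro ⟨h3 | h3, h4, h5⟩
            · exact absurd h3 h4
            · exact ⟨h3, h5⟩
          · rintro ⟨h3, h4⟩
            exact ⟨Or.inr h3, fun h => hz (h ▸ h3), h4⟩
        have h2 : bd (insert z A) (fun U => if z ∈ U then
            -(sg K (U.erase z) z * b1 (U.erase z)) else 0) T = sg K S z * bd A b1 S := by
          rw [bd, bd, hd, Finset.mul_sum]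
          refine Finset.sum_congr rfl fun t ht => ?_
          rw [Finset.mem_sdiff] at ht
          have htz : t ≠ z := fun h => hz (h ▸ ht.1)
          have her : (insert t T).erase z = insert t S := by
            rw [hS, Finset.erase_insert_of_ne htz]
          rw [if_pos (Finset.mem_insert_of_mem hzT), her, hTS]
          have := sg_swap (K := K) S hzS ht.2 htz.symm
          linear_combination (-b1 (insert t S)) * this
        rw [h2, hb2]
        simp only [hc1]
        rw [if_neg hzS, ← hTS, ← mul_assoc, sg_sq, one_mul]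
  obtain ⟨B, hB1, hB2⟩ := step
  have hc0supp : ∀ T, c T - bd (insert z A) B T ≠ 0 → T ⊆ A ∧ F T ∧ T.card = i := by
    intro T hT
    have hzT : z ∉ T := by
      intro h
      rw [hB2 T h, sub_self] at hT
      exact hT rfl
    have h2 : T ⊆ insert z A ∧ F T ∧ T.card = i := by
      by_cases hcT : c T = 0
      · rw [hcT, zero_sub, neg_ne_zero] at hT
        obtain ⟨t, ht, hne⟩ := Finset.exists_ne_zero_of_sum_ne_zero hT
        rw [Finset.mem_sdiff] at ht
        have hbt : B (insert t T) ≠ 0 := fun h0 => hne (by rw [h0, mul_zero])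
        obtain ⟨h3, h4, h5⟩ := hB1 _ hbt
        refine ⟨(Finset.subset_insert t T).trans h3, hF _ _ (Finset.subset_insert t T) h4, ?_⟩
        rw [Finset.card_insert_of_notMem ht.2] at h5; omega
      · exact hc T hcT
    refine ⟨?_, h2.2⟩
    intro t ht
    rcases Finset.mem_insert.1 (h2.1 ht) with h6 | h6
    · exact absurd (h6 ▸ ht) hzT
    · exact h6
  have hbdA : ∀ (d : Finset V → K), (∀ T, d T ≠ 0 → T ⊆ A) → ∀ S, bd (insert z A) d S = bd A d S := by
    intro d hd S
    rw [bd, bd]
    symm
    apply Finset.sum_subset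
    · exact Finset.sdiff_subset_sdiff (Finset.subset_insert z A) (Finset.Subset.refl S)
    · intro t ht1 ht2
      rw [Finset.mem_sdiff] at ht1
      have htA : t ∉ A := fun h => ht2 (Finset.mem_sdiff.2 ⟨h, ht1.2⟩)
      have : d (insert t S) = 0 := by
        by_contra hne
        exact htA (hd _ hne (Finset.mem_insert_self t S))
      rw [this, mul_zero]
  obtain ⟨b0, hb01, hb02⟩ := h0 (fun T => c T - bd (insert z A) B T) hc0supp (by
    intro S
    rw [← hbdA _ (fun T hT => (hc0supp T hT).1), bd_sub, hcyc, bd_bd, sub_zero])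
  refine ⟨fun T => b0 T + B T, ?_, ?_⟩
  · intro T hT
    replace hT : b0 T + B T ≠ 0 := hT
    by_cases h2 : b0 T = 0
    · rw [h2, zero_add] at hT; exact hB1 T hT
    · obtain ⟨h3, h4, h5⟩ := hb01 T h2
      exact ⟨h3.trans (Finset.subset_insert z A), h4, h5⟩
  · intro T
    rw [bd_add, hbdA b0 (fun T hT => (hb01 T hT).1), hb02]
    ring

end Pool.Agent.H803R3
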