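import Mathlib

/-!
Multigraphs (multisets of edges): an exchange lemma for degree sequences.
-/

set_option autoImplicit false

namespace Pool.Agent.H803R3

open Multiset

variable {V : Type*} [DecidableEq V]

/-- degree of the vertex `v` in the multiset `M` of edges -/
def dg (M : Multiset (Sym2 V)) (v : V) : ℕ := M.countP (fun e => v ∈ e)

@[simp] lemma dg_zero (v : V) : dg (0 : Multiset (Sym2 V)) v = 0 := rfl

@[simp] lemma dg_add (M N : Multiset (Sym2 V)) (v : V) : dg (M + N) v = dg M v + dg N v := by
  simp [dg]

@[simp] lemma dg_cons (e : Sym2 V) (M : Multiset (Sym2 V)) (v : V) :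
    dg (e ::ₘ M) v = dg M v + if v ∈ e then 1 else 0 := by
  simp [dg, Multiset.countP_cons]

lemma mem_pair {a b v : V} (h : a ≠ b) :
    (if v ∈ s(a, b) then 1 else 0 : ℕ) = (if v = a then 1 else 0) + (if v = b then 1 else 0) := by
  by_cases h1 : v = a
  · subst h1; simp [h]
  · by_cases h2 : v = b
    · subst h2; simp [h1]
    · simp [h1, h2]

lemma dg_cons_pair (a b : V) (h : a ≠ b) (M : Multiset (Sym2 V)) (v : V) :
    dg (s(a, b) ::ₘ M) v = dg M v + (if v = a then 1 else 0) + (if v = b then 1 else 0) := by
  rw [dg_cons, mem_pair h, add_assoc]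

lemma exists_mem_of_dg_pos {M : Multiset (Sym2 V)} {v : V} (h : 0 < dg M v) :
    ∃ w, s(v, w) ∈ M := by
  rw [dg, Multiset.countP_pos] at h
  obtain ⟨e, he, hv⟩ := h
  obtain ⟨w, rfl⟩ := Sym2.mem_iff_exists.mp hv
  exact ⟨w, he⟩

/-- no loops -/
def NL (M : Multiset (Sym2 V)) : Prop := ∀ e ∈ M, ¬ e.IsDiag

lemma NL.left {M N : Multiset (Sym2 V)} (h : NL (M + N)) : NL M := fun e he =>
  h e (Multiset.mem_add.2 (Or.inl he))

lemma NL.right {M N : Multiset (Sym2 V)} (h : NL (M + N)) : NL N := fun e he =>
  h e (Multiset.mem_add.2 (Or.inr he))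

theorem walk (n : ℕ) : ∀ (X Y : Multiset (Sym2 V)), card X + card Y = n → NL X → NL Y →
    ∀ k, dg X k < dg Y k → ∃ l X1 X2 Y1 Y2, X = X1 + X2 ∧ Y = Y1 + Y2 ∧
      ((card Y1 = card X1 + 1 ∧
        (∀ w, dg Y1 w = dg X1 w + (if w = k then 1 else 0) + (if w = l then 1 else 0)) ∧
        dg X l + (if l = k then 1 else 0) < dg Y l) ∨
       (card Y1 = card X1 ∧
        (∀ w, dg Y1 w + (if w = l then 1 else 0) = dg X1 w + (if w = k then 1 else 0)) ∧
        dg Y l < dg X l)) := by
  induction n with
  | zero =>
    intro X Y hn _ _ k hk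
    have : Y = 0 := by
      rw [← Multiset.card_eq_zero]; omega
    subst this
    simp at hk
  | succ n ih =>
    intro X Y hn hX hY k hk
    obtain ⟨k1, hk1⟩ := exists_mem_of_dg_pos (lt_of_le_of_lt (Nat.zero_le _) hk)
    obtain ⟨Y', rfl⟩ := Multiset.exists_cons_of_mem hk1
    have hne : k ≠ k1 := by
      intro h
      exact hY _ hk1 (by simp [h])
    have hYk := dg_cons_pair k k1 hne Y'
    have hY' : NL Y' := fun e he => hY e (Multiset.mem_cons_of_mem he)
    by_cases h1 : dg X k1 < dg (s(k, k1) ::ₘ Y') k1
    · refine ⟨k1, 0, X, {s(k, k1)}, Y', by simp, by simp, Or.inl ⟨by simp, ?_, ?_⟩⟩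
      · intro w
        have := dg_cons_pair k k1 hne 0 w
        simpa using this
      · rw [if_neg hne.symm]; simpa using h1
    · have h2 : dg Y' k1 < dg X k1 := by
        have := hYk k1
        rw [if_neg hne.symm, if_pos rfl] at this
        omega
      have hc : card Y' + card X = n := by
        rw [Multiset.card_cons] at hn; omega
      obtain ⟨l, A1, A2, B1, B2, rfl, rfl, h3⟩ := ih Y' X hc hY' hX k1 h2
      refine ⟨l, B1, B2, s(k, k1) ::ₘ A1, A2, rfl, by simp, ?_⟩
      have hA1 := dg_cons_pair k k1 hne A1
      rcases h3 with ⟨hcard, hd, hl⟩ | ⟨hcard, hd, hl⟩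
      · right
        refine ⟨by rw [Multiset.card_cons, hcard], ?_, ?_⟩
        · intro w
          have e1 := hA1 w
          have e2 := hd w
          omega
        · have e1 := hYk l
          have e2 := hYk k
          rw [if_pos rfl, if_neg hne] at e2
          by_cases hlk : l = k
          · subst hlk
            rw [if_neg hne] at hl
            simp only [dg_add] at *
            omega
          · rw [if_neg hlk] at e1
            simp only [dg_add] at *
            omega
      · left
        refine ⟨by rw [Multiset.card_cons, hcard], ?_, ?_⟩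
        · intro w
          have e1 := hA1 w
          have e2 := hd w
          omega
        · have e1 := hYk l
          simp only [dg_add] at *
          omega

lemma sum_dg [Fintype V] (M : Multiset (Sym2 V)) (h : NL M) : ∑ v, dg M v = 2 * card M := by
  induction M using Multiset.induction_on with
  | empty => simp
  | cons e M ih =>
    have ih' := ih (fun e he => h e (Multiset.mem_cons_of_mem he))
    have he := h e (Multiset.mem_cons_self e M)
    induction e using Sym2.ind with
    | h a b =>
      have hne : a ≠ b := by simpa using he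
      simp only [dg_cons_pair a b hne, Finset.sum_add_distrib, ih', Multiset.card_cons]
      simp
      ring

theorem up [Fintype V] (n : ℕ) : ∀ (X Y : Multiset (Sym2 V)), card X + card Y = n → NL X → NL Y →
    card X < card Y → ∃ k l W, (∀ e ∈ W, e ∈ X ∨ e ∈ Y) ∧ card W = card X + 1 ∧
      (∀ w, dg W w = dg X w + (if w = k then 1 else 0) + (if w = l then 1 else 0)) ∧
      dg X k < dg Y k ∧ dg X l < dg Y l := by
  induction n using Nat.strong_induction_on with
  | _ n ih =>
    intro X Y hn hX hY hlt
    have hk : ∃ k, dg X k < dg Y k := by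
      by_contra hcon
      push Not at hcon
      have : ∑ v, dg Y v ≤ ∑ v, dg X v := Finset.sum_le_sum fun v _ => hcon v
      rw [sum_dg X hX, sum_dg Y hY] at this
      omega
    obtain ⟨k, hk⟩ := hk
    obtain ⟨l, X1, X2, Y1, Y2, rfl, rfl, h3⟩ := walk _ X Y rfl hX hY k hk
    rcases h3 with ⟨hcard, hd, hl⟩ | ⟨hcard, hd, hl⟩
    · refine ⟨k, l, X2 + Y1, ?_, ?_, ?_, hk, ?_⟩
      · intro e he
        simp only [Multiset.mem_add] at he ⊢
        tauto
      · simp only [Multiset.card_add]; omega
      · intro w
        have := hd w
        simp only [dg_add]; omega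
      · split_ifs at hl <;> omega
    · have hlk : l ≠ k := by
        rintro rfl
        omega
      have hY1 : 0 < card Y1 := by
        rw [Nat.pos_iff_ne_zero]
        intro h0
        rw [Multiset.card_eq_zero] at h0
        have := hd k
        rw [h0, if_neg hlk.symm, if_pos rfl] at this
        simp at this
      simp only [Multiset.card_add] at hn hlt
      obtain ⟨k', l', W0, hW0, hc0, hd0, hk0, hl0⟩ := ih (card X2 + card Y2) (by omega) X2 Y2 rfl
        hX.right hY.right (by omega)
      refine ⟨k', l', W0 + X1, ?_, ?_, ?_, ?_, ?_⟩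
      · intro e he
        simp only [Multiset.mem_add] at he ⊢
        rcases he with he | he
        · rcases hW0 e he with h | h
          · exact Or.inl (Or.inr h)
          · exact Or.inr (Or.inr h)
        · exact Or.inl (Or.inl he)
      · simp only [Multiset.card_add]; omega
      · intro w
        have := hd0 w
        simp only [dg_add]; omega
      · have e1 := hd k'
        simp only [dg_add] at *
        by_cases h1 : k' = l
        · subst h1
          rw [if_pos rfl, if_neg hlk] at e1
          omega
        · rw [if_neg h1] at e1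
          split_ifs at e1 <;> omega
      · have e1 := hd l'
        simp only [dg_add] at *
        by_cases h1 : l' = l
        · subst h1
          rw [if_pos rfl, if_neg hlk] at e1
          omega
        · rw [if_neg h1] at e1
          split_ifs at e1 <;> omega

theorem exch [Fintype V] (X Y : Multiset (Sym2 V)) (hX : NL X) (hY : NL Y)
    (hc : card X = card Y) (i : V) (hi : dg Y i < dg X i) :
    (∃ j W, (∀ e ∈ W, e ∈ X ∨ e ∈ Y) ∧ card W = card X ∧
      (∀ w, dg W w + (if w = i then 1 else 0) = dg X w + (if w = j then 1 else 0)) ∧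
      dg X j < dg Y j) ∨
    (∃ k l W, (∀ e ∈ W, e ∈ X ∨ e ∈ Y) ∧ card W = card X + 1 ∧
      (∀ w, dg W w = dg X w + (if w = k then 1 else 0) + (if w = l then 1 else 0)) ∧
      dg X k < dg Y k ∧ dg X l < dg Y l) := by
  obtain ⟨l, Y1, Y2, X1, X2, rfl, rfl, h3⟩ := walk _ Y X rfl hY hX i hi
  simp only [Multiset.card_add] at hc
  rcases h3 with ⟨hcard, hd, hl⟩ | ⟨hcard, hd, hl⟩
  · right
    obtain ⟨k', l', W0, hW0, hc0, hd0, hk0, hl0⟩ := up _ X2 Y2 rfl hX.right hY.right (by omega)
    refine ⟨k', l', W0 + X1, ?_, ?_, ?_, ?_, ?_⟩
    · intro e he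
      simp only [Multiset.mem_add] at he ⊢
      rcases he with he | he
      · rcases hW0 e he with h | h
        · exact Or.inl (Or.inr h)
        · exact Or.inr (Or.inr h)
      · exact Or.inl (Or.inl he)
    · simp only [Multiset.card_add]; omega
    · intro w
      have := hd0 w
      simp only [dg_add]; omega
    · have e1 := hd k'
      simp only [dg_add] at *
      by_cases h1 : k' = i <;> by_cases h2 : k' = l
      · subst h1; subst h2
        simp at e1 hl
        omega
      · subst h1
        simp [h2] at e1
        omega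
      · subst h2
        simp [h1] at e1 hl
        omega
      · simp [h1, h2] at e1
        omega
    · have e1 := hd l'
      simp only [dg_add] at *
      by_cases h1 : l' = i <;> by_cases h2 : l' = l
      · subst h1; subst h2
        simp at e1 hl
        omega
      · subst h1
        simp [h2] at e1
        omega
      · subst h2
        simp [h1] at e1 hl
        omega
      · simp [h1, h2] at e1
        omega
  · left
    refine ⟨l, X2 + Y1, ?_, ?_, ?_, hl⟩
    · intro e he
      simp only [Multiset.mem_add] at he ⊢
      tauto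
    · simp only [Multiset.card_add]; omega
    · intro w
      have := hd w
      simp only [dg_add]; omega

end Pool.Agent.H803R3
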