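import Mathlib
import Pool.Agent.H803R3.Multi
import Pool.Agent.H803R3.Chain

/-!
Local linearity of powers of the edge ideal at an edge `uv` all of whose non-neighbours
form an independent set.
-/

set_option autoImplicit false
set_option linter.unusedSectionVars false

namespace Pool.Agent.H803R3

open Multiset

variable {n : ℕ}

/-- rank of a vertex: first `u`, then `v`, then the rest -/
def rk (u v w : Fin n) : ℕ := if w = u then 0 else if w = v then 1 else w.val + 2

/-- the vertex at a rank -/
def vx (u v : Fin n) (r : Fin (n + 2)) : Fin n :=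
  if r.val = 0 then u else if h : r.val = 1 then v else ⟨r.val - 2, by
    have := r.isLt; have := u.isLt; omega⟩

/-- the lexicographic key of an exponent -/
def key (u v : Fin n) (x : Fin n → ℕ) : Lex (Fin (n + 2) → ℕ) :=
  toLex (fun r => x (vx u v r))

lemma rk_lt (u v w : Fin n) : rk u v w < n + 2 := by
  unfold rk; have := w.isLt; split_ifs <;> omega

lemma rk_inj {u v : Fin n} {w w' : Fin n} (h : rk u v w = rk u v w') : w = w' := by
  unfold rk at h
  split_ifs at h with h1 h2 h3 h4 h5 h6 <;> first
    | (subst_vars; rfl)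
    | (exfalso; omega)
    | (apply Fin.ext; omega)

lemma vx_rk {u v : Fin n} (w : Fin n) : vx u v ⟨rk u v w, rk_lt u v w⟩ = w := by
  unfold vx rk
  by_cases h1 : w = u
  · subst h1; simp
  · by_cases h2 : w = v
    · subst h2; simp [h1]
    · simp [h1, h2]

lemma key_lt_of {u v : Fin n} {x y : Fin n → ℕ} (i : Fin n) (h : y i < x i)
    (hl : ∀ w, rk u v w < rk u v i → y w = x w) : key u v y < key u v x := by
  refine ⟨⟨rk u v i, rk_lt u v i⟩, ?_, ?_⟩
  · intro j hj
    change y (vx u v j) = x (vx u v j)
    have hj' : j.val < rk u v i := hj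
    apply hl
    unfold vx
    split_ifs with h1 h2
    · have : rk u v u = 0 := by simp [rk]
      omega
    · have : rk u v v ≤ 1 := by unfold rk; split_ifs <;> omega
      omega
    · have h3 : ∀ w : Fin n, rk u v w ≤ w.val + 2 := by
        intro w; unfold rk; split_ifs <;> omega
      have := h3 ⟨j.val - 2, by have := j.isLt; have := u.isLt; omega⟩
      simp only at this
      omega
  · change y (vx u v _) < x (vx u v _)
    rw [vx_rk]
    exact h

lemma lt_key {u v : Fin n} (huv : u ≠ v) {x y : Fin n → ℕ} (h : key u v y < key u v x) :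
    ∃ i, y i < x i ∧ ∀ w, rk u v w < rk u v i → y w = x w := by
  obtain ⟨r, hr, hlt⟩ := h
  change ∀ j, j < r → y (vx u v j) = x (vx u v j) at hr
  change y (vx u v r) < x (vx u v r) at hlt
  refine ⟨vx u v r, hlt, ?_⟩
  intro w hw
  have hrr : rk u v (vx u v r) ≤ r.val := by
    unfold vx
    split_ifs with h1 h2
    · simp [rk]
    · unfold rk; split_ifs <;> omega
    · unfold rk; split_ifs <;> (try dsimp only) <;> omega
  have := hr ⟨rk u v w, rk_lt u v w⟩ (by
    change rk u v w < r.val
    omega)
  rw [vx_rk] at this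
  exact this

lemma key_inj {u v : Fin n} {x y : Fin n → ℕ} (h : key u v x = key u v y) : x = y := by
  funext w
  have := congrFun (show (fun r => x (vx u v r)) = (fun r => y (vx u v r)) from h)
    ⟨rk u v w, rk_lt u v w⟩
  simpa only [vx_rk] using this

/-- all members are edges of `G` -/
def IsG (G : SimpleGraph (Fin n)) (X : Multiset (Sym2 (Fin n))) : Prop := ∀ e ∈ X, e ∈ G.edgeSet

lemma IsG.nl {G : SimpleGraph (Fin n)} {X : Multiset (Sym2 (Fin n))} (h : IsG G X) : NL X :=
  fun e he => G.not_isDiag_of_mem_edgeSet (h e he)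

lemma IsG.cons {G : SimpleGraph (Fin n)} {X : Multiset (Sym2 (Fin n))} (h : IsG G X)
    {a b : Fin n} (hab : G.Adj a b) : IsG G (s(a, b) ::ₘ X) := by
  intro e he
  rcases Multiset.mem_cons.1 he with rfl | h1
  · exact hab
  · exact h e h1

lemma IsG.of_cons {G : SimpleGraph (Fin n)} {X : Multiset (Sym2 (Fin n))} {e : Sym2 (Fin n)}
    (h : IsG G (e ::ₘ X)) : IsG G X := fun e' he' => h e' (Multiset.mem_cons_of_mem he')

/-- the neighbours of the edge `uv` outside it -/
def Zp (G : SimpleGraph (Fin n)) (u v z : Fin n) : Prop :=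
  z ≠ u ∧ z ≠ v ∧ (G.Adj z u ∨ G.Adj z v)

/-- the non-neighbours of the edge `uv` are independent -/
def IndR (G : SimpleGraph (Fin n)) (u v : Fin n) : Prop :=
  ∀ r r', r ≠ u → r ≠ v → ¬ G.Adj r u → ¬ G.Adj r v → r' ≠ u → r' ≠ v → ¬ G.Adj r' u →
    ¬ G.Adj r' v → ¬ G.Adj r r'

theorem exchange (G : SimpleGraph (Fin n)) (u v : Fin n) (huv : G.Adj u v) (hR : IndR G u v)
    (X Y : Multiset (Sym2 (Fin n))) (hX : IsG G X) (hY : IsG G Y) (hc : card X = card Y)
    (huX : s(u, v) ∈ X) (huY : s(u, v) ∈ Y) (hZ : ∀ z, Zp G u v z → dg X z = dg Y z)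
    (i : Fin n) (hi : dg Y i < dg X i) (hlex : ∀ w, rk u v w < rk u v i → dg Y w = dg X w) :
    ∃ i' j W, rk u v i' < rk u v j ∧ IsG G W ∧ card W = card X ∧
      (∀ w, dg W w + (if w = i' then 1 else 0) = dg X w + (if w = j then 1 else 0)) ∧
      dg X j < dg Y j ∧ ¬ Zp G u v i' := by
  have hne : u ≠ v := huv.ne
  obtain ⟨X1, rfl⟩ := Multiset.exists_cons_of_mem huX
  obtain ⟨Y1, rfl⟩ := Multiset.exists_cons_of_mem huY
  have dX := dg_cons_pair u v hne X1
  have dY := dg_cons_pair u v hne Y1
  have hiZ : ¬ Zp G u v i := fun h => by have := hZ i h; omega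
  have huZ : ¬ Zp G u v u := fun h => h.1 rfl
  have hvZ : ¬ Zp G u v v := fun h => h.2.1 rfl
  rw [Multiset.card_cons, Multiset.card_cons] at hc
  have hW : ∀ W : Multiset (Sym2 (Fin n)), (∀ e ∈ W, e ∈ X1 ∨ e ∈ Y1) → IsG G W := by
    intro W hW e he
    rcases hW e he with h | h
    · exact hX.of_cons e h
    · exact hY.of_cons e h
  have hrku : rk u v u = 0 := by simp [rk]
  have hrkv : rk u v v = 1 := by simp [rk, hne.symm]
  have hnotu : ∀ l, dg (s(u, v) ::ₘ X1) l < dg (s(u, v) ::ₘ Y1) l → l ≠ u := by
    rintro l hl rfl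
    by_cases h : i = l
    · subst h; omega
    · have : 0 < rk l v i := by
        rw [Nat.pos_iff_ne_zero]
        intro h0
        exact h (rk_inj (h0.trans hrku.symm))
      have := hlex l (by omega)
      omega
  rcases exch X1 Y1 hX.of_cons.nl hY.of_cons.nl (by omega) i (by
      have := dX i; have := dY i; omega) with
    ⟨j, W1, hWs, hcW, hdW, hj⟩ | ⟨k, l, W1, hWs, hcW, hdW, hk, hl⟩
  · have hj' : dg (s(u, v) ::ₘ X1) j < dg (s(u, v) ::ₘ Y1) j := by
      have := dX j; have := dY j; omega
    refine ⟨i, j, s(u, v) ::ₘ W1, ?_, (hW W1 hWs).cons huv, ?_, ?_, hj', hiZ⟩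
    · rcases lt_trichotomy (rk u v j) (rk u v i) with h | h | h
      · have := hlex j h; omega
      · have := rk_inj h; subst this; omega
      · exact h
    · rw [Multiset.card_cons, Multiset.card_cons, hcW]
    · intro w
      have e1 := dg_cons_pair u v hne W1 w
      have e2 := hdW w
      have e3 := dX w
      omega
  · have hk' : dg (s(u, v) ::ₘ X1) k < dg (s(u, v) ::ₘ Y1) k := by
      have := dX k; have := dY k; omega
    have hl' : dg (s(u, v) ::ₘ X1) l < dg (s(u, v) ::ₘ Y1) l := by
      have := dX l; have := dY l; omega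
    have hku := hnotu k hk'
    have hlu := hnotu l hl'
    have hrk0 : ∀ w, w ≠ u → 0 < rk u v w := by
      intro w hw
      rw [Nat.pos_iff_ne_zero]
      intro h0
      exact hw (rk_inj (h0.trans hrku.symm))
    by_cases hkv : k = v
    · subst hkv
      refine ⟨u, l, W1, by rw [hrku]; exact hrk0 l hlu, hW W1 hWs, ?_, ?_, hl', huZ⟩
      · rw [Multiset.card_cons, hcW]
      · intro w
        have e2 := hdW w
        have e3 := dX w
        omega
    · by_cases hlv : l = v
      · subst hlv
        refine ⟨u, k, W1, by rw [hrku]; exact hrk0 k hku, hW W1 hWs, ?_, ?_, hk', huZ⟩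
        · rw [Multiset.card_cons, hcW]
        · intro w
          have e2 := hdW w
          have e3 := dX w
          omega
      · have hkZ : ¬ Zp G u v k := fun h => by have := hZ k h; omega
        have hkuA : ¬ G.Adj k u := fun h => hkZ ⟨hku, hkv, Or.inl h⟩
        have hkvA : ¬ G.Adj k v := fun h => hkZ ⟨hku, hkv, Or.inr h⟩
        have hpos : 0 < dg W1 k := by
          have := hdW k
          rw [if_pos rfl] at this
          omega
        obtain ⟨k1, hk1⟩ := exists_mem_of_dg_pos hpos
        have hadj : G.Adj k k1 := hW W1 hWs _ hk1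
        obtain ⟨W3, rfl⟩ := Multiset.exists_cons_of_mem hk1
        have hk1u : k1 ≠ u := fun h => hkuA (h ▸ hadj)
        have hk1v : k1 ≠ v := fun h => hkvA (h ▸ hadj)
        have hIG := (hW _ hWs).of_cons
        have dW := dg_cons_pair k k1 hadj.ne W3
        rw [Multiset.card_cons] at hcW
        by_cases h1 : G.Adj k1 v
        · refine ⟨u, l, s(k1, v) ::ₘ W3, by rw [hrku]; exact hrk0 l hlu, hIG.cons h1, ?_, ?_, hl',
            huZ⟩
          · rw [Multiset.card_cons, Multiset.card_cons]; omega
          · intro w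
            have e1 := dg_cons_pair k1 v hk1v W3 w
            have e2 := hdW w
            have e3 := dX w
            have e4 := dW w
            omega
        · by_cases h2 : G.Adj k1 u
          · refine ⟨v, l, s(k1, u) ::ₘ W3, ?_, hIG.cons h2, ?_, ?_, hl', hvZ⟩
            · rw [hrkv]
              have h3 := hrk0 l hlu
              have h4 : rk u v l ≠ 1 := fun h => hlv (rk_inj (h.trans hrkv.symm))
              omega
            · rw [Multiset.card_cons, Multiset.card_cons]; omega
            · intro w
              have e1 := dg_cons_pair k1 u hk1u W3 w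
              have e2 := hdW w
              have e3 := dX w
              have e4 := dW w
              omega
          · exact absurd hadj (hR k k1 hku hkv hkuA hkvA hk1u hk1v h2 h1)

/-- `F` is a face of the multidegree `a` Koszul complex of `I(G)^q` -/
def Face (G : SimpleGraph (Fin n)) (a : Fin n → ℕ) (q : ℕ) (F : Finset (Fin n)) : Prop :=
  ∃ X, IsG G X ∧ card X = q ∧ ∀ w, dg X w + (if w ∈ F then 1 else 0) ≤ a w

lemma Face.down {G : SimpleGraph (Fin n)} {a : Fin n → ℕ} {q : ℕ} (S T : Finset (Fin n))
    (hST : S ⊆ T) (h : Face G a q T) : Face G a q S := by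
  obtain ⟨X, h1, h2, h3⟩ := h
  refine ⟨X, h1, h2, fun w => ?_⟩
  have := h3 w
  by_cases hw : w ∈ S
  · rw [if_pos (hST hw)] at this; rw [if_pos hw]; exact this
  · rw [if_neg hw]; omega

lemma card_le_outside (G : SimpleGraph (Fin n)) (u v : Fin n) (X : Multiset (Sym2 (Fin n)))
    (hX : IsG G X) (h : s(u, v) ∉ X) :
    card X ≤ ∑ w ∈ Finset.univ \ {u, v}, dg X w := by
  induction X using Multiset.induction_on with
  | empty => simp
  | cons e X ih =>
    have h1 := ih hX.of_cons (fun h' => h (Multiset.mem_cons_of_mem h'))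
    have he : e ≠ s(u, v) := fun h' => h (by rw [h']; exact Multiset.mem_cons_self _ _)
    have hed := hX e (Multiset.mem_cons_self e X)
    induction e using Sym2.ind with
    | h a b =>
      have hab : G.Adj a b := hed
      have : ∃ w ∈ Finset.univ \ ({u, v} : Finset (Fin n)), w ∈ s(a, b) := by
        by_contra hcon
        push Not at hcon
        have ha : a = u ∨ a = v := by
          by_contra h'
          push Not at h'
          exact hcon a (by simp [h'.1, h'.2]) (by simp)
        have hb : b = u ∨ b = v := by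
          by_contra h'
          push Not at h'
          exact hcon b (by simp [h'.1, h'.2]) (by simp)
        rcases ha with rfl | rfl <;> rcases hb with rfl | rfl
        · exact hab.ne rfl
        · exact he rfl
        · exact he Sym2.eq_swap
        · exact hab.ne rfl
      obtain ⟨w, hw, hwe⟩ := this
      rw [Multiset.card_cons]
      calc card X + 1 ≤ ∑ w ∈ Finset.univ \ {u, v}, dg X w + 1 := by omega
        _ ≤ ∑ w ∈ Finset.univ \ {u, v}, dg X w +
            ∑ w ∈ Finset.univ \ {u, v}, (if w ∈ s(a, b) then 1 else 0) := by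
            have : 1 ≤ ∑ w ∈ Finset.univ \ ({u, v} : Finset (Fin n)),
                (if w ∈ s(a, b) then 1 else 0) := by
              have h2 := Finset.single_le_sum (f := fun w => (if w ∈ s(a, b) then 1 else 0 : ℕ))
                (fun _ _ => Nat.zero_le _) hw
              simp only [if_pos hwe] at h2
              exact h2
            omega
        _ = ∑ w ∈ Finset.univ \ {u, v}, dg (s(a, b) ::ₘ X) w := by
            rw [← Finset.sum_add_distrib]
            refine Finset.sum_congr rfl fun w _ => ?_
            rw [dg_cons]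

lemma mem_uv (G : SimpleGraph (Fin n)) (u v : Fin n) (X : Multiset (Sym2 (Fin n)))
    (hX : IsG G X) (a : Fin n → ℕ) (ha : ∀ w, dg X w ≤ a w)
    (hq : ∑ w ∈ Finset.univ \ {u, v}, a w < card X) : s(u, v) ∈ X := by
  by_contra h
  have h1 := card_le_outside G u v X hX h
  have h2 : ∑ w ∈ Finset.univ \ {u, v}, dg X w ≤ ∑ w ∈ Finset.univ \ {u, v}, a w :=
    Finset.sum_le_sum fun w _ => ha w
  omega

lemma saturate (G : SimpleGraph (Fin n)) (u v : Fin n) (huv : G.Adj u v) (a : Fin n → ℕ) (q : ℕ)
    (hq : ∑ w ∈ Finset.univ \ {u, v}, a w < q) (F : Finset (Fin n))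
    (hF : ∀ w ∈ F, ¬ Zp G u v w) (d : ℕ) :
    ∀ X, IsG G X → card X = q → (∀ w, dg X w + (if w ∈ F then 1 else 0) ≤ a w) →
      (∑ w, a w) - (∑ w ∈ Finset.univ \ {u, v}, dg X w) ≤ d →
      ∃ X, IsG G X ∧ card X = q ∧ (∀ w, dg X w + (if w ∈ F then 1 else 0) ≤ a w) ∧
        ∀ z, Zp G u v z → dg X z = a z := by
  induction d with
  | zero =>
    intro X h1 h2 h3 h4
    exfalso
    have h5 : ∑ w ∈ Finset.univ \ {u, v}, dg X w ≤ ∑ w ∈ Finset.univ \ {u, v}, a w :=
      Finset.sum_le_sum fun w _ => by have := h3 w; omega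
    have h6 : ∑ w ∈ Finset.univ \ ({u, v} : Finset (Fin n)), a w ≤ ∑ w, a w :=
      Finset.sum_le_sum_of_subset (Finset.subset_univ _)
    have h7 : ∑ w, dg X w ≤ ∑ w, a w := Finset.sum_le_sum fun w _ => by have := h3 w; omega
    rw [sum_dg X h1.nl, h2] at h7
    omega
  | succ d ih =>
    intro X h1 h2 h3 h4
    by_cases hs : ∀ z, Zp G u v z → dg X z = a z
    · exact ⟨X, h1, h2, h3, hs⟩
    · push Not at hs
      obtain ⟨z, hz, hne⟩ := hs
      have hzF : z ∉ F := fun h => hF z h hz
      have hlt : dg X z < a z := by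
        have := h3 z
        rw [if_neg hzF] at this
        omega
      have hmem : s(u, v) ∈ X := mem_uv G u v X h1 a (fun w => by have := h3 w; omega)
        (by omega)
      obtain ⟨X1, rfl⟩ := Multiset.exists_cons_of_mem hmem
      have dX := dg_cons_pair u v huv.ne X1
      obtain ⟨y, hy, hzy⟩ : ∃ y, (y = u ∨ y = v) ∧ G.Adj z y := by
        rcases hz.2.2 with h | h
        · exact ⟨u, Or.inl rfl, h⟩
        · exact ⟨v, Or.inr rfl, h⟩
      have dX' := dg_cons_pair z y hzy.ne X1
      refine ih (s(z, y) ::ₘ X1) (h1.of_cons.cons hzy) ?_ ?_ ?_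
      · rw [Multiset.card_cons] at h2 ⊢; exact h2
      · intro w
        have e1 := dX w
        have e2 := dX' w
        have e3 := h3 w
        by_cases hwz : w = z
        · subst hwz
          rw [if_neg hzF]
          rw [if_neg hz.1, if_neg hz.2.1] at e1
          rw [if_pos rfl, if_neg hzy.ne] at e2
          omega
        · rw [if_neg hwz] at e2
          rcases hy with rfl | rfl
          · omega
          · omega
      · have hsum : ∑ w ∈ Finset.univ \ {u, v}, dg (s(z, y) ::ₘ X1) w =
            ∑ w ∈ Finset.univ \ {u, v}, dg (s(u, v) ::ₘ X1) w + 1 := by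
          have hz' : z ∈ Finset.univ \ ({u, v} : Finset (Fin n)) := by simp [hz.1, hz.2.1]
          rw [← Finset.add_sum_erase _ _ hz',
            ← Finset.add_sum_erase (Finset.univ \ ({u, v} : Finset (Fin n)))
              (fun w => dg (s(u, v) ::ₘ X1) w) hz']
          have h5 : ∑ w ∈ (Finset.univ \ ({u, v} : Finset (Fin n))).erase z,
              dg (s(z, y) ::ₘ X1) w =
              ∑ w ∈ (Finset.univ \ ({u, v} : Finset (Fin n))).erase z,
              dg (s(u, v) ::ₘ X1) w := by
            refine Finset.sum_congr rfl fun w hw => ?_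
            rw [Finset.mem_erase, Finset.mem_sdiff] at hw
            have hw1 : w ≠ u := fun h => hw.2.2 (by simp [h])
            have hw2 : w ≠ v := fun h => hw.2.2 (by simp [h])
            have e1 := dX w
            have e2 := dX' w
            rw [if_neg hw.1] at e2
            rw [if_neg hw1, if_neg hw2] at e1
            have hwy : w ≠ y := by rcases hy with rfl | rfl <;> assumption
            rw [if_neg hwy] at e2
            omega
          have e1 := dX z
          have e2 := dX' z
          rw [if_pos rfl, if_neg hzy.ne] at e2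
          rw [if_neg hz.1, if_neg hz.2.1] at e1
          omega
        have h5 : ∑ w ∈ Finset.univ \ {u, v}, dg (s(u, v) ::ₘ X1) w ≤
            ∑ w ∈ Finset.univ \ {u, v}, a w :=
          Finset.sum_le_sum fun w _ => by have := h3 w; omega
        have h6 : ∑ w ∈ Finset.univ \ ({u, v} : Finset (Fin n)), a w ≤ ∑ w, a w :=
          Finset.sum_le_sum_of_subset (Finset.subset_univ _)
        omega

end Pool.Agent.H803R3
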