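import Mathlib
import Pool.Agent.H803R3.Local

/-!
Local acyclicity at an edge.
-/

set_option autoImplicit false
set_option linter.unusedSectionVars false

namespace Pool.Agent.H803R3

open Multiset

variable {n : ℕ}

/-- the vertices allowed in the small Koszul complex -/
def Vp (G : SimpleGraph (Fin n)) (u v : Fin n) : Set (Fin n) := {w | ¬ Zp G u v w}

/-- data attached to a face -/
def InD (G : SimpleGraph (Fin n)) (u v : Fin n) (a : Fin n → ℕ) (q : ℕ) (F : Finset (Fin n))
    (x : Fin n → ℕ) : Prop :=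
  ∃ X, IsG G X ∧ card X = q ∧ (∀ w, dg X w = x w) ∧ (∀ z, Zp G u v z → x z = a z) ∧
    (∀ w, x w + (if w ∈ F then 1 else 0) ≤ a w)

/-- the finite set of all such data -/
noncomputable def DF (G : SimpleGraph (Fin n)) (u v : Fin n) (a : Fin n → ℕ) (q : ℕ)
    (F : Finset (Fin n)) : Finset (Fin n → ℕ) :=
  @Finset.filter _ (fun x => InD G u v a q F x) (Classical.decPred _)
    (Fintype.piFinset (fun w => Finset.range (a w + 1)))

lemma mem_DF {G : SimpleGraph (Fin n)} {u v : Fin n} {a : Fin n → ℕ} {q : ℕ}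
    {F : Finset (Fin n)} {x : Fin n → ℕ} : x ∈ DF G u v a q F ↔ InD G u v a q F x := by
  unfold DF
  refine (@Finset.mem_filter _ _ (Classical.decPred _) _ _).trans ?_
  constructor
  · exact fun h => h.2
  · intro h
    refine ⟨?_, h⟩
    rw [Fintype.mem_piFinset]
    intro w
    obtain ⟨X, _, _, _, _, h5⟩ := h
    have := h5 w
    rw [Finset.mem_range]
    omega

open Classical in
/-- the level of a face -/
noncomputable def lam (G : SimpleGraph (Fin n)) (u v : Fin n) (a : Fin n → ℕ) (q : ℕ)
    (F : Finset (Fin n)) : Lex (Fin (n + 2) → ℕ) :=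
  if h : (DF G u v a q F).Nonempty then
    ((DF G u v a q F).image (key u v)).min' (h.image _) else key u v 0

lemma lam_le {G : SimpleGraph (Fin n)} {u v : Fin n} {a : Fin n → ℕ} {q : ℕ}
    {F : Finset (Fin n)} {x : Fin n → ℕ} (h : InD G u v a q F x) :
    lam G u v a q F ≤ key u v x := by
  classical
  have h1 : x ∈ DF G u v a q F := mem_DF.2 h
  unfold lam
  rw [dif_pos ⟨x, h1⟩]
  exact Finset.min'_le _ _ (Finset.mem_image_of_mem _ h1)

lemma exists_lam {G : SimpleGraph (Fin n)} {u v : Fin n} {a : Fin n → ℕ} {q : ℕ}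
    {F : Finset (Fin n)} {x : Fin n → ℕ} (h : InD G u v a q F x) :
    ∃ y, InD G u v a q F y ∧ lam G u v a q F = key u v y := by
  classical
  have h1 : x ∈ DF G u v a q F := mem_DF.2 h
  unfold lam
  rw [dif_pos ⟨x, h1⟩]
  have := Finset.min'_mem ((DF G u v a q F).image (key u v)) ((show (DF G u v a q F).Nonempty from ⟨x, h1⟩).image _)
  rw [Finset.mem_image] at this
  obtain ⟨y, hy, hy2⟩ := this
  exact ⟨y, mem_DF.1 hy, hy2.symm⟩

lemma InD.anti {G : SimpleGraph (Fin n)} {u v : Fin n} {a : Fin n → ℕ} {q : ℕ}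
    {S T : Finset (Fin n)} (hST : S ⊆ T) {x : Fin n → ℕ} (h : InD G u v a q T x) :
    InD G u v a q S x := by
  obtain ⟨X, h1, h2, h3, h4, h5⟩ := h
  refine ⟨X, h1, h2, h3, h4, fun w => ?_⟩
  have := h5 w
  by_cases hw : w ∈ S
  · rw [if_pos (hST hw)] at this; rw [if_pos hw]; exact this
  · rw [if_neg hw]; omega

lemma InD.face {G : SimpleGraph (Fin n)} {u v : Fin n} {a : Fin n → ℕ} {q : ℕ}
    {T : Finset (Fin n)} {x : Fin n → ℕ} (h : InD G u v a q T x) : Face G a q T := by
  obtain ⟨X, h1, h2, h3, h4, h5⟩ := h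
  exact ⟨X, h1, h2, fun w => by rw [h3]; exact h5 w⟩

lemma face_InD (G : SimpleGraph (Fin n)) (u v : Fin n) (huv : G.Adj u v) (a : Fin n → ℕ) (q : ℕ)
    (hq : ∑ w ∈ Finset.univ \ {u, v}, a w < q) (F : Finset (Fin n))
    (hF : ∀ w ∈ F, ¬ Zp G u v w) (h : Face G a q F) : ∃ x, InD G u v a q F x := by
  obtain ⟨X, h1, h2, h3⟩ := h
  obtain ⟨X', h1', h2', h3', h4'⟩ := saturate G u v huv a q hq F hF _ X h1 h2 h3 le_rfl
  exact ⟨dg X', X', h1', h2', fun _ => rfl, h4', h3'⟩

theorem local_acyc (K : Type*) [CommRing K] (G : SimpleGraph (Fin n)) (u v : Fin n)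
    (huv : G.Adj u v) (hR : IndR G u v)
    (a : Fin n → ℕ) (q : ℕ) (hq : ∑ w ∈ Finset.univ \ {u, v}, a w < q) (i : ℕ)
    (hi : i + 2 * q < ∑ w, a w) (A : Finset (Fin n)) (hA : ∀ w, w ∈ A ↔ ¬ Zp G u v w) :
    Acyc K A (Face G a q) i := by
  classical
  have hne : u ≠ v := huv.ne
  have hsub : ∀ T, T ⊆ A → ∀ w ∈ T, ¬ Zp G u v w := fun T hT w hw => (hA w).1 (hT hw)
  have hmono : ∀ S T, S ⊆ T → T ⊆ A → Face G a q T → lam G u v a q S ≤ lam G u v a q T := by
    intro S T hST hTA hT
    obtain ⟨x, hx⟩ := face_InD G u v huv a q hq T (hsub T hTA) hT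
    obtain ⟨y, hy, hy2⟩ := exists_lam hx
    rw [hy2]
    exact lam_le (hy.anti hST)
  have huvX : ∀ X : Multiset (Sym2 (Fin n)), IsG G X → card X = q → (∀ w, dg X w ≤ a w) →
      s(u, v) ∈ X := fun X h1 h2 h3 => mem_uv G u v X h1 a h3 (by omega)
  refine acyc_of_levels A (Face G a q) Face.down (lam G u v a q) hmono i ?_
  intro T0 hT0A hT0 hT0i
  obtain ⟨x0, hx0⟩ := face_InD G u v huv a q hq T0 (hsub T0 hT0A) hT0
  obtain ⟨x, hx, hxl⟩ := exists_lam hx0
  clear hx0
  -- exchanges out of x
  set L : Fin n → Prop := fun j => ∃ i' W, rk u v i' < rk u v j ∧ IsG G W ∧ card W = q ∧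
    (∀ w, dg W w + (if w = i' then 1 else 0) = x w + (if w = j then 1 else 0)) ∧
    ¬ Zp G u v i' with hL
  -- using an exchange
  have hexL : ∀ j T, ¬ Zp G u v j → L j → InD G u v a q T x →
      x j + 1 + (if j ∈ T then 1 else 0) ≤ a j →
      ∃ y, InD G u v a q T y ∧ key u v y < key u v x := by
    rintro j T hjZ ⟨i', W, h1, h2, h3, h4, h5⟩ ⟨X, g1, g2, g3, g4, g5⟩ hj
    have hij : i' ≠ j := by rintro rfl; omega
    refine ⟨dg W, ⟨W, h2, h3, fun _ => rfl, ?_, ?_⟩, key_lt_of i' ?_ ?_⟩
    · intro z hz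
      have hzi : z ≠ i' := fun h => h5 (h ▸ hz)
      have hzj : z ≠ j := fun h => hjZ (h ▸ hz)
      have := h4 z
      rw [if_neg hzi, if_neg hzj] at this
      rw [← g4 z hz]; omega
    · intro w
      have e1 := h4 w
      have e2 := g5 w
      by_cases hwj : w = j
      · subst hwj
        rw [if_neg hij.symm, if_pos rfl] at e1
        omega
      · rw [if_neg hwj] at e1
        omega
    · have e1 := h4 i'
      rw [if_pos rfl, if_neg hij] at e1
      omega
    · intro w hw
      have hwi : w ≠ i' := by rintro rfl; omega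
      have hwj : w ≠ j := by rintro rfl; omega
      have e1 := h4 w
      rw [if_neg hwi, if_neg hwj] at e1
      omega
  -- the toggle vertex
  have hp : ∃ p, ¬ Zp G u v p ∧ ¬ L p ∧ x p < a p := by
    by_contra hcon
    push Not at hcon
    obtain ⟨X, g1, g2, g3, g4, g5⟩ := hx
    have hall : ∀ w, x w + (if w ∈ T0 then 1 else 0) = a w := by
      intro w
      by_cases hz : Zp G u v w
      · have hwT : w ∉ T0 := fun h => hsub T0 hT0A w h hz
        rw [if_neg hwT, g4 w hz, add_zero]
      · have hle := g5 w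
        by_cases hLw : L w
        · by_contra hne'
          obtain ⟨y, hy, hlt⟩ := hexL w T0 hz hLw ⟨X, g1, g2, g3, g4, g5⟩ (by omega)
          have := lam_le hy
          rw [hxl] at this
          exact absurd hlt (not_lt.2 this)
        · have := hcon w hz hLw
          split_ifs at hle ⊢ <;> omega
    have hsum : ∑ w, a w = 2 * q + i := by
      have h1 : ∑ w, a w = ∑ w, (x w + (if w ∈ T0 then 1 else 0)) :=
        Finset.sum_congr rfl fun w _ => (hall w).symm
      rw [h1, Finset.sum_add_distrib]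
      have h2 : ∑ w, x w = 2 * q := by
        rw [← g2, ← sum_dg X g1.nl]
        exact Finset.sum_congr rfl fun w _ => (g3 w).symm
      rw [h2, ← hT0i]
      simp
    omega
  obtain ⟨p, hpZ, hpL, hpa⟩ := hp
  refine ⟨p, (hA p).2 hpZ, ?_⟩
  intro T hTA hT hTl
  have hxT : InD G u v a q T x := by
    obtain ⟨x1, hx1⟩ := face_InD G u v huv a q hq T (hsub T hTA) hT
    obtain ⟨x', hx', hxl'⟩ := exists_lam hx1
    rw [hTl, hxl] at hxl'
    have := key_inj hxl'
    subst this
    exact hx'
  have hTlx : lam G u v a q T = key u v x := by rw [hTl, hxl]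
  have hinsA : insert p T ⊆ A := Finset.insert_subset ((hA p).2 hpZ) hTA
  have hins : InD G u v a q (insert p T) x := by
    obtain ⟨X, g1, g2, g3, g4, g5⟩ := hxT
    refine ⟨X, g1, g2, g3, g4, fun w => ?_⟩
    have := g5 w
    by_cases hwp : w = p
    · subst hwp
      rw [if_pos (Finset.mem_insert_self _ _)]
      omega
    · by_cases hwT : w ∈ T
      · rw [if_pos (Finset.mem_insert_of_mem hwT)]
        rw [if_pos hwT] at this
        exact this
      · rw [if_neg (by simp [hwp, hwT])]
        omega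
  refine ⟨hins.face, ?_, ?_⟩
  · rw [hxl]
    apply le_antisymm (lam_le hins)
    rw [← hTlx]
    exact hmono _ _ (Finset.subset_insert p T) hinsA hins.face
  · rw [hxl]
    apply le_antisymm
    · rw [← hTlx]
      exact hmono _ _ (Finset.erase_subset p T) hTA hT
    · -- suppose smaller
      obtain ⟨y, hy, hyl⟩ := exists_lam (hxT.anti (Finset.erase_subset p T))
      rw [hyl]
      by_contra hcon
      rw [not_le] at hcon
      obtain ⟨i1, hi1, hi2⟩ := lt_key hne hcon
      obtain ⟨X, g1, g2, g3, g4, g5⟩ := hxT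
      obtain ⟨Y, k1, k2, k3, k4, k5⟩ := hy
      have hXa : ∀ w, dg X w ≤ a w := fun w => by have := g5 w; rw [g3]; omega
      have hYa : ∀ w, dg Y w ≤ a w := fun w => by have := k5 w; rw [k3]; omega
      obtain ⟨i', j, W, h1, h2, h3, h4, h5, h6⟩ := exchange G u v huv hR X Y g1 k1 (by rw [g2, k2])
        (huvX X g1 g2 hXa) (huvX Y k1 k2 hYa) (fun z hz => by rw [g3, k3, g4 z hz, k4 z hz]) i1
        (by rw [g3, k3]; exact hi1) (fun w hw => by rw [g3, k3]; exact hi2 w hw)
      have hjZ : ¬ Zp G u v j := fun h => by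
        rw [g3, k3, g4 j h, k4 j h] at h5
        exact lt_irrefl _ h5
      have hLj : L j := ⟨i', W, h1, h2, by rw [h3, g2], fun w => by rw [h4 w, g3], h6⟩
      have hjp : j ≠ p := fun h => hpL (h ▸ hLj)
      obtain ⟨y', hy', hlt⟩ := hexL j T hjZ hLj ⟨X, g1, g2, g3, g4, g5⟩ (by
        have e1 := k5 j
        rw [g3, k3] at h5
        by_cases hjT : j ∈ T
        · rw [if_pos (Finset.mem_erase.2 ⟨hjp, hjT⟩)] at e1
          rw [if_pos hjT]
          omega
        · rw [if_neg hjT]
          omega)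
      have := lam_le hy'
      rw [hTlx] at this
      exact absurd hlt (not_lt.2 this)

lemma Acyc.congr {K : Type*} [CommRing K] {A : Finset (Fin n)} {F F' : Finset (Fin n) → Prop}
    {i : ℕ} (h : Acyc K A F i) (hFF : ∀ T, T ⊆ A → (F T ↔ F' T)) : Acyc K A F' i := by
  intro c hc hcyc
  obtain ⟨b, hb, hb2⟩ := h c (fun T hT => by
    obtain ⟨h1, h2, h3⟩ := hc T hT
    exact ⟨h1, (hFF T h1).2 h2, h3⟩) hcyc
  exact ⟨b, fun T hT => by
    obtain ⟨h1, h2, h3⟩ := hb T hT
    exact ⟨h1, (hFF T h1).1 h2, h3⟩, hb2⟩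

lemma acyc_empty {K : Type*} [CommRing K] {A : Finset (Fin n)} {F : Finset (Fin n) → Prop}
    {i : ℕ} (h : ∀ T, T ⊆ A → ¬ F T) : Acyc K A F i := by
  intro c hc _
  refine ⟨fun _ => 0, by simp, fun T => ?_⟩
  have : c T = 0 := by
    by_contra hne
    obtain ⟨h1, h2, _⟩ := hc T hne
    exact h T h1 h2
  rw [this]; simp [bd]

theorem acyc_big (K : Type*) [CommRing K] (G : SimpleGraph (Fin n)) (A : Finset (Fin n)) (q : ℕ)
    (P : (Fin n → ℕ) → Prop) (hP : ∀ a b : Fin n → ℕ, (∀ w, b w ≤ a w) → P a → P b)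
    (β : ℕ)
    (h : ∀ (a : Fin n → ℕ), P a → ∀ i, i + β < ∑ w, a w → Acyc K A (Face G a q) i)
    (B : Finset (Fin n)) : ∀ (a : Fin n → ℕ), P a → ∀ i, i + β < ∑ w, a w →
      Acyc K (A ∪ B) (Face G a q) i := by
  classical
  induction B using Finset.induction_on with
  | empty => simpa using h
  | insert z B _ ih =>
    intro a hPa i hi
    by_cases hz : z ∈ A ∪ B
    · rw [Finset.union_insert, Finset.insert_eq_of_mem hz]
      exact ih a hPa i hi
    · rw [Finset.union_insert]
      refine acyc_insert (A ∪ B) z hz (Face G a q) Face.down i (ih a hPa i hi) ?_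
      rintro j rfl
      by_cases haz : a z = 0
      · apply acyc_empty
        rintro T _ ⟨X, _, _, h3⟩
        have := h3 z
        rw [if_pos (Finset.mem_insert_self _ _), haz] at this
        omega
      · have hsum : ∑ w, (if w = z then a w - 1 else a w) + 1 = ∑ w, a w := by
          rw [← Finset.add_sum_erase _ _ (Finset.mem_univ z),
            ← Finset.add_sum_erase Finset.univ a (Finset.mem_univ z)]
          have : ∑ w ∈ Finset.univ.erase z, (if w = z then a w - 1 else a w) =
              ∑ w ∈ Finset.univ.erase z, a w :=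
            Finset.sum_congr rfl fun w hw => by rw [if_neg (Finset.ne_of_mem_erase hw)]
          rw [this, if_pos rfl]
          omega
        refine (ih (fun w => if w = z then a w - 1 else a w)
          (hP a _ (fun w => by split_ifs <;> omega) hPa) j (by omega)).congr ?_
        intro T hT
        have hzT : z ∉ T := fun h => hz (hT h)
        constructor
        · rintro ⟨X, h1, h2, h3⟩
          refine ⟨X, h1, h2, fun w => ?_⟩
          have : dg X w + (if w ∈ T then 1 else 0) ≤ (if w = z then a w - 1 else a w) := h3 w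
          by_cases hwz : w = z
          · subst hwz
            rw [if_neg hzT, if_pos rfl] at this
            rw [if_pos (Finset.mem_insert_self _ _)]
            omega
          · rw [if_neg hwz] at this
            have hiff : (w ∈ insert z T) ↔ w ∈ T := by simp [hwz]
            simp only [hiff]
            exact this
        · rintro ⟨X, h1, h2, h3⟩
          refine ⟨X, h1, h2, fun w => ?_⟩
          have := h3 w
          change dg X w + (if w ∈ T then 1 else 0) ≤ (if w = z then a w - 1 else a w)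
          by_cases hwz : w = z
          · subst hwz
            rw [if_pos (Finset.mem_insert_self _ _)] at this
            rw [if_neg hzT, if_pos rfl]
            omega
          · rw [if_neg hwz]
            have hiff : (w ∈ insert z T) ↔ w ∈ T := by simp [hwz]
            simp only [hiff] at this
            exact this

theorem local_univ (K : Type*) [CommRing K] (G : SimpleGraph (Fin n)) (u v : Fin n)
    (huv : G.Adj u v) (hR : IndR G u v)
    (a : Fin n → ℕ) (q : ℕ) (hq : ∑ w ∈ Finset.univ \ {u, v}, a w < q) (i : ℕ)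
    (hi : i + 2 * q < ∑ w, a w) :
    Acyc K Finset.univ (Face G a q) i := by
  classical
  have := acyc_big K G (Finset.univ.filter fun w => ¬ Zp G u v w) q
    (fun a => ∑ w ∈ Finset.univ \ {u, v}, a w < q)
    (fun a b hab ha => lt_of_le_of_lt (Finset.sum_le_sum fun w _ => hab w) ha) (2 * q)
    (fun a ha i hi => local_acyc K G u v huv hR a q ha i hi _ (by simp)) Finset.univ a hq i hi
  rwa [Finset.union_eq_right.2 (Finset.subset_univ _)] at this

end Pool.Agent.H803R3
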