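import Mathlib
import Pool.Agent.H803R3.Local2

/-!
Asymptotic linearity by a Dickson argument.
-/

set_option autoImplicit false
set_option linter.unusedSectionVars false

namespace Pool.Agent.H803R3

open Multiset

variable {n : ℕ}

lemma Face.mono_a {G : SimpleGraph (Fin n)} {a a' : Fin n → ℕ} {q : ℕ} {T : Finset (Fin n)}
    (h : Face G a q T) (ha : ∀ w, a w ≤ a' w) : Face G a' q T := by
  obtain ⟨X, h1, h2, h3⟩ := h
  exact ⟨X, h1, h2, fun w => (h3 w).trans (ha w)⟩

lemma Face.add {G : SimpleGraph (Fin n)} {a : Fin n → ℕ} {q : ℕ} {T : Finset (Fin n)}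
    (h : Face G a q T) {D : Multiset (Sym2 (Fin n))} (hD : IsG G D) :
    Face G (fun w => a w + dg D w) (q + card D) T := by
  obtain ⟨X, h1, h2, h3⟩ := h
  refine ⟨X + D, ?_, by rw [Multiset.card_add, h2], fun w => ?_⟩
  · intro e he
    rcases Multiset.mem_add.1 he with h | h
    · exact h1 e h
    · exact hD e h
  · have := h3 w
    rw [dg_add]
    change _ ≤ a w + dg D w
    omega

theorem asym (K : Type*) [CommRing K] (G : SimpleGraph (Fin n))
    (hR : ∀ u v, G.Adj u v → IndR G u v) :
    ∃ Q : ℕ, ∀ q, Q ≤ q → ∀ (a : Fin n → ℕ) (i : ℕ), i + 2 * q < ∑ w, a w →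
      Acyc K Finset.univ (Face G a q) i := by
  classical
  by_contra hcon
  push Not at hcon
  choose q hq a i hi hA using hcon
  have hX : ∀ k, ∃ X, IsG G X ∧ card X = q k ∧ ∀ w, dg X w ≤ a k w := by
    intro k
    by_contra hno
    apply hA k
    apply acyc_empty
    rintro T _ ⟨X, h1, h2, h3⟩
    exact hno ⟨X, h1, h2, fun w => by have := h3 w; omega⟩
  choose X hX1 hX2 hX3 using hX
  set z : ℕ → ((Sym2 (Fin n) ⊕ Fin n ⊕ Finset (Fin n)) → ℕ) := fun k s =>
    match s with
    | Sum.inl e => (X k).count e
    | Sum.inr (Sum.inl w) => a k w - dg (X k) w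
    | Sum.inr (Sum.inr F) => if Face G (a k) (q k) F then 0 else 1 with hz
  obtain ⟨g, hg⟩ := (wellQuasiOrdered_le (α := (Sym2 (Fin n) ⊕ Fin n ⊕ Finset (Fin n)) → ℕ)).exists_monotone_subseq z
  set k0 := g 0 with hk0
  set N := Fintype.card (Sym2 (Fin n)) * (∑ w, a k0 w + 1) + q k0 + 1 with hN
  set k := g N with hk
  have hgN : N ≤ k := (g.strictMono).id_le N
  have hzz : z k0 ≤ z k := hg 0 N (Nat.zero_le _)
  have hqk : N ≤ q k := hgN.trans (hq k)
  -- the difference
  have hle : X k0 ≤ X k := by
    rw [Multiset.le_iff_count]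
    intro e
    exact hzz (Sum.inl e)
  obtain ⟨D, hD⟩ := Multiset.le_iff_exists_add.1 hle
  have hDG : IsG G D := fun e he => hX1 k e (by rw [hD]; exact Multiset.mem_add.2 (Or.inr he))
  have hcD : q k = q k0 + card D := by
    rw [← hX2 k, ← hX2 k0, hD, Multiset.card_add]
  have hrho : ∀ w, a k0 w - dg (X k0) w ≤ a k w - dg (X k) w := fun w => hzz (Sum.inr (Sum.inl w))
  have hface : ∀ T, Face G (a k) (q k) T → Face G (a k0) (q k0) T := by
    intro T hT
    have h1 := hzz (Sum.inr (Sum.inr T))
    simp only [hz] at h1
    rw [if_pos hT] at h1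
    by_contra hno
    rw [if_neg hno] at h1
    omega
  have hdk : ∀ w, dg (X k) w = dg (X k0) w + dg D w := fun w => by rw [hD, dg_add]
  by_cases hρ : ∃ w, a k0 w - dg (X k0) w < a k w - dg (X k) w
  · obtain ⟨p, hp⟩ := hρ
    apply hA k
    refine acyc_of_levels Finset.univ (Face G (a k) (q k)) Face.down (fun _ => (0 : ℕ))
      (fun _ _ _ _ _ => le_rfl) (i k) ?_
    intro T0 _ _ _
    refine ⟨p, Finset.mem_univ p, ?_⟩
    intro T _ hT _
    refine ⟨?_, rfl, rfl⟩
    obtain ⟨X', h1, h2, h3⟩ := hface T hT
    refine ⟨X' + D, ?_, by rw [Multiset.card_add, h2, hcD], fun w => ?_⟩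
    · intro e he
      rcases Multiset.mem_add.1 he with h | h
      · exact h1 e h
      · exact hDG e h
    · rw [dg_add]
      have e1 := h3 w
      have e2 := hX3 k0 w
      have e3 := hX3 k w
      have e4 := hrho w
      have e5 := hdk w
      by_cases hwp : w = p
      · subst hwp
        rw [if_pos (Finset.mem_insert_self _ _)]
        omega
      · have hiff : (w ∈ insert p T) ↔ w ∈ T := by simp [hwp]
        simp only [hiff]
        omega
  · push Not at hρ
    have hak : ∀ w, a k w = a k0 w + dg D w := by
      intro w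
      have e2 := hX3 k0 w
      have e3 := hX3 k w
      have e4 := hrho w
      have e5 := hdk w
      have e6 := hρ w
      omega
    have hex : ∃ e, ∑ w, a k0 w + 1 ≤ D.count e := by
      by_contra hno
      push Not at hno
      have h1 : card D = ∑ e ∈ D.toFinset, D.count e := (Multiset.toFinset_sum_count_eq D).symm
      have h2 : ∑ e ∈ D.toFinset, D.count e ≤ ∑ e ∈ D.toFinset, (∑ w, a k0 w + 1) :=
        Finset.sum_le_sum fun e _ => (hno e).le
      rw [Finset.sum_const, smul_eq_mul] at h2
      have h3 : D.toFinset.card ≤ Fintype.card (Sym2 (Fin n)) := Finset.card_le_univ _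
      have h4 := Nat.mul_le_mul_right (∑ w, a k0 w + 1) h3
      omega
    obtain ⟨e, he⟩ := hex
    set m := ∑ w, a k0 w + 1 with hm
    obtain ⟨D', hD'⟩ := Multiset.le_iff_exists_add.1 (Multiset.le_count_iff_replicate_le.1 he)
    have heD : e ∈ D := Multiset.count_pos.1 (by omega)
    have heG : e ∈ G.edgeSet := hDG e heD
    induction e using Sym2.ind with
    | h u v =>
      have huv : G.Adj u v := heG
      have hRG : IsG G (Multiset.replicate m s(u, v)) := by
        intro e he
        rw [Multiset.eq_of_mem_replicate he]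
        exact heG
      have hD'G : IsG G D' := fun e he => hDG e (by rw [hD']; exact Multiset.mem_add.2 (Or.inr he))
      have hlocal := local_univ K G u v huv (hR u v huv)
        (fun w => a k0 w + dg (Multiset.replicate m s(u, v)) w) (q k0 + m) (by
          have : ∑ w ∈ Finset.univ \ {u, v},
              (a k0 w + dg (Multiset.replicate m s(u, v)) w) ≤ ∑ w, a k0 w := by
            calc _ = ∑ w ∈ Finset.univ \ {u, v}, a k0 w := by
                  refine Finset.sum_congr rfl fun w hw => ?_
                  rw [Finset.mem_sdiff] at hw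
                  have : dg (Multiset.replicate m s(u, v)) w = 0 := by
                    rw [dg, Multiset.countP_eq_zero]
                    intro e he
                    rw [Multiset.eq_of_mem_replicate he]
                    intro h
                    apply hw.2
                    simpa using h
                  rw [this, add_zero]
              _ ≤ _ := Finset.sum_le_sum_of_subset (Finset.subset_univ _)
          omega) (i k) (by
          have h1 : ∑ w, (a k0 w + dg (Multiset.replicate m s(u, v)) w) =
              ∑ w, a k0 w + 2 * m := by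
            rw [Finset.sum_add_distrib, sum_dg _ hRG.nl, Multiset.card_replicate]
          have h2 : ∑ w, a k w = ∑ w, a k0 w + 2 * card D := by
            rw [← sum_dg D hDG.nl, ← Finset.sum_add_distrib]
            exact Finset.sum_congr rfl fun w _ => hak w
          have h3 := hi k
          omega)
      apply hA k
      intro c hc hcyc
      obtain ⟨b, hb1, hb2⟩ := hlocal c (fun T hT => by
        obtain ⟨h1, h2, h3⟩ := hc T hT
        refine ⟨h1, ?_, h3⟩
        have := (hface T h2).add hRG
        rwa [Multiset.card_replicate] at this) hcyc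
      refine ⟨b, fun T hT => ?_, hb2⟩
      obtain ⟨h1, h2, h3⟩ := hb1 T hT
      refine ⟨h1, ?_, h3⟩
      have h4 := h2.add hD'G
      have h5 : q k0 + m + card D' = q k := by
        rw [hcD, hD', Multiset.card_add, Multiset.card_replicate]; ring
      rw [h5] at h4
      refine h4.mono_a fun w => ?_
      rw [hak w, hD', dg_add]
      omega

end Pool.Agent.H803R3
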