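import Mathlib
import Pool.Agent.H803R3.Chain

/-!
Cochain complexes on locally closed families of finite sets.
-/

set_option autoImplicit false
set_option linter.unusedSectionVars false

namespace Pool.Agent.H803R3

open Finset

variable {V : Type*} [Fintype V] [LinearOrder V] {K : Type*} [CommRing K]

/-- coboundary -/
def cb (c : Finset V → K) (G : Finset V) : K := ∑ x ∈ G, sg K G x * c (G.erase x)

lemma sg_erase (G : Finset V) (x : V) : sg K (G.erase x) x = sg K G x := by
  unfold sg
  congr 2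
  ext y
  simp only [Finset.mem_filter, Finset.mem_erase]
  constructor
  · rintro ⟨⟨_, h⟩, h2⟩; exact ⟨h, h2⟩
  · rintro ⟨h, h2⟩; exact ⟨⟨h2.ne, h⟩, h2⟩

lemma sg_erase' (G : Finset V) {x y : V} (hx : x ∈ G) :
    sg K (G.erase x) y = (if x < y then -1 else 1) * sg K G y := by
  have h := sg_insert (K := K) (G.erase x) (b := y) (c := x) (Finset.notMem_erase x G)
  rw [Finset.insert_erase hx] at h
  rw [h]
  split_ifs <;> ring

lemma cb_cb (c : Finset V → K) (G : Finset V) : cb (cb c) G = 0 := by
  unfold cb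
  simp only [Finset.mul_sum]
  rw [Finset.sum_sigma']
  refine Finset.sum_involution (fun x _ => ⟨x.2, x.1⟩) ?_ ?_ ?_ ?_
  · rintro ⟨x, y⟩ h
    simp only [Finset.mem_sigma, Finset.mem_erase] at h
    obtain ⟨hx, hyx, hy⟩ := h
    change sg K G x * (sg K (G.erase x) y * c ((G.erase x).erase y)) +
      sg K G y * (sg K (G.erase y) x * c ((G.erase y).erase x)) = 0
    rw [Finset.erase_right_comm (s := G) (a := x) (b := y), sg_erase' G hx, sg_erase' G hy]
    rcases lt_or_gt_of_ne hyx with h | h
    · rw [if_neg (not_lt.mpr h.le), if_pos h]; ring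
    · rw [if_pos h, if_neg (not_lt.mpr h.le)]; ring
  · rintro ⟨x, y⟩ h _ h'
    simp only [Finset.mem_sigma, Finset.mem_erase] at h
    simp only [Sigma.mk.injEq, heq_eq_eq] at h'
    exact h.2.1 h'.1
  · rintro ⟨x, y⟩ h
    simp only [Finset.mem_sigma, Finset.mem_erase] at h ⊢
    exact ⟨h.2.2, Ne.symm h.2.1, h.1⟩
  · rintro ⟨x, y⟩ h
    rfl

lemma cb_sub (c d : Finset V → K) (G : Finset V) :
    cb (fun F => c F - d F) G = cb c G - cb d G := by
  simp [cb, mul_sub, Finset.sum_sub_distrib]

lemma cb_add (c d : Finset V → K) (G : Finset V) :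
    cb (fun F => c F + d F) G = cb c G + cb d G := by
  simp [cb, mul_add, Finset.sum_add_distrib]

lemma cb_ne {c : Finset V → K} {G : Finset V} (h : cb c G ≠ 0) :
    ∃ x ∈ G, c (G.erase x) ≠ 0 := by
  unfold cb at h
  obtain ⟨x, hx, hne⟩ := Finset.exists_ne_zero_of_sum_ne_zero h
  exact ⟨x, hx, fun h0 => hne (by rw [h0, mul_zero])⟩

lemma cb_congr {c d : Finset V → K} {G : Finset V}
    (h : ∀ x ∈ G, c (G.erase x) = d (G.erase x)) : cb c G = cb d G :=
  Finset.sum_congr rfl fun x hx => by rw [h x hx]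

/-- locally closed families -/
def Conv (Q : Finset V → Prop) : Prop := ∀ A B C, A ⊆ B → B ⊆ C → Q A → Q C → Q B

/-- every cocycle of size `i` on `Q` is a coboundary -/
def Ex (K : Type*) [CommRing K] (Q : Finset V → Prop) (i : ℕ) : Prop :=
  ∀ c : Finset V → K, (∀ F, c F ≠ 0 → Q F ∧ F.card = i) → (∀ G, Q G → cb c G = 0) →
    ∃ e : Finset V → K, (∀ F, e F ≠ 0 → Q F ∧ F.card + 1 = i) ∧ ∀ G, Q G → cb e G = c G

lemma Ex.congr {Q R : Finset V → Prop} (h : ∀ F, Q F ↔ R F) {i : ℕ} (hQ : Ex K Q i) :
    Ex K R i := by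
  have : Q = R := funext fun F => propext (h F)
  rwa [← this]

lemma Ex.of_empty {Q : Finset V → Prop} {i : ℕ} (h : ∀ F, Q F → F.card ≠ i) : Ex K Q i := by
  intro c hc _
  have hc0 : ∀ F, c F = 0 := by
    intro F
    by_contra h0
    exact h F (hc F h0).1 (hc F h0).2
  refine ⟨fun _ => 0, fun F hF => absurd rfl hF, fun G _ => ?_⟩
  rw [hc0 G]
  simp [cb]

open Classical in
/-- restriction of a cochain -/
noncomputable def rs (Q : Finset V → Prop) (c : Finset V → K) : Finset V → K :=
  fun F => if Q F then c F else 0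

lemma rs_pos {Q : Finset V → Prop} {c : Finset V → K} {F : Finset V} (h : Q F) :
    rs Q c F = c F := by unfold rs; rw [if_pos h]

lemma rs_neg {Q : Finset V → Prop} {c : Finset V → K} {F : Finset V} (h : ¬ Q F) :
    rs Q c F = 0 := by unfold rs; rw [if_neg h]

lemma rs_ne {Q : Finset V → Prop} {c : Finset V → K} {F : Finset V} (h : rs Q c F ≠ 0) :
    Q F ∧ c F ≠ 0 := by
  by_cases hQ : Q F
  · rw [rs_pos hQ] at h; exact ⟨hQ, h⟩
  · rw [rs_neg hQ] at h; exact absurd rfl h

lemma cb_rs_cb {Q : Finset V → Prop} (hQ : Conv Q) {e : Finset V → K}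
    (he : ∀ F, e F ≠ 0 → Q F) {G : Finset V} (hG : Q G) : cb (rs Q (cb e)) G = 0 := by
  rw [← cb_cb e G]
  refine cb_congr fun x hx => ?_
  by_cases h : Q (G.erase x)
  · rw [rs_pos h]
  · rw [rs_neg h]
    symm
    by_contra h0
    obtain ⟨y, hy, hne⟩ := cb_ne h0
    exact h (hQ _ _ _ (Finset.erase_subset _ _) (Finset.erase_subset _ _) (he _ hne) hG)

lemma cb_card {e : Finset V → K} {i : ℕ} (he : ∀ F, e F ≠ 0 → F.card + 1 = i) {G : Finset V}
    (h : cb e G ≠ 0) : G.card = i := by
  obtain ⟨x, hx, hne⟩ := cb_ne h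
  have := he _ hne
  rw [Finset.card_erase_add_one hx] at this
  exact this

/-- filtration by levels -/
theorem filt {α : Type*} [PartialOrder α] (Q : Finset V → Prop) (hQ : Conv Q)
    (lev : Finset V → α) (hmono : ∀ A B, A ⊆ B → Q A → Q B → lev A ≤ lev B) (i : ℕ)
    (h : ∀ l, Ex K (fun F => Q F ∧ lev F = l) i) : Ex K Q i := by
  classical
  have key : ∀ n : ℕ, ∀ L : Finset α, L.card = n → (∀ a ∈ L, ∀ B, a ≤ lev B → lev B ∈ L) →
      ∀ c : Finset V → K, (∀ F, c F ≠ 0 → Q F ∧ F.card = i ∧ lev F ∈ L) →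
      (∀ G, Q G → cb c G = 0) →
      ∃ e : Finset V → K, (∀ F, e F ≠ 0 → Q F ∧ F.card + 1 = i) ∧ ∀ G, Q G → cb e G = c G := by
    intro n
    induction n with
    | zero =>
      intro L hL _ c hc _
      have hc0 : ∀ F, c F = 0 := by
        intro F
        by_contra h0
        have := (hc F h0).2.2
        rw [Finset.card_eq_zero.1 hL] at this
        exact absurd this (Finset.notMem_empty _)
      refine ⟨fun _ => 0, fun F hF => absurd rfl hF, fun G _ => ?_⟩
      rw [hc0 G]
      simp [cb]
    | succ n ih =>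
      intro L hL hup c hc hcyc
      have hne : L.Nonempty := by
        rw [← Finset.card_pos]; omega
      obtain ⟨l, hl⟩ := L.exists_minimal hne
      have hlL := hl.1
      have hmin : ∀ a ∈ L, a ≤ l → a = l := fun a ha hal => le_antisymm hal (hl.2 ha hal)
      obtain ⟨e0, he0, he0'⟩ := h l (rs (fun F => lev F = l) c) (by
        intro F hF
        obtain ⟨h1, h2⟩ := rs_ne hF
        exact ⟨⟨(hc F h2).1, h1⟩, (hc F h2).2.1⟩) (by
        rintro G ⟨hG, hGl⟩
        rw [← hcyc G hG]
        refine cb_congr fun x hx => ?_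
        by_cases h0 : c (G.erase x) = 0
        · unfold rs; split_ifs <;> simp [h0]
        · rw [rs_pos]
          have h1 := hc _ h0
          refine hmin _ h1.2.2 ?_
          rw [← hGl]
          exact hmono _ _ (Finset.erase_subset _ _) h1.1 hG)
      obtain ⟨e1, he1, he1'⟩ := ih (L.erase l) (by rw [Finset.card_erase_of_mem hlL, hL]; rfl) (by
        intro a ha B hab
        rw [Finset.mem_erase] at ha ⊢
        refine ⟨?_, hup a ha.2 B hab⟩
        intro hB
        rw [hB] at hab
        exact ha.1 (hmin a ha.2 hab)) (fun F => c F - rs Q (cb e0) F) (by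
        intro F hF
        have hor : c F ≠ 0 ∨ rs Q (cb e0) F ≠ 0 := by
          by_contra hcon
          push Not at hcon
          apply hF
          simp only [hcon.1, hcon.2, sub_self]
        have hQF : Q F := by
          rcases hor with h1 | h1
          · exact (hc F h1).1
          · exact (rs_ne h1).1
        refine ⟨hQF, ?_, ?_⟩
        · rcases hor with h1 | h1
          · exact (hc F h1).2.1
          · exact cb_card (fun F hF => (he0 F hF).2) (rs_ne h1).2
        · rw [Finset.mem_erase]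
          constructor
          · intro hlF
            apply hF
            change c F - rs Q (cb e0) F = 0
            rw [rs_pos hQF, he0' F ⟨hQF, hlF⟩, rs_pos (Q := fun F => lev F = l) hlF, sub_self]
          · rcases hor with h1 | h1
            · exact (hc F h1).2.2
            · obtain ⟨x, hx, hne⟩ := cb_ne (rs_ne h1).2
              have h2 := (he0 _ hne).1
              refine hup l hlL _ ?_
              rw [← h2.2]
              exact hmono _ _ (Finset.erase_subset _ _) h2.1 hQF) (by
        intro G hG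
        rw [cb_sub, hcyc G hG, cb_rs_cb hQ (fun F hF => (he0 F hF).1.1) hG, sub_zero])
      refine ⟨fun F => e0 F + e1 F, ?_, ?_⟩
      · intro F hF
        by_cases h0 : e0 F = 0
        · have : e1 F ≠ 0 := by
            intro h1
            apply hF
            change e0 F + e1 F = 0
            rw [h0, h1, add_zero]
          exact he1 F this
        · exact ⟨(he0 F h0).1.1, (he0 F h0).2⟩
      · intro G hG
        rw [cb_add, he1' G hG]
        change cb e0 G + (c G - rs Q (cb e0) G) = c G
        rw [rs_pos hG]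
        ring
  intro c hc hcyc
  exact key _ (Finset.univ.image lev) rfl
    (fun _ _ B _ => Finset.mem_image_of_mem _ (Finset.mem_univ B)) c
    (fun F hF => ⟨(hc F hF).1, (hc F hF).2, Finset.mem_image_of_mem _ (Finset.mem_univ F)⟩) hcyc

/-- cones -/
theorem toggle (Q : Finset V → Prop) (x : V) (hx : ∀ F, Q F ↔ Q (insert x F)) (i : ℕ) :
    Ex K Q i := by
  classical
  intro c hc hcyc
  refine ⟨fun F => if x ∈ F then 0 else sg K F x * c (insert x F), ?_, ?_⟩
  · intro F hF
    by_cases h : x ∈ F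
    · simp only [h, if_true] at hF
      exact absurd rfl hF
    · simp only [h, if_false] at hF
      have h1 : c (insert x F) ≠ 0 := fun h0 => hF (by rw [h0, mul_zero])
      have h2 := hc _ h1
      rw [Finset.card_insert_of_notMem h] at h2
      exact ⟨(hx F).2 h2.1, h2.2⟩
  · intro G hG
    by_cases h : x ∈ G
    · unfold cb
      rw [Finset.sum_eq_single x]
      · have h1 : x ∉ G.erase x := Finset.notMem_erase x G
        simp only [h1, if_false]
        rw [Finset.insert_erase h, sg_erase, ← mul_assoc, sg_sq, one_mul]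
      · intro y hy hyx
        have h1 : x ∈ G.erase y := Finset.mem_erase.2 ⟨hyx.symm, h⟩
        simp only [h1, if_true, mul_zero]
      · intro h1; exact absurd h h1
    · have h1 := hcyc _ ((hx G).1 hG)
      unfold cb at h1
      rw [Finset.sum_insert h, Finset.erase_insert h] at h1
      have h2 : sg K (insert x G) x = sg K G x := by
        rw [sg_insert G h, if_neg (lt_irrefl x), one_mul]
      rw [h2] at h1
      have h3 : c G = - (sg K G x * ∑ y ∈ G, sg K (insert x G) y * c ((insert x G).erase y)) := by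
        have h4 : sg K G x * (sg K G x * c G + ∑ y ∈ G, sg K (insert x G) y *
            c ((insert x G).erase y)) = 0 := by rw [h1, mul_zero]
        rw [mul_add, ← mul_assoc, sg_sq, one_mul] at h4
        exact eq_neg_of_add_eq_zero_left h4
      rw [h3, Finset.mul_sum, ← Finset.sum_neg_distrib]
      unfold cb
      refine Finset.sum_congr rfl fun y hy => ?_
      have hxy : x ≠ y := fun hxy => h (hxy ▸ hy)
      have h5 : x ∉ G.erase y := fun h6 => h (Finset.mem_of_mem_erase h6)
      simp only [h5, if_false]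
      rw [Finset.erase_insert_of_ne hxy, sg_erase' G hy, sg_insert G h]
      rcases lt_or_gt_of_ne hxy with h6 | h6
      · rw [if_neg (not_lt.mpr h6.le), if_pos h6]; ring
      · rw [if_pos h6, if_neg (not_lt.mpr h6.le)]; ring

/-- long exact sequence: the part closed under supersets -/
theorem Ex.sub {P R : Finset V → Prop} (hP : Conv P)
    (hR : ∀ A B, A ⊆ B → P A → P B → R A → R B) {i : ℕ} (h : Ex K P i)
    (h' : ∀ j, i = j + 1 → Ex K (fun F => P F ∧ ¬ R F) j) : Ex K (fun F => P F ∧ R F) i := by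
  intro c hc hcyc
  obtain ⟨e, he, he'⟩ := h c (fun F hF => ⟨(hc F hF).1.1, (hc F hF).2⟩) (by
    intro G hG
    by_cases hRG : R G
    · exact hcyc G ⟨hG, hRG⟩
    · by_contra h0
      obtain ⟨x, hx, hne⟩ := cb_ne h0
      have h1 := (hc _ hne).1
      exact hRG (hR _ _ (Finset.erase_subset _ _) h1.1 hG h1.2))
  rcases Nat.eq_zero_or_pos i with hi | hi
  · subst hi
    refine ⟨e, fun F hF => ?_, fun G hG => he' G hG.1⟩
    have := (he F hF).2
    omega
  · obtain ⟨j, rfl⟩ : ∃ j, i = j + 1 := ⟨i - 1, by omega⟩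
    have hQ0 : Conv (fun F => P F ∧ ¬ R F) := by
      intro A B C hAB hBC hA hC
      have hB := hP A B C hAB hBC hA.1 hC.1
      exact ⟨hB, fun hRB => hC.2 (hR B C hBC hB hC.1 hRB)⟩
    obtain ⟨f, hf, hf'⟩ := h' j rfl (rs (fun F => ¬ R F) e) (by
      intro F hF
      obtain ⟨h1, h2⟩ := rs_ne hF
      have h3 := he F h2
      exact ⟨⟨h3.1, h1⟩, by omega⟩) (by
      rintro G ⟨hG, hRG⟩
      have h1 : cb (rs (fun F => ¬ R F) e) G = cb e G := by
        refine cb_congr fun x hx => ?_
        by_cases h0 : e (G.erase x) = 0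
        · unfold rs; split_ifs <;> simp [h0]
        · rw [rs_pos]
          intro hRx
          exact hRG (hR _ _ (Finset.erase_subset _ _) (he _ h0).1 hG hRx)
      rw [h1, he' G hG]
      by_contra h0
      exact hRG (hc G h0).1.2)
    refine ⟨fun F => e F - rs P (cb f) F, ?_, ?_⟩
    · intro F hF
      have hor : e F ≠ 0 ∨ rs P (cb f) F ≠ 0 := by
        by_contra hcon
        push Not at hcon
        apply hF
        simp only [hcon.1, hcon.2, sub_self]
      have hPF : P F := by
        rcases hor with h1 | h1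
        · exact (he F h1).1
        · exact (rs_ne h1).1
      refine ⟨⟨hPF, ?_⟩, ?_⟩
      · by_contra hRF
        apply hF
        change e F - rs P (cb f) F = 0
        rw [rs_pos hPF, hf' F ⟨hPF, hRF⟩, rs_pos (Q := fun F => ¬ R F) hRF, sub_self]
      · rcases hor with h1 | h1
        · exact (he F h1).2
        · rw [cb_card (fun F hF => (hf F hF).2) (rs_ne h1).2]
    · intro G hG
      rw [cb_sub, he' G hG.1, cb_rs_cb hP (fun F hF => (hf F hF).1.1) hG.1, sub_zero]

/-- long exact sequence: the part closed under subsets -/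
theorem Ex.quot {P R : Finset V → Prop} (hP : Conv P)
    (hR : ∀ A B, A ⊆ B → P A → P B → R A → R B) {i : ℕ} (h : Ex K P i)
    (h' : Ex K (fun F => P F ∧ R F) (i + 1)) : Ex K (fun F => P F ∧ ¬ R F) i := by
  intro c hc hcyc
  have hP1 : Conv (fun F => P F ∧ R F) := by
    intro A B C hAB hBC hA hC
    have hB := hP A B C hAB hBC hA.1 hC.1
    exact ⟨hB, hR A B hAB hA.1 hB hA.2⟩
  obtain ⟨e, he, he'⟩ := h' (rs (fun F => P F ∧ R F) (cb c)) (by
    intro F hF
    obtain ⟨h1, h2⟩ := rs_ne hF
    obtain ⟨x, hx, hne⟩ := cb_ne h2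
    have h3 := (hc _ hne).2
    rw [← h3, Finset.card_erase_add_one hx]
    exact ⟨h1, rfl⟩) (by
    rintro G ⟨hG, hRG⟩
    rw [← cb_cb c G]
    refine cb_congr fun x hx => ?_
    by_cases h1 : P (G.erase x) ∧ R (G.erase x)
    · rw [rs_pos h1]
    · rw [rs_neg h1]
      symm
      by_contra h0
      obtain ⟨y, hy, hne⟩ := cb_ne h0
      have h2 := (hc _ hne).1
      have h3 : P (G.erase x) :=
        hP _ _ _ (Finset.erase_subset _ _) (Finset.erase_subset _ _) h2.1 hG
      exact h0 (hcyc _ ⟨h3, fun h4 => h1 ⟨h3, h4⟩⟩))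
  obtain ⟨f, hf, hf'⟩ := h (fun F => c F - e F) (by
    intro F hF
    by_cases h0 : c F = 0
    · have h1 : e F ≠ 0 := by
        intro h1
        apply hF
        change c F - e F = 0
        rw [h0, h1, sub_self]
      have := he F h1
      exact ⟨this.1.1, by omega⟩
    · exact ⟨(hc F h0).1.1, (hc F h0).2⟩) (by
    intro G hG
    rw [cb_sub]
    by_cases hRG : R G
    · rw [he' G ⟨hG, hRG⟩, rs_pos (Q := fun F => P F ∧ R F) ⟨hG, hRG⟩, sub_self]
    · rw [hcyc G ⟨hG, hRG⟩, zero_sub, neg_eq_zero]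
      by_contra h0
      obtain ⟨x, hx, hne⟩ := cb_ne h0
      have h1 := (he _ hne).1
      exact hRG (hR _ _ (Finset.erase_subset _ _) h1.1 hG h1.2))
  refine ⟨rs (fun F => ¬ R F) f, ?_, ?_⟩
  · intro F hF
    obtain ⟨h1, h2⟩ := rs_ne hF
    exact ⟨⟨(hf F h2).1, h1⟩, (hf F h2).2⟩
  · rintro G ⟨hG, hRG⟩
    have h1 : cb (rs (fun F => ¬ R F) f) G = cb f G := by
      refine cb_congr fun x hx => ?_
      by_cases h0 : f (G.erase x) = 0
      · unfold rs; split_ifs <;> simp [h0]
      · rw [rs_pos]
        intro hRx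
        exact hRG (hR _ _ (Finset.erase_subset _ _) (hf _ h0).1 hG hRx)
    rw [h1, hf' G hG]
    have h2 : e G = 0 := by
      by_contra h0
      exact hRG (he G h0).1.2
    rw [h2, sub_zero]

lemma Conv.of_down {Q : Finset V → Prop} (h : ∀ A B, A ⊆ B → Q B → Q A) : Conv Q :=
  fun A B C _ hBC _ hC => h B C hBC hC

/-- transfer along an order embedding, joining a fixed set -/
theorem transfer {A : Type*} [Fintype A] [LinearOrder A] (ι : A ↪o V) (G0 : Finset V)
    (Q : Finset A → Prop) (hdis : ∀ F, Q F → Disjoint G0 (F.map ι.toEmbedding)) (i : ℕ)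
    (h : Ex K Q i) :
    Ex K (fun H => ∃ F, H = G0 ∪ F.map ι.toEmbedding ∧ Q F) (G0.card + i) := by
  classical
  set sig : Finset A → K := fun F => ∏ x ∈ F, sg K G0 (ι x) with hsig
  have hsig2 : ∀ F, sig F * sig F = 1 := by
    intro F
    rw [hsig]
    simp only
    rw [← Finset.prod_mul_distrib]
    exact Finset.prod_eq_one fun x _ => sg_sq _ _
  have hsigE : ∀ F x, x ∈ F → sig (F.erase x) = sig F * sg K G0 (ι x) := by
    intro F x hx
    rw [hsig]
    simp only
    rw [← Finset.mul_prod_erase F _ hx, mul_comm (sg K G0 (ι x)), mul_assoc, sg_sq, mul_one]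
  have hsgU : ∀ F x, Disjoint G0 (F.map ι.toEmbedding) →
      sg K (G0 ∪ F.map ι.toEmbedding) (ι x) = sg K G0 (ι x) * sg K F x := by
    intro F x hd
    unfold sg
    rw [← pow_add]
    congr 1
    rw [Finset.filter_union, Finset.card_union_of_disjoint
      (Finset.disjoint_filter_filter hd), Finset.filter_map, Finset.card_map]
    congr 2
    ext y
    simp
  have hmapE : ∀ (F : Finset A) (x : A), (F.map ι.toEmbedding).erase (ι x) = (F.erase x).map ι.toEmbedding := by
    intro F x
    ext y
    simp only [Finset.mem_erase, Finset.mem_map]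
    constructor
    · rintro ⟨h1, z, hz, rfl⟩
      exact ⟨z, ⟨fun h2 => h1 (by rw [h2]; rfl), hz⟩, rfl⟩
    · rintro ⟨z, ⟨h1, hz⟩, rfl⟩
      refine ⟨fun h2 => h1 (ι.injective h2), z, hz, rfl⟩
  have herase : ∀ (F : Finset A) (x : A), x ∈ F → Disjoint G0 (F.map ι.toEmbedding) →
      (G0 ∪ F.map ι.toEmbedding).erase (ι x) = G0 ∪ (F.erase x).map ι.toEmbedding := by
    intro F x hx hd
    have h1 : ι x ∉ G0 := by
      intro h2
      exact (Finset.disjoint_left.1 hd) h2 (Finset.mem_map_of_mem _ hx)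
    rw [Finset.erase_union_distrib, Finset.erase_eq_of_notMem h1, hmapE]
  have hinj : ∀ F F' : Finset A, Disjoint G0 (F.map ι.toEmbedding) →
      Disjoint G0 (F'.map ι.toEmbedding) →
      G0 ∪ F.map ι.toEmbedding = G0 ∪ F'.map ι.toEmbedding → F = F' := by
    intro F F' h1 h2 h3
    have h4 : F.map ι.toEmbedding = F'.map ι.toEmbedding := by
      have e1 : (G0 ∪ F.map ι.toEmbedding) \ G0 = F.map ι.toEmbedding :=
        Finset.union_sdiff_cancel_left h1
      have e2 : (G0 ∪ F'.map ι.toEmbedding) \ G0 = F'.map ι.toEmbedding :=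
        Finset.union_sdiff_cancel_left h2
      rw [← e1, ← e2, h3]
    exact Finset.map_injective _ h4
  -- the coboundary at an image set
  have hcbU : ∀ (c : Finset V → K) (F : Finset A), Disjoint G0 (F.map ι.toEmbedding) →
      (∀ y ∈ G0, c ((G0 ∪ F.map ι.toEmbedding).erase y) = 0) →
      cb c (G0 ∪ F.map ι.toEmbedding) =
        ∑ x ∈ F, sg K G0 (ι x) * sg K F x * c (G0 ∪ (F.erase x).map ι.toEmbedding) := by
    intro c F hd h0
    unfold cb
    rw [Finset.sum_union hd, Finset.sum_eq_zero (fun y hy => by rw [h0 y hy, mul_zero]),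
      zero_add, Finset.sum_map]
    refine Finset.sum_congr rfl fun x hx => ?_
    change sg K (G0 ∪ F.map ι.toEmbedding) (ι x) *
      c ((G0 ∪ F.map ι.toEmbedding).erase (ι x)) = _
    rw [hsgU F x hd, herase F x hx hd]
  intro c hc hcyc
  have hcG : ∀ H, c H ≠ 0 → G0 ⊆ H := by
    intro H hH
    obtain ⟨⟨F, rfl, _⟩, _⟩ := hc H hH
    exact Finset.subset_union_left
  have hdE : ∀ (F : Finset A) (x : A), Disjoint G0 (F.map ι.toEmbedding) →
      Disjoint G0 ((F.erase x).map ι.toEmbedding) := fun F x hd =>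
    Finset.disjoint_of_subset_right (Finset.map_subset_map.2 (Finset.erase_subset _ _)) hd
  obtain ⟨e, he, he'⟩ := h (rs Q (fun F => sig F * c (G0 ∪ F.map ι.toEmbedding))) (by
    intro F hF
    obtain ⟨h1, h2⟩ := rs_ne hF
    refine ⟨h1, ?_⟩
    have h3 : c (G0 ∪ F.map ι.toEmbedding) ≠ 0 := fun h0 => h2 (by rw [h0, mul_zero])
    have h4 := (hc _ h3).2
    rw [Finset.card_union_of_disjoint (hdis F h1), Finset.card_map] at h4
    omega) (by
    intro G hG
    have h1 := hcyc (G0 ∪ G.map ι.toEmbedding) ⟨G, rfl, hG⟩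
    rw [hcbU c G (hdis G hG) (by
      intro y hy
      by_contra h0
      exact (Finset.notMem_erase y _) (hcG _ h0 hy))] at h1
    have h2 : cb (rs Q (fun F => sig F * c (G0 ∪ F.map ι.toEmbedding))) G =
        sig G * ∑ x ∈ G, sg K G0 (ι x) * sg K G x * c (G0 ∪ (G.erase x).map ι.toEmbedding) := by
      unfold cb
      rw [Finset.mul_sum]
      refine Finset.sum_congr rfl fun x hx => ?_
      by_cases h3 : Q (G.erase x)
      · rw [rs_pos h3, hsigE G x hx]; ring
      · rw [rs_neg h3]
        have h4 : c (G0 ∪ (G.erase x).map ι.toEmbedding) = 0 := by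
          by_contra h0
          obtain ⟨⟨F', hF', hQF'⟩, _⟩ := hc _ h0
          have := hinj _ _ (hdE G x (hdis G hG)) (hdis F' hQF') hF'
          exact h3 (this ▸ hQF')
        rw [h4]; ring
    rw [h2, h1, mul_zero])
  set pre : Finset V → Finset A := fun H =>
    Finset.univ.filter (fun x => ι x ∈ H ∧ ι x ∉ G0) with hpre
  have hpre1 : ∀ F : Finset A, Disjoint G0 (F.map ι.toEmbedding) → pre (G0 ∪ F.map ι.toEmbedding) = F := by
    intro F hd
    ext x
    rw [hpre]
    simp only [Finset.mem_filter, Finset.mem_univ, true_and, Finset.mem_union, Finset.mem_map]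
    constructor
    · rintro ⟨h1 | ⟨z, hz, h1⟩, h2⟩
      · exact absurd h1 h2
      · exact (ι.injective h1) ▸ hz
    · intro hx
      exact ⟨Or.inr ⟨x, hx, rfl⟩, fun h2 =>
        (Finset.disjoint_left.1 hd) h2 (Finset.mem_map_of_mem _ hx)⟩
  refine ⟨rs (fun H => ∃ F, H = G0 ∪ F.map ι.toEmbedding ∧ Q F)
    (fun H => sig (pre H) * e (pre H)), ?_, ?_⟩
  · intro H hH
    obtain ⟨h1, h2⟩ := rs_ne hH
    refine ⟨h1, ?_⟩
    obtain ⟨F, rfl, hF⟩ := h1
    rw [hpre1 F (hdis F hF)] at h2
    have h3 : e F ≠ 0 := fun h0 => h2 (by rw [h0, mul_zero])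
    rw [Finset.card_union_of_disjoint (hdis F hF), Finset.card_map]
    have := (he F h3).2
    omega
  · rintro _ ⟨G, rfl, hG⟩
    rw [hcbU _ G (hdis G hG) (by
      intro y hy
      rw [rs_neg]
      rintro ⟨F', hF', _⟩
      have : y ∈ G0 ∪ F'.map ι.toEmbedding := Finset.mem_union_left _ hy
      rw [← hF'] at this
      exact Finset.notMem_erase y _ this)]
    have h1 := he' G hG
    rw [rs_pos hG] at h1
    have h2 : ∑ x ∈ G, sg K G0 (ι x) * sg K G x *
        rs (fun H => ∃ F, H = G0 ∪ F.map ι.toEmbedding ∧ Q F)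
          (fun H => sig (pre H) * e (pre H)) (G0 ∪ (G.erase x).map ι.toEmbedding) =
        sig G * cb e G := by
      unfold cb
      rw [Finset.mul_sum]
      refine Finset.sum_congr rfl fun x hx => ?_
      by_cases h3 : Q (G.erase x)
      · rw [rs_pos ⟨_, rfl, h3⟩, hpre1 _ (hdis _ h3), hsigE G x hx]
        have := sg_sq (K := K) G0 (ι x)
        linear_combination (sg K G x * sig G * e (G.erase x)) * this
      · rw [rs_neg]
        · have h4 : e (G.erase x) = 0 := by
            by_contra h0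
            exact h3 (he _ h0).1
          rw [h4]; ring
        · rintro ⟨F', hF', hQF'⟩
          have := hinj _ _ (hdE G x (hdis G hG)) (hdis F' hQF') hF'
          exact h3 (this ▸ hQF')
    rw [h2, h1, ← mul_assoc, hsig2, one_mul]

end Pool.Agent.H803R3
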