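import Mathlib
import Pool.Agent.H803R3.Cx

/-!
Sublevel complexes of submodular functions.
-/

set_option autoImplicit false
set_option linter.unusedSectionVars false

namespace Pool.Agent.H803R3

open Finset

variable {V : Type*} [Fintype V] [LinearOrder V] {K : Type*} [CommRing K]

theorem shift (G0 : Finset V) (Q : Finset V → Prop) (hdis : ∀ F, Q F → Disjoint G0 F) (i : ℕ)
    (h : Ex K Q i) : Ex K (fun H => G0 ⊆ H ∧ Q (H \ G0)) (G0.card + i) := by
  have h1 := transfer (K := K) ((OrderIso.refl V).toOrderEmbedding) G0 Q (by
    intro F hF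
    have : F.map (OrderIso.refl V).toOrderEmbedding.toEmbedding = F := by
      ext; simp
    rw [this]; exact hdis F hF) i h
  refine h1.congr fun H => ?_
  constructor
  · rintro ⟨F, rfl, hF⟩
    have e1 : F.map ((OrderIso.refl V).toOrderEmbedding).toEmbedding = F := by ext; simp
    rw [e1]
    refine ⟨Finset.subset_union_left, ?_⟩
    rw [Finset.union_sdiff_cancel_left (hdis F hF)]
    exact hF
  · rintro ⟨h2, h3⟩
    refine ⟨H \ G0, ?_, h3⟩
    have e1 : (H \ G0).map ((OrderIso.refl V).toOrderEmbedding).toEmbedding = H \ G0 := by ext; simp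
    rw [e1, Finset.union_sdiff_of_subset h2]

theorem shift1 (x : V) (Q : Finset V → Prop) (hx : ∀ F, Q F → x ∉ F) (i : ℕ)
    (h : Ex K Q i) : Ex K (fun H => x ∈ H ∧ Q (H.erase x)) (i + 1) := by
  have h1 := shift (K := K) {x} Q (fun F hF => by simpa using hx F hF) i h
  rw [Finset.card_singleton, add_comm] at h1
  refine h1.congr fun H => ?_
  rw [Finset.singleton_subset_iff, Finset.sdiff_singleton_eq_erase]

/-- split along a vertex -/
theorem split1 (x : V) (Q : Finset V → Prop) (hQ : Conv Q) (i : ℕ)
    (h0 : Ex K (fun F => Q F ∧ x ∉ F) i) (h1 : Ex K (fun F => Q F ∧ x ∈ F) i) : Ex K Q i := by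
  classical
  refine filt Q hQ (fun F => decide (x ∈ F)) ?_ i ?_
  · intro A B hAB _ _
    by_cases h : x ∈ A
    · have h' := hAB h
      simp [h, h']
    · simp [h]
  · intro l
    cases l
    · refine h0.congr fun F => ?_
      simp
    · refine h1.congr fun F => ?_
      simp

/-- submodular functions -/
def Subm (w : Finset V → ℤ) : Prop := ∀ S T, w (S ∩ T) + w (S ∪ T) ≤ w S + w T

/-- subsets of `M` below a set of value at most `μ` -/
def Dm (w : Finset V → ℤ) (M : Finset V) (μ : ℤ) (F : Finset V) : Prop :=
  ∃ S, F ⊆ S ∧ S ⊆ M ∧ w S ≤ μ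

lemma Dm.conv (w : Finset V → ℤ) (M : Finset V) (μ : ℤ) : Conv (Dm w M μ) :=
  Conv.of_down fun _ _ hAB ⟨S, h1, h2, h3⟩ => ⟨S, hAB.trans h1, h2, h3⟩

lemma Subm.ins {w : Finset V → ℤ} (hw : Subm w) (x : V) : Subm (fun S => w (insert x S)) := by
  intro S T
  have := hw (insert x S) (insert x T)
  have e1 : insert x S ∩ insert x T = insert x (S ∩ T) := by
    ext y; simp only [Finset.mem_inter, Finset.mem_insert]; tauto
  have e2 : insert x S ∪ insert x T = insert x (S ∪ T) := by
    ext y; simp only [Finset.mem_union, Finset.mem_insert]; tauto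
  rw [e1, e2] at this
  exact this

lemma Subm.minx {w : Finset V → ℤ} (hw : Subm w) (x : V) :
    Subm (fun S => min (w S) (w (insert x S))) := by
  intro S T
  change min (w (S ∩ T)) (w (insert x (S ∩ T))) + min (w (S ∪ T)) (w (insert x (S ∪ T))) ≤
    min (w S) (w (insert x S)) + min (w T) (w (insert x T))
  have a1 := hw S T
  have a2 := hw (insert x S) (insert x T)
  have a3 := hw S (insert x T)
  have a4 := hw (insert x S) T
  have e1 : insert x S ∩ insert x T = insert x (S ∩ T) := by
    ext y; simp only [Finset.mem_inter, Finset.mem_insert]; tauto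
  have e2 : insert x S ∪ insert x T = insert x (S ∪ T) := by
    ext y; simp only [Finset.mem_union, Finset.mem_insert]; tauto
  have e3 : S ∪ insert x T = insert x (S ∪ T) := by
    ext y; simp only [Finset.mem_union, Finset.mem_insert]; tauto
  have e4 : insert x S ∪ T = insert x (S ∪ T) := by
    ext y; simp only [Finset.mem_union, Finset.mem_insert]; tauto
  rw [e1, e2] at a2
  rw [e3] at a3
  rw [e4] at a4
  have e5 : min (w (S ∩ T)) (w (insert x (S ∩ T))) ≤ w (S ∩ insert x T) := by
    by_cases h : x ∈ S
    · have : S ∩ insert x T = insert x (S ∩ T) := by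
        ext y; simp only [Finset.mem_inter, Finset.mem_insert]
        constructor
        · rintro ⟨h1, h2⟩; tauto
        · rintro (rfl | h2)
          · exact ⟨h, Or.inl rfl⟩
          · exact ⟨h2.1, Or.inr h2.2⟩
      rw [this]; exact min_le_right _ _
    · have : S ∩ insert x T = S ∩ T := by
        ext y; simp only [Finset.mem_inter, Finset.mem_insert]
        constructor
        · rintro ⟨h1, rfl | h2⟩
          · exact absurd h1 h
          · exact ⟨h1, h2⟩
        · rintro ⟨h1, h2⟩; exact ⟨h1, Or.inr h2⟩
      rw [this]; exact min_le_left _ _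
  have e6 : min (w (S ∩ T)) (w (insert x (S ∩ T))) ≤ w (insert x S ∩ T) := by
    by_cases h : x ∈ T
    · have : insert x S ∩ T = insert x (S ∩ T) := by
        ext y; simp only [Finset.mem_inter, Finset.mem_insert]
        constructor
        · rintro ⟨h1, h2⟩; tauto
        · rintro (rfl | h2)
          · exact ⟨Or.inl rfl, h⟩
          · exact ⟨Or.inr h2.1, h2.2⟩
      rw [this]; exact min_le_right _ _
    · have : insert x S ∩ T = S ∩ T := by
        ext y; simp only [Finset.mem_inter, Finset.mem_insert]
        constructor
        · rintro ⟨rfl | h1, h2⟩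
          · exact absurd h2 h
          · exact ⟨h1, h2⟩
        · rintro ⟨h1, h2⟩; exact ⟨Or.inr h1, h2⟩
      rw [this]; exact min_le_left _ _
  have m1 := min_le_left (w (S ∩ T)) (w (insert x (S ∩ T)))
  have m2 := min_le_right (w (S ∩ T)) (w (insert x (S ∩ T)))
  have m3 := min_le_left (w (S ∪ T)) (w (insert x (S ∪ T)))
  have m4 := min_le_right (w (S ∪ T)) (w (insert x (S ∪ T)))
  rcases min_choice (w S) (w (insert x S)) with h1 | h1 <;>
    rcases min_choice (w T) (w (insert x T)) with h2 | h2 <;> rw [h1, h2] <;> linarith

theorem claimY : ∀ (n : ℕ) (M : Finset V) (w : Finset V → ℤ), Subm w → ∀ μ : ℤ, M.card = n →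
    μ < w M → ∀ i : ℕ, μ - w ∅ + 1 ≤ i → Ex K (Dm w M μ) i := by
  classical
  intro n
  induction n with
  | zero =>
    intro M w _ μ hM hμ i _
    apply Ex.of_empty
    rintro F ⟨S, h1, h2, h3⟩
    rw [Finset.card_eq_zero] at hM
    subst hM
    have : S = ∅ := Finset.subset_empty.1 h2
    subst this
    omega
  | succ n ih =>
    intro M w hw μ hM hμ i hi
    by_cases hneg : μ < w ∅
    · obtain ⟨T, hT, hTmin⟩ := Finset.exists_min_image M.powerset w ⟨∅, by simp⟩
      rw [Finset.mem_powerset] at hT
      by_cases hTμ : μ < w T
      · apply Ex.of_empty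
        rintro F ⟨S, h1, h2, h3⟩
        have := hTmin S (Finset.mem_powerset.2 h2)
        omega
      · have hTne : T.Nonempty := by
          rw [Finset.nonempty_iff_ne_empty]
          rintro rfl
          omega
        obtain ⟨x, hx⟩ := hTne
        apply toggle _ x
        intro F
        constructor
        · rintro ⟨S, h1, h2, h3⟩
          refine ⟨S ∪ T, ?_, Finset.union_subset h2 hT, ?_⟩
          · rw [Finset.insert_subset_iff]
            exact ⟨Finset.mem_union_right _ hx, h1.trans Finset.subset_union_left⟩
          · have h4 := hw S T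
            have h5 := hTmin (S ∩ T) (Finset.mem_powerset.2 (Finset.inter_subset_right.trans hT))
            omega
        · rintro ⟨S, h1, h2, h3⟩
          exact ⟨S, (Finset.subset_insert _ _).trans h1, h2, h3⟩
    · push Not at hneg
      have hex : ∃ x ∈ M, w ∅ + 1 ≤ w {x} := by
        by_contra hcon
        push Not at hcon
        have : ∀ S : Finset V, S ⊆ M → w S ≤ w ∅ := by
          intro S
          induction S using Finset.induction_on with
          | empty => intro _; exact le_rfl
          | insert y S hy ihS =>
            intro hS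
            rw [Finset.insert_subset_iff] at hS
            have h1 := ihS hS.2
            have h2 := hw S {y}
            have h3 := hcon y hS.1
            have e1 : S ∩ {y} = ∅ := by
              rw [← Finset.disjoint_iff_inter_eq_empty]; simpa using hy
            have e2 : S ∪ {y} = insert y S := by
              rw [Finset.union_comm]; rfl
            rw [e1, e2] at h2
            omega
        have := this M (Finset.Subset.refl _)
        omega
      obtain ⟨x, hxM, hx⟩ := hex
      have hcard : (M.erase x).card = n := by
        rw [Finset.card_erase_of_mem hxM, hM]; rfl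
      refine split1 x _ (Dm.conv w M μ) i ?_ ?_
      · have hiff : ∀ F, Dm (fun S => min (w S) (w (insert x S))) (M.erase x) μ F ↔
            (Dm w M μ F ∧ x ∉ F) := by
          intro F
          constructor
          · rintro ⟨S, h1, h2, h3⟩
            have hxS : x ∉ S := fun h => (Finset.notMem_erase x M) (h2 h)
            refine ⟨?_, fun h => hxS (h1 h)⟩
            rcases min_le_iff.1 h3 with h4 | h4
            · exact ⟨S, h1, h2.trans (Finset.erase_subset _ _), h4⟩
            · refine ⟨insert x S, h1.trans (Finset.subset_insert _ _), ?_, h4⟩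
              rw [Finset.insert_subset_iff]
              exact ⟨hxM, h2.trans (Finset.erase_subset _ _)⟩
          · rintro ⟨⟨S, h1, h2, h3⟩, hxF⟩
            refine ⟨S.erase x, ?_, Finset.erase_subset_erase _ h2, ?_⟩
            · intro y hy
              exact Finset.mem_erase.2 ⟨fun h => hxF (h ▸ hy), h1 hy⟩
            · by_cases hxS : x ∈ S
              · refine (min_le_right _ _).trans ?_
                rw [Finset.insert_erase hxS]
                exact h3
              · refine (min_le_left _ _).trans ?_
                rw [Finset.erase_eq_of_notMem hxS]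
                exact h3
        refine Ex.congr hiff ?_
        by_cases hμ' : μ < min (w (M.erase x)) (w (insert x (M.erase x)))
        · refine ih (M.erase x) _ (hw.minx x) μ hcard hμ' i ?_
          have : min (w ∅) (w (insert x ∅)) = w ∅ := by
            apply min_eq_left
            change w ∅ ≤ w {x}
            omega
          rw [this]
          exact hi
        · push Not at hμ'
          have hiff2 : ∀ F, F ⊆ M.erase x ↔
              Dm (fun S => min (w S) (w (insert x S))) (M.erase x) μ F := by
            intro F
            constructor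
            · intro hF; exact ⟨M.erase x, hF, Finset.Subset.refl _, hμ'⟩
            · rintro ⟨S, h1, h2, _⟩; exact h1.trans h2
          refine Ex.congr hiff2 ?_
          rcases (M.erase x).eq_empty_or_nonempty with he | ⟨y, hy⟩
          · apply Ex.of_empty
            intro F hF
            rw [he, Finset.subset_empty] at hF
            subst hF
            rw [Finset.card_empty]
            omega
          · apply toggle _ y
            intro F
            rw [Finset.insert_subset_iff]
            exact ⟨fun h => ⟨hy, h⟩, fun h => h.2⟩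
      · obtain ⟨j, rfl⟩ : ∃ j : ℕ, i = j + 1 := ⟨i - 1, by omega⟩
        have hA : Ex K (Dm (fun S => w (insert x S)) (M.erase x) μ) j := by
          refine ih (M.erase x) _ (hw.ins x) μ hcard ?_ j ?_
          · change μ < w (insert x (M.erase x))
            rw [Finset.insert_erase hxM]; exact hμ
          · change μ - w {x} + 1 ≤ j
            push_cast at hi
            omega
        have hB := shift1 (K := K) x _ (by
          rintro F ⟨S, h1, h2, _⟩ hxF
          exact (Finset.notMem_erase x M) (h2 (h1 hxF))) j hA
        refine Ex.congr ?_ hB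
        intro H
        constructor
        · rintro ⟨hxH, S, h1, h2, h3⟩
          refine ⟨⟨insert x S, ?_, ?_, h3⟩, hxH⟩
          · rw [← Finset.insert_erase hxH]
            exact Finset.insert_subset_insert _ h1
          · rw [Finset.insert_subset_iff]
            exact ⟨hxM, h2.trans (Finset.erase_subset _ _)⟩
        · rintro ⟨⟨S, h1, h2, h3⟩, hxH⟩
          refine ⟨hxH, S.erase x, Finset.erase_subset_erase _ h1,
            Finset.erase_subset_erase _ h2, ?_⟩
          change w (insert x (S.erase x)) ≤ μ
          rw [Finset.insert_erase (h1 hxH)]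
          exact h3

/-- the relative complex of the simplex on `M` -/
theorem claimC (M : Finset V) (w : Finset V → ℤ) (hw : Subm w) (hw0 : w ∅ = 0) (i : ℕ)
    (hi : w M + 1 ≤ i) (hM : M.Nonempty ∨ 1 ≤ i) :
    Ex K (fun F => F ⊆ M ∧ ¬ Dm w M (w M - 1) F) i := by
  rcases M.eq_empty_or_nonempty with rfl | ⟨x, hx⟩
  · apply Ex.of_empty
    rintro F ⟨hF, _⟩
    rw [Finset.subset_empty] at hF
    subst hF
    rcases hM with h | h
    · exact absurd h Finset.not_nonempty_empty
    · rw [Finset.card_empty]; omega
  · apply Ex.sub
    · exact Conv.of_down fun A B hAB hB => hAB.trans hB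
    · rintro A B hAB _ _ hA ⟨S, h1, h2, h3⟩
      exact hA ⟨S, hAB.trans h1, h2, h3⟩
    · apply toggle _ x
      intro F
      rw [Finset.insert_subset_iff]
      exact ⟨fun h => ⟨hx, h⟩, fun h => h.2⟩
    · rintro j rfl
      have h1 := claimY (K := K) M.card M w hw (w M - 1) rfl (by omega) j (by
        rw [hw0]; push_cast at hi; omega)
      refine h1.congr fun F => ?_
      constructor
      · intro hF
        obtain ⟨S, h1, h2, h3⟩ := hF
        exact ⟨h1.trans h2, fun h => h ⟨S, h1, h2, h3⟩⟩
      · rintro ⟨_, hF⟩
        exact not_not.1 hF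

end Pool.Agent.H803R3
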