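import Mathlib
import Pool.Agent.H803R3.Subm

/-!
Weighted independent sets in a gap-free graph: uncrossing.
-/

set_option autoImplicit false
set_option linter.unusedSectionVars false

namespace Pool.Agent.H803R3

open Finset Classical

variable {V : Type*} [Fintype V] [LinearOrder V]

/-- gap-free graphs -/
def Gap (G : SimpleGraph V) : Prop :=
  ∀ a b c d, G.Adj a b → G.Adj c d → a ≠ c → a ≠ d → b ≠ c → b ≠ d →
    G.Adj a c ∨ G.Adj a d ∨ G.Adj b c ∨ G.Adj b d

/-- neighbourhood of a set -/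
noncomputable def nbh (G : SimpleGraph V) (T : Finset V) : Finset V :=
  Finset.univ.filter (fun y => ∃ x ∈ T, G.Adj x y)

lemma mem_nbh {G : SimpleGraph V} {T : Finset V} {y : V} :
    y ∈ nbh G T ↔ ∃ x ∈ T, G.Adj x y := by simp [nbh]

/-- total weight -/
def bs (b : V → ℕ) (S : Finset V) : ℤ := ∑ x ∈ S, (b x : ℤ)

lemma bs_mono {b : V → ℕ} {S T : Finset V} (h : S ⊆ T) : bs b S ≤ bs b T :=
  Finset.sum_le_sum_of_subset_of_nonneg h fun _ _ _ => Int.natCast_nonneg _

lemma bs_nonneg (b : V → ℕ) (S : Finset V) : 0 ≤ bs b S :=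
  Finset.sum_nonneg fun _ _ => Int.natCast_nonneg _

lemma bs_union_inter (b : V → ℕ) (S T : Finset V) :
    bs b (S ∪ T) + bs b (S ∩ T) = bs b S + bs b T := Finset.sum_union_inter

lemma bs_union (b : V → ℕ) {S T : Finset V} (h : Disjoint S T) :
    bs b (S ∪ T) = bs b S + bs b T := Finset.sum_union h

lemma bs_sdiff (b : V → ℕ) {S T : Finset V} (h : S ⊆ T) :
    bs b (T \ S) + bs b S = bs b T := Finset.sum_sdiff h

@[simp] lemma bs_empty (b : V → ℕ) : bs b ∅ = 0 := rfl

lemma bs_insert (b : V → ℕ) {S : Finset V} {x : V} (h : x ∉ S) :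
    bs b (insert x S) = b x + bs b S := Finset.sum_insert h

lemma bs_pos_of {b : V → ℕ} {S T : Finset V} (h : S ⊆ T) (he : bs b S = bs b T) {x : V}
    (hx : x ∈ T) (hxS : x ∉ S) : b x = 0 := by
  have h1 : insert x S ⊆ T := Finset.insert_subset_iff.2 ⟨hx, h⟩
  have h2 := bs_mono (b := b) h1
  rw [bs_insert b hxS] at h2
  omega

/-- the excess function -/
noncomputable def ww (G : SimpleGraph V) (b : V → ℕ) (T : Finset V) : ℤ :=
  bs b (nbh G T) - bs b T

variable {G : SimpleGraph V} {b : V → ℕ} {W : Finset V}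

lemma nbh_union (S T : Finset V) : nbh G (S ∪ T) = nbh G S ∪ nbh G T := by
  ext y
  simp only [mem_nbh, Finset.mem_union]
  constructor
  · rintro ⟨x, hx | hx, h⟩
    · exact Or.inl ⟨x, hx, h⟩
    · exact Or.inr ⟨x, hx, h⟩
  · rintro (⟨x, hx, h⟩ | ⟨x, hx, h⟩)
    · exact ⟨x, Or.inl hx, h⟩
    · exact ⟨x, Or.inr hx, h⟩

lemma nbh_mono {S T : Finset V} (h : S ⊆ T) : nbh G S ⊆ nbh G T := by
  intro y
  simp only [mem_nbh]
  rintro ⟨x, hx, h1⟩
  exact ⟨x, h hx, h1⟩

@[simp] lemma nbh_empty : nbh G ∅ = ∅ := by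
  ext y; simp [mem_nbh]

@[simp] lemma ww_empty : ww G b ∅ = 0 := by simp [ww]

lemma ww_subm (G : SimpleGraph V) (b : V → ℕ) : Subm (ww G b) := by
  intro S T
  unfold ww
  have h1 := bs_union_inter b (nbh G S) (nbh G T)
  have h2 := bs_union_inter b S T
  have h3 : bs b (nbh G (S ∩ T)) ≤ bs b (nbh G S ∩ nbh G T) := by
    apply bs_mono
    intro y hy
    rw [Finset.mem_inter]
    exact ⟨nbh_mono Finset.inter_subset_left hy, nbh_mono Finset.inter_subset_right hy⟩
  rw [nbh_union]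
  linarith

/-- independent sets inside `W` -/
def Ind (G : SimpleGraph V) (W T : Finset V) : Prop :=
  T ⊆ W ∧ ∀ x ∈ T, ∀ y ∈ T, ¬ G.Adj x y

lemma Ind.mono {S T : Finset V} (h : Ind G W T) (hS : S ⊆ T) : Ind G W S :=
  ⟨hS.trans h.1, fun x hx y hy => h.2 x (hS hx) y (hS hy)⟩

lemma ind_iff_disj {T : Finset V} (hT : T ⊆ W) : Ind G W T ↔ ∀ y ∈ T, y ∉ nbh G T := by
  constructor
  · rintro ⟨_, h⟩ y hy hy'
    obtain ⟨x, hx, h1⟩ := mem_nbh.1 hy'
    exact h x hx y hy h1
  · intro h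
    exact ⟨hT, fun x hx y hy h1 => h y hy (mem_nbh.2 ⟨x, hx, h1⟩)⟩

/-- the isolated part of `S ∪ T` -/
noncomputable def iso (G : SimpleGraph V) (S T : Finset V) : Finset V :=
  (S ∪ T).filter (fun x => ∀ y ∈ S ∪ T, ¬ G.Adj y x)

lemma mem_iso {S T : Finset V} {x : V} :
    x ∈ iso G S T ↔ x ∈ S ∪ T ∧ x ∉ nbh G (S ∪ T) := by
  simp only [iso, Finset.mem_filter, mem_nbh]
  constructor
  · rintro ⟨h1, h2⟩
    exact ⟨h1, fun ⟨y, hy, h3⟩ => h2 y hy h3⟩
  · rintro ⟨h1, h2⟩
    exact ⟨h1, fun y hy h3 => h2 ⟨y, hy, h3⟩⟩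

lemma iso_sub {S T : Finset V} : iso G S T ⊆ S ∪ T := fun _ hx => (mem_iso.1 hx).1

lemma nbh_iso_disj {S T : Finset V} {y : V} (hy : y ∈ S ∪ T) : y ∉ nbh G (iso G S T) := by
  intro h
  obtain ⟨x, hx, h1⟩ := mem_nbh.1 h
  exact (mem_iso.1 hx).2 (mem_nbh.2 ⟨y, hy, h1.symm⟩)

lemma inter_sub_iso {S T : Finset V} (hS : Ind G W S) (hT : Ind G W T) :
    S ∩ T ⊆ iso G S T := by
  intro x hx
  rw [Finset.mem_inter] at hx
  rw [mem_iso]
  refine ⟨Finset.mem_union_left _ hx.1, ?_⟩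
  intro h
  obtain ⟨y, hy, h1⟩ := mem_nbh.1 h
  rcases Finset.mem_union.1 hy with h2 | h2
  · exact hS.2 y h2 x hx.1 h1
  · exact hT.2 y h2 x hx.2 h1

lemma iso_ind {S T : Finset V} (hS : S ⊆ W) (hT : T ⊆ W) : Ind G W (iso G S T) := by
  refine ⟨iso_sub.trans (Finset.union_subset hS hT), fun x hx y hy h => ?_⟩
  exact (mem_iso.1 hy).2 (mem_nbh.2 ⟨x, iso_sub hx, h⟩)

lemma union_iso_ind {S T : Finset V} (hS : Ind G W S) (hT : T ⊆ W) :
    Ind G W (S ∪ iso G S T) := by
  refine ⟨Finset.union_subset hS.1 (iso_sub.trans (Finset.union_subset hS.1 hT)),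
    fun x hx y hy h => ?_⟩
  rcases Finset.mem_union.1 hx with h1 | h1 <;> rcases Finset.mem_union.1 hy with h2 | h2
  · exact hS.2 x h1 y h2 h
  · exact (mem_iso.1 h2).2 (mem_nbh.2 ⟨x, Finset.mem_union_left _ h1, h⟩)
  · exact (mem_iso.1 h1).2 (mem_nbh.2 ⟨y, Finset.mem_union_left _ h2, h.symm⟩)
  · exact (mem_iso.1 h2).2 (mem_nbh.2 ⟨x, iso_sub h1, h⟩)

lemma iso_comm (S T : Finset V) : iso G S T = iso G T S := by
  unfold iso
  rw [Finset.union_comm]

lemma iso_eq_union {S T : Finset V} (h : Ind G W (S ∪ T)) : iso G S T = S ∪ T := by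
  ext x
  rw [mem_iso]
  constructor
  · exact fun h1 => h1.1
  · intro hx
    exact ⟨hx, (ind_iff_disj h.1).1 h x hx⟩

/-- uncrossing, first form -/
lemma uncross_le (S T : Finset V) :
    bs b (nbh G (iso G S T)) + bs b ((S ∪ T) \ iso G S T) ≤ bs b (nbh G (S ∪ T)) := by
  have hd : Disjoint (nbh G (iso G S T)) ((S ∪ T) \ iso G S T) := by
    rw [Finset.disjoint_left]
    intro y hy hy'
    exact nbh_iso_disj (Finset.mem_sdiff.1 hy').1 hy
  rw [← bs_union b hd]
  apply bs_mono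
  apply Finset.union_subset
  · exact nbh_mono iso_sub
  · intro y hy
    rw [Finset.mem_sdiff, mem_iso] at hy
    by_contra h
    exact hy.2 ⟨hy.1, h⟩

lemma uncross (S T : Finset V) :
    ww G b (S ∩ T) + ww G b (iso G S T) ≤ ww G b S + ww G b T := by
  have h0 := uncross_le (G := G) (b := b) S T
  have h1 := ww_subm G b S T
  have h2 : ww G b (iso G S T) ≤ ww G b (S ∪ T) := by
    unfold ww
    have := bs_sdiff b (iso_sub (G := G) (S := S) (T := T))
    linarith
  linarith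

/-- every independent superset of `F` has value at least `ν` -/
def Tg (G : SimpleGraph V) (b : V → ℕ) (W : Finset V) (ν : ℤ) (F : Finset V) : Prop :=
  ∀ T, Ind G W T → F ⊆ T → ν ≤ ww G b T

lemma Tg.mono {ν : ℤ} {F F' : Finset V} (h : Tg G b W ν F) (hF : F ⊆ F') : Tg G b W ν F' :=
  fun T hT hFT => h T hT (hF.trans hFT)

/-- facts about two sets of value `ν` over a common base -/
lemma pair_facts {ν : ℤ} {F S T : Finset V} (hF : Tg G b W ν F) (hS : Ind G W S)
    (hT : Ind G W T) (hFS : F ⊆ S) (hFT : F ⊆ T) (hSν : ww G b S = ν) (hTν : ww G b T = ν) :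
    ww G b (S ∩ T) = ν ∧ ww G b (iso G S T) = ν ∧
      bs b (nbh G (S ∪ T)) = bs b (nbh G (iso G S T)) + bs b ((S ∪ T) \ iso G S T) := by
  have h0 := uncross_le (G := G) (b := b) S T
  have h1 := ww_subm G b S T
  have h2 : ww G b (S ∪ T) = bs b (nbh G (S ∪ T)) - bs b (nbh G (iso G S T)) -
      bs b ((S ∪ T) \ iso G S T) + ww G b (iso G S T) := by
    unfold ww
    have := bs_sdiff b (iso_sub (G := G) (S := S) (T := T))
    linarith
  have h3 := hF _ (hS.mono Finset.inter_subset_left) (Finset.subset_inter hFS hFT)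
  have h4 := hF _ (iso_ind hS.1 hT.1)
    ((Finset.subset_inter hFS hFT).trans (inter_sub_iso hS hT))
  refine ⟨by linarith, by linarith, by linarith⟩

lemma union_fact {ν : ℤ} {F S T : Finset V} (hF : Tg G b W ν F) (hS : Ind G W S)
    (hT : Ind G W T) (hFS : F ⊆ S) (hFT : F ⊆ T) (hSν : ww G b S = ν) (hTν : ww G b T = ν)
    (hU : Ind G W (S ∪ T)) : ww G b (S ∪ T) = ν := by
  have := (pair_facts hF hS hT hFS hFT hSν hTν).2.1
  rwa [iso_eq_union hU] at this

/-- structure of incompatible pairs in a gap-free graph -/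
theorem incompat (hG : Gap G) (hb : ∀ x ∈ W, 1 ≤ b x) (hb0 : ∀ x, x ∉ W → b x = 0)
    {ν : ℤ} {F S T : Finset V} (hF : Tg G b W ν F) (hS : Ind G W S)
    (hT : Ind G W T) (hFS : F ⊆ S) (hFT : F ⊆ T) (hSν : ww G b S = ν) (hTν : ww G b T = ν)
    (hU : ¬ Ind G W (S ∪ T)) :
    (∀ r ∈ W, r ∈ nbh G (iso G S T) ∨ r ∈ S ∪ T) ∧ Even (bs b W + ν) := by
  obtain ⟨hI, h3, hEq⟩ := pair_facts hF hS hT hFS hFT hSν hTν
  set T3 := iso G S T with hT3
  have hFI : F ⊆ S ∩ T := Finset.subset_inter hFS hFT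
  have hFT3 : F ⊆ T3 := hFI.trans (inter_sub_iso hS hT)
  have hSTW : S ∪ T ⊆ W := Finset.union_subset hS.1 hT.1
  have hT3i : Ind G W T3 := iso_ind hS.1 hT.1
  have hdisj : Disjoint (nbh G T3) ((S ∪ T) \ T3) := by
    rw [Finset.disjoint_left]
    intro y hy hy'
    exact nbh_iso_disj (Finset.mem_sdiff.1 hy').1 hy
  have hsubN : nbh G T3 ∪ ((S ∪ T) \ T3) ⊆ nbh G (S ∪ T) := by
    apply Finset.union_subset
    · exact nbh_mono iso_sub
    · intro y hy
      rw [Finset.mem_sdiff, hT3, mem_iso] at hy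
      by_contra h
      exact hy.2 ⟨hy.1, h⟩
  have hN : ∀ y ∈ W, y ∈ nbh G (S ∪ T) → y ∈ nbh G T3 ∨ y ∈ S ∪ T := by
    intro y hyW hy
    by_contra hcon
    push Not at hcon
    have h1 : y ∉ nbh G T3 ∪ ((S ∪ T) \ T3) := by
      rw [Finset.mem_union, Finset.mem_sdiff]
      push Not
      exact ⟨hcon.1, fun h => absurd h hcon.2⟩
    have h2 := bs_pos_of hsubN (by rw [bs_union b hdisj]; exact hEq.symm) hy h1
    have := hb y hyW
    omega
  -- an edge inside the union
  obtain ⟨p, hp, q, hq, hpq⟩ : ∃ p ∈ S ∪ T, ∃ q ∈ S ∪ T, G.Adj p q := by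
    by_contra hcon
    push Not at hcon
    exact hU ⟨hSTW, hcon⟩
  have hR : ∀ r ∈ W, r ∈ nbh G T3 ∨ r ∈ S ∪ T := by
    intro r hr
    by_contra hcon
    push Not at hcon
    have hrN : r ∉ nbh G (S ∪ T) := by
      intro h
      rcases hN r hr h with h1 | h1
      · exact hcon.1 h1
      · exact hcon.2 h1
    have hrr : ∀ r' ∈ W, G.Adj r r' → r' ∈ nbh G T3 := by
      intro r' hr' hadj
      by_contra h1
      have h2 : r' ∉ S ∪ T := fun h => hrN (mem_nbh.2 ⟨r', h, hadj.symm⟩)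
      have h3 : r' ∉ nbh G (S ∪ T) := by
        intro h
        rcases hN r' hr' h with h4 | h4
        · exact h1 h4
        · exact h2 h4
      rcases hG p q r r' hpq hadj (fun h => hcon.2 (h ▸ hp)) (fun h => h2 (h ▸ hp))
        (fun h => hcon.2 (h ▸ hq)) (fun h => h2 (h ▸ hq)) with h4 | h4 | h4 | h4
      · exact hrN (mem_nbh.2 ⟨p, hp, h4⟩)
      · exact h3 (mem_nbh.2 ⟨p, hp, h4⟩)
      · exact hrN (mem_nbh.2 ⟨q, hq, h4⟩)
      · exact h3 (mem_nbh.2 ⟨q, hq, h4⟩)
    have hrT3 : r ∉ T3 := fun h => hcon.2 (iso_sub h)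
    have hind : Ind G W (insert r T3) := by
      refine ⟨Finset.insert_subset_iff.2 ⟨hr, hT3i.1⟩, ?_⟩
      intro x hx y hy hxy
      rcases Finset.mem_insert.1 hx with hx' | hx' <;>
        rcases Finset.mem_insert.1 hy with hy' | hy'
      · rw [hx', hy'] at hxy
        exact G.loopless.irrefl _ hxy
      · rw [hx'] at hxy
        exact hcon.1 (mem_nbh.2 ⟨y, hy', hxy.symm⟩)
      · rw [hy'] at hxy
        exact hcon.1 (mem_nbh.2 ⟨x, hx', hxy⟩)
      · exact hT3i.2 x hx' y hy' hxy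
    have h5 := hF _ hind (hFT3.trans (Finset.subset_insert _ _))
    have h6 : bs b (nbh G (insert r T3)) ≤ bs b (nbh G T3) := by
      have e1 : bs b (nbh G (insert r T3)) = bs b (nbh G T3) := by
        symm
        have hsub : nbh G T3 ⊆ nbh G (insert r T3) := nbh_mono (Finset.subset_insert _ _)
        apply Finset.sum_subset hsub
        intro y hy hy'
        obtain ⟨x, hx, hxy⟩ := mem_nbh.1 hy
        rcases Finset.mem_insert.1 hx with rfl | hx
        · by_cases hyW : y ∈ W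
          · exact absurd (hrr y hyW hxy) hy'
          · rw [hb0 y hyW]; rfl
        · exact absurd (mem_nbh.2 ⟨x, hx, hxy⟩) hy'
      exact e1.le
    have h7 : ww G b (insert r T3) ≤ ww G b T3 - b r := by
      unfold ww
      rw [bs_insert b hrT3]
      linarith
    have := hb r hr
    omega
  refine ⟨hR, ?_⟩
  -- parity
  have hD : Ind G W (S ∪ T3) := union_iso_ind hS hT.1
  have hDν : ww G b (S ∪ T3) = ν := by
    have h1 := ww_subm G b S T3
    have h2 := hF _ hD (hFS.trans Finset.subset_union_left)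
    have h4 := hF _ (hS.mono (Finset.inter_subset_left (s₂ := T3)))
      (Finset.subset_inter hFS hFT3)
    linarith
  have hTT : ∀ y ∈ T \ T3, y ∈ nbh G S := by
    intro y hy
    rw [Finset.mem_sdiff, hT3, mem_iso] at hy
    push Not at hy
    obtain ⟨z, hz, hzy⟩ := mem_nbh.1 (hy.2 (Finset.mem_union_right _ hy.1))
    rcases Finset.mem_union.1 hz with h | h
    · exact mem_nbh.2 ⟨z, h, hzy⟩
    · exact absurd hzy (hT.2 z h y hy.1)
  have hND : bs b (nbh G (S ∪ T3)) = bs b (nbh G T3) + bs b (T \ T3) := by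
    have hd2 : Disjoint (nbh G T3) (T \ T3) := by
      rw [Finset.disjoint_left]
      intro y hy hy'
      exact nbh_iso_disj (Finset.mem_union_right _ (Finset.mem_sdiff.1 hy').1) hy
    rw [← bs_union b hd2]
    symm
    apply Finset.sum_subset
    · apply Finset.union_subset
      · exact nbh_mono Finset.subset_union_right
      · intro y hy
        exact nbh_mono Finset.subset_union_left (hTT y hy)
    · intro y hy hy'
      by_cases hyW : y ∈ W
      · exfalso
        rw [Finset.mem_union, Finset.mem_sdiff] at hy'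
        push Not at hy'
        rw [nbh_union, Finset.mem_union] at hy
        rcases hy with h | h
        · rcases hN y hyW (nbh_mono Finset.subset_union_left h) with h1 | h1
          · exact hy'.1 h1
          · rcases Finset.mem_union.1 h1 with h2 | h2
            · exact (ind_iff_disj hS.1).1 hS y h2 h
            · have h3 := hy'.2 h2
              exact (mem_iso.1 h3).2 (nbh_mono Finset.subset_union_left h)
        · exact hy'.1 h
      · rw [hb0 y hyW]; rfl
  have hdS : Disjoint (S \ T3) T3 := Finset.sdiff_disjoint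
  have hSU : S ∪ T3 = (S \ T3) ∪ T3 := by rw [Finset.sdiff_union_self_eq_union]
  have hbal : bs b (T \ T3) = bs b (S \ T3) := by
    have h1 : bs b (S ∪ T3) = bs b (S \ T3) + bs b T3 := by rw [hSU, bs_union b hdS]
    unfold ww at hDν h3
    linarith
  have hWeq : bs b W = bs b (nbh G T3) + bs b (S ∪ T) := by
    have hd3 : Disjoint (nbh G T3) (S ∪ T) := by
      rw [Finset.disjoint_left]
      intro y hy hy'
      exact nbh_iso_disj hy' hy
    rw [← bs_union b hd3]
    apply Finset.sum_subset_zero_on_sdiff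
    · intro r hr
      exact Finset.mem_union.2 (hR r hr)
    · intro y hy
      rw [hb0 y (Finset.mem_sdiff.1 hy).2]; rfl
    · intro _ _; rfl
  have hSTeq : bs b (S ∪ T) = bs b (S \ T3) + bs b (T \ T3) + bs b T3 := by
    have h1 := bs_sdiff b (iso_sub (G := G) (S := S) (T := T))
    have h2 : (S ∪ T) \ T3 = (S \ T3) ∪ (T \ T3) := Finset.union_sdiff_distrib _ _ _
    have h4 : Disjoint (S \ T3) (T \ T3) := by
      rw [Finset.disjoint_left]
      intro y hy hy'
      rw [Finset.mem_sdiff] at hy hy'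
      exact hy.2 (inter_sub_iso hS hT (Finset.mem_inter.2 ⟨hy.1, hy'.1⟩))
    rw [← hT3, h2, bs_union b h4] at h1
    linarith
  refine ⟨bs b (nbh G T3) + bs b (S \ T3), ?_⟩
  rw [hWeq, hSTeq, hbal]
  unfold ww at h3
  linarith

end Pool.Agent.H803R3
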