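import Mathlib
import Pool.Agent.H803R3.Lev

/-!
The maximal sets over a tight set form a tree.
-/

set_option autoImplicit false
set_option linter.unusedSectionVars false

namespace Pool.Agent.H803R3

open Finset Classical

variable {V : Type*} [Fintype V] [LinearOrder V] {G : SimpleGraph V} {b : V → ℕ} {W : Finset V}
  {ν : ℤ}

/-- tight sets of value `ν` -/
def Lv (G : SimpleGraph V) (b : V → ℕ) (W : Finset V) (ν : ℤ) (T : Finset V) : Prop :=
  Ind G W T ∧ ww G b T = ν ∧ Tg G b W ν T

/-- maximal tight sets -/
def Mx (G : SimpleGraph V) (b : V → ℕ) (W : Finset V) (ν : ℤ) (M : Finset V) : Prop :=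
  Lv G b W ν M ∧ ∀ T, Lv G b W ν T → M ⊆ T → T = M

/-- the tight sets with exactly two proper tight supersets, both maximal -/
def Edg (G : SimpleGraph V) (b : V → ℕ) (W : Finset V) (ν : ℤ) (T M1 M2 : Finset V) : Prop :=
  Lv G b W ν T ∧ Mx G b W ν M1 ∧ Mx G b W ν M2 ∧ T ⊆ M1 ∧ T ⊆ M2 ∧ T ≠ M1 ∧ T ≠ M2 ∧ M1 ≠ M2 ∧
    (∀ T', Lv G b W ν T' → T ⊆ T' → T' = T ∨ T' = M1 ∨ T' = M2) ∧ Even (bs b W + ν)

lemma lv_of {F S : Finset V} (hF : Tg G b W ν F) (hS : Ind G W S) (hFS : F ⊆ S)
    (h : ww G b S = ν) : Lv G b W ν S := ⟨hS, h, hF.mono hFS⟩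

lemma lv_inter {F S T : Finset V} (hF : Tg G b W ν F) (hS : Lv G b W ν S) (hT : Lv G b W ν T)
    (hFS : F ⊆ S) (hFT : F ⊆ T) : Lv G b W ν (S ∩ T) :=
  lv_of hF (hS.1.mono Finset.inter_subset_left) (Finset.subset_inter hFS hFT)
    (pair_facts hF hS.1 hT.1 hFS hFT hS.2.1 hT.2.1).1

lemma lv_union {F S T : Finset V} (hF : Tg G b W ν F) (hS : Lv G b W ν S) (hT : Lv G b W ν T)
    (hFS : F ⊆ S) (hFT : F ⊆ T) (hU : Ind G W (S ∪ T)) : Lv G b W ν (S ∪ T) :=
  lv_of hF hU (hFS.trans Finset.subset_union_left)
    (union_fact hF hS.1 hT.1 hFS hFT hS.2.1 hT.2.1 hU)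

/-- maximal tight sets exist above tight sets -/
lemma exists_mx {T : Finset V} (hT : Lv G b W ν T) : ∃ M, Mx G b W ν M ∧ T ⊆ M := by
  obtain ⟨M, hM, hmax⟩ := Finset.exists_max_image
    (Finset.univ.filter (fun S => Lv G b W ν S ∧ T ⊆ S)) Finset.card
    ⟨T, by simp [hT]⟩
  rw [Finset.mem_filter] at hM
  refine ⟨M, ⟨hM.2.1, fun S hS hMS => ?_⟩, hM.2.2⟩
  have := hmax S (by simp [hS, hM.2.2.trans hMS])
  exact (Finset.eq_of_subset_of_card_le hMS this).symm

variable {K : Type*} [CommRing K]

/-- connectedness over `T0` -/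
def Conn (K : Type*) [CommRing K] (G : SimpleGraph V) (b : V → ℕ) (W : Finset V) (ν : ℤ)
    (e1 e2 : Finset V → Finset V) (T0 : Finset V) : Prop :=
  ∀ g : Finset V → K, (∀ T, T0 ⊆ T → Edg G b W ν T (e1 T) (e2 T) → g (e1 T) = g (e2 T)) →
    ∀ M M', Mx G b W ν M → Mx G b W ν M' → T0 ⊆ M → T0 ⊆ M' → g M = g M'

/-- acyclicity over `T0` -/
def Surj (K : Type*) [CommRing K] (G : SimpleGraph V) (b : V → ℕ) (W : Finset V) (ν : ℤ)
    (e1 e2 : Finset V → Finset V) (T0 : Finset V) : Prop :=
  ∀ f : Finset V → K, ∃ g : Finset V → K,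
    ∀ T, T0 ⊆ T → Edg G b W ν T (e1 T) (e2 T) → g (e1 T) - g (e2 T) = f T

theorem tree (hG : Gap G) (hb : ∀ x ∈ W, 1 ≤ b x) (hb0 : ∀ x, x ∉ W → b x = 0)
    (e1 e2 : Finset V → Finset V)
    (he : ∀ T M1 M2, Edg G b W ν T M1 M2 → Edg G b W ν T (e1 T) (e2 T)) :
    ∀ n : ℕ, ∀ T0, Lv G b W ν T0 → W.card - T0.card ≤ n →
      Conn K G b W ν e1 e2 T0 ∧ Surj K G b W ν e1 e2 T0 := by
  intro n
  induction n using Nat.strong_induction_on with
  | _ n ih =>
    intro T0 hT0 hn
    have hlt : ∀ T, Lv G b W ν T → T0 ⊆ T → T ≠ T0 →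
        Conn K G b W ν e1 e2 T ∧ Surj K G b W ν e1 e2 T := by
      intro T hT hsub hne
      have h1 : T0.card < T.card := Finset.card_lt_card (hsub.ssubset_of_ne hne.symm)
      have h2 : T.card ≤ W.card := Finset.card_le_card hT.1.1
      exact ih (W.card - T.card) (by omega) T hT le_rfl
    by_cases hA : ∀ T, Lv G b W ν T → T0 ⊆ T → T = T0
    · constructor
      · intro g _ M M' hM hM' h1 h2
        rw [hA M hM.1 h1, hA M' hM'.1 h2]
      · intro f
        refine ⟨fun _ => 0, ?_⟩
        intro T hT hE
        exfalso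
        have h1 := hA T hE.1 hT
        have h2 := hA _ hE.2.1.1 (hT.trans hE.2.2.2.1)
        exact hE.2.2.2.2.2.1 (h1.trans h2.symm)
    by_cases hB : ∃ M1 M2, Edg G b W ν T0 M1 M2
    · obtain ⟨M1, M2, hE0⟩ := hB
      have hE := he _ _ _ hE0
      constructor
      · intro g hg M M' hM hM' h1 h2
        have h3 := hg T0 (Finset.Subset.refl _) hE
        have h4 : ∀ M, Mx G b W ν M → T0 ⊆ M → g M = g (e1 T0) := by
          intro M hM hT0M
          rcases hE.2.2.2.2.2.2.2.2.1 M hM.1 hT0M with h5 | h5 | h5
          · exfalso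
            have := hM.2 _ hE.2.1.1 (by rw [h5]; exact hE.2.2.2.1)
            exact hE.2.2.2.2.2.1 (h5.symm.trans this.symm)
          · rw [h5]
          · rw [h5, h3]
        rw [h4 M hM h1, h4 M' hM' h2]
      · intro f
        refine ⟨fun M => if M = e1 T0 then f T0 else 0, ?_⟩
        intro T hT hET
        have hTT : T = T0 := by
          rcases hE.2.2.2.2.2.2.2.2.1 T hET.1 hT with h5 | h5 | h5
          · exact h5
          · exfalso
            have h6 := hE.2.1.2 _ hET.2.1.1 (h5 ▸ hET.2.2.2.1)
            exact hET.2.2.2.2.2.1 (h5.trans h6.symm)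
          · exfalso
            have h6 := hE.2.2.1.2 _ hET.2.1.1 (h5 ▸ hET.2.2.2.1)
            exact hET.2.2.2.2.2.1 (h5.trans h6.symm)
        subst hTT
        change (if e1 T = e1 T then f T else 0) - (if e2 T = e1 T then f T else 0) = f T
        rw [if_pos rfl, if_neg (Ne.symm hE.2.2.2.2.2.2.2.1), sub_zero]
    -- atoms
    set At : Finset V → Prop := fun a => Lv G b W ν a ∧ T0 ⊆ a ∧ a ≠ T0 ∧
      ∀ T, Lv G b W ν T → T0 ⊆ T → T ⊆ a → T = T0 ∨ T = a with hAt
    have hatom : ∀ T, Lv G b W ν T → T0 ⊆ T → T ≠ T0 → ∃ a, At a ∧ a ⊆ T := by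
      intro T hT hsub hne
      obtain ⟨a, ha, hmin⟩ := Finset.exists_min_image
        (Finset.univ.filter (fun S => Lv G b W ν S ∧ T0 ⊆ S ∧ S ≠ T0 ∧ S ⊆ T)) Finset.card
        ⟨T, by simp [hT, hsub, hne]⟩
      rw [Finset.mem_filter] at ha
      refine ⟨a, ⟨ha.2.1, ha.2.2.1, ha.2.2.2.1, ?_⟩, ha.2.2.2.2⟩
      intro S hS h1 h2
      by_cases h3 : S = T0
      · exact Or.inl h3
      · right
        have := hmin S (by simp [hS, h1, h3, h2.trans ha.2.2.2.2])
        exact Finset.eq_of_subset_of_card_le h2 this
    have hT0g := hT0.2.2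
    -- atoms are compatible
    have hcomp : ∀ a a', At a → At a' → Ind G W (a ∪ a') := by
      intro a a' ha ha'
      by_contra hU
      apply hB
      obtain ⟨h1, h2⟩ := incompat hG hb hb0 hT0g ha.1.1 ha'.1.1 ha.2.1 ha'.2.1 ha.1.2.1
        ha'.1.2.1 hU
      have hiso : Lv G b W ν (iso G a a') := by
        refine lv_of hT0g (iso_ind ha.1.1.1 ha'.1.1.1) ?_
          (pair_facts hT0g ha.1.1 ha'.1.1 ha.2.1 ha'.2.1 ha.1.2.1 ha'.1.2.1).2.1
        exact (Finset.subset_inter ha.2.1 ha'.2.1).trans (inter_sub_iso ha.1.1 ha'.1.1)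
      have hsubI : T0 ⊆ iso G a a' :=
        (Finset.subset_inter ha.2.1 ha'.2.1).trans (inter_sub_iso ha.1.1 ha'.1.1)
      have hia : iso G a a' ∩ a = T0 := by
        rcases ha.2.2.2 _ (lv_inter hT0g hiso ha.1 hsubI ha.2.1)
          (Finset.subset_inter hsubI ha.2.1) Finset.inter_subset_right with h3 | h3
        · exact h3
        · exfalso
          apply hU
          have h4 : a ⊆ iso G a a' := by
            intro x hx
            have : x ∈ iso G a a' ∩ a := by rw [h3]; exact hx
            exact (Finset.mem_inter.1 this).1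
          have h5 : a ∪ a' = a' ∪ iso G a' a := by
            rw [iso_comm a' a]
            apply Finset.Subset.antisymm
            · apply Finset.union_subset
              · exact h4.trans Finset.subset_union_right
              · exact Finset.subset_union_left
            · apply Finset.union_subset
              · exact Finset.subset_union_right
              · exact iso_sub
          rw [h5]
          exact union_iso_ind ha'.1.1 ha.1.1.1
      have hia' : iso G a a' ∩ a' = T0 := by
        rcases ha'.2.2.2 _ (lv_inter hT0g hiso ha'.1 hsubI ha'.2.1)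
          (Finset.subset_inter hsubI ha'.2.1) Finset.inter_subset_right with h3 | h3
        · exact h3
        · exfalso
          apply hU
          have h4 : a' ⊆ iso G a a' := by
            intro x hx
            have : x ∈ iso G a a' ∩ a' := by rw [h3]; exact hx
            exact (Finset.mem_inter.1 this).1
          have h5 : a ∪ a' = a ∪ iso G a a' := by
            apply Finset.Subset.antisymm
            · apply Finset.union_subset
              · exact Finset.subset_union_left
              · exact h4.trans Finset.subset_union_right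
            · apply Finset.union_subset
              · exact Finset.subset_union_left
              · exact iso_sub
          rw [h5]
          exact union_iso_ind ha.1.1 ha'.1.1.1
      have hi0 : iso G a a' = T0 := by
        apply Finset.Subset.antisymm _ hsubI
        intro x hx
        rcases Finset.mem_union.1 (iso_sub hx) with h3 | h3
        · rw [← hia]; exact Finset.mem_inter.2 ⟨hx, h3⟩
        · rw [← hia']; exact Finset.mem_inter.2 ⟨hx, h3⟩
      rw [hi0] at h1
      have hall : ∀ T, Lv G b W ν T → T0 ⊆ T → T = T0 ∨ T = a ∨ T = a' := by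
        intro T hT hsub
        have h3 : T = (T ∩ a) ∪ (T ∩ a') := by
          rw [← Finset.inter_union_distrib_left]
          symm
          rw [Finset.inter_eq_left]
          intro x hx
          rcases h1 x (hT.1.1 hx) with h4 | h4
          · exfalso
            obtain ⟨y, hy, h5⟩ := mem_nbh.1 h4
            exact hT.1.2 y (hsub hy) x hx h5
          · exact h4
        have h4 := ha.2.2.2 _ (lv_inter hT0g hT ha.1 hsub ha.2.1)
          (Finset.subset_inter hsub ha.2.1) Finset.inter_subset_right
        have h5 := ha'.2.2.2 _ (lv_inter hT0g hT ha'.1 hsub ha'.2.1)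
          (Finset.subset_inter hsub ha'.2.1) Finset.inter_subset_right
        rcases h4 with h4 | h4 <;> rcases h5 with h5 | h5
        · left; rw [h3, h4, h5, Finset.union_self]
        · right; right
          rw [h3, h4, h5]
          exact Finset.union_eq_right.2 ha'.2.1
        · right; left
          rw [h3, h4, h5]
          exact Finset.union_eq_left.2 ha.2.1
        · exfalso
          apply hU
          rw [h4, h5] at h3
          rw [← h3]
          exact hT.1
      have hne : a ≠ a' := by
        intro h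
        apply hU
        rw [← h, Finset.union_self]
        exact ha.1.1
      have hmx : ∀ p p' : Finset V, At p → At p' → p ≠ p' →
          (∀ T, Lv G b W ν T → T0 ⊆ T → T = T0 ∨ T = p ∨ T = p') → Mx G b W ν p := by
        intro p p' hp hp' hpp hallp
        refine ⟨hp.1, fun T hT hpT => ?_⟩
        rcases hallp T hT (hp.2.1.trans hpT) with h3 | h3 | h3
        · exfalso
          exact hp.2.2.1 (Finset.Subset.antisymm (h3 ▸ hpT) hp.2.1)
        · exact h3
        · exfalso
          rcases hp'.2.2.2 p hp.1 hp.2.1 (h3 ▸ hpT) with h4 | h4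
          · exact hp.2.2.1 h4
          · exact hpp h4
      exact ⟨a, a', hT0, hmx a a' ha ha' hne hall,
        hmx a' a ha' ha hne.symm (fun T h3 h4 => by
          rcases hall T h3 h4 with h | h | h
          · exact Or.inl h
          · exact Or.inr (Or.inr h)
          · exact Or.inr (Or.inl h)), ha.2.1, ha'.2.1, ha.2.2.1.symm, ha'.2.2.1.symm, hne,
        hall, h2⟩
    -- union of all atoms
    have hunion : ∀ A : Finset (Finset V), (∀ a ∈ A, At a) → Lv G b W ν (T0 ∪ A.sup id) := by
      intro A
      induction A using Finset.induction_on with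
      | empty => intro _; simpa using hT0
      | insert a A haA ihA =>
        intro hA'
        have h1 := ihA (fun a' ha' => hA' a' (Finset.mem_insert_of_mem ha'))
        have ha := hA' a (Finset.mem_insert_self _ _)
        have h2 : T0 ∪ (insert a A).sup id = (T0 ∪ A.sup id) ∪ a := by
          rw [Finset.sup_insert]
          simp only [id, Finset.sup_eq_union]
          ext x
          simp only [Finset.mem_union]
          tauto
        rw [h2]
        refine lv_union hT0g h1 ha.1 Finset.subset_union_left ha.2.1 ?_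
        refine ⟨Finset.union_subset h1.1.1 ha.1.1.1, ?_⟩
        have hcross : ∀ x ∈ T0 ∪ A.sup id, ∀ y ∈ a, ¬ G.Adj x y := by
          intro x hx y hy
          rcases Finset.mem_union.1 hx with h3 | h3
          · exact ha.1.1.2 x (ha.2.1 h3) y hy
          · rw [Finset.mem_sup] at h3
            obtain ⟨a', ha', hxa'⟩ := h3
            exact (hcomp a' a (hA' a' (Finset.mem_insert_of_mem ha')) ha).2 x
              (Finset.mem_union_left _ hxa') y (Finset.mem_union_right _ hy)
        intro x hx y hy hxy
        rcases Finset.mem_union.1 hx with h3 | h3 <;> rcases Finset.mem_union.1 hy with h4 | h4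
        · exact h1.1.2 x h3 y h4 hxy
        · exact hcross x h3 y h4 hxy
        · exact hcross y h4 x h3 hxy.symm
        · exact ha.1.1.2 x h3 y h4 hxy
    obtain ⟨Ms, hMs, hMsub⟩ := exists_mx (hunion (Finset.univ.filter At)
      (fun a ha => (Finset.mem_filter.1 ha).2))
    have haMs : ∀ a, At a → a ⊆ Ms := by
      intro a ha
      refine Finset.Subset.trans ?_ hMsub
      refine Finset.Subset.trans ?_ Finset.subset_union_right
      intro x hx
      rw [Finset.mem_sup]
      exact ⟨a, by simp [ha], hx⟩
    have hMxne : ∀ M, Mx G b W ν M → T0 ⊆ M → M ≠ T0 := by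
      intro M hM _ h
      apply hA
      intro T hT hsub
      rw [← h]
      exact hM.2 T hT (by rw [h]; exact hsub)
    constructor
    · intro g hg M M' hM hM' h1 h2
      have h4 : ∀ M, Mx G b W ν M → T0 ⊆ M → g M = g Ms := by
        intro M hM hT0M
        obtain ⟨a, ha, haM⟩ := hatom M hM.1 hT0M (hMxne M hM hT0M)
        exact (hlt a ha.1 ha.2.1 ha.2.2.1).1 g (fun T hT hE => hg T (ha.2.1.trans hT) hE)
          M Ms hM hMs haM (haMs a ha)
      rw [h4 M hM h1, h4 M' hM' h2]
    · intro f
      have hga : ∀ a, ∃ g : Finset V → K, At a → ∀ T, a ⊆ T → Edg G b W ν T (e1 T) (e2 T) →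
          g (e1 T) - g (e2 T) = f T := by
        intro a
        by_cases ha : At a
        · obtain ⟨g, hg⟩ := (hlt a ha.1 ha.2.1 ha.2.2.1).2 f
          exact ⟨g, fun _ => hg⟩
        · exact ⟨fun _ => 0, fun h => absurd h ha⟩
      choose ga hga using hga
      have hal : ∀ M : Finset V, ∃ a, (∃ a, At a ∧ a ⊆ M) → At a ∧ a ⊆ M := by
        intro M
        by_cases h : ∃ a, At a ∧ a ⊆ M
        · obtain ⟨a, ha⟩ := h
          exact ⟨a, fun _ => ha⟩
        · exact ⟨∅, fun h' => absurd h' h⟩
      choose al hal using hal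
      have hkey : ∀ M a, Mx G b W ν M → At a → a ⊆ M →
          ga (al M) M - ga (al M) Ms = ga a M - ga a Ms := by
        intro M a hM ha haM
        obtain ⟨ha', haM'⟩ := hal M ⟨a, ha, haM⟩
        set a' := al M
        have hUi : Ind G W (a ∪ a') := hM.1.1.mono (Finset.union_subset haM haM')
        have hU : Lv G b W ν (a ∪ a') := lv_union hT0g ha.1 ha'.1 ha.2.1 ha'.2.1 hUi
        have hUne : a ∪ a' ≠ T0 := by
          intro h
          apply ha.2.2.1
          apply Finset.Subset.antisymm _ ha.2.1
          rw [← h]; exact Finset.subset_union_left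
        have h1 := (hlt _ hU (ha.2.1.trans Finset.subset_union_left) hUne).1
          (fun M => ga a' M - ga a M) (by
            intro T hT hE
            have e1' := hga a ha T (Finset.subset_union_left.trans hT) hE
            have e2' := hga a' ha' T (Finset.subset_union_right.trans hT) hE
            linear_combination e2' - e1') M Ms hM hMs (Finset.union_subset haM haM')
            (Finset.union_subset (haMs a ha) (haMs a' ha'))
        linear_combination h1
      refine ⟨fun M => ga (al M) M - ga (al M) Ms, ?_⟩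
      intro T hT hE
      have hTne : T ≠ T0 := by
        rintro rfl
        exact hB ⟨_, _, hE⟩
      obtain ⟨a, ha, haT⟩ := hatom T hE.1 hT hTne
      have h1 := hkey (e1 T) a hE.2.1 ha (haT.trans hE.2.2.2.1)
      have h2 := hkey (e2 T) a hE.2.2.1 ha (haT.trans hE.2.2.2.2.1)
      have h3 := hga a ha T haT hE
      linear_combination h1 - h2 + h3

end Pool.Agent.H803R3
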