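import Mathlib
import Pool.Agent.H803R3.Tree

/-!
Exactness of the level complexes.
-/

set_option autoImplicit false
set_option linter.unusedSectionVars false

namespace Pool.Agent.H803R3

open Finset Classical

variable {V : Type*} [Fintype V] [LinearOrder V] {G : SimpleGraph V} {b : V → ℕ} {W : Finset V}
  {ν : ℤ} {K : Type*} [CommRing K]

/-- the sets of level `ν` -/
def En (G : SimpleGraph V) (b : V → ℕ) (W : Finset V) (ν : ℤ) (F : Finset V) : Prop :=
  (∃ T, Ind G W T ∧ F ⊆ T ∧ ww G b T = ν) ∧ Tg G b W ν F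

lemma En.conv : Conv (En G b W ν) := by
  rintro A B C hAB hBC ⟨_, hA⟩ ⟨⟨T, h1, h2, h3⟩, _⟩
  exact ⟨⟨T, h1, hBC.trans h2, h3⟩, hA.mono hAB⟩

lemma En.min {F : Finset V} (hF : En G b W ν F) :
    ∃ T0, Lv G b W ν T0 ∧ F ⊆ T0 ∧ ∀ T, Lv G b W ν T → F ⊆ T → T0 ⊆ T := by
  obtain ⟨⟨T, h1, h2, h3⟩, hg⟩ := hF
  obtain ⟨T0, hT0, hmin⟩ := Finset.exists_min_image
    (Finset.univ.filter (fun S => Lv G b W ν S ∧ F ⊆ S)) Finset.card
    ⟨T, by simp [h2, lv_of hg h1 h2 h3]⟩
  rw [Finset.mem_filter] at hT0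
  refine ⟨T0, hT0.2.1, hT0.2.2, fun S hS hFS => ?_⟩
  have h4 := lv_inter hg hT0.2.1 hS hT0.2.2 hFS
  have h5 := hmin (T0 ∩ S) (by simp [h4, Finset.subset_inter hT0.2.2 hFS])
  have h6 := Finset.eq_of_subset_of_card_le (Finset.inter_subset_left (s₂ := S)) h5
  rw [← h6]
  exact Finset.inter_subset_right

lemma c_iff {M : Finset V} (hM : Lv G b W ν M) (F : Finset V) :
    (F ⊆ M ∧ ¬ Dm (ww G b) M (ν - 1) F) ↔ (F ⊆ M ∧ En G b W ν F) := by
  constructor
  · rintro ⟨hFM, hD⟩
    refine ⟨hFM, ⟨M, hM.1, hFM, hM.2.1⟩, fun T hT hFT => ?_⟩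
    by_contra hcon
    push Not at hcon
    apply hD
    by_cases h1 : ww G b (T ∩ M) ≤ ν - 1
    · exact ⟨T ∩ M, Finset.subset_inter hFT hFM, Finset.inter_subset_right, h1⟩
    · have h2 := uncross (G := G) (b := b) T M
      have hind : Ind G W (M ∪ iso G M T) := union_iso_ind hM.1 hT.1
      have h3 := hM.2.2 _ hind Finset.subset_union_left
      rw [iso_comm M T] at h3
      have h4 := ww_subm G b (iso G T M) M
      rw [Finset.union_comm] at h3
      refine ⟨iso G T M ∩ M, Finset.subset_inter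
        ((Finset.subset_inter hFT hFM).trans (inter_sub_iso hT hM.1)) hFM,
        Finset.inter_subset_right, ?_⟩
      have h5 := hM.2.1
      push Not at h1
      linarith
  · rintro ⟨hFM, hE⟩
    refine ⟨hFM, ?_⟩
    rintro ⟨S, h1, h2, h3⟩
    have := hE.2 S (hM.1.mono h2) h1
    linarith

lemma mx_lv_sub {F T0 M : Finset V} (hF : Tg G b W ν F)
    (hmin : ∀ T, Lv G b W ν T → F ⊆ T → T0 ⊆ T) (hM : Lv G b W ν M) (hFM : F ⊆ M) : T0 ⊆ M :=
  hmin M hM hFM

theorem level_ex (hG : Gap G) (hb : ∀ x ∈ W, 1 ≤ b x) (hb0 : ∀ x, x ∉ W → b x = 0) (i : ℕ)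
    (hM : ∀ M, Mx G b W ν M → Ex K (fun F => F ⊆ M ∧ En G b W ν F) i)
    (hT : ∀ T M1 M2, Edg G b W ν T M1 M2 → ∀ j, i = j + 1 →
      Ex K (fun F => F ⊆ T ∧ En G b W ν F) j) : Ex K (En G b W ν) i := by
  -- endpoints
  have hends : ∀ T : Finset V, ∃ p : Finset V × Finset V, ∀ M1 M2, Edg G b W ν T M1 M2 →
      Edg G b W ν T p.1 p.2 := by
    intro T
    by_cases h : ∃ M1 M2, Edg G b W ν T M1 M2
    · obtain ⟨M1, M2, h⟩ := h
      exact ⟨(M1, M2), fun _ _ _ => h⟩
    · exact ⟨(∅, ∅), fun M1 M2 h' => absurd ⟨M1, M2, h'⟩ h⟩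
  choose ep hep using hends
  set e1 : Finset V → Finset V := fun T => (ep T).1 with he1
  set e2 : Finset V → Finset V := fun T => (ep T).2 with he2
  have he : ∀ T M1 M2, Edg G b W ν T M1 M2 → Edg G b W ν T (e1 T) (e2 T) := hep
  have htree := fun T0 (h : Lv G b W ν T0) =>
    tree (K := K) hG hb hb0 e1 e2 he _ T0 h le_rfl
  intro c hc hcyc
  -- local primitives
  have hE : ∀ M, ∃ e : Finset V → K, Mx G b W ν M →
      (∀ F, e F ≠ 0 → (F ⊆ M ∧ En G b W ν F) ∧ F.card + 1 = i) ∧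
      ∀ F, F ⊆ M ∧ En G b W ν F → cb e F = c F := by
    intro M
    by_cases h : Mx G b W ν M
    · obtain ⟨e, h1, h2⟩ := hM M h (rs (fun F => F ⊆ M) c) (by
        intro F hF
        obtain ⟨h3, h4⟩ := rs_ne hF
        exact ⟨⟨h3, (hc F h4).1⟩, (hc F h4).2⟩) (by
        rintro F ⟨h3, h4⟩
        rw [← hcyc F h4]
        refine cb_congr fun x _ => ?_
        rw [rs_pos (Q := fun F => F ⊆ M) ((Finset.erase_subset _ _).trans h3)])
      refine ⟨e, fun _ => ⟨h1, fun F hF => ?_⟩⟩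
      rw [h2 F hF, rs_pos (Q := fun F => F ⊆ M) hF.1]
    · exact ⟨fun _ => 0, fun h' => absurd h' h⟩
  choose E hE using hE
  -- differences on the edges
  have hH : ∀ T, ∃ h : Finset V → K, Edg G b W ν T (e1 T) (e2 T) →
      (∀ F, h F ≠ 0 → (F ⊆ T ∧ En G b W ν F) ∧ F.card + 2 = i) ∧
      ∀ F, F ⊆ T ∧ En G b W ν F → cb h F = E (e1 T) F - E (e2 T) F := by
    intro T
    by_cases h : Edg G b W ν T (e1 T) (e2 T)
    · have h1 := hE _ h.2.1
      have h2 := hE _ h.2.2.1
      rcases Nat.eq_zero_or_pos i with hi | hi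
      · refine ⟨fun _ => 0, fun _ => ⟨fun F hF => absurd rfl hF, fun F hF => ?_⟩⟩
        have h3 : E (e1 T) F = 0 := by
          by_contra h0
          have := (h1.1 F h0).2
          omega
        have h4 : E (e2 T) F = 0 := by
          by_contra h0
          have := (h2.1 F h0).2
          omega
        rw [h3, h4]
        simp [cb]
      · obtain ⟨j, hj⟩ : ∃ j, i = j + 1 := ⟨i - 1, by omega⟩
        obtain ⟨f, h3, h4⟩ := hT T _ _ h j hj
          (rs (fun F => F ⊆ T ∧ En G b W ν F) (fun F => E (e1 T) F - E (e2 T) F)) (by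
          intro F hF
          obtain ⟨h5, h6⟩ := rs_ne hF
          refine ⟨h5, ?_⟩
          by_cases h7 : E (e1 T) F = 0
          · have h8 : E (e2 T) F ≠ 0 := by
              intro h8
              apply h6
              rw [h7, h8, sub_zero]
            have := (h2.1 F h8).2
            omega
          · have := (h1.1 F h7).2
            omega) (by
          rintro F ⟨h5, h6⟩
          have h7 : cb (rs (fun F => F ⊆ T ∧ En G b W ν F)
              (fun F => E (e1 T) F - E (e2 T) F)) F = cb (fun F => E (e1 T) F - E (e2 T) F) F := by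
            refine cb_congr fun x hx => ?_
            by_cases h8 : F.erase x ⊆ T ∧ En G b W ν (F.erase x)
            · rw [rs_pos (Q := fun F => F ⊆ T ∧ En G b W ν F) h8]
            · rw [rs_neg (Q := fun F => F ⊆ T ∧ En G b W ν F) h8]
              have h9 : ¬ En G b W ν (F.erase x) := fun h9 =>
                h8 ⟨(Finset.erase_subset _ _).trans h5, h9⟩
              have h10 : E (e1 T) (F.erase x) = 0 := by
                by_contra h0
                exact h9 (h1.1 _ h0).1.2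
              have h11 : E (e2 T) (F.erase x) = 0 := by
                by_contra h0
                exact h9 (h2.1 _ h0).1.2
              rw [h10, h11, sub_zero]
          rw [h7, cb_sub, h1.2 F ⟨h5.trans h.2.2.2.1, h6⟩, h2.2 F ⟨h5.trans h.2.2.2.2.1, h6⟩,
            sub_self])
        refine ⟨f, fun _ => ⟨fun F hF => ⟨(h3 F hF).1, by have := (h3 F hF).2; omega⟩,
          fun F hF => ?_⟩⟩
        rw [h4 F hF, rs_pos (Q := fun F => F ⊆ T ∧ En G b W ν F) hF]
    · exact ⟨fun _ => 0, fun h' => absurd h' h⟩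
  choose H hH using hH
  -- correction terms
  have hg : ∀ F, ∃ g : Finset V → K, En G b W ν F →
      ∀ T, F ⊆ T → Edg G b W ν T (e1 T) (e2 T) → g (e1 T) - g (e2 T) = H T F := by
    intro F
    by_cases h : En G b W ν F
    · obtain ⟨T0, h1, h2, h3⟩ := h.min
      obtain ⟨g, hg⟩ := (htree T0 h1).2 (fun T => H T F)
      exact ⟨g, fun _ T hFT hET => hg T (h3 T hET.1 hFT) hET⟩
    · exact ⟨fun _ => 0, fun h' => absurd h' h⟩
  choose g hg using hg
  set k : Finset V → Finset V → K := fun M F =>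
    if (F ⊆ M ∧ En G b W ν F) ∧ F.card + 2 = i then g F M else 0 with hk
  have hk0 : ∀ M F, k M F ≠ 0 → (F ⊆ M ∧ En G b W ν F) ∧ F.card + 2 = i := by
    intro M F h
    by_contra h0
    apply h
    rw [hk]
    simp only
    rw [if_neg h0]
  set E' : Finset V → Finset V → K := fun M F =>
    E M F - rs (fun F => F ⊆ M ∧ En G b W ν F) (cb (k M)) F with hE'
  have hconvM : ∀ M, Conv (fun F => F ⊆ M ∧ En G b W ν F) := by
    intro M A B C hAB hBC hA hC
    exact ⟨hBC.trans hC.1, En.conv A B C hAB hBC hA.2 hC.2⟩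
  have hE'0 : ∀ M, Mx G b W ν M → ∀ F, E' M F ≠ 0 →
      (F ⊆ M ∧ En G b W ν F) ∧ F.card + 1 = i := by
    intro M hMx F hF
    by_cases h1 : E M F = 0
    · have h2 : rs (fun F => F ⊆ M ∧ En G b W ν F) (cb (k M)) F ≠ 0 := by
        intro h2
        apply hF
        rw [hE']
        simp only
        rw [h1, h2, sub_zero]
      obtain ⟨h3, h4⟩ := rs_ne h2
      refine ⟨h3, ?_⟩
      obtain ⟨x, hx, hne⟩ := cb_ne h4
      have h5 := (hk0 _ _ hne).2
      have := Finset.card_erase_add_one hx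
      omega
    · exact ((hE M hMx).1 F h1)
  have hE'cb : ∀ M, Mx G b W ν M → ∀ F, F ⊆ M ∧ En G b W ν F → cb (E' M) F = c F := by
    intro M hMx F hF
    rw [hE']
    simp only
    rw [cb_sub, (hE M hMx).2 F hF, cb_rs_cb (hconvM M) (fun F h => (hk0 M F h).1) hF, sub_zero]
  -- agreement on the edges
  have hagree : ∀ T, Edg G b W ν T (e1 T) (e2 T) → ∀ F, F ⊆ T → En G b W ν F →
      E' (e1 T) F = E' (e2 T) F := by
    intro T hET F hFT hF
    have h1 : F ⊆ e1 T ∧ En G b W ν F := ⟨hFT.trans hET.2.2.2.1, hF⟩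
    have h2 : F ⊆ e2 T ∧ En G b W ν F := ⟨hFT.trans hET.2.2.2.2.1, hF⟩
    rw [hE']
    simp only
    rw [rs_pos (Q := fun F => F ⊆ e1 T ∧ En G b W ν F) h1,
      rs_pos (Q := fun F => F ⊆ e2 T ∧ En G b W ν F) h2]
    have h3 := (hH T hET).2 F ⟨hFT, hF⟩
    have h4 : cb (H T) F = cb (k (e1 T)) F - cb (k (e2 T)) F := by
      rw [← cb_sub]
      refine cb_congr fun x hx => ?_
      have hs : F.erase x ⊆ F := Finset.erase_subset _ _
      by_cases h5 : En G b W ν (F.erase x) ∧ (F.erase x).card + 2 = i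
      · rw [hk]
        simp only
        rw [if_pos ⟨⟨hs.trans h1.1, h5.1⟩, h5.2⟩, if_pos ⟨⟨hs.trans h2.1, h5.1⟩, h5.2⟩,
          hg _ h5.1 T (hs.trans hFT) hET]
      · have h6 : H T (F.erase x) = 0 := by
          by_contra h0
          have h7 := (hH T hET).1 _ h0
          exact h5 ⟨h7.1.2, h7.2⟩
        have h7 : k (e1 T) (F.erase x) = 0 := by
          by_contra h0
          have h8 := hk0 _ _ h0
          exact h5 ⟨h8.1.2, h8.2⟩
        have h8 : k (e2 T) (F.erase x) = 0 := by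
          by_contra h0
          have h8 := hk0 _ _ h0
          exact h5 ⟨h8.1.2, h8.2⟩
        rw [h6, h7, h8, sub_zero]
    linear_combination h4 - h3
  -- independence of the choice
  have hindep : ∀ F, En G b W ν F → ∀ M M', Mx G b W ν M → Mx G b W ν M' → F ⊆ M → F ⊆ M' →
      E' M F = E' M' F := by
    intro F hF M M' hMx hMx' h1 h2
    obtain ⟨T0, h3, h4, h5⟩ := hF.min
    exact (htree T0 h3).1 (fun M => E' M F)
      (fun T hT hET => hagree T hET F (h4.trans hT) hF) M M' hMx hMx'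
      (h5 M hMx.1 h1) (h5 M' hMx'.1 h2)
  have hmu : ∀ F, ∃ M, En G b W ν F → Mx G b W ν M ∧ F ⊆ M := by
    intro F
    by_cases h : En G b W ν F
    · obtain ⟨T0, h3, h4, h5⟩ := h.min
      obtain ⟨M, h6, h7⟩ := exists_mx h3
      exact ⟨M, fun _ => ⟨h6, h4.trans h7⟩⟩
    · exact ⟨∅, fun h' => absurd h' h⟩
  choose mu hmu using hmu
  refine ⟨fun F => if En G b W ν F then E' (mu F) F else 0, ?_, ?_⟩
  · intro F hF
    by_cases h : En G b W ν F
    · simp only [h, if_true] at hF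
      exact ⟨h, (hE'0 _ (hmu F h).1 F hF).2⟩
    · simp only [h, if_false] at hF
      exact absurd rfl hF
  · intro F hF
    obtain ⟨h1, h2⟩ := hmu F hF
    rw [← hE'cb _ h1 F ⟨h2, hF⟩]
    refine cb_congr fun x hx => ?_
    by_cases h3 : En G b W ν (F.erase x)
    · simp only [h3, if_true]
      exact hindep _ h3 _ _ (hmu _ h3).1 h1 (hmu _ h3).2 ((Finset.erase_subset _ _).trans h2)
    · simp only [h3, if_false]
      symm
      by_contra h0
      exact h3 (hE'0 _ h1 _ h0).1.2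

/-- exactness of a level -/
theorem level_ex' (hG : Gap G) (hb : ∀ x ∈ W, 1 ≤ b x) (hb0 : ∀ x, x ∉ W → b x = 0) (i : ℕ)
    (hi : ν + 2 ≤ i ∨ (ν + 1 ≤ i ∧ ¬ Even (bs b W + ν))) : Ex K (En G b W ν) i := by
  have hC : ∀ (T : Finset V) (j : ℕ), Lv G b W ν T → ν + 1 ≤ j →
      Ex K (fun F => F ⊆ T ∧ En G b W ν F) j := by
    intro T j hT hj
    refine Ex.congr (c_iff hT) ?_
    have h1 := claimC (K := K) T (ww G b) (ww_subm G b) ww_empty j (by rw [hT.2.1]; exact hj)
    rw [hT.2.1] at h1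
    apply h1
    rcases T.eq_empty_or_nonempty with h2 | h2
    · right
      have h3 := hT.2.1
      rw [h2, ww_empty] at h3
      omega
    · left; exact h2
  refine level_ex hG hb hb0 i (fun M hM => hC M i hM.1 ?_) (fun T M1 M2 hE j hj => ?_)
  · rcases hi with h | h
    · omega
    · exact h.1
  · rcases hi with h | h
    · refine hC T j hE.1 ?_
      omega
    · exact absurd hE.2.2.2.2.2.2.2.2.2 h.2

end Pool.Agent.H803R3
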