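import Mathlib
import Pool.Agent.H803R3.Level

/-!
Exactness of the degree complexes of powers of gap-free edge ideals.
-/

set_option autoImplicit false
set_option linter.unusedSectionVars false

namespace Pool.Agent.H803R3

open Finset Classical

variable {V : Type*} [Fintype V] [LinearOrder V] {G : SimpleGraph V}
  {K : Type*} [CommRing K]

/-- degree complex -/
def Dl (G : SimpleGraph V) (b : V → ℕ) (W : Finset V) (m : ℤ) (F : Finset V) : Prop :=
  ∃ T, F ⊆ T ∧ Ind G W T ∧ ww G b T ≤ m

lemma Dl.conv {b : V → ℕ} {W : Finset V} {m : ℤ} : Conv (Dl G b W m) :=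
  Conv.of_down fun _ _ hAB ⟨T, h1, h2, h3⟩ => ⟨T, hAB.trans h1, h2, h3⟩

theorem lemS {b : V → ℕ} {W : Finset V} (hG : Gap G) (hb : ∀ x ∈ W, 1 ≤ b x)
    (hb0 : ∀ x, x ∉ W → b x = 0) (m : ℤ) (hodd : ¬ Even (bs b W + m)) (i : ℕ)
    (hi : m + 1 ≤ i) : Ex K (Dl G b W m) i := by
  refine filt (Dl G b W m) Dl.conv (fun F => (Finset.univ.filter
    (fun T => F ⊆ T ∧ Ind G W T)).inf (fun T => ((ww G b T : ℤ) : WithTop ℤ))) ?_ i ?_
  · intro A B hAB _ _
    apply Finset.inf_mono
    intro T
    simp only [Finset.mem_filter, Finset.mem_univ, true_and]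
    rintro ⟨h1, h2⟩
    exact ⟨hAB.trans h1, h2⟩
  · intro l
    have hle : ∀ F T, F ⊆ T → Ind G W T → (Finset.univ.filter
        (fun T => F ⊆ T ∧ Ind G W T)).inf (fun T => ((ww G b T : ℤ) : WithTop ℤ)) ≤
        ((ww G b T : ℤ) : WithTop ℤ) := by
      intro F T h1 h2
      exact Finset.inf_le (by simp [h1, h2])
    cases l with
    | top =>
      apply Ex.of_empty
      rintro F ⟨⟨T, h1, h2, _⟩, h4⟩
      have := hle F T h1 h2
      rw [h4] at this
      exact absurd this (by simp)
    | coe ν =>
      by_cases hν : ν ≤ m
      · refine Ex.congr (Q := En G b W ν) ?_ (level_ex' hG hb hb0 i ?_)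
        · intro F
          constructor
          · rintro ⟨⟨T, h1, h2, h3⟩, hg⟩
            refine ⟨⟨T, h2, h1, h3 ▸ hν⟩, ?_⟩
            apply le_antisymm
            · refine (hle F T h2 h1).trans ?_
              rw [h3]
            · apply Finset.le_inf
              intro S hS
              rw [Finset.mem_filter] at hS
              exact WithTop.coe_le_coe.2 (hg S hS.2.2 hS.2.1)
          · rintro ⟨⟨T, h1, h2, h3⟩, h4⟩
            obtain ⟨S, hS, hS'⟩ := Finset.exists_mem_eq_inf (Finset.univ.filter
              (fun T => F ⊆ T ∧ Ind G W T)) ⟨T, by simp [h1, h2]⟩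
              (fun T => ((ww G b T : ℤ) : WithTop ℤ))
            rw [Finset.mem_filter] at hS
            rw [hS'] at h4
            refine ⟨⟨S, hS.2.2, hS.2.1, WithTop.coe_injective h4⟩, ?_⟩
            intro R hR hFR
            have := hle F R hFR hR
            rw [hS', h4] at this
            exact WithTop.coe_le_coe.1 this
        · rcases lt_or_eq_of_le hν with h | h
          · left; omega
          · right
            subst h
            exact ⟨hi, hodd⟩
      · apply Ex.of_empty
        rintro F ⟨⟨T, h1, h2, h3⟩, h4⟩
        exfalso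
        have := hle F T h1 h2
        rw [h4] at this
        have := WithTop.coe_le_coe.1 this
        omega

lemma ww_erase_le {b : V → ℕ} {x : V} (hx : b x = 0) (T : Finset V) :
    ww G b (T.erase x) ≤ ww G b T := by
  unfold ww
  have h1 : bs b (nbh G (T.erase x)) ≤ bs b (nbh G T) := bs_mono (nbh_mono (Finset.erase_subset _ _))
  have h2 : bs b (T.erase x) = bs b T := by
    by_cases h : x ∈ T
    · have := Finset.add_sum_erase T (fun y => (b y : ℤ)) h
      unfold bs
      rw [← this, hx]
      simp
    · rw [Finset.erase_eq_of_notMem h]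
  linarith

lemma nbh_insert (x : V) (T : Finset V) : nbh G (insert x T) = nbh G {x} ∪ nbh G T := by
  rw [← nbh_union]; rfl

lemma mem_nbh_singleton {x y : V} : y ∈ nbh G {x} ↔ G.Adj x y := by
  simp [mem_nbh]

/-- adding an isolated vertex all of whose neighbours have weight zero -/
lemma toggle_iso {b : V → ℕ} {W : Finset V} {m : ℤ} (x : V) (hxW : x ∈ W)
    (hiso : ∀ z ∈ W, ¬ G.Adj x z) (hz : bs b (nbh G {x}) = 0) (i : ℕ) :
    Ex K (Dl G b W m) i := by
  apply toggle _ x
  intro F
  constructor
  · rintro ⟨T, h1, h2, h3⟩
    refine ⟨insert x T, Finset.insert_subset_insert _ h1, ⟨?_, ?_⟩, ?_⟩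
    · exact Finset.insert_subset_iff.2 ⟨hxW, h2.1⟩
    · intro p hp q hq hpq
      rcases Finset.mem_insert.1 hp with hp' | hp' <;>
        rcases Finset.mem_insert.1 hq with hq' | hq'
      · rw [hp', hq'] at hpq; exact G.loopless.irrefl _ hpq
      · rw [hp'] at hpq; exact hiso q (h2.1 hq') hpq
      · rw [hq'] at hpq; exact hiso p (h2.1 hp') hpq.symm
      · exact h2.2 p hp' q hq' hpq
    · refine le_trans ?_ h3
      unfold ww
      rw [nbh_insert]
      have e1 := bs_union_inter b (nbh G {x}) (nbh G T)
      have e2 := bs_nonneg b (nbh G {x} ∩ nbh G T)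
      have e3 : bs b T ≤ bs b (insert x T) := bs_mono (Finset.subset_insert _ _)
      linarith
  · rintro ⟨T, h1, h2⟩
    exact ⟨T, (Finset.subset_insert _ _).trans h1, h2⟩

theorem lemN (hG : Gap G) : ∀ (n : ℕ) (W : Finset V) (b : V → ℕ), W.card = n →
    (∀ x, x ∉ W → b x = 0) → ∀ m : ℤ, ¬ Even (bs b W + m) → m < bs b W →
    ∀ i : ℕ, m + 1 ≤ i → Ex K (Dl G b W m) i := by
  intro n
  induction n using Nat.strong_induction_on with
  | _ n ih =>
    intro W b hW hb0 m hodd hm i hi
    by_cases hb : ∀ x ∈ W, 1 ≤ b x
    · exact lemS hG hb hb0 m hodd i hi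
    push Not at hb
    obtain ⟨x0, hx0W, hx0⟩ := hb
    have hx0' : b x0 = 0 := by omega
    by_cases ha : ∃ x ∈ W, b x = 0 ∧ ∃ y, G.Adj x y ∧ 1 ≤ b y
    · obtain ⟨x, hxW, hx, y, hxy, hy⟩ := ha
      have hbsE : bs b (W.erase x) = bs b W := by
        have := Finset.add_sum_erase W (fun y => (b y : ℤ)) hxW
        unfold bs
        rw [← this, hx]
        simp
      have hcE : (W.erase x).card < n := by
        rw [← hW]; exact Finset.card_erase_lt_of_mem hxW
      refine split1 x _ Dl.conv i ?_ ?_
      · refine Ex.congr (Q := Dl G b (W.erase x) m) ?_ (ih _ hcE (W.erase x) b rfl ?_ m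
          (by rwa [hbsE]) (by rwa [hbsE]) i hi)
        · intro F
          constructor
          · rintro ⟨T, h1, h2, h3⟩
            have hxT : x ∉ T := fun h => Finset.notMem_erase x W (h2.1 h)
            exact ⟨⟨T, h1, ⟨h2.1.trans (Finset.erase_subset _ _), h2.2⟩, h3⟩, fun h => hxT (h1 h)⟩
          · rintro ⟨⟨T, h1, h2, h3⟩, hxF⟩
            refine ⟨T.erase x, ?_, ⟨Finset.erase_subset_erase _ h2.1, ?_⟩,
              (ww_erase_le hx T).trans h3⟩
            · intro z hz
              exact Finset.mem_erase.2 ⟨fun h => hxF (h ▸ hz), h1 hz⟩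
            · intro p hp q hq
              exact h2.2 p (Finset.mem_of_mem_erase hp) q (Finset.mem_of_mem_erase hq)
        · intro z hz
          by_cases hzx : z = x
          · rw [hzx]; exact hx
          · exact hb0 z (fun h => hz (Finset.mem_erase.2 ⟨hzx, h⟩))
      · rcases Nat.eq_zero_or_pos i with hi0 | hi0
        · apply Ex.of_empty
          rintro F ⟨_, hxF⟩ hcard
          rw [hi0, Finset.card_eq_zero] at hcard
          rw [hcard] at hxF
          exact Finset.notMem_empty _ hxF
        obtain ⟨j, rfl⟩ : ∃ j, i = j + 1 := ⟨i - 1, by omega⟩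
        set W' : Finset V := (W.erase x).filter (fun z => ¬ G.Adj x z) with hW'
        set b' : V → ℕ := fun z => if G.Adj x z then 0 else b z with hb'
        set β : ℤ := bs b (nbh G {x}) with hβ
        have hβ1 : 1 ≤ β := by
          have h1 : ({y} : Finset V) ⊆ nbh G {x} := by
            rw [Finset.singleton_subset_iff, mem_nbh_singleton]; exact hxy
          have h2 := bs_mono (b := b) h1
          have h3 : bs b ({y} : Finset V) = b y := by simp [bs]
          omega
        have hb'le : ∀ S : Finset V, (∀ z ∈ S, ¬ G.Adj x z) → bs b' S = bs b S := by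
          intro S hS
          apply Finset.sum_congr rfl
          intro z hz
          rw [hb']
          simp only
          rw [if_neg (hS z hz)]
        have hb'n : ∀ S : Finset V, bs b (nbh G {x} ∪ S) = β + bs b' S := by
          intro S
          have h1 : nbh G {x} ∪ S = nbh G {x} ∪ (S \ nbh G {x}) := by
            rw [Finset.union_sdiff_self_eq_union]
          rw [h1, bs_union b (Finset.disjoint_sdiff)]
          congr 1
          have h2 : bs b' S = bs b' (S \ nbh G {x}) := by
            symm
            apply Finset.sum_subset Finset.sdiff_subset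
            intro z hz hz'
            have : z ∈ nbh G {x} := by
              by_contra h
              exact hz' (Finset.mem_sdiff.2 ⟨hz, h⟩)
            rw [hb']
            simp only
            rw [if_pos (mem_nbh_singleton.1 this)]
            rfl
          rw [h2]
          symm
          apply hb'le
          intro z hz h
          exact (Finset.mem_sdiff.1 hz).2 (mem_nbh_singleton.2 h)
        have hwins : ∀ T' : Finset V, T' ⊆ W' → ww G b (insert x T') = β + ww G b' T' := by
          intro T' hT'
          have hxT : x ∉ T' := by
            intro h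
            have := hT' h
            rw [hW', Finset.mem_filter] at this
            exact Finset.notMem_erase x W this.1
          have hnT : ∀ z ∈ T', ¬ G.Adj x z := by
            intro z hz
            have := hT' hz
            rw [hW', Finset.mem_filter] at this
            exact this.2
          unfold ww
          rw [nbh_insert, hb'n, bs_insert b hxT, hx, hb'le T' hnT]
          push_cast
          ring
        have hbsW : bs b' W' = bs b W - β := by
          have h1 : bs b (W.erase x) = bs b (nbh G {x} ∪ W') := by
            apply Finset.sum_subset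
            · intro z hz
              rw [Finset.mem_union, mem_nbh_singleton, hW', Finset.mem_filter]
              by_cases h : G.Adj x z
              · exact Or.inl h
              · exact Or.inr ⟨hz, h⟩
            · intro z _ hz'
              by_cases hzx : z = x
              · rw [hzx, hx]; rfl
              · rw [hb0 z (fun h => hz' (Finset.mem_erase.2 ⟨hzx, h⟩))]; rfl
          linarith [hb'n W']
        have hcard' : W'.card < n := lt_of_le_of_lt (Finset.card_filter_le _ _) hcE
        have hA : Ex K (Dl G b' W' (m - β)) j := by
          refine ih _ hcard' W' b' rfl ?_ (m - β) ?_ ?_ j ?_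
          · intro z hz
            rw [hb']
            simp only
            by_cases h : G.Adj x z
            · rw [if_pos h]
            · rw [if_neg h]
              by_cases hzx : z = x
              · rw [hzx]; exact hx
              · apply hb0
                intro h1
                exact hz (Finset.mem_filter.2 ⟨Finset.mem_erase.2 ⟨hzx, h1⟩, h⟩)
          · rw [hbsW]
            intro he
            apply hodd
            have : bs b W + m = (bs b W - β + (m - β)) + 2 * β := by ring
            rw [this]
            exact he.add (even_two_mul β)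
          · rw [hbsW]; omega
          · push_cast at hi; omega
        refine Ex.congr ?_ (shift1 (K := K) x (Dl G b' W' (m - β)) (by
          rintro F ⟨T, h1, h2, _⟩ hxF
          have := h2.1 (h1 hxF)
          rw [hW', Finset.mem_filter] at this
          exact Finset.notMem_erase x W this.1) j hA)
        intro H
        constructor
        · rintro ⟨hxH, T, h1, h2, h3⟩
          refine ⟨⟨insert x T, ?_, ⟨?_, ?_⟩, ?_⟩, hxH⟩
          · rw [← Finset.insert_erase hxH]
            exact Finset.insert_subset_insert _ h1
          · refine Finset.insert_subset_iff.2 ⟨hxW, ?_⟩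
            intro z hz
            exact Finset.mem_of_mem_erase (Finset.mem_filter.1 (h2.1 hz)).1
          · intro p hp q hq hpq
            rcases Finset.mem_insert.1 hp with hp' | hp' <;>
              rcases Finset.mem_insert.1 hq with hq' | hq'
            · rw [hp', hq'] at hpq; exact G.loopless.irrefl _ hpq
            · rw [hp'] at hpq; exact (Finset.mem_filter.1 (h2.1 hq')).2 hpq
            · rw [hq'] at hpq; exact (Finset.mem_filter.1 (h2.1 hp')).2 hpq.symm
            · exact h2.2 p hp' q hq' hpq
          · rw [hwins T h2.1]; omega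
        · rintro ⟨⟨T, h1, h2, h3⟩, hxH⟩
          have hxT := h1 hxH
          have hsub : T.erase x ⊆ W' := by
            intro z hz
            rw [hW', Finset.mem_filter]
            refine ⟨Finset.erase_subset_erase _ h2.1 hz, ?_⟩
            exact h2.2 x hxT z (Finset.mem_of_mem_erase hz)
          refine ⟨hxH, T.erase x, Finset.erase_subset_erase _ h1, ⟨hsub, ?_⟩, ?_⟩
          · intro p hp q hq
            exact h2.2 p (Finset.mem_of_mem_erase hp) q (Finset.mem_of_mem_erase hq)
          · have := hwins _ hsub
            rw [Finset.insert_erase hxT] at this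
            omega
    · push Not at ha
      have ha' : ∀ x ∈ W, b x = 0 → ∀ y, G.Adj x y → b y = 0 := by
        intro x hx hbx y hxy
        have := ha x hx hbx y hxy
        omega
      have hnz : ∀ x ∈ W, b x = 0 → bs b (nbh G {x}) = 0 := by
        intro x hx hbx
        apply Finset.sum_eq_zero
        intro y hy
        rw [ha' x hx hbx y (mem_nbh_singleton.1 hy)]; rfl
      by_cases hiso : ∀ z ∈ W, ¬ G.Adj x0 z
      · exact toggle_iso x0 hx0W hiso (hnz x0 hx0W hx0') i
      · push Not at hiso
        obtain ⟨z0, hz0W, hz0⟩ := hiso
        have hbz0 := ha' x0 hx0W hx0' z0 hz0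
        by_cases hB : ∃ y ∈ W, 1 ≤ b y
        · obtain ⟨y, hyW, hy⟩ := hB
          have hyiso : ∀ v ∈ W, ¬ G.Adj y v := by
            intro v hv hyv
            by_cases hbv : b v = 0
            · have := ha' v hv hbv y hyv.symm
              omega
            · have h1 : x0 ≠ y := by rintro rfl; omega
              have h2 : x0 ≠ v := by rintro rfl; exact hbv hx0'
              have h3 : z0 ≠ y := by rintro rfl; omega
              have h4 : z0 ≠ v := by rintro rfl; exact hbv hbz0
              rcases hG x0 z0 y v hz0 hyv h1 h2 h3 h4 with h | h | h | h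
              · have := ha' x0 hx0W hx0' y h; omega
              · exact hbv (ha' x0 hx0W hx0' v h)
              · have := ha' z0 hz0W hbz0 y h; omega
              · exact hbv (ha' z0 hz0W hbz0 v h)
          refine toggle_iso y hyW hyiso ?_ i
          apply Finset.sum_eq_zero
          intro v hv
          rw [hb0 v (fun h => hyiso v h (mem_nbh_singleton.1 hv))]; rfl
        · push Not at hB
          have hb00 : ∀ x, b x = 0 := by
            intro x
            by_cases h : x ∈ W
            · have := hB x h; omega
            · exact hb0 x h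
          have hbs0 : ∀ S : Finset V, bs b S = 0 := by
            intro S
            apply Finset.sum_eq_zero
            intro y _
            rw [hb00 y]; rfl
          apply Ex.of_empty
          rintro F ⟨T, _, _, h3⟩
          exfalso
          unfold ww at h3
          rw [hbs0, hbs0] at h3
          rw [hbs0] at hm
          omega

/-- exactness of the degree complexes -/
theorem degC (hG : Gap G) (t : ℕ) (W : Finset V) (b : V → ℕ)
    (hb0 : ∀ x, x ∉ W → b x = 0) (N : ℤ) (hN : ¬ Even N)
    (H : ∀ i : ℕ, t + 2 ≤ i → Ex K (Ind G W) i) (i : ℕ) (h1 : N + 1 ≤ bs b W + i)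
    (h2 : 2 * (t : ℤ) + N + 3 ≤ 2 * (bs b W + i)) : Ex K (Dl G b W (N - bs b W)) i := by
  by_cases h : N < 2 * bs b W
  · refine lemN hG W.card W b rfl hb0 (N - bs b W) ?_ (by omega) i (by omega)
    have : bs b W + (N - bs b W) = N := by ring
    rwa [this]
  · push Not at h
    refine Ex.congr (Q := Ind G W) ?_ (H i (by omega))
    intro F
    constructor
    · intro hF
      refine ⟨F, Finset.Subset.refl _, hF, ?_⟩
      unfold ww
      have e1 : bs b (nbh G F) ≤ bs b W := by
        have : bs b (nbh G F) = bs b (nbh G F ∩ W) := by
          symm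
          apply Finset.sum_subset Finset.inter_subset_left
          intro y hy hy'
          rw [hb0 y (fun h => hy' (Finset.mem_inter.2 ⟨hy, h⟩))]; rfl
        rw [this]
        exact bs_mono Finset.inter_subset_right
      have e2 := bs_nonneg b F
      omega
    · rintro ⟨T, h1, h2, _⟩
      exact h2.mono h1

end Pool.Agent.H803R3
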