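import Mathlib
import Pool.Agent.H803R3.Local2

/-!
From multigraded chains to Koszul chains with polynomial coefficients.
-/

set_option autoImplicit false
set_option linter.unusedSectionVars false

namespace Pool.Agent.H803R3

open MvPolynomial

variable {n : ℕ}

/-- the edge ideal -/
noncomputable def eI (K : Type*) [CommRing K] (G : SimpleGraph (Fin n)) :
    Ideal (MvPolynomial (Fin n) K) :=
  Ideal.span {m : MvPolynomial (Fin n) K | ∃ a b, G.Adj a b ∧ m = X a * X b}

/-- degree of a multigraph as a finitely supported function -/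
noncomputable def dgF (M : Multiset (Sym2 (Fin n))) : Fin n →₀ ℕ :=
  Finsupp.equivFunOnFinite.symm (dg M)

@[simp] lemma dgF_apply (M : Multiset (Sym2 (Fin n))) (w : Fin n) : dgF M w = dg M w := rfl

lemma dgF_cons (a b : Fin n) (h : a ≠ b) (M : Multiset (Sym2 (Fin n))) :
    dgF (s(a, b) ::ₘ M) = Finsupp.single a 1 + Finsupp.single b 1 + dgF M := by
  ext w
  simp only [dgF_apply, Finsupp.add_apply, Finsupp.single_apply]
  rw [dg_cons_pair a b h]
  simp only [eq_comm (a := a), eq_comm (a := b)]
  ring

lemma pow_eq_span (K : Type*) [CommRing K] (G : SimpleGraph (Fin n)) (q : ℕ) :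
    eI K G ^ q = Ideal.span ((fun s => monomial s (1 : K)) ''
      {s | ∃ X, IsG G X ∧ Multiset.card X = q ∧ s = dgF X}) := by
  induction q with
  | zero =>
    rw [pow_zero, Ideal.one_eq_top, eq_comm, Ideal.eq_top_iff_one]
    apply Ideal.subset_span
    refine ⟨0, ⟨0, fun e he => absurd he (Multiset.notMem_zero e), rfl, ?_⟩, ?_⟩
    · ext w; simp
    · simp
  | succ q ih =>
    rw [pow_succ, ih, eI, Ideal.span_mul_span']
    apply le_antisymm
    · rw [Ideal.span_le]
      rintro _ ⟨_, ⟨s, ⟨X, h1, h2, rfl⟩, rfl⟩, _, ⟨a, b, hab, rfl⟩, rfl⟩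
      apply Ideal.subset_span
      refine ⟨dgF (s(a, b) ::ₘ X), ⟨s(a, b) ::ₘ X, h1.cons hab, by simp [h2], rfl⟩, ?_⟩
      rw [dgF_cons a b hab.ne]
      simp only [MvPolynomial.X, monomial_mul]
      congr 1
      · rw [add_comm (dgF X)]
      · simp
    · rw [Ideal.span_le]
      rintro _ ⟨s, ⟨X, h1, h2, rfl⟩, rfl⟩
      apply Ideal.subset_span
      have hpos : 0 < Multiset.card X := by omega
      obtain ⟨e, he⟩ := Multiset.card_pos_iff_exists_mem.1 hpos
      obtain ⟨X', rfl⟩ := Multiset.exists_cons_of_mem he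
      induction e using Sym2.ind with
      | h a b =>
        have hab : G.Adj a b := h1 _ he
        refine ⟨_, ⟨dgF X', ⟨X', h1.of_cons, by simpa using h2, rfl⟩, rfl⟩, _, ⟨a, b, hab, rfl⟩, ?_⟩
        simp only
        rw [dgF_cons a b hab.ne]
        simp only [MvPolynomial.X, monomial_mul]
        congr 1
        · rw [add_comm (dgF X')]
        · simp

lemma mem_pow_iff (K : Type*) [CommRing K] (G : SimpleGraph (Fin n)) (q : ℕ)
    (p : MvPolynomial (Fin n) K) :
    p ∈ eI K G ^ q ↔ ∀ m ∈ p.support, ∃ X, IsG G X ∧ Multiset.card X = q ∧ ∀ w, dg X w ≤ m w := by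
  rw [pow_eq_span, mem_ideal_span_monomial_image]
  constructor
  · intro h m hm
    obtain ⟨s, ⟨X, h1, h2, rfl⟩, h3⟩ := h m hm
    exact ⟨X, h1, h2, fun w => h3 w⟩
  · intro h m hm
    obtain ⟨X, h1, h2, h3⟩ := h m hm
    exact ⟨dgF X, ⟨X, h1, h2, rfl⟩, fun w => h3 w⟩

/-- indicator of a finset -/
noncomputable def ind (T : Finset (Fin n)) : Fin n →₀ ℕ :=
  Finsupp.equivFunOnFinite.symm (fun w => if w ∈ T then 1 else 0)

@[simp] lemma ind_apply (T : Finset (Fin n)) (w : Fin n) : ind T w = if w ∈ T then 1 else 0 := rfl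

lemma ind_insert {T : Finset (Fin n)} {t : Fin n} (ht : t ∉ T) :
    ind (insert t T) = ind T + Finsupp.single t 1 := by
  ext w
  simp only [ind_apply, Finsupp.add_apply, Finsupp.single_apply, Finset.mem_insert]
  by_cases h : w = t
  · subst h; simp [ht]
  · simp [h, Ne.symm h]

lemma degree_ind (T : Finset (Fin n)) : ∑ w, ind T w = T.card := by
  simp

/-- the multigraded component of a Koszul chain -/
noncomputable def comp {K : Type*} [CommRing K] (f : Finset (Fin n) → MvPolynomial (Fin n) K)
    (a : Fin n →₀ ℕ) (T : Finset (Fin n)) : K :=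
  if ind T ≤ a then coeff (a - ind T) (f T) else 0

theorem lift_acyc {K : Type*} [CommRing K] (G : SimpleGraph (Fin n)) (q i d : ℕ)
    (h : ∀ a : Fin n → ℕ, ∑ w, a w = i + d → Acyc K Finset.univ (Face G a q) i)
    (f : Finset (Fin n) → MvPolynomial (Fin n) K)
    (hf1 : ∀ T : Finset (Fin n), T.card ≠ i → f T = 0)
    (hf2 : ∀ T : Finset (Fin n), f T ∈ eI K G ^ q ∧ (f T).IsHomogeneous d)
    (hf3 : ∀ S : Finset (Fin n),
      ∑ t ∈ Finset.univ \ S,
        (-1 : MvPolynomial (Fin n) K) ^ (S.filter (· < t)).card * X t * f (insert t S) = 0) :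
    ∃ g : Finset (Fin n) → MvPolynomial (Fin n) K,
      (∀ U : Finset (Fin n), U.card ≠ i + 1 → g U = 0) ∧
      (∀ U : Finset (Fin n), g U ∈ eI K G ^ q ∧ (g U).IsHomogeneous (d - 1)) ∧
      (∀ T : Finset (Fin n),
        f T = ∑ t ∈ Finset.univ \ T,
          (-1 : MvPolynomial (Fin n) K) ^ (T.filter (· < t)).card * X t * g (insert t T)) := by
  classical
  -- coefficient of a signed multiple
  have hcoef : ∀ (k : ℕ) (t : Fin n) (p : MvPolynomial (Fin n) K) (m : Fin n →₀ ℕ),
      coeff m ((-1 : MvPolynomial (Fin n) K) ^ k * X t * p) =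
      (-1 : K) ^ k * (if t ∈ m.support then coeff (m - Finsupp.single t 1) p else 0) := by
    intro k t p m
    have : (-1 : MvPolynomial (Fin n) K) ^ k = C ((-1 : K) ^ k) := by simp
    rw [this, mul_assoc, coeff_C_mul, coeff_X_mul']
  have hcomp : ∀ a T, comp f a T ≠ 0 → T.card = i ∧ Face G a q T ∧ ∑ w, a w = i + d := by
    intro a T hT
    unfold comp at hT
    split_ifs at hT with hle
    · have hcard : T.card = i := by
        by_contra hne
        rw [hf1 T hne] at hT
        simp at hT
      have hm : a - ind T ∈ (f T).support := mem_support_iff.2 hT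
      obtain ⟨X, h1, h2, h3⟩ := (mem_pow_iff K G q (f T)).1 (hf2 T).1 _ hm
      refine ⟨hcard, ⟨X, h1, h2, fun w => ?_⟩, ?_⟩
      · have e1 := h3 w
        have e2 := hle w
        rw [Finsupp.tsub_apply, ind_apply] at e1
        rw [ind_apply] at e2
        omega
      · have hd := (hf2 T).2 hT
        have h4 : (a - ind T).degree = d := by
          rw [Finsupp.degree_eq_weight_one]; exact hd
        have h5 : a = (a - ind T) + ind T := (tsub_add_cancel_of_le hle).symm
        have h6 : ∑ w, a w = ∑ w, (a - ind T) w + ∑ w, ind T w := by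
          rw [← Finset.sum_add_distrib]
          exact Finset.sum_congr rfl fun w _ => by
            conv_lhs => rw [h5]
            rfl
        rw [h6, degree_ind, hcard, ← h4, Finsupp.degree_eq_sum]
        ring
    · exact absurd rfl hT
  have hcyc : ∀ a S, bd Finset.univ (comp f a) S = 0 := by
    intro a S
    by_cases hle : ind S ≤ a
    · have h1 := congrArg (coeff (a - ind S)) (hf3 S)
      rw [coeff_sum, coeff_zero] at h1
      rw [← h1, bd]
      refine Finset.sum_congr rfl fun t ht => ?_
      rw [Finset.mem_sdiff] at ht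
      rw [hcoef, sg]
      congr 1
      unfold comp
      have hiff : ind (insert t S) ≤ a ↔ t ∈ (a - ind S).support := by
        rw [Finsupp.mem_support_iff, Finsupp.tsub_apply, ind_apply, if_neg ht.2, tsub_zero]
        constructor
        · intro h
          have := h t
          rw [ind_apply, if_pos (Finset.mem_insert_self _ _)] at this
          omega
        · intro h w
          have := hle w
          rw [ind_apply] at this ⊢
          by_cases hw : w = t
          · subst hw
            rw [if_pos (Finset.mem_insert_self _ _)]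
            omega
          · have hiff : (w ∈ insert t S) ↔ w ∈ S := by simp [hw]
            simp only [hiff]
            exact this
      by_cases hc : ind (insert t S) ≤ a
      · rw [if_pos hc, if_pos (hiff.1 hc), ind_insert ht.2, tsub_add_eq_tsub_tsub]
      · rw [if_neg hc, if_neg (fun h => hc (hiff.2 h))]
    · rw [bd]
      refine Finset.sum_eq_zero fun t ht => ?_
      rw [Finset.mem_sdiff] at ht
      unfold comp
      rw [if_neg, mul_zero]
      intro hc
      apply hle
      refine le_trans ?_ hc
      rw [ind_insert ht.2]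
      exact le_self_add
  -- choose bounding chains
  have hex : ∀ a : Fin n →₀ ℕ, ∃ b : Finset (Fin n) → K,
      (∀ T, b T ≠ 0 → Face G a q T ∧ T.card = i + 1 ∧ ∑ w, a w = i + d ∧ ∃ T', comp f a T' ≠ 0) ∧
      ∀ T, bd Finset.univ b T = comp f a T := by
    intro a
    by_cases h0 : ∃ T', comp f a T' ≠ 0
    · obtain ⟨T', hT'⟩ := h0
      have hs := (hcomp a T' hT').2.2
      obtain ⟨b, hb1, hb2⟩ := h a hs (comp f a)
        (fun T hT => ⟨Finset.subset_univ _, (hcomp a T hT).2.1, (hcomp a T hT).1⟩) (hcyc a)
      exact ⟨b, fun T hT => ⟨(hb1 T hT).2.1, (hb1 T hT).2.2, hs, T', hT'⟩, hb2⟩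
    · push Not at h0
      exact ⟨fun _ => 0, by simp, fun T => by rw [h0 T]; simp [bd]⟩
  choose b hb1 hb2 using hex
  -- the finite set of multidegrees
  set 𝒜 : Finset (Fin n →₀ ℕ) :=
    (Finset.univ : Finset (Finset (Fin n))).biUnion (fun T => (f T).support.image (· + ind T))
    with hA
  have hmemA : ∀ a, (∃ T', comp f a T' ≠ 0) → a ∈ 𝒜 := by
    rintro a ⟨T, hT⟩
    unfold comp at hT
    split_ifs at hT with hle
    · rw [hA, Finset.mem_biUnion]
      exact ⟨T, Finset.mem_univ _, Finset.mem_image.2 ⟨a - ind T, mem_support_iff.2 hT,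
        tsub_add_cancel_of_le hle⟩⟩
    · exact absurd rfl hT
  set g : Finset (Fin n) → MvPolynomial (Fin n) K :=
    fun U => ∑ a ∈ 𝒜, monomial (a - ind U) (b a U) with hg
  have hbind : ∀ a U, b a U ≠ 0 → ind U ≤ a := by
    intro a U h0 w
    obtain ⟨⟨X, _, _, h3⟩, _⟩ := hb1 a U h0
    have := h3 w
    rw [ind_apply]
    omega
  have hgcoef : ∀ U m, coeff m (g U) = b (m + ind U) U := by
    intro U m
    rw [hg]
    simp only [coeff_sum, coeff_monomial]
    have h1 : ∀ a ∈ 𝒜, (if a - ind U = m then b a U else 0) =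
        if a = m + ind U then b (m + ind U) U else 0 := by
      intro a _
      by_cases h0 : b a U = 0
      · by_cases h2 : a = m + ind U
        · rw [if_pos h2, ← h2, h0]; simp
        · rw [if_neg h2, h0]; simp
      · have h3 := hbind a U h0
        by_cases h2 : a = m + ind U
        · rw [if_pos h2, h2, if_pos (by simp)]
        · rw [if_neg h2, if_neg]
          intro h4
          apply h2
          rw [← h4, tsub_add_cancel_of_le h3]
    rw [Finset.sum_congr rfl h1, Finset.sum_ite_eq' 𝒜 (m + ind U) (fun _ => b (m + ind U) U)]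
    split_ifs with h2
    · rfl
    · by_contra h3
      exact h2 (hmemA _ (hb1 _ U (Ne.symm h3)).2.2.2)
  refine ⟨g, ?_, ?_, ?_⟩
  · intro U hU
    ext m
    rw [hgcoef, coeff_zero]
    by_contra h0
    exact hU (hb1 _ U h0).2.1
  · intro U
    constructor
    · rw [mem_pow_iff]
      intro m hm
      rw [mem_support_iff, hgcoef] at hm
      obtain ⟨⟨X, h1, h2, h3⟩, _⟩ := hb1 _ U hm
      refine ⟨X, h1, h2, fun w => ?_⟩
      have := h3 w
      rw [Finsupp.add_apply, ind_apply] at this
      omega
    · intro m hm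
      rw [hgcoef] at hm
      obtain ⟨_, h2, h3, _⟩ := hb1 _ U hm
      have h4 : m.degree = d - 1 := by
        rw [Finsupp.degree_eq_sum]
        have h5 : ∑ w, (m + ind U) w = ∑ w, m w + ∑ w, ind U w := by
          rw [← Finset.sum_add_distrib]; rfl
        rw [h5, degree_ind] at h3
        omega
      rw [Finsupp.degree_eq_weight_one] at h4; exact h4
  · intro T
    ext m
    rw [coeff_sum]
    have h1 : coeff m (f T) = comp f (m + ind T) T := by
      unfold comp
      rw [if_pos le_add_self]
      simp
    rw [h1, ← hb2, bd]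
    refine Finset.sum_congr rfl fun t ht => ?_
    rw [Finset.mem_sdiff] at ht
    rw [hcoef, sg]
    congr 1
    by_cases hm : t ∈ m.support
    · rw [if_pos hm, hgcoef, ind_insert ht.2]
      congr 1
      rw [Finsupp.mem_support_iff] at hm
      ext w
      simp only [Finsupp.add_apply, Finsupp.tsub_apply, Finsupp.single_apply]
      by_cases hw : t = w
      · subst hw; simp only [if_true]; omega
      · simp [hw]
    · rw [if_neg hm]
      by_contra h0
      have := hbind _ _ h0 t
      rw [ind_apply, if_pos (Finset.mem_insert_self _ _), Finsupp.add_apply, ind_apply,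
        if_neg ht.2] at this
      rw [Finsupp.mem_support_iff, not_not] at hm
      omega

end Pool.Agent.H803R3
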