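import Mathlib
import Pool.Agent.H803R3.Poly

/-!
Castelnuovo-Mumford regularity through Koszul homology, for ideals of a polynomial ring.
-/

set_option autoImplicit false
set_option linter.unusedSectionVars false

namespace Pool.Agent.H803R3

open MvPolynomial

/-- The edge ideal `I(G)`, generated by the monomials `x_a x_b` with `ab` an edge. -/
noncomputable def edgeIdeal (K : Type*) [Field K] {n : ℕ} (G : SimpleGraph (Fin n)) :
    Ideal (MvPolynomial (Fin n) K) :=
  Ideal.span {m : MvPolynomial (Fin n) K | ∃ a b, G.Adj a b ∧ m = X a * X b}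

/-- The Koszul differential of `x_1, ..., x_n`; the chain `f` stands for `∑ f T e_T`. -/
noncomputable def koszulD {K : Type*} [Field K] {n : ℕ}
    (f : Finset (Fin n) → MvPolynomial (Fin n) K) (S : Finset (Fin n)) : MvPolynomial (Fin n) K :=
  ∑ t ∈ Finset.univ \ S,
    (-1 : MvPolynomial (Fin n) K) ^ (S.filter (· < t)).card * X t * f (insert t S)

/-- `HasTor J i d`: the Koszul homology `H_i(x_1, ..., x_n; J) = Tor_i(J, K)` is nonzero in
internal degree `i + d`, that is, there is a Koszul `i`-cycle with coefficients in `J`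
homogeneous of degree `d` which is not the boundary of a chain with coefficients in `J`. -/
def HasTor {K : Type*} [Field K] {n : ℕ} (J : Ideal (MvPolynomial (Fin n) K)) (i d : ℕ) : Prop :=
  ∃ f : Finset (Fin n) → MvPolynomial (Fin n) K,
    (∀ T : Finset (Fin n), T.card ≠ i → f T = 0) ∧
    (∀ T : Finset (Fin n), f T ∈ J ∧ (f T).IsHomogeneous d) ∧
    (∀ S : Finset (Fin n), koszulD f S = 0) ∧
    ¬ ∃ g : Finset (Fin n) → MvPolynomial (Fin n) K,
      (∀ U : Finset (Fin n), U.card ≠ i + 1 → g U = 0) ∧ (∀ U : Finset (Fin n), g U ∈ J) ∧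
      ∀ T : Finset (Fin n), f T = koszulD g T

/-- The Castelnuovo-Mumford regularity `max {j - i : Tor_i(J, K)_j ≠ 0}`. -/
noncomputable def reg {K : Type*} [Field K] {n : ℕ} (J : Ideal (MvPolynomial (Fin n) K)) : ℕ∞ :=
  ⨆ (d : ℕ) (_ : ∃ i, HasTor J i d), (d : ℕ∞)

variable {K : Type*} [Field K] {n : ℕ}

lemma edgeIdeal_eq (G : SimpleGraph (Fin n)) : edgeIdeal K G = eI K G := rfl

lemma le_reg {J : Ideal (MvPolynomial (Fin n) K)} {i d : ℕ} (h : HasTor J i d) :
    (d : ℕ∞) ≤ reg J := by
  unfold reg
  exact le_iSup_of_le d (le_iSup_of_le ⟨i, h⟩ le_rfl)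

lemma reg_le {J : Ideal (MvPolynomial (Fin n) K)} {r : ℕ}
    (h : ∀ i d, r < d → ¬ HasTor J i d) : reg J ≤ r := by
  unfold reg
  refine iSup_le fun d => iSup_le fun hd => ?_
  obtain ⟨i, hi⟩ := hd
  by_contra hcon
  have : r < d := by
    by_contra h2
    exact hcon (by exact_mod_cast not_lt.1 h2)
  exact h i d this hi

/-- coefficient of a signed multiple -/
lemma coeff_sgn (k : ℕ) (t : Fin n) (p : MvPolynomial (Fin n) K) (m : Fin n →₀ ℕ) :
    coeff m ((-1 : MvPolynomial (Fin n) K) ^ k * X t * p) =
      (-1 : K) ^ k * (if t ∈ m.support then coeff (m - Finsupp.single t 1) p else 0) := by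
  have : (-1 : MvPolynomial (Fin n) K) ^ k = C ((-1 : K) ^ k) := by simp
  rw [this, mul_assoc, coeff_C_mul, coeff_X_mul']

/-- taking multigraded components commutes with the differential -/
lemma comp_koszulD (g : Finset (Fin n) → MvPolynomial (Fin n) K) (a : Fin n →₀ ℕ)
    (S : Finset (Fin n)) : comp (koszulD g) a S = bd Finset.univ (comp g a) S := by
  by_cases hle : ind S ≤ a
  · unfold comp koszulD
    rw [if_pos hle, coeff_sum, bd]
    refine Finset.sum_congr rfl fun t ht => ?_
    rw [Finset.mem_sdiff] at ht
    rw [coeff_sgn, sg]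
    congr 1
    have hiff : ind (insert t S) ≤ a ↔ t ∈ (a - ind S).support := by
      rw [Finsupp.mem_support_iff, Finsupp.tsub_apply, ind_apply, if_neg ht.2, tsub_zero]
      constructor
      · intro h
        have := h t
        rw [ind_apply, if_pos (Finset.mem_insert_self _ _)] at this
        omega
      · intro h w
        have := hle w
        rw [ind_apply] at this ⊢
        by_cases hw : w = t
        · subst hw
          rw [if_pos (Finset.mem_insert_self _ _)]
          omega
        · have hiff : (w ∈ insert t S) ↔ w ∈ S := by simp [hw]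
          simp only [hiff]
          exact this
    by_cases hc : ind (insert t S) ≤ a
    · rw [if_pos hc, if_pos (hiff.1 hc), ind_insert ht.2, tsub_add_eq_tsub_tsub]
    · rw [if_neg hc, if_neg (fun h => hc (hiff.2 h))]
  · rw [bd]
    unfold comp
    rw [if_neg hle]
    symm
    refine Finset.sum_eq_zero fun t ht => ?_
    rw [Finset.mem_sdiff] at ht
    rw [if_neg, mul_zero]
    intro hc
    apply hle
    refine le_trans ?_ hc
    rw [ind_insert ht.2]
    exact le_self_add

lemma comp_face (G : SimpleGraph (Fin n)) (q : ℕ)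
    (g : Finset (Fin n) → MvPolynomial (Fin n) K) (hg : ∀ U, g U ∈ edgeIdeal K G ^ q)
    (a : Fin n →₀ ℕ) (U : Finset (Fin n)) (h : comp g a U ≠ 0) : Face G a q U := by
  unfold comp at h
  split_ifs at h with hle
  · have hm : a - ind U ∈ (g U).support := mem_support_iff.2 h
    obtain ⟨X, h1, h2, h3⟩ := (mem_pow_iff K G q (g U)).1 (hg U) _ hm
    refine ⟨X, h1, h2, fun w => ?_⟩
    have e1 := h3 w
    have e2 := hle w
    rw [Finsupp.tsub_apply, ind_apply] at e1
    rw [ind_apply] at e2
    omega
  · exact absurd rfl h

/-- the differential squares to zero -/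
lemma koszulD_koszulD (g : Finset (Fin n) → MvPolynomial (Fin n) K) (S : Finset (Fin n)) :
    koszulD (koszulD g) S = 0 := by
  ext m
  have h1 : coeff m (koszulD (koszulD g) S) = comp (koszulD (koszulD g)) (m + ind S) S := by
    unfold comp
    rw [if_pos le_add_self]
    simp
  rw [h1, comp_koszulD, coeff_zero]
  have h2 : comp (koszulD g) (m + ind S) = bd Finset.univ (comp g (m + ind S)) := by
    funext T
    exact comp_koszulD g _ T
  rw [h2, bd_bd]

/-- acyclicity gives vanishing -/
lemma not_hasTor (G : SimpleGraph (Fin n)) (q i d : ℕ)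
    (h : ∀ a : Fin n → ℕ, ∑ w, a w = i + d → Acyc K Finset.univ (Face G a q) i) :
    ¬ HasTor (edgeIdeal K G ^ q) i d := by
  rintro ⟨f, h1, h2, h3, h4⟩
  obtain ⟨g, g1, g2, g3⟩ := lift_acyc G q i d h f h1 h2 h3
  exact h4 ⟨g, g1, fun U => (g2 U).1, g3⟩

/-- a nonzero class from a missing face: if `U0` is not killed by chains on faces -/
lemma hasTor_of_missing (G : SimpleGraph (Fin n)) (q i d : ℕ) (a : Fin n → ℕ)
    (ha : ∑ w, a w = i + d) (U0 : Finset (Fin n)) (hU0 : U0.card = i + 1)
    (hle : ∀ w ∈ U0, 1 ≤ a w)
    (hfaces : ∀ t ∈ U0, Face G a q (U0.erase t))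
    (hno : ∀ c : Finset (Fin n) → K, (∀ S, bd Finset.univ c S = 0) →
      (∀ U, U ≠ U0 → c U ≠ 0 → U.card = i + 1 ∧ Face G a q U) → c U0 ≠ 0 → Face G a q U0) 
    (hnf : ¬ Face G a q U0) :
    HasTor (edgeIdeal K G ^ q) i d := by
  classical
  set af : Fin n →₀ ℕ := Finsupp.equivFunOnFinite.symm a with haf
  have hafw : ∀ w, af w = a w := fun w => rfl
  have hind : ind U0 ≤ af := by
    intro w
    rw [ind_apply, hafw]
    split_ifs with h
    · exact hle w h
    · exact Nat.zero_le _
  set e : Finset (Fin n) → MvPolynomial (Fin n) K :=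
    fun U => if U = U0 then monomial (af - ind U0) 1 else 0 with he
  have hcompe : ∀ U, comp e af U = if U = U0 then 1 else 0 := by
    intro U
    unfold comp
    by_cases hU : U = U0
    · subst hU
      rw [if_pos hind]
      simp [he]
    · simp [he, hU]
  have hcompe2 : ∀ b, b ≠ af → ∀ U, comp e b U = 0 := by
    intro b hb U
    unfold comp
    split_ifs with hbl
    · by_cases hU : U = U0
      · subst hU
        simp only [he, if_true, coeff_monomial]
        rw [if_neg]
        intro h
        apply hb
        rw [← tsub_add_cancel_of_le hbl, ← tsub_add_cancel_of_le hind, h]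
      · simp [he, hU]
    · rfl
  have hDe : ∀ T m, coeff m (koszulD e T) ≠ 0 → m + ind T = af ∧ ∃ t ∈ U0, T = U0.erase t := by
    intro T m hm
    have h1 : coeff m (koszulD e T) = comp (koszulD e) (m + ind T) T := by
      unfold comp
      rw [if_pos le_add_self]
      simp
    rw [h1, comp_koszulD, bd] at hm
    obtain ⟨t, ht, hne⟩ := Finset.exists_ne_zero_of_sum_ne_zero hm
    rw [Finset.mem_sdiff] at ht
    have h2 : comp e (m + ind T) (insert t T) ≠ 0 := fun h0 => hne (by rw [h0, mul_zero])
    have h3 : m + ind T = af := by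
      by_contra h4
      exact h2 (hcompe2 _ h4 _)
    refine ⟨h3, t, ?_, ?_⟩
    · rw [h3, hcompe] at h2
      have : insert t T = U0 := by
        by_contra h4
        rw [if_neg h4] at h2
        exact h2 rfl
      rw [← this]; exact Finset.mem_insert_self _ _
    · rw [h3, hcompe] at h2
      have : insert t T = U0 := by
        by_contra h4
        rw [if_neg h4] at h2
        exact h2 rfl
      rw [← this, Finset.erase_insert ht.2]
  refine ⟨koszulD e, ?_, ?_, koszulD_koszulD e, ?_⟩
  · intro T hT
    ext m
    rw [coeff_zero]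
    by_contra h0
    obtain ⟨_, t, ht, rfl⟩ := hDe T m h0
    rw [Finset.card_erase_of_mem ht] at hT
    omega
  · intro T
    constructor
    · rw [edgeIdeal_eq, mem_pow_iff]
      intro m hm
      rw [mem_support_iff] at hm
      obtain ⟨h1, t, ht, rfl⟩ := hDe T m hm
      obtain ⟨X, g1, g2, g3⟩ := hfaces t ht
      refine ⟨X, g1, g2, fun w => ?_⟩
      have e1 := g3 w
      have e2 := DFunLike.congr_fun h1 w
      rw [Finsupp.add_apply, ind_apply, hafw] at e2
      omega
    · intro m hm
      obtain ⟨h1, t, ht, rfl⟩ := hDe T m hm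
      have h2 : ∑ w, (m + ind (U0.erase t)) w = i + d := by
        rw [h1, ← ha]
        rfl
      have h3 : ∑ w, (m + ind (U0.erase t)) w = ∑ w, m w + ∑ w, ind (U0.erase t) w := by
        rw [← Finset.sum_add_distrib]; rfl
      rw [h3, degree_ind, Finset.card_erase_of_mem ht] at h2
      have h4 : m.degree = d := by
        rw [Finsupp.degree_eq_sum]
        omega
      rw [Finsupp.degree_eq_weight_one] at h4; exact h4
  · rintro ⟨g, g1, g2, g3⟩
    apply hnf
    refine hno (fun U => comp e af U - comp g af U) ?_ ?_ ?_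
    · intro S
      rw [bd_sub]
      have h1 : bd Finset.univ (fun T => comp e af T) S = comp (koszulD e) af S :=
        (comp_koszulD e af S).symm
      have h2 : bd Finset.univ (fun T => comp g af T) S = comp (koszulD g) af S :=
        (comp_koszulD g af S).symm
      rw [h1, h2]
      have h3 : koszulD e = koszulD g := funext g3
      rw [h3, sub_self]
    · intro U hU hne
      replace hne : comp e af U - comp g af U ≠ 0 := hne
      rw [hcompe, if_neg hU, zero_sub, neg_ne_zero] at hne
      refine ⟨?_, comp_face G q g g2 af U hne⟩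
      by_contra hcard
      apply hne
      unfold comp
      rw [g1 U hcard]
      simp
    · show comp e af U0 - comp g af U0 ≠ 0
      have h1 : comp g af U0 = 0 := by
        by_contra h2
        exact hnf (comp_face G q g g2 af U0 h2)
      rw [h1, hcompe, if_pos rfl, sub_zero]
      exact one_ne_zero

/-- `I(G)^q` has a minimal generator of degree `2 q` -/
lemma hasTor_zero (G : SimpleGraph (Fin n)) {u v : Fin n} (huv : G.Adj u v) (q : ℕ) :
    HasTor (edgeIdeal K G ^ q) 0 (2 * q) := by
  classical
  refine ⟨fun T => if T = ∅ then (X u * X v) ^ q else 0, ?_, ?_, ?_, ?_⟩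
  · intro T hT
    have : T ≠ ∅ := fun h => hT (by simp [h])
    simp [this]
  · intro T
    by_cases hT : T = ∅
    · simp only [hT, if_true]
      constructor
      · apply Ideal.pow_mem_pow
        exact Ideal.subset_span ⟨u, v, huv, rfl⟩
      · exact ((isHomogeneous_X K u).mul (isHomogeneous_X K v)).pow q
    · simp only [hT, if_false]
      exact ⟨Submodule.zero_mem _, isHomogeneous_zero _ _ _⟩
  · intro S
    unfold koszulD
    refine Finset.sum_eq_zero fun t _ => ?_
    simp [Finset.insert_ne_empty t S]
  · rintro ⟨g, g1, g2, g3⟩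
    have h1 := g3 ∅
    simp only [if_true] at h1
    -- look at the coefficient of (x_u x_v)^q
    set m : Fin n →₀ ℕ := Finsupp.single u q + Finsupp.single v q with hm
    have h2 : coeff m ((X u * X v : MvPolynomial (Fin n) K) ^ q) = 1 := by
      have : (X u * X v : MvPolynomial (Fin n) K) ^ q = monomial m 1 := by
        rw [mul_pow, X_pow_eq_monomial, X_pow_eq_monomial, monomial_mul, mul_one]
      rw [this, coeff_monomial, if_pos rfl]
    have h3 : coeff m (koszulD g ∅) = 0 := by
      unfold koszulD
      rw [coeff_sum]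
      refine Finset.sum_eq_zero fun t ht => ?_
      rw [coeff_sgn]
      by_cases htm : t ∈ m.support
      · rw [if_pos htm]
        have : coeff (m - Finsupp.single t 1) (g (insert t ∅)) = 0 := by
          by_contra hne
          obtain ⟨X, x1, x2, x3⟩ := (mem_pow_iff K G q _).1 (g2 (insert t ∅)) _
            (mem_support_iff.2 hne)
          have x4 : ∑ w, dg X w ≤ ∑ w, (m - Finsupp.single t 1 : Fin n →₀ ℕ) w :=
            Finset.sum_le_sum fun w _ => x3 w
          rw [sum_dg X x1.nl, x2] at x4
          have x5 : ∑ w, (m - Finsupp.single t 1 : Fin n →₀ ℕ) w + 1 = ∑ w, m w := by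
            rw [← Finset.add_sum_erase _ _ (Finset.mem_univ t),
              ← Finset.add_sum_erase Finset.univ m (Finset.mem_univ t)]
            have : ∑ w ∈ Finset.univ.erase t, (m - Finsupp.single t 1 : Fin n →₀ ℕ) w =
                ∑ w ∈ Finset.univ.erase t, m w := by
              refine Finset.sum_congr rfl fun w hw => ?_
              rw [Finsupp.tsub_apply, Finsupp.single_apply,
                if_neg (Finset.ne_of_mem_erase hw).symm, tsub_zero]
            rw [this]
            rw [Finsupp.mem_support_iff] at htm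
            simp only [Finsupp.tsub_apply, Finsupp.single_apply, if_true]
            omega
          have x6 : ∑ w, m w = 2 * q := by
            simp [hm, Finset.sum_add_distrib, Finsupp.single_apply]
            ring
          omega
        rw [this, mul_zero]
      · rw [if_neg htm, mul_zero]
    rw [← h1, h2] at h3
    exact one_ne_zero h3

end Pool.Agent.H803R3
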