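import Mathlib
import Pool.Agent.H803R3.Cx
import Pool.Agent.H803R3.Reg
import Pool.Agent.H803R3.Lev

/-!
Converse transfer, complement duality, and the hypothesis on the regularity.
-/

set_option autoImplicit false
set_option linter.unusedSectionVars false

namespace Pool.Agent.H803R3

open Finset

section

variable {V : Type*} [Fintype V] [LinearOrder V] {K : Type*} [CommRing K]

/-- converse of `transfer` -/
theorem transfer_back {A : Type*} [Fintype A] [LinearOrder A] (ι : A ↪o V) (G0 : Finset V)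
    (Q : Finset A → Prop) (hdis : ∀ F, Q F → Disjoint G0 (F.map ι.toEmbedding)) (i : ℕ)
    (h : Ex K (fun H => ∃ F, H = G0 ∪ F.map ι.toEmbedding ∧ Q F) (G0.card + i)) :
    Ex K Q i := by
  classical
  set sig : Finset A → K := fun F => ∏ x ∈ F, sg K G0 (ι x) with hsig
  have hsig2 : ∀ F, sig F * sig F = 1 := by
    intro F
    rw [hsig]
    simp only
    rw [← Finset.prod_mul_distrib]
    exact Finset.prod_eq_one fun x _ => sg_sq _ _
  have hsigE : ∀ F x, x ∈ F → sig (F.erase x) = sig F * sg K G0 (ι x) := by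
    intro F x hx
    rw [hsig]
    simp only
    rw [← Finset.mul_prod_erase F _ hx, mul_comm (sg K G0 (ι x)), mul_assoc, sg_sq, mul_one]
  have hsgU : ∀ F x, Disjoint G0 (F.map ι.toEmbedding) →
      sg K (G0 ∪ F.map ι.toEmbedding) (ι x) = sg K G0 (ι x) * sg K F x := by
    intro F x hd
    unfold sg
    rw [← pow_add]
    congr 1
    rw [Finset.filter_union, Finset.card_union_of_disjoint
      (Finset.disjoint_filter_filter hd), Finset.filter_map, Finset.card_map]
    congr 2
    ext y
    simp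
  have hmapE : ∀ (F : Finset A) (x : A), (F.map ι.toEmbedding).erase (ι x) = (F.erase x).map ι.toEmbedding := by
    intro F x
    ext y
    simp only [Finset.mem_erase, Finset.mem_map]
    constructor
    · rintro ⟨h1, z, hz, rfl⟩
      exact ⟨z, ⟨fun h2 => h1 (by rw [h2]; rfl), hz⟩, rfl⟩
    · rintro ⟨z, ⟨h1, hz⟩, rfl⟩
      refine ⟨fun h2 => h1 (ι.injective h2), z, hz, rfl⟩
  have herase : ∀ (F : Finset A) (x : A), x ∈ F → Disjoint G0 (F.map ι.toEmbedding) →
      (G0 ∪ F.map ι.toEmbedding).erase (ι x) = G0 ∪ (F.erase x).map ι.toEmbedding := by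
    intro F x hx hd
    have h1 : ι x ∉ G0 := by
      intro h2
      exact (Finset.disjoint_left.1 hd) h2 (Finset.mem_map_of_mem _ hx)
    rw [Finset.erase_union_distrib, Finset.erase_eq_of_notMem h1, hmapE]
  have hinj : ∀ F F' : Finset A, Disjoint G0 (F.map ι.toEmbedding) →
      Disjoint G0 (F'.map ι.toEmbedding) →
      G0 ∪ F.map ι.toEmbedding = G0 ∪ F'.map ι.toEmbedding → F = F' := by
    intro F F' h1 h2 h3
    have h4 : F.map ι.toEmbedding = F'.map ι.toEmbedding := by
      have e1 : (G0 ∪ F.map ι.toEmbedding) \ G0 = F.map ι.toEmbedding :=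
        Finset.union_sdiff_cancel_left h1
      have e2 : (G0 ∪ F'.map ι.toEmbedding) \ G0 = F'.map ι.toEmbedding :=
        Finset.union_sdiff_cancel_left h2
      rw [← e1, ← e2, h3]
    exact Finset.map_injective _ h4
  -- the coboundary at an image set
  have hcbU : ∀ (c : Finset V → K) (F : Finset A), Disjoint G0 (F.map ι.toEmbedding) →
      (∀ y ∈ G0, c ((G0 ∪ F.map ι.toEmbedding).erase y) = 0) →
      cb c (G0 ∪ F.map ι.toEmbedding) =
        ∑ x ∈ F, sg K G0 (ι x) * sg K F x * c (G0 ∪ (F.erase x).map ι.toEmbedding) := by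
    intro c F hd h0
    unfold cb
    rw [Finset.sum_union hd, Finset.sum_eq_zero (fun y hy => by rw [h0 y hy, mul_zero]),
      zero_add, Finset.sum_map]
    refine Finset.sum_congr rfl fun x hx => ?_
    change sg K (G0 ∪ F.map ι.toEmbedding) (ι x) *
      c ((G0 ∪ F.map ι.toEmbedding).erase (ι x)) = _
    rw [hsgU F x hd, herase F x hx hd]
  have hdE : ∀ (F : Finset A) (x : A), Disjoint G0 (F.map ι.toEmbedding) →
      Disjoint G0 ((F.erase x).map ι.toEmbedding) := fun F x hd =>
    Finset.disjoint_of_subset_right (Finset.map_subset_map.2 (Finset.erase_subset _ _)) hd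
  set pre : Finset V → Finset A := fun H =>
    Finset.univ.filter (fun x => ι x ∈ H ∧ ι x ∉ G0) with hpre
  have hpre1 : ∀ F : Finset A, Disjoint G0 (F.map ι.toEmbedding) → pre (G0 ∪ F.map ι.toEmbedding) = F := by
    intro F hd
    ext x
    rw [hpre]
    simp only [Finset.mem_filter, Finset.mem_univ, true_and, Finset.mem_union, Finset.mem_map]
    constructor
    · rintro ⟨h1 | ⟨z, hz, h1⟩, h2⟩
      · exact absurd h1 h2
      · exact (ι.injective h1) ▸ hz
    · intro hx
      exact ⟨Or.inr ⟨x, hx, rfl⟩, fun h2 =>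
        (Finset.disjoint_left.1 hd) h2 (Finset.mem_map_of_mem _ hx)⟩
  intro c hc hcyc
  set c' : Finset V → K := rs (fun H => ∃ F, H = G0 ∪ F.map ι.toEmbedding ∧ Q F)
    (fun H => sig (pre H) * c (pre H)) with hc'
  have hc'v : ∀ F, Q F → c' (G0 ∪ F.map ι.toEmbedding) = sig F * c F := by
    intro F hF
    rw [hc', rs_pos ⟨F, rfl, hF⟩, hpre1 F (hdis F hF)]
  have hIm : ∀ H, c' H ≠ 0 → ∃ F, H = G0 ∪ F.map ι.toEmbedding ∧ Q F := fun H hH => (rs_ne hH).1
  have hcb : ∀ G, Q G → cb c' (G0 ∪ G.map ι.toEmbedding) = sig G * cb c G := by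
    intro G hG
    rw [hcbU _ G (hdis G hG) (by
      intro y hy
      by_contra h0
      obtain ⟨F', hF', _⟩ := hIm _ h0
      have : y ∈ G0 ∪ F'.map ι.toEmbedding := Finset.mem_union_left _ hy
      rw [← hF'] at this
      exact Finset.notMem_erase y _ this)]
    unfold cb
    rw [Finset.mul_sum]
    refine Finset.sum_congr rfl fun x hx => ?_
    by_cases h3 : Q (G.erase x)
    · rw [hc'v _ h3, hsigE G x hx]
      have := sg_sq (K := K) G0 (ι x)
      linear_combination (sg K G x * sig G * c (G.erase x)) * this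
    · have h4 : c (G.erase x) = 0 := by
        by_contra h0
        exact h3 (hc _ h0).1
      have h5 : c' (G0 ∪ (G.erase x).map ι.toEmbedding) = 0 := by
        by_contra h0
        obtain ⟨F', hF', hQF'⟩ := hIm _ h0
        have := hinj _ _ (hdE G x (hdis G hG)) (hdis F' hQF') hF'
        exact h3 (this ▸ hQF')
      rw [h4, h5]; ring
  obtain ⟨e', he', he''⟩ := h c' (by
    intro H hH
    obtain ⟨F, rfl, hF⟩ := hIm H hH
    refine ⟨⟨F, rfl, hF⟩, ?_⟩
    rw [hc'v F hF] at hH
    have h1 : c F ≠ 0 := fun h0 => hH (by rw [h0, mul_zero])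
    rw [Finset.card_union_of_disjoint (hdis F hF), Finset.card_map, (hc F h1).2]) (by
    rintro _ ⟨G, rfl, hG⟩
    rw [hcb G hG, hcyc G hG, mul_zero])
  have he'G : ∀ H, e' H ≠ 0 → G0 ⊆ H := by
    intro H hH
    obtain ⟨⟨F, rfl, _⟩, _⟩ := he' H hH
    exact Finset.subset_union_left
  refine ⟨rs Q (fun F => sig F * e' (G0 ∪ F.map ι.toEmbedding)), ?_, ?_⟩
  · intro F hF
    obtain ⟨h1, h2⟩ := rs_ne hF
    refine ⟨h1, ?_⟩
    have h3 : e' (G0 ∪ F.map ι.toEmbedding) ≠ 0 := fun h0 => h2 (by rw [h0, mul_zero])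
    have h4 := (he' _ h3).2
    rw [Finset.card_union_of_disjoint (hdis F h1), Finset.card_map] at h4
    omega
  · intro G hG
    have h1 := he'' (G0 ∪ G.map ι.toEmbedding) ⟨G, rfl, hG⟩
    rw [hcbU e' G (hdis G hG) (by
      intro y hy
      by_contra h0
      exact (Finset.notMem_erase y _) (he'G _ h0 hy)), hc'v G hG] at h1
    have h2 : cb (rs Q (fun F => sig F * e' (G0 ∪ F.map ι.toEmbedding))) G =
        sig G * ∑ x ∈ G, sg K G0 (ι x) * sg K G x * e' (G0 ∪ (G.erase x).map ι.toEmbedding) := by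
      unfold cb
      rw [Finset.mul_sum]
      refine Finset.sum_congr rfl fun x hx => ?_
      by_cases h3 : Q (G.erase x)
      · rw [rs_pos h3, hsigE G x hx]; ring
      · rw [rs_neg h3]
        have h4 : e' (G0 ∪ (G.erase x).map ι.toEmbedding) = 0 := by
          by_contra h0
          obtain ⟨⟨F', hF', hQF'⟩, _⟩ := he' _ h0
          have := hinj _ _ (hdE G x (hdis G hG)) (hdis F' hQF') hF'
          exact h3 (this ▸ hQF')
        rw [h4]; ring
    rw [h2, h1, ← mul_assoc, hsig2, one_mul]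

/-- sign for complements -/
def tau (K : Type*) [CommRing K] (L : Finset V) : K :=
  ∏ x ∈ L, (-1 : K) ^ ((Finset.univ : Finset V).filter (· < x)).card

lemma tau_sq (L : Finset V) : tau K L * tau K L = 1 := by
  unfold tau
  rw [← Finset.prod_mul_distrib]
  refine Finset.prod_eq_one fun x _ => ?_
  rw [← pow_add, ← two_mul, pow_mul]; simp

lemma tau_rel (L : Finset V) {x : V} (hx : x ∈ L) :
    sg K L x * tau K (L.erase x) = tau K L * sg K Lᶜ x := by
  have h1 : tau K L = (-1 : K) ^ ((Finset.univ : Finset V).filter (· < x)).card *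
      tau K (L.erase x) := by
    unfold tau
    rw [Finset.mul_prod_erase L (fun x => (-1 : K) ^ ((Finset.univ : Finset V).filter (· < x)).card) hx]
  have h2 : (-1 : K) ^ ((Finset.univ : Finset V).filter (· < x)).card = sg K L x * sg K Lᶜ x := by
    unfold sg
    rw [← pow_add, ← Finset.card_union_of_disjoint
      (Finset.disjoint_filter_filter disjoint_compl_right), ← Finset.filter_union,
      Finset.union_compl]
  rw [h1, h2]
  have := sg_sq (K := K) Lᶜ x
  linear_combination (- sg K L x * tau K (L.erase x)) * this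

lemma cb_compl (c : Finset V → K) (L : Finset V) :
    cb (fun L => tau K L * c Lᶜ) L = tau K L * bd Finset.univ c Lᶜ := by
  unfold cb bd
  have h0 : (Finset.univ \ Lᶜ : Finset V) = L := by
    ext; simp
  rw [h0, Finset.mul_sum]
  refine Finset.sum_congr rfl fun x hx => ?_
  have h1 : (L.erase x)ᶜ = insert x Lᶜ := Finset.compl_erase
  change sg K L x * (tau K (L.erase x) * c (L.erase x)ᶜ) = _
  rw [h1, ← mul_assoc, tau_rel L hx, mul_assoc]

lemma bd_eq_zero_of_down {F : Finset V → Prop} (hF : ∀ S T, S ⊆ T → F T → F S)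
    {c : Finset V → K} (hc : ∀ T, c T ≠ 0 → F T) {S : Finset V} (hS : ¬ F S) :
    bd Finset.univ c S = 0 := by
  by_contra h
  unfold bd at h
  obtain ⟨t, ht, hne⟩ := Finset.exists_ne_zero_of_sum_ne_zero h
  exact hS (hF _ _ (Finset.subset_insert t S) (hc _ (fun h0 => hne (by rw [h0, mul_zero]))))

theorem acyc_to_ex {F : Finset V → Prop} (hF : ∀ S T, S ⊆ T → F T → F S) {i k : ℕ}
    (hik : i + k = Fintype.card V) (h : Acyc K Finset.univ F i) : Ex K (fun L => F Lᶜ) k := by
  intro c' hc' hcyc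
  set c : Finset V → K := fun T => tau K Tᶜ * c' Tᶜ with hc
  have hcc : ∀ T, c T ≠ 0 → F T ∧ T.card = i := by
    intro T hT
    have h1 : c' Tᶜ ≠ 0 := fun h0 => hT (by rw [hc]; simp only; rw [h0, mul_zero])
    have h2 : F Tᶜᶜ ∧ Tᶜ.card = k := hc' _ h1
    rw [compl_compl, Finset.card_compl] at h2
    have := Finset.card_le_univ T
    exact ⟨h2.1, by omega⟩
  have hc'e : (fun L => tau K L * c Lᶜ) = c' := by
    funext L
    simp only [hc, compl_compl]
    rw [← mul_assoc, tau_sq, one_mul]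
  obtain ⟨b, hb, hb'⟩ := h c (fun T hT => ⟨Finset.subset_univ _, hcc T hT⟩) (by
    intro S
    by_cases hS : F S
    · have h1 := hcyc Sᶜ (by show F Sᶜᶜ; rwa [compl_compl])
      rw [← hc'e, cb_compl, compl_compl] at h1
      have h2 : tau K Sᶜ * (tau K Sᶜ * bd Finset.univ c S) = 0 := by rw [h1, mul_zero]
      rwa [← mul_assoc, tau_sq, one_mul] at h2
    · exact bd_eq_zero_of_down hF (fun T hT => (hcc T hT).1) hS)
  refine ⟨fun L => tau K L * b Lᶜ, ?_, ?_⟩
  · intro L hL
    have h1 : b Lᶜ ≠ 0 := fun h0 => hL (by simp only [h0, mul_zero])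
    have h2 := hb _ h1
    rw [Finset.card_compl] at h2
    have := Finset.card_le_univ L
    exact ⟨h2.2.1, by omega⟩
  · intro L _
    rw [cb_compl, hb']
    exact congrFun hc'e L

theorem ex_to_acyc {F : Finset V → Prop} (hF : ∀ S T, S ⊆ T → F T → F S) {i k : ℕ}
    (hik : i + k = Fintype.card V) (h : Ex K (fun L => F Lᶜ) k) : Acyc K Finset.univ F i := by
  intro c hc hcyc
  obtain ⟨e, he, he'⟩ := h (fun L => tau K L * c Lᶜ) (by
    intro L hL
    have h1 : c Lᶜ ≠ 0 := fun h0 => hL (by simp only [h0, mul_zero])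
    have h2 := hc _ h1
    rw [Finset.card_compl] at h2
    have := Finset.card_le_univ L
    exact ⟨h2.2.1, by omega⟩) (by
    intro L _
    rw [cb_compl, hcyc, mul_zero])
  set b : Finset V → K := fun T => tau K Tᶜ * e Tᶜ with hb
  have hbe : (fun L => tau K L * b Lᶜ) = e := by
    funext L
    simp only [hb, compl_compl]
    rw [← mul_assoc, tau_sq, one_mul]
  have hbF : ∀ T, b T ≠ 0 → F T ∧ T.card = i + 1 := by
    intro T hT
    have h1 : e Tᶜ ≠ 0 := fun h0 => hT (by simp only [hb, h0, mul_zero])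
    have h2 : F Tᶜᶜ ∧ Tᶜ.card + 1 = k := he _ h1
    rw [compl_compl, Finset.card_compl] at h2
    have := Finset.card_le_univ T
    exact ⟨h2.1, by omega⟩
  refine ⟨b, fun T hT => ⟨Finset.subset_univ _, hbF T hT⟩, ?_⟩
  intro S
  by_cases hS : F S
  · have h1 := he' Sᶜ (by show F Sᶜᶜ; rwa [compl_compl])
    rw [← hbe, cb_compl, compl_compl] at h1
    have h2 : tau K Sᶜ * (tau K Sᶜ * bd Finset.univ b S) = tau K Sᶜ * (tau K Sᶜ * c S) := by
      rw [h1]
    rwa [← mul_assoc, ← mul_assoc, tau_sq, one_mul, one_mul] at h2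
  · rw [bd_eq_zero_of_down hF (fun T hT => (hbF T hT).1) hS]
    by_contra h0
    exact hS (hc S (Ne.symm h0)).2.1

end

end Pool.Agent.H803R3
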