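import Mathlib
import Pool.Agent.H803R3.Dual

/-!
Consequences of vanishing Koszul homology.
-/

set_option autoImplicit false
set_option linter.unusedSectionVars false

namespace Pool.Agent.H803R3

open MvPolynomial

variable {K : Type*} [Field K] {n : ℕ}

/-- vanishing of Koszul homology gives acyclicity in every multidegree -/
theorem acyc_of_not_hasTor (G : SimpleGraph (Fin n)) (q i d : ℕ)
    (h : ¬ HasTor (edgeIdeal K G ^ q) i d) (a : Fin n → ℕ) (ha : ∑ w, a w = i + d) :
    Acyc K Finset.univ (Face G a q) i := by
  classical
  intro c hc hcyc
  set af : Fin n →₀ ℕ := Finsupp.equivFunOnFinite.symm a with haf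
  have hafw : ∀ w, af w = a w := fun w => rfl
  set f : Finset (Fin n) → MvPolynomial (Fin n) K := fun T => monomial (af - ind T) (c T) with hf
  have hind : ∀ T, c T ≠ 0 → ind T ≤ af := by
    intro T hT w
    obtain ⟨_, ⟨X, _, _, h3⟩, _⟩ := hc T hT
    have := h3 w
    rw [ind_apply, hafw]
    omega
  have hcomp : ∀ b T, comp f b T = if b = af then c T else 0 := by
    intro b T
    by_cases hcT : c T = 0
    · have : f T = 0 := by rw [hf]; simp [hcT]
      unfold comp
      rw [this, hcT]
      simp
    · have h1 := hind T hcT
      unfold comp
      by_cases hb : b = af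
      · rw [if_pos hb, hb, if_pos h1, hf]
        simp
      · rw [if_neg hb]
        split_ifs with h2
        · rw [hf]
          simp only [coeff_monomial]
          rw [if_neg]
          intro h3
          apply hb
          rw [← tsub_add_cancel_of_le h2, ← tsub_add_cancel_of_le h1, h3]
        · rfl
  have hex : ∃ g : Finset (Fin n) → MvPolynomial (Fin n) K,
      (∀ U : Finset (Fin n), U.card ≠ i + 1 → g U = 0) ∧
      (∀ U : Finset (Fin n), g U ∈ edgeIdeal K G ^ q) ∧
      ∀ T : Finset (Fin n), f T = koszulD g T := by
    by_contra hno
    apply h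
    refine ⟨f, ?_, ?_, ?_, hno⟩
    · intro T hT
      have : c T = 0 := by
        by_contra h0
        exact hT (hc T h0).2.2
      rw [hf]; simp [this]
    · intro T
      constructor
      · rw [edgeIdeal_eq, mem_pow_iff]
        intro m hm
        rw [mem_support_iff, hf] at hm
        simp only [coeff_monomial] at hm
        split_ifs at hm with hm1
        · obtain ⟨_, ⟨X, g1, g2, g3⟩, _⟩ := hc T hm
          refine ⟨X, g1, g2, fun w => ?_⟩
          have := g3 w
          rw [← hm1, Finsupp.tsub_apply, ind_apply, hafw]
          omega
        · exact absurd rfl hm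
      · intro m hm
        rw [hf] at hm
        simp only [coeff_monomial] at hm
        split_ifs at hm with hm1
        · have h1 := hind T hm
          have h2 := (hc T hm).2.2
          have h3 : ∑ w, af w = ∑ w, (af - ind T) w + ∑ w, ind T w := by
            rw [← Finset.sum_add_distrib]
            refine Finset.sum_congr rfl fun w _ => ?_
            have := h1 w
            rw [Finsupp.tsub_apply]
            omega
          rw [degree_ind, h2] at h3
          have h4 : ∑ w, af w = i + d := ha
          have h5 : m.degree = d := by
            rw [Finsupp.degree_eq_sum, ← hm1]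
            omega
          rw [Finsupp.degree_eq_weight_one] at h5; exact h5
        · exact absurd rfl hm
    · intro S
      ext m
      have h1 : coeff m (koszulD f S) = comp (koszulD f) (m + ind S) S := by
        unfold comp
        rw [if_pos le_add_self]
        simp
      rw [h1, comp_koszulD, coeff_zero]
      have h2 : comp f (m + ind S) = if m + ind S = af then c else fun _ => 0 := by
        funext T
        rw [hcomp]
        split_ifs <;> rfl
      rw [h2]
      split_ifs
      · exact hcyc S
      · simp [bd]
  obtain ⟨g, g1, g2, g3⟩ := hex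
  refine ⟨comp g af, ?_, ?_⟩
  · intro T hT
    refine ⟨Finset.subset_univ _, ?_, ?_⟩
    · exact comp_face G q g g2 af T hT
    · by_contra h0
      apply hT
      unfold comp
      rw [g1 T h0]
      simp
  · intro T
    rw [← comp_koszulD]
    have h1 : koszulD g = f := funext fun T => (g3 T).symm
    rw [h1, hcomp, if_pos rfl]

lemma face_one_iff (G : SimpleGraph (Fin n)) (W U : Finset (Fin n)) :
    Face G (fun w => if w ∈ W then 1 else 0) 1 U ↔
      U ⊆ W ∧ ∃ x ∈ W \ U, ∃ y ∈ W \ U, G.Adj x y := by
  constructor
  · rintro ⟨X, h1, h2, h3⟩
    obtain ⟨e, rfl⟩ := Multiset.card_eq_one.1 h2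
    induction e using Sym2.ind with
    | h x y =>
      have hxy : G.Adj x y := h1 _ (Multiset.mem_singleton_self _)
      have hd : ∀ w, dg ({s(x, y)} : Multiset (Sym2 (Fin n))) w =
          (if w = x then 1 else 0) + (if w = y then 1 else 0) := by
        intro w
        have := dg_cons_pair x y hxy.ne 0 w
        simpa using this
      replace h3 : ∀ w, dg ({s(x, y)} : Multiset (Sym2 (Fin n))) w +
        (if w ∈ U then 1 else 0) ≤ (if w ∈ W then 1 else 0) := h3
      refine ⟨?_, x, ?_, y, ?_, hxy⟩
      · intro w hw
        have := h3 w
        rw [if_pos hw] at this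
        by_contra hW
        rw [if_neg hW] at this
        omega
      · have := h3 x
        rw [hd, if_pos rfl, if_neg hxy.ne] at this
        rw [Finset.mem_sdiff]
        by_cases a1 : x ∈ W
        · by_cases a2 : x ∈ U
          · rw [if_pos a1, if_pos a2] at this; omega
          · exact ⟨a1, a2⟩
        · rw [if_neg a1] at this; omega
      · have := h3 y
        rw [hd, if_neg hxy.ne.symm] at this
        rw [Finset.mem_sdiff]
        by_cases a1 : y ∈ W
        · by_cases a2 : y ∈ U
          · rw [if_pos a1, if_pos a2, if_pos rfl] at this; omega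
          · exact ⟨a1, a2⟩
        · rw [if_neg a1, if_pos rfl] at this; omega
  · rintro ⟨h1, x, hx, y, hy, hxy⟩
    rw [Finset.mem_sdiff] at hx hy
    refine ⟨{s(x, y)}, ?_, by simp, ?_⟩
    · intro e he
      rw [Multiset.mem_singleton] at he
      rw [he]; exact hxy
    · intro w
      have hd := dg_cons_pair x y hxy.ne 0 w
      have hd' : dg ({s(x, y)} : Multiset (Sym2 (Fin n))) w =
          (if w = x then 1 else 0) + (if w = y then 1 else 0) := by simpa using hd
      show dg ({s(x, y)} : Multiset (Sym2 (Fin n))) w +
        (if w ∈ U then 1 else 0) ≤ (if w ∈ W then 1 else 0)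
      rw [hd']
      by_cases hwx : w = x
      · subst hwx
        rw [if_pos rfl, if_neg hxy.ne, if_neg hx.2, if_pos hx.1]
      · by_cases hwy : w = y
        · subst hwy
          rw [if_neg hwx, if_pos rfl, if_neg hy.2, if_pos hy.1]
        · rw [if_neg hwx, if_neg hwy]
          by_cases hU : w ∈ U
          · rw [if_pos hU, if_pos (h1 hU)]
          · rw [if_neg hU]
            split_ifs <;> omega

/-- `reg I ≤ t + 2` controls the reduced cohomology of all induced independence complexes -/
theorem ind_ex (G : SimpleGraph (Fin n)) (t : ℕ)
    (h : ∀ i d, t + 2 < d → ¬ HasTor (edgeIdeal K G ^ 1) i d) (W : Finset (Fin n)) (k : ℕ)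
    (hk : t + 2 ≤ k) : Ex K (Ind G W) k := by
  classical
  rcases W.eq_empty_or_nonempty with rfl | ⟨v, hv⟩
  · apply Ex.of_empty
    rintro F ⟨hF, _⟩
    rw [Finset.subset_empty] at hF
    rw [hF, Finset.card_empty]
    omega
  · set a : Fin n → ℕ := fun w => if w ∈ W then 1 else 0 with ha
    have hdown : ∀ S T, S ⊆ T → Face G a 1 T → Face G a 1 S := fun S T hST h => Face.down S T hST h
    have hsum : ∑ w, a w = W.card := by
      rw [ha]; simp
    have hWc : Wᶜ.card + W.card = n := by
      rw [Finset.card_compl, Fintype.card_fin]
      have := Finset.card_le_univ W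
      rw [Fintype.card_fin] at this
      omega
    -- the part P
    have hP : Conv (fun L : Finset (Fin n) => Wᶜ ⊆ L) := fun A B C hAB _ hA _ => hA.trans hAB
    have e1 : Ex K (fun L : Finset (Fin n) => Wᶜ ⊆ L) (Wᶜ.card + k) := by
      apply toggle _ v
      intro F
      constructor
      · exact fun h => h.trans (Finset.subset_insert _ _)
      · intro h x hx
        rcases Finset.mem_insert.1 (h hx) with h1 | h1
        · subst h1
          exact absurd hv (Finset.mem_compl.1 hx)
        · exact h1
    have e2 : Ex K (fun L : Finset (Fin n) => Wᶜ ⊆ L ∧ Face G a 1 Lᶜ) (Wᶜ.card + k + 1) := by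
      by_cases hkW : Wᶜ.card + k + 1 ≤ n
      · have h1 : Acyc K Finset.univ (Face G a 1) (n - (Wᶜ.card + k + 1)) :=
          acyc_of_not_hasTor G 1 _ (k + 1) (h _ _ (by omega)) a (by rw [hsum]; omega)
        have h2 := acyc_to_ex hdown (k := Wᶜ.card + k + 1) (by rw [Fintype.card_fin]; omega) h1
        refine h2.congr fun L => ?_
        constructor
        · intro h3
          refine ⟨?_, h3⟩
          have := ((face_one_iff G W Lᶜ).1 h3).1
          intro x hx
          by_contra hxL
          exact (Finset.mem_compl.1 hx) (this (Finset.mem_compl.2 hxL))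
        · exact fun h3 => h3.2
      · apply Ex.of_empty
        intro F _ hF
        have := Finset.card_le_univ F
        rw [Fintype.card_fin] at this
        omega
    have e3 := Ex.quot (R := fun L => Face G a 1 Lᶜ) hP (by
      intro A B hAB _ _ hA
      exact hdown _ _ (Finset.compl_subset_compl.2 hAB) hA) e1 e2
    refine transfer_back (K := K) ((OrderIso.refl (Fin n)).toOrderEmbedding) Wᶜ (Ind G W) ?_ k ?_
    · intro F hF
      have : F.map (OrderIso.refl (Fin n)).toOrderEmbedding.toEmbedding = F := by
        ext; simp
      rw [this]
      exact Finset.disjoint_of_subset_right hF.1 disjoint_compl_left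
    · refine e3.congr fun L => ?_
      have hmap : ∀ F : Finset (Fin n),
          F.map (OrderIso.refl (Fin n)).toOrderEmbedding.toEmbedding = F := by
        intro F; ext; simp
      constructor
      · rintro ⟨h1, h2⟩
        refine ⟨L ∩ W, ?_, Finset.inter_subset_right, ?_⟩
        · rw [hmap]
          ext x
          simp only [Finset.mem_union, Finset.mem_compl, Finset.mem_inter]
          constructor
          · intro hx
            by_cases hxW : x ∈ W
            · exact Or.inr ⟨hx, hxW⟩
            · exact Or.inl hxW
          · rintro (hx | hx)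
            · exact h1 (Finset.mem_compl.2 hx)
            · exact hx.1
        · intro x hx y hy hxy
          rw [Finset.mem_inter] at hx hy
          apply h2
          rw [ha, face_one_iff]
          refine ⟨?_, x, ?_, y, ?_, hxy⟩
          · intro z hz
            by_contra hzW
            exact (Finset.mem_compl.1 hz) (h1 (Finset.mem_compl.2 hzW))
          · simp [hx.1, hx.2]
          · simp [hy.1, hy.2]
      · rintro ⟨F, hL, hF⟩
        rw [hmap] at hL
        subst hL
        refine ⟨Finset.subset_union_left, ?_⟩
        intro h2
        rw [ha, face_one_iff] at h2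
        obtain ⟨_, x, hx, y, hy, hxy⟩ := h2
        simp only [Finset.mem_sdiff, Finset.mem_compl, Finset.mem_union, not_or, not_not] at hx hy
        have hxF : x ∈ F := by tauto
        have hyF : y ∈ F := by tauto
        exact hF.2 x hxF y hyF hxy

end Pool.Agent.H803R3
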