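import Mathlib
import Pool.Agent.H803R3.Level
import Pool.Agent.H803R3.Multi

/-!
A min-max formula for multigraph matchings in gap-free graphs.
-/

set_option autoImplicit false
set_option linter.unusedSectionVars false

namespace Pool.Agent.H803R3

open Finset Classical

variable {V : Type*} [Fintype V] [LinearOrder V] {G : SimpleGraph V} {b : V → ℕ} {W : Finset V}

/-- first slack -/
noncomputable def s1 (G : SimpleGraph V) (b : V → ℕ) (S T : Finset V) : ℤ :=
  bs b (nbh G S ∩ nbh G T) - bs b (nbh G (S ∩ T))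

/-- second slack -/
noncomputable def s2 (G : SimpleGraph V) (b : V → ℕ) (S T : Finset V) : ℤ :=
  bs b (nbh G (S ∪ T)) - bs b (nbh G (iso G S T)) - bs b ((S ∪ T) \ iso G S T)

lemma uncross_eq (S T : Finset V) :
    ww G b S + ww G b T = ww G b (S ∩ T) + ww G b (iso G S T) + s1 G b S T + s2 G b S T := by
  unfold ww s1 s2
  have e1 := bs_union_inter b (nbh G S) (nbh G T)
  have e2 := bs_union_inter b S T
  have e3 := bs_sdiff b (iso_sub (G := G) (S := S) (T := T))
  rw [nbh_union]
  linarith

lemma s1_nonneg (S T : Finset V) : 0 ≤ s1 G b S T := by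
  unfold s1
  have : bs b (nbh G (S ∩ T)) ≤ bs b (nbh G S ∩ nbh G T) := by
    apply bs_mono
    intro y hy
    rw [Finset.mem_inter]
    exact ⟨nbh_mono Finset.inter_subset_left hy, nbh_mono Finset.inter_subset_right hy⟩
  linarith

lemma s2_nonneg (S T : Finset V) : 0 ≤ s2 G b S T := by
  unfold s2
  have := uncross_le (G := G) (b := b) S T
  linarith

lemma le_s1 {S T : Finset V} {y : V} (h1 : y ∈ nbh G S) (h2 : y ∈ nbh G T)
    (h3 : y ∉ nbh G (S ∩ T)) : (b y : ℤ) ≤ s1 G b S T := by
  unfold s1
  have h4 : insert y (nbh G (S ∩ T)) ⊆ nbh G S ∩ nbh G T := by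
    rw [Finset.insert_subset_iff, Finset.mem_inter]
    refine ⟨⟨h1, h2⟩, ?_⟩
    intro z hz
    rw [Finset.mem_inter]
    exact ⟨nbh_mono Finset.inter_subset_left hz, nbh_mono Finset.inter_subset_right hz⟩
  have h5 := bs_mono (b := b) h4
  rw [bs_insert b h3] at h5
  linarith

lemma le_s2 {S T : Finset V} {y : V} (h1 : y ∈ nbh G (S ∪ T)) (h2 : y ∉ nbh G (iso G S T))
    (h3 : y ∉ S ∪ T) : (b y : ℤ) ≤ s2 G b S T := by
  unfold s2
  have hd : Disjoint (nbh G (iso G S T)) ((S ∪ T) \ iso G S T) := by
    rw [Finset.disjoint_left]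
    intro y hy hy'
    exact nbh_iso_disj (Finset.mem_sdiff.1 hy').1 hy
  have h4 : insert y (nbh G (iso G S T) ∪ ((S ∪ T) \ iso G S T)) ⊆ nbh G (S ∪ T) := by
    rw [Finset.insert_subset_iff]
    refine ⟨h1, Finset.union_subset (nbh_mono iso_sub) ?_⟩
    intro z hz
    rw [Finset.mem_sdiff, mem_iso] at hz
    by_contra h
    exact hz.2 ⟨hz.1, h⟩
  have h5 := bs_mono (b := b) h4
  rw [bs_insert b, bs_union b hd] at h5
  · linarith
  · rw [Finset.mem_union, Finset.mem_sdiff]
    push Not
    exact ⟨h2, fun h => absurd h h3⟩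

/-- covering lemma -/
lemma cover (hG : Gap G) (hb : ∀ x ∈ W, 1 ≤ b x) (hb0 : ∀ x, x ∉ W → b x = 0)
    {S T : Finset V} (hS : S ⊆ W) (hT : T ⊆ W) (hU : ¬ Ind G W (S ∪ T))
    (h2 : s2 G b S T ≤ 0) (htg : ∀ T', Ind G W T' → iso G S T ⊆ T' → ww G b (iso G S T) ≤ ww G b T') :
    ∀ r ∈ W, r ∈ nbh G (iso G S T) ∨ r ∈ S ∪ T := by
  set T3 := iso G S T with hT3
  have hSTW : S ∪ T ⊆ W := Finset.union_subset hS hT
  have hT3i : Ind G W T3 := iso_ind hS hT
  have hN : ∀ y ∈ W, y ∈ nbh G (S ∪ T) → y ∈ nbh G T3 ∨ y ∈ S ∪ T := by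
    intro y hyW hy
    by_contra hcon
    push Not at hcon
    have h3 := le_s2 (b := b) hy hcon.1 hcon.2
    have := hb y hyW
    omega
  obtain ⟨p, hp, q, hq, hpq⟩ : ∃ p ∈ S ∪ T, ∃ q ∈ S ∪ T, G.Adj p q := by
    by_contra hcon
    push Not at hcon
    exact hU ⟨hSTW, hcon⟩
  intro r hr
  by_contra hcon
  push Not at hcon
  have hrN : r ∉ nbh G (S ∪ T) := by
    intro h
    rcases hN r hr h with h1 | h1
    · exact hcon.1 h1
    · exact hcon.2 h1
  have hrr : ∀ r' ∈ W, G.Adj r r' → r' ∈ nbh G T3 := by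
    intro r' hr' hadj
    by_contra h1
    have h2 : r' ∉ S ∪ T := fun h => hrN (mem_nbh.2 ⟨r', h, hadj.symm⟩)
    have h3 : r' ∉ nbh G (S ∪ T) := by
      intro h
      rcases hN r' hr' h with h4 | h4
      · exact h1 h4
      · exact h2 h4
    rcases hG p q r r' hpq hadj (fun h => hcon.2 (h ▸ hp)) (fun h => h2 (h ▸ hp))
      (fun h => hcon.2 (h ▸ hq)) (fun h => h2 (h ▸ hq)) with h4 | h4 | h4 | h4
    · exact hrN (mem_nbh.2 ⟨p, hp, h4⟩)
    · exact h3 (mem_nbh.2 ⟨p, hp, h4⟩)
    · exact hrN (mem_nbh.2 ⟨q, hq, h4⟩)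
    · exact h3 (mem_nbh.2 ⟨q, hq, h4⟩)
  have hrT3 : r ∉ T3 := fun h => hcon.2 (iso_sub h)
  have hind : Ind G W (insert r T3) := by
    refine ⟨Finset.insert_subset_iff.2 ⟨hr, hT3i.1⟩, ?_⟩
    intro x hx y hy hxy
    rcases Finset.mem_insert.1 hx with hx' | hx' <;>
      rcases Finset.mem_insert.1 hy with hy' | hy'
    · rw [hx', hy'] at hxy
      exact G.loopless.irrefl _ hxy
    · rw [hx'] at hxy
      exact hcon.1 (mem_nbh.2 ⟨y, hy', hxy.symm⟩)
    · rw [hy'] at hxy
      exact hcon.1 (mem_nbh.2 ⟨x, hx', hxy⟩)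
    · exact hT3i.2 x hx' y hy' hxy
  have h5 := htg _ hind (Finset.subset_insert _ _)
  have e1 : bs b (nbh G (insert r T3)) = bs b (nbh G T3) := by
    symm
    have hsub : nbh G T3 ⊆ nbh G (insert r T3) := nbh_mono (Finset.subset_insert _ _)
    apply Finset.sum_subset hsub
    intro y hy hy'
    obtain ⟨x, hx, hxy⟩ := mem_nbh.1 hy
    rcases Finset.mem_insert.1 hx with rfl | hx
    · by_cases hyW : y ∈ W
      · exact absurd (hrr y hyW hxy) hy'
      · rw [hb0 y hyW]; rfl
    · exact absurd (mem_nbh.2 ⟨x, hx, hxy⟩) hy'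
  unfold ww at h5
  rw [bs_insert b hrT3, e1] at h5
  have := hb r hr
  omega

/-- weight of a vertex relative to `T` -/
noncomputable def wt (G : SimpleGraph V) (T : Finset V) (v : V) : ℤ :=
  1 + (if v ∈ nbh G T then 1 else 0) - (if v ∈ T then 1 else 0)

lemma wt_le_two (T : Finset V) (v : V) : wt G T v ≤ 2 := by
  unfold wt; split_ifs <;> omega

lemma wt_le_one {T : Finset V} {v : V} (h : v ∉ nbh G T) : wt G T v ≤ 1 := by
  unfold wt; rw [if_neg h]; split_ifs <;> omega

lemma wt_mem {T : Finset V} {v : V} (hT : Ind G W T) (h : v ∈ T) : wt G T v = 0 := by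
  have : v ∉ nbh G T := (ind_iff_disj hT.1).1 hT v h
  unfold wt; rw [if_neg this, if_pos h]; norm_num

lemma sub_iso_compat {S T : Finset V} (hS : Ind G W S) (hT : T ⊆ W) (h : T ⊆ iso G S T) :
    Ind G W (S ∪ T) := by
  have h1 := union_iso_ind hS hT
  exact h1.mono (Finset.union_subset_union (Finset.Subset.refl _) h)

lemma le_s2' {S T : Finset V} {y z : V} (hyz : y ≠ z) (h1 : y ∈ nbh G (S ∪ T))
    (h2 : y ∉ nbh G (iso G S T)) (h3 : y ∉ S ∪ T) (h1' : z ∈ nbh G (S ∪ T))
    (h2' : z ∉ nbh G (iso G S T)) (h3' : z ∉ S ∪ T) : (b y : ℤ) + b z ≤ s2 G b S T := by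
  unfold s2
  have hd : Disjoint (nbh G (iso G S T)) ((S ∪ T) \ iso G S T) := by
    rw [Finset.disjoint_left]
    intro y hy hy'
    exact nbh_iso_disj (Finset.mem_sdiff.1 hy').1 hy
  have h4 : insert y (insert z (nbh G (iso G S T) ∪ ((S ∪ T) \ iso G S T))) ⊆ nbh G (S ∪ T) := by
    rw [Finset.insert_subset_iff, Finset.insert_subset_iff]
    refine ⟨h1, h1', Finset.union_subset (nbh_mono iso_sub) ?_⟩
    intro z hz
    rw [Finset.mem_sdiff, mem_iso] at hz
    by_contra h
    exact hz.2 ⟨hz.1, h⟩
  have h5 := bs_mono (b := b) h4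
  have h6 : z ∉ nbh G (iso G S T) ∪ ((S ∪ T) \ iso G S T) := by
    rw [Finset.mem_union, Finset.mem_sdiff]
    push Not
    exact ⟨h2', fun h => absurd h h3'⟩
  have h7 : y ∉ insert z (nbh G (iso G S T) ∪ ((S ∪ T) \ iso G S T)) := by
    rw [Finset.mem_insert, Finset.mem_union, Finset.mem_sdiff]
    push Not
    exact ⟨hyz, h2, fun h => absurd h h3⟩
  rw [bs_insert b h7, bs_insert b h6, bs_union b hd] at h5
  linarith

lemma bs_eq_of_cover (hb0 : ∀ x, x ∉ W → b x = 0) {S T : Finset V}
    (h1 : ∀ r ∈ W, r ∈ S → r ∈ T) (h2 : ∀ r ∈ W, r ∈ T → r ∈ S) : bs b S = bs b T := by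
  have e : ∀ S : Finset V, bs b S = bs b (S ∩ W) := by
    intro S
    symm
    apply Finset.sum_subset Finset.inter_subset_left
    intro y hy hy'
    rw [hb0 y (fun h => hy' (Finset.mem_inter.2 ⟨hy, h⟩))]; rfl
  rw [e S, e T]
  congr 1
  ext r
  simp only [Finset.mem_inter]
  constructor
  · rintro ⟨h3, h4⟩; exact ⟨h1 r h4 h3, h4⟩
  · rintro ⟨h3, h4⟩; exact ⟨h2 r h4 h3, h4⟩

/-- a good edge exists -/
theorem good_edge (hG : Gap G) (hb : ∀ x ∈ W, 1 ≤ b x) (hb0 : ∀ x, x ∉ W → b x = 0)
    (hni : ∀ x ∈ W, ∃ y ∈ W, G.Adj x y) (hne : W.Nonempty) (q : ℤ)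
    (hmin : ∀ T, Ind G W T → 2 * q + 2 ≤ bs b W + ww G b T) :
    ∃ x ∈ W, ∃ y ∈ W, G.Adj x y ∧
      ∀ T, Ind G W T → 2 * q + wt G T x + wt G T y ≤ bs b W + ww G b T := by
  have hemp : Ind G W ∅ := ⟨Finset.empty_subset _, fun x hx => absurd hx (Finset.notMem_empty x)⟩
  obtain ⟨T0, hT0, hT0min⟩ := Finset.exists_min_image
    (Finset.univ.filter (fun T => Ind G W T)) (ww G b) ⟨∅, by simp [hemp]⟩
  rw [Finset.mem_filter] at hT0
  obtain ⟨ν, hν⟩ : ∃ ν, ν = ww G b T0 := ⟨_, rfl⟩
  have hTg : Tg G b W ν ∅ := fun T hT _ => by rw [hν]; exact hT0min T (by simp [hT])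
  have hEn : En G b W ν ∅ := ⟨⟨T0, hT0.2, Finset.empty_subset _, hν.symm⟩, hTg⟩
  obtain ⟨Tm, hTm, _, hTmin⟩ := hEn.min
  have hBν := hmin Tm hTm.1
  rw [hTm.2.1] at hBν
  rcases Tm.eq_empty_or_nonempty with he | ⟨x, hx⟩
  swap
  · -- a nonempty least minimizer
    obtain ⟨y, hyW, hxy⟩ := hni x (hTm.1.1 hx)
    refine ⟨x, hTm.1.1 hx, y, hyW, hxy, fun T hT => ?_⟩
    have h0 := hTg T hT (Finset.empty_subset _)
    by_cases hxT : x ∈ T
    · have := wt_mem hT hxT
      have := wt_le_two (G := G) T y
      linarith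
    have hTne : ww G b T ≠ ν := by
      intro h
      exact hxT (hTmin T (lv_of hTg hT (Finset.empty_subset _) h) (Finset.empty_subset _) hx)
    have hT1 : ν + 1 ≤ ww G b T := by
      rcases lt_or_eq_of_le h0 with h | h
      · omega
      · exact absurd h.symm hTne
    by_cases hxN : x ∈ nbh G T
    · have h1 := uncross (G := G) (b := b) T Tm
      have h2 : ν + 1 ≤ ww G b (T ∩ Tm) := by
        have h3 := hTg _ (hT.mono (Finset.inter_subset_left (s₂ := Tm))) (Finset.empty_subset _)
        rcases lt_or_eq_of_le h3 with h | h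
        · omega
        · exfalso
          have h4 := hTmin _ (lv_of hTg (hT.mono (Finset.inter_subset_left (s₂ := Tm)))
            (Finset.empty_subset _) h.symm) (Finset.empty_subset _) hx
          exact hxT (Finset.mem_inter.1 h4).1
      have h3 : ν + 1 ≤ ww G b (iso G T Tm) := by
        have h3 := hTg _ (iso_ind hT.1 hTm.1.1) (Finset.empty_subset _)
        rcases lt_or_eq_of_le h3 with h | h
        · omega
        · exfalso
          have h4 := hTmin _ (lv_of hTg (iso_ind hT.1 hTm.1.1)
            (Finset.empty_subset _) h.symm) (Finset.empty_subset _) hx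
          exact (mem_iso.1 h4).2 (nbh_mono Finset.subset_union_left hxN)
      have h4 := wt_le_two (G := G) T x
      have h5 := wt_le_two (G := G) T y
      have h6 := hTm.2.1
      linarith
    · have h4 := wt_le_one hxN
      have h5 := wt_le_two (G := G) T y
      linarith
  subst he
  have hν0 : ν = 0 := by rw [← hTm.2.1]; exact ww_empty
  subst hν0
  have hnn : ∀ T, Ind G W T → 0 ≤ ww G b T := fun T hT => hTg T hT (Finset.empty_subset _)
  obtain ⟨x0, hx0⟩ := hne
  obtain ⟨y0, hy0, hxy0⟩ := hni x0 hx0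
  by_cases hB4 : 2 * q + 4 ≤ bs b W
  · refine ⟨x0, hx0, y0, hy0, hxy0, fun T hT => ?_⟩
    have h4 := wt_le_two (G := G) T x0
    have h5 := wt_le_two (G := G) T y0
    have h6 := hnn T hT
    linarith
  by_cases hB3 : bs b W = 2 * q + 3
  · -- odd case
    obtain ⟨M, hM, _⟩ := exists_mx hTm
    have hall : ∀ T, Lv G b W 0 T → T ⊆ M := by
      intro T hT
      have hU : Ind G W (T ∪ M) := by
        by_contra hU
        have := (incompat hG hb hb0 hTg hT.1 hM.1.1 (Finset.empty_subset _)
          (Finset.empty_subset _) hT.2.1 hM.1.2.1 hU).2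
        rw [hB3, add_zero] at this
        obtain ⟨k, hk⟩ := this
        omega
      have h1 := hM.2 _ (lv_union hTg hT hM.1 (Finset.empty_subset _) (Finset.empty_subset _) hU)
        Finset.subset_union_right
      rw [← h1]; exact Finset.subset_union_left
    obtain ⟨r, hrW, hrN, hrM⟩ : ∃ r ∈ W, r ∉ nbh G M ∧ r ∉ M := by
      by_contra hcon
      push Not at hcon
      have hd : Disjoint (nbh G M) M := by
        rw [Finset.disjoint_right]
        exact fun y hy => (ind_iff_disj hM.1.1.1).1 hM.1.1 y hy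
      have h1 : bs b W = bs b (nbh G M ∪ M) := by
        apply bs_eq_of_cover hb0
        · intro r hr _
          rw [Finset.mem_union]
          by_cases h : r ∈ nbh G M
          · exact Or.inl h
          · exact Or.inr (hcon r hr h)
        · intro r hr _; exact hr
      rw [bs_union b hd] at h1
      have h2 := hM.1.2.1
      unfold ww at h2
      omega
    obtain ⟨r', hr'W, hrr', hr'N⟩ : ∃ r' ∈ W, G.Adj r r' ∧ r' ∉ nbh G M := by
      by_contra hcon
      push Not at hcon
      have hind : Ind G W (insert r M) := by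
        refine ⟨Finset.insert_subset_iff.2 ⟨hrW, hM.1.1.1⟩, ?_⟩
        intro x hx y hy hxy
        rcases Finset.mem_insert.1 hx with hx' | hx' <;>
          rcases Finset.mem_insert.1 hy with hy' | hy'
        · rw [hx', hy'] at hxy
          exact G.loopless.irrefl _ hxy
        · rw [hx'] at hxy
          exact hrN (mem_nbh.2 ⟨y, hy', hxy.symm⟩)
        · rw [hy'] at hxy
          exact hrN (mem_nbh.2 ⟨x, hx', hxy⟩)
        · exact hM.1.1.2 x hx' y hy' hxy
      have h1 := hnn _ hind
      have h2 : bs b (nbh G (insert r M)) = bs b (nbh G M) := by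
        apply bs_eq_of_cover hb0
        · intro y hyW hy
          obtain ⟨x, hx, hxy⟩ := mem_nbh.1 hy
          rcases Finset.mem_insert.1 hx with hx' | hx'
          · rw [hx'] at hxy; exact hcon y hyW hxy
          · exact mem_nbh.2 ⟨x, hx', hxy⟩
        · intro y _ hy; exact nbh_mono (Finset.subset_insert _ _) hy
      unfold ww at h1
      rw [bs_insert b hrM, h2] at h1
      have h3 := hM.1.2.1
      unfold ww at h3
      have := hb r hrW
      omega
    refine ⟨r, hrW, r', hr'W, hrr', fun T hT => ?_⟩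
    have h5 := wt_le_two (G := G) T r'
    have h6 := hnn T hT
    rcases lt_or_eq_of_le h6 with h | h
    · have h4 := wt_le_two (G := G) T r
      linarith
    · have hTM := hall T (lv_of hTg hT (Finset.empty_subset _) h.symm)
      have h4 := wt_le_one (G := G) (T := T) (v := r) (fun h7 => hrN (nbh_mono hTM h7))
      linarith
  have hB2 : bs b W = 2 * q + 2 := by omega
  -- even case
  by_cases hP1 : ∃ T, Ind G W T ∧ T.Nonempty ∧ ww G b T = 0
  · obtain ⟨a, ha, hamin⟩ := Finset.exists_min_image (Finset.univ.filter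
      (fun T => Ind G W T ∧ T.Nonempty ∧ ww G b T = 0)) Finset.card (by
        obtain ⟨T, hT⟩ := hP1
        exact ⟨T, by simp [hT]⟩)
    rw [Finset.mem_filter] at ha
    obtain ⟨_, haI, ⟨x, hxa⟩, haw⟩ := ha
    have hsub : ∀ S, S ⊆ a → S.Nonempty → x ∉ S → 1 ≤ ww G b S := by
      intro S hS hSne hxS
      have h1 := hnn S (haI.mono hS)
      rcases lt_or_eq_of_le h1 with h | h
      · omega
      · exfalso
        have h2 := hamin S (by simp [haI.mono hS, hSne, h.symm])
        have h3 := Finset.eq_of_subset_of_card_le hS h2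
        exact hxS (h3 ▸ hxa)
    obtain ⟨y, hyW, hxy⟩ := hni x (haI.1 hxa)
    have hya : y ∈ nbh G a := mem_nbh.2 ⟨x, hxa, hxy⟩
    have hyna : y ∉ a := fun h => (ind_iff_disj haI.1).1 haI y h hya
    have hby := hb y hyW
    -- no neighbour `y` of tight sets disjoint from `a`
    have hkey : ∀ T3, Ind G W T3 → ww G b T3 = 0 → x ∉ T3 → y ∉ nbh G T3 := by
      intro T3 h1 h2 h3 h4
      have h5 := uncross_eq (G := G) (b := b) T3 a
      have h6 := s1_nonneg (G := G) (b := b) T3 a
      have h7 := s2_nonneg (G := G) (b := b) T3 a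
      have h8 := hnn _ (iso_ind h1.1 haI.1)
      have h9 := hnn _ (h1.mono (Finset.inter_subset_left (s₂ := a)))
      have h10 : T3 ∩ a = ∅ := by
        by_contra hne
        have := hsub (T3 ∩ a) Finset.inter_subset_right (Finset.nonempty_iff_ne_empty.2 hne)
          (fun h => h3 (Finset.mem_inter.1 h).1)
        linarith
      have h11 := le_s1 (b := b) h4 hya (by rw [h10, nbh_empty]; exact Finset.notMem_empty y)
      omega
    refine ⟨x, haI.1 hxa, y, hyW, hxy, fun T hT => ?_⟩
    rw [hB2]
    have hT0' := hnn T hT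
    have w1 := wt_le_two (G := G) T x
    have w2 := wt_le_two (G := G) T y
    by_cases hxT : x ∈ T
    · have := wt_mem hT hxT
      linarith
    have e0 := uncross_eq (G := G) (b := b) T a
    rw [haw] at e0
    have e1 := s1_nonneg (G := G) (b := b) T a
    have e2 := s2_nonneg (G := G) (b := b) T a
    have e3 := hnn _ (iso_ind hT.1 haI.1)
    have e4 := hnn _ (hT.mono (Finset.inter_subset_left (s₂ := a)))
    have hTa : T ∩ a = ∅ ∨ 1 ≤ ww G b (T ∩ a) := by
      by_cases h : T ∩ a = ∅
      · exact Or.inl h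
      · exact Or.inr (hsub _ Finset.inter_subset_right (Finset.nonempty_iff_ne_empty.2 h)
          (fun h => hxT (Finset.mem_inter.1 h).1))
    by_cases hxN : x ∈ nbh G T
    swap
    · have w1' := wt_le_one hxN
      by_cases hw : 1 ≤ ww G b T
      · linarith
      · have hw0 : ww G b T = 0 := by omega
        have w2' := wt_le_one (hkey T hT hw0 hxT)
        linarith
    have hU : ¬ Ind G W (T ∪ a) := by
      intro h
      exact (ind_iff_disj h.1).1 h x (Finset.mem_union_right _ hxa)
        (nbh_mono Finset.subset_union_left hxN)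
    have hx3 : x ∉ iso G T a := fun h => (mem_iso.1 h).2 (nbh_mono Finset.subset_union_left hxN)
    by_cases hw2 : 2 ≤ ww G b T
    · linarith
    have hw01 : ww G b T = 0 ∨ ww G b T = 1 := by omega
    rcases hw01 with hw0 | hw1
    · have h1 : T ∩ a = ∅ := by
        rcases hTa with h | h
        · exact h
        · exfalso; linarith
      have h2 : ww G b (iso G T a) = 0 := by linarith
      have hcov := cover hG hb hb0 hT.1 haI.1 hU (by linarith)
        (fun T' hT' _ => by rw [h2]; exact hnn T' hT') y hyW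
      rcases hcov with h3 | h3
      · exact absurd h3 (hkey _ (iso_ind hT.1 haI.1) h2 hx3)
      · rcases Finset.mem_union.1 h3 with h4 | h4
        · have := wt_mem hT h4
          linarith
        · exact absurd h4 hyna
    · by_cases hyN : y ∈ nbh G T
      swap
      · have := wt_le_one hyN
        linarith
      exfalso
      rcases hTa with h1 | h1
      · have h2 := le_s1 (b := b) hyN hya (by rw [h1, nbh_empty]; exact Finset.notMem_empty y)
        have h3 : ww G b (iso G T a) = 0 := by omega
        have hcov := cover hG hb hb0 hT.1 haI.1 hU (by omega)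
          (fun T' hT' _ => by rw [h3]; exact hnn T' hT') y hyW
        rcases hcov with h4 | h4
        · exact hkey _ (iso_ind hT.1 haI.1) h3 hx3 h4
        · rcases Finset.mem_union.1 h4 with h5 | h5
          · exact (ind_iff_disj hT.1).1 hT y h5 hyN
          · exact hyna h5
      · have h3 : ww G b (iso G T a) = 0 := by omega
        -- the intersection is nonempty and inside `iso`
        have hne' : T ∩ a ≠ ∅ := by
          intro h
          rw [h, ww_empty] at h1
          omega
        have h4 : T ∩ a ⊆ iso G T a ∩ a :=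
          Finset.subset_inter (inter_sub_iso hT haI) Finset.inter_subset_right
        have h5 : (iso G T a ∩ a).Nonempty := by
          rw [Finset.nonempty_iff_ne_empty]
          intro h
          rw [h, Finset.subset_empty] at h4
          exact hne' h4
        have h6 := hsub _ Finset.inter_subset_right h5 (fun h => hx3 (Finset.mem_inter.1 h).1)
        have h7 := uncross (G := G) (b := b) (iso G T a) a
        have h8 := hnn _ (iso_ind (G := G) (S := iso G T a) (T := a)
          (iso_ind (G := G) hT.1 haI.1).1 haI.1)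
        linarith
  push Not at hP1
  have hnn1 : ∀ T, Ind G W T → T.Nonempty → 1 ≤ ww G b T := by
    intro T hT hTne
    have h1 := hnn T hT
    have h2 := hP1 T hT hTne
    omega
  by_cases hP2 : ∃ T, Ind G W T ∧ T.Nonempty ∧ ww G b T = 1
  swap
  · push Not at hP2
    refine ⟨x0, hx0, y0, hy0, hxy0, fun T hT => ?_⟩
    have h4 := wt_le_two (G := G) T x0
    have h5 := wt_le_two (G := G) T y0
    rw [hB2]
    rcases T.eq_empty_or_nonempty with h | h
    · subst h
      rw [ww_empty]
      have h6 := wt_le_one (G := G) (T := ∅) (v := x0) (by simp)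
      have h7 := wt_le_one (G := G) (T := ∅) (v := y0) (by simp)
      linarith
    · have h6 := hnn1 T hT h
      have h7 := hP2 T hT h
      have h8 : 2 ≤ ww G b T := by omega
      linarith
  obtain ⟨a, ha, hamin⟩ := Finset.exists_min_image (Finset.univ.filter
    (fun T => Ind G W T ∧ T.Nonempty ∧ ww G b T = 1)) Finset.card (by
      obtain ⟨T, hT⟩ := hP2
      exact ⟨T, by simp [hT]⟩)
  rw [Finset.mem_filter] at ha
  obtain ⟨_, haI, ⟨x, hxa⟩, haw⟩ := ha
  have hsub : ∀ S, S ⊆ a → S.Nonempty → x ∉ S → 2 ≤ ww G b S := by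
    intro S hS hSne hxS
    have h1 := hnn1 S (haI.mono hS) hSne
    rcases lt_or_eq_of_le h1 with h | h
    · omega
    · exfalso
      have h2 := hamin S (by simp [haI.mono hS, hSne, h.symm])
      have h3 := Finset.eq_of_subset_of_card_le hS h2
      exact hxS (h3 ▸ hxa)
  obtain ⟨y, hyW, hxy⟩ := hni x (haI.1 hxa)
  have hya : y ∈ nbh G a := mem_nbh.2 ⟨x, hxa, hxy⟩
  have hyna : y ∉ a := fun h => (ind_iff_disj haI.1).1 haI y h hya
  have hby := hb y hyW
  refine ⟨x, haI.1 hxa, y, hyW, hxy, fun T hT => ?_⟩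
  rw [hB2]
  have w1 := wt_le_two (G := G) T x
  have w2 := wt_le_two (G := G) T y
  rcases T.eq_empty_or_nonempty with hTe | hTne
  · subst hTe
    rw [ww_empty]
    have h6 := wt_le_one (G := G) (T := ∅) (v := x) (by simp)
    have h7 := wt_le_one (G := G) (T := ∅) (v := y) (by simp)
    linarith
  have hT1 := hnn1 T hT hTne
  by_cases hw2 : 2 ≤ ww G b T
  · linarith
  have hw1 : ww G b T = 1 := by omega
  by_cases hxN : x ∈ nbh G T
  swap
  · have := wt_le_one hxN
    linarith
  by_cases hyN : y ∈ nbh G T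
  swap
  · have := wt_le_one hyN
    linarith
  exfalso
  have hxT : x ∉ T := fun h => (ind_iff_disj hT.1).1 hT x h hxN
  have hyT : y ∉ T := fun h => (ind_iff_disj hT.1).1 hT y h hyN
  have hU : ¬ Ind G W (T ∪ a) := by
    intro h
    exact (ind_iff_disj h.1).1 h x (Finset.mem_union_right _ hxa)
      (nbh_mono Finset.subset_union_left hxN)
  have hx3 : x ∉ iso G T a := fun h => (mem_iso.1 h).2 (nbh_mono Finset.subset_union_left hxN)
  have e0 := uncross_eq (G := G) (b := b) T a
  rw [haw, hw1] at e0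
  have e1 := s1_nonneg (G := G) (b := b) T a
  have e2 := s2_nonneg (G := G) (b := b) T a
  have e3 := hnn _ (iso_ind hT.1 haI.1)
  have e4 := hnn _ (hT.mono (Finset.inter_subset_left (s₂ := a)))
  have hTaI : Ind G W (iso G T a) := iso_ind hT.1 haI.1
  have hTa : T ∩ a = ∅ := by
    by_contra hne'
    have h1 := hsub _ Finset.inter_subset_right (Finset.nonempty_iff_ne_empty.2 hne')
      (fun h => hxT (Finset.mem_inter.1 h).1)
    have h2 : (iso G T a).Nonempty := by
      obtain ⟨z, hz⟩ := Finset.nonempty_iff_ne_empty.2 hne'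
      exact ⟨z, inter_sub_iso hT haI hz⟩
    have h3 := hnn1 _ hTaI h2
    linarith
  rw [hTa, ww_empty] at e0
  have hs1 := le_s1 (b := b) hyN hya (by rw [hTa, nbh_empty]; exact Finset.notMem_empty y)
  -- elements of `a` outside `iso` have a neighbour in `T`
  have haT : ∀ z ∈ a, z ∉ iso G T a → z ∈ nbh G T := by
    intro z hz hz'
    rw [mem_iso] at hz'
    push Not at hz'
    obtain ⟨p, hp, hpz⟩ := mem_nbh.1 (hz' (Finset.mem_union_right _ hz))
    rcases Finset.mem_union.1 hp with h | h
    · exact mem_nbh.2 ⟨p, h, hpz⟩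
    · exact absurd hpz (haI.2 p h z hz)
  have hdTa : Disjoint T a := Finset.disjoint_iff_inter_eq_empty.2 hTa
  have hwT : bs b (nbh G T) = bs b T + 1 := by
    unfold ww at hw1; linarith
  rcases (iso G T a).eq_empty_or_nonempty with h3e | h3ne
  · -- empty isolated part
    have hyU : y ∉ T ∪ a := by
      rw [Finset.mem_union]; push Not; exact ⟨hyT, hyna⟩
    have hyNU : y ∈ nbh G (T ∪ a) := nbh_mono Finset.subset_union_left hyN
    have hs2 := le_s2 (b := b) hyNU (by rw [h3e, nbh_empty]; exact Finset.notMem_empty y) hyU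
    rw [h3e, ww_empty] at e0
    have hby1 : b y = 1 := by omega
    have hno : ∀ r ∈ W, r ∉ T ∪ a → r ≠ y → r ∉ nbh G (T ∪ a) := by
      intro r hr h1 h2 h4
      have h5 := le_s2' (b := b) h2 h4 (by rw [h3e, nbh_empty]; exact Finset.notMem_empty r) h1
        hyNU (by rw [h3e, nbh_empty]; exact Finset.notMem_empty y) hyU
      have := hb r hr
      omega
    obtain ⟨z, hzT, hzx⟩ := mem_nbh.1 hxN
    have hcov : ∀ r ∈ W, r ∈ T ∪ a ∨ r = y := by
      intro r hr
      by_contra hcon
      push Not at hcon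
      have hrN := hno r hr hcon.1 hcon.2
      have hnb : ∀ r' ∈ W, G.Adj r r' → r' = y := by
        intro r' hr' hadj
        by_contra hne'
        have h1 : r' ∉ T ∪ a := fun h => hrN (mem_nbh.2 ⟨r', h, hadj.symm⟩)
        have h2 := hno r' hr' h1 hne'
        have hzU : z ∈ T ∪ a := Finset.mem_union_left _ hzT
        have hxU : x ∈ T ∪ a := Finset.mem_union_right _ hxa
        rcases hG z x r r' hzx hadj (fun h => hcon.1 (h ▸ hzU)) (fun h => h1 (h ▸ hzU))
          (fun h => hcon.1 (h ▸ hxU)) (fun h => h1 (h ▸ hxU)) with h4 | h4 | h4 | h4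
        · exact hrN (mem_nbh.2 ⟨z, hzU, h4⟩)
        · exact h2 (mem_nbh.2 ⟨z, hzU, h4⟩)
        · exact hrN (mem_nbh.2 ⟨x, hxU, h4⟩)
        · exact h2 (mem_nbh.2 ⟨x, hxU, h4⟩)
      have hrI : Ind G W {r} := by
        refine ⟨Finset.singleton_subset_iff.2 hr, ?_⟩
        intro p hp p' hp' hpp
        rw [Finset.mem_singleton] at hp hp'
        rw [hp, hp'] at hpp
        exact G.loopless.irrefl _ hpp
      have h1 := hnn1 _ hrI (Finset.singleton_nonempty r)
      have h2 : bs b (nbh G {r}) ≤ bs b ({y} : Finset V) := by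
        have : bs b (nbh G {r}) = bs b (nbh G {r} ∩ {y}) := by
          apply bs_eq_of_cover hb0
          · intro r' hr' h
            rw [Finset.mem_inter, Finset.mem_singleton]
            obtain ⟨p, hp, hpr⟩ := mem_nbh.1 h
            rw [Finset.mem_singleton] at hp
            rw [hp] at hpr
            exact ⟨h, hnb r' hr' hpr⟩
          · intro r' _ h; exact (Finset.mem_inter.1 h).1
        rw [this]
        exact bs_mono Finset.inter_subset_right
      have h4 : bs b ({y} : Finset V) = b y := by simp [bs]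
      have h5 : bs b ({r} : Finset V) = b r := by simp [bs]
      unfold ww at h1
      have := hb r hr
      omega
    have hBeq : bs b W = bs b (insert y (T ∪ a)) := by
      apply bs_eq_of_cover hb0
      · intro r hr _
        rw [Finset.mem_insert]
        rcases hcov r hr with h | h
        · exact Or.inr h
        · exact Or.inl h
      · intro r hr _; exact hr
    rw [bs_insert b hyU, bs_union b hdTa] at hBeq
    have hNT : bs b (nbh G T) = bs b (insert y a) := by
      apply bs_eq_of_cover hb0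
      · intro r hr h
        rw [Finset.mem_insert]
        rcases hcov r hr with h1 | h1
        · rcases Finset.mem_union.1 h1 with h2 | h2
          · exact absurd h ((ind_iff_disj hT.1).1 hT r h2)
          · exact Or.inr h2
        · exact Or.inl h1
      · intro r hr h
        rcases Finset.mem_insert.1 h with h1 | h1
        · rw [h1]; exact hyN
        · exact haT r h1 (by rw [h3e]; exact Finset.notMem_empty r)
    rw [bs_insert b hyna] at hNT
    omega
  · have h31 := hnn1 _ hTaI h3ne
    have h3w : ww G b (iso G T a) = 1 := by omega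
    have h3a : iso G T a ∩ a = ∅ := by
      by_contra hne'
      have h1 := hsub _ Finset.inter_subset_right (Finset.nonempty_iff_ne_empty.2 hne')
        (fun h => hx3 (Finset.mem_inter.1 h).1)
      have h2 := uncross (G := G) (b := b) (iso G T a) a
      have h4 : (iso G (iso G T a) a).Nonempty := by
        obtain ⟨z, hz⟩ := Finset.nonempty_iff_ne_empty.2 hne'
        exact ⟨z, inter_sub_iso hTaI haI hz⟩
      have h5 := hnn1 _ (iso_ind hTaI.1 haI.1) h4
      linarith
    have h3T : iso G T a ⊆ T := by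
      intro z hz
      rcases Finset.mem_union.1 (iso_sub hz) with h | h
      · exact h
      · exfalso
        have : z ∈ iso G T a ∩ a := Finset.mem_inter.2 ⟨hz, h⟩
        rw [h3a] at this
        exact Finset.notMem_empty z this
    have hcov := cover hG hb hb0 hT.1 haI.1 hU (by omega)
      (fun T' hT' hsub' => by
        rw [h3w]
        obtain ⟨z, hz⟩ := h3ne
        exact hnn1 T' hT' ⟨z, hsub' hz⟩)
    have hd1 : Disjoint (nbh G (iso G T a)) (T ∪ a) := by
      rw [Finset.disjoint_left]
      intro z hz hz'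
      exact nbh_iso_disj hz' hz
    have hBeq : bs b W = bs b (nbh G (iso G T a) ∪ (T ∪ a)) := by
      apply bs_eq_of_cover hb0
      · intro r hr _
        exact Finset.mem_union.2 (hcov r hr)
      · intro r hr _; exact hr
    rw [bs_union b hd1, bs_union b hdTa] at hBeq
    have hd2 : Disjoint (nbh G (iso G T a)) a :=
      Finset.disjoint_of_subset_right Finset.subset_union_right hd1
    have hNT : bs b (nbh G T) = bs b (nbh G (iso G T a) ∪ a) := by
      apply bs_eq_of_cover hb0
      · intro r hr h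
        rw [Finset.mem_union]
        rcases hcov r hr with h1 | h1
        · exact Or.inl h1
        · rcases Finset.mem_union.1 h1 with h2 | h2
          · exact absurd h ((ind_iff_disj hT.1).1 hT r h2)
          · exact Or.inr h2
      · intro r hr h
        rcases Finset.mem_union.1 h with h1 | h1
        · exact nbh_mono h3T h1
        · apply haT r h1
          intro h2
          have : r ∈ iso G T a ∩ a := Finset.mem_inter.2 ⟨h2, h1⟩
          rw [h3a] at this
          exact Finset.notMem_empty r this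
    rw [bs_union b hd2] at hNT
    have h3n : bs b (nbh G (iso G T a)) = bs b (iso G T a) + 1 := by
      unfold ww at h3w; linarith
    omega

end Pool.Agent.H803R3
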