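import Mathlib
import Pool.Agent.H803R3.MinMax

/-!
The min-max formula, localized version.
-/

set_option autoImplicit false
set_option linter.unusedSectionVars false

namespace Pool.Agent.H803R3

open Finset Classical

variable {V : Type*} [Fintype V] [LinearOrder V] {G : SimpleGraph V}

lemma bs_ite (W : Finset V) (b : V → ℕ) (S : Finset V) :
    bs (fun v => if v ∈ W then b v else 0) S = bs b (S ∩ W) := by
  unfold bs
  rw [← Finset.sum_filter_add_sum_filter_not S (· ∈ W)]
  rw [Finset.sum_eq_zero (s := S.filter (fun x => ¬ x ∈ W))]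
  · rw [add_zero]
    have : S.filter (· ∈ W) = S ∩ W := by ext; simp
    rw [this]
    apply Finset.sum_congr rfl
    intro v hv
    show ((if v ∈ W then b v else 0 : ℕ) : ℤ) = _
    rw [if_pos (Finset.mem_inter.1 hv).2]
  · intro v hv
    show ((if v ∈ W then b v else 0 : ℕ) : ℤ) = _
    rw [if_neg (Finset.mem_filter.1 hv).2]; rfl

lemma bs_sub_one (b : V → ℕ) (x y : V) (hxy : x ≠ y) (hx : 1 ≤ b x) (hy : 1 ≤ b y)
    (S : Finset V) :
    bs (fun v => b v - (if v = x then 1 else 0) - (if v = y then 1 else 0)) S =
      bs b S - (if x ∈ S then 1 else 0) - (if y ∈ S then 1 else 0) := by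
  have h1 : ∀ v, (((b v - (if v = x then 1 else 0) - (if v = y then 1 else 0) : ℕ)) : ℤ) =
      (b v : ℤ) - (if v = x then 1 else 0) - (if v = y then 1 else 0) := by
    intro v
    by_cases h1 : v = x
    · subst h1
      rw [if_pos rfl, if_pos rfl, if_neg hxy, if_neg hxy]
      omega
    · by_cases h2 : v = y
      · subst h2
        rw [if_neg h1, if_neg h1, if_pos rfl, if_pos rfl]
        omega
      · rw [if_neg h1, if_neg h1, if_neg h2, if_neg h2]
        omega
  unfold bs
  rw [Finset.sum_congr rfl fun v _ => h1 v, Finset.sum_sub_distrib, Finset.sum_sub_distrib,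
    Finset.sum_ite_eq' S x, Finset.sum_ite_eq' S y]

theorem minmax (hG : Gap G) : ∀ (q : ℕ) (b : V → ℕ),
    (∀ T, Ind G Finset.univ T → 2 * (q : ℤ) ≤ bs b Finset.univ + ww G b T) →
    ∃ X : Multiset (Sym2 V), (∀ e ∈ X, e ∈ G.edgeSet) ∧ Multiset.card X = q ∧
      ∀ w, dg X w ≤ b w := by
  intro q
  induction q with
  | zero =>
    intro b _
    exact ⟨0, fun e he => absurd he (Multiset.notMem_zero e), rfl, fun w => by simp⟩
  | succ q ih =>
    intro b hyp
    set W : Finset V := Finset.univ.filter (fun v => 1 ≤ b v) with hW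
    set W1 : Finset V := W.filter (fun v => ∃ y ∈ W, G.Adj v y) with hW1
    set I0 : Finset V := W.filter (fun v => ¬ ∃ y ∈ W, G.Adj v y) with hI0
    set b1 : V → ℕ := fun v => if v ∈ W1 then b v else 0 with hb1
    have hbW : ∀ x, x ∉ W → b x = 0 := by
      intro x hx
      by_contra h
      apply hx
      rw [hW, Finset.mem_filter]
      exact ⟨Finset.mem_univ _, by omega⟩
    have hW1W : W1 ⊆ W := Finset.filter_subset _ _
    have hI0W : I0 ⊆ W := Finset.filter_subset _ _
    have hd : Disjoint W1 I0 := Finset.disjoint_filter_filter_not _ _ _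
    have hWeq : W1 ∪ I0 = W := Finset.filter_union_filter_not_eq _ _
    have hb : ∀ x ∈ W1, 1 ≤ b1 x := by
      intro x hx
      rw [hb1]
      simp only
      rw [if_pos hx]
      have := hW1W hx
      rw [hW, Finset.mem_filter] at this
      exact this.2
    have hb0 : ∀ x, x ∉ W1 → b1 x = 0 := by
      intro x hx
      rw [hb1]
      simp only
      rw [if_neg hx]
    have hni : ∀ x ∈ W1, ∃ y ∈ W1, G.Adj x y := by
      intro x hx
      rw [hW1, Finset.mem_filter] at hx
      obtain ⟨y, hy, hxy⟩ := hx.2
      refine ⟨y, ?_, hxy⟩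
      rw [hW1, Finset.mem_filter]
      exact ⟨hy, x, hx.1, hxy.symm⟩
    have hmin : ∀ T, Ind G W1 T → 2 * (q : ℤ) + 2 ≤ bs b1 W1 + ww G b1 T := by
      intro T hT
      have hI : Ind G Finset.univ (T ∪ I0) := by
        refine ⟨Finset.subset_univ _, ?_⟩
        intro p hp p' hp' hpp
        have hW' : ∀ z ∈ T ∪ I0, z ∈ W := by
          intro z hz
          rcases Finset.mem_union.1 hz with h | h
          · exact hW1W (hT.1 h)
          · exact hI0W h
        rcases Finset.mem_union.1 hp with h1 | h1
        · rcases Finset.mem_union.1 hp' with h2 | h2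
          · exact hT.2 p h1 p' h2 hpp
          · exact (Finset.mem_filter.1 h2).2 ⟨p, hW' p hp, hpp.symm⟩
        · exact (Finset.mem_filter.1 h1).2 ⟨p', hW' p' hp', hpp⟩
      have h1 := hyp _ hI
      have e1 : bs b Finset.univ = bs b W1 + bs b I0 := by
        rw [← bs_union b hd, hWeq]
        exact bs_eq_of_cover (W := W) hbW (fun r hr _ => hr) (fun r _ _ => Finset.mem_univ r)
      have e2 : bs b1 W1 = bs b W1 := by rw [hb1, bs_ite, Finset.inter_self]
      have e3 : bs b (nbh G (T ∪ I0)) = bs b1 (nbh G T) := by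
        rw [hb1, bs_ite]
        apply bs_eq_of_cover (W := W) hbW
        · intro r hr h
          obtain ⟨p, hp, hpr⟩ := mem_nbh.1 h
          rcases Finset.mem_union.1 hp with h2 | h2
          · rw [Finset.mem_inter]
            refine ⟨mem_nbh.2 ⟨p, h2, hpr⟩, ?_⟩
            rw [hW1, Finset.mem_filter]
            exact ⟨hr, p, hW1W (hT.1 h2), hpr.symm⟩
          · exact absurd ⟨r, hr, hpr⟩ (Finset.mem_filter.1 h2).2
        · intro r _ h
          exact nbh_mono Finset.subset_union_left (Finset.mem_inter.1 h).1
      have e4 : bs b (T ∪ I0) = bs b1 T + bs b I0 := by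
        rw [bs_union b (Finset.disjoint_of_subset_left hT.1 hd), hb1, bs_ite,
          Finset.inter_eq_left.2 hT.1]
      unfold ww at h1 ⊢
      rw [e1, e3, e4] at h1
      rw [e2]
      push_cast at h1
      linarith
    have hne : W1.Nonempty := by
      rw [Finset.nonempty_iff_ne_empty]
      intro h
      have h1 := hmin ∅ ⟨Finset.empty_subset _, fun x hx => absurd hx (Finset.notMem_empty x)⟩
      rw [h, ww_empty, bs_empty] at h1
      omega
    obtain ⟨x, hx, y, hy, hxy, hgood⟩ := good_edge hG hb hb0 hni hne (q : ℤ) hmin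
    have hbx := hb x hx
    have hby := hb y hy
    have hsub := bs_sub_one b1 x y hxy.ne hbx hby
    obtain ⟨X, hX1, hX2, hX3⟩ := ih
      (fun v => b1 v - (if v = x then 1 else 0) - (if v = y then 1 else 0)) (by
        intro T hT
        have hTI : Ind G W1 (T ∩ W1) :=
          ⟨Finset.inter_subset_right, fun p hp p' hp' => hT.2 p (Finset.mem_inter.1 hp).1 p'
            (Finset.mem_inter.1 hp').1⟩
        have h1 := hgood _ hTI
        unfold ww
        rw [hsub Finset.univ, if_pos (Finset.mem_univ _), if_pos (Finset.mem_univ _)]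
        have e1 : bs b1 Finset.univ = bs b1 W1 :=
          bs_eq_of_cover hb0 (fun r hr _ => hr) (fun r _ _ => Finset.mem_univ r)
        have e2 : bs (fun v => b1 v - (if v = x then 1 else 0) - (if v = y then 1 else 0)) T =
            bs (fun v => b1 v - (if v = x then 1 else 0) - (if v = y then 1 else 0)) (T ∩ W1) := by
          apply bs_eq_of_cover (W := W1)
          · intro r hr
            have := hb0 r hr
            show b1 r - _ - _ = 0
            rw [this]
            omega
          · intro r hr h; exact Finset.mem_inter.2 ⟨h, hr⟩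
          · intro r _ h; exact (Finset.mem_inter.1 h).1
        have e3 : bs (fun v => b1 v - (if v = x then 1 else 0) - (if v = y then 1 else 0))
            (nbh G (T ∩ W1)) ≤
            bs (fun v => b1 v - (if v = x then 1 else 0) - (if v = y then 1 else 0)) (nbh G T) :=
          bs_mono (nbh_mono Finset.inter_subset_left)
        rw [e2]
        rw [hsub (nbh G (T ∩ W1))] at e3
        rw [hsub (T ∩ W1), e1]
        unfold wt ww at h1
        linarith)
    refine ⟨s(x, y) ::ₘ X, ?_, ?_, ?_⟩
    · intro e he
      rcases Multiset.mem_cons.1 he with rfl | h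
      · exact hxy
      · exact hX1 e h
    · rw [Multiset.card_cons, hX2]
    · intro w
      rw [dg_cons_pair x y hxy.ne]
      have h1 : _ ≤ b1 w - (if w = x then 1 else 0) - (if w = y then 1 else 0) := hX3 w
      have h2 : b1 w ≤ b w := by
        rw [hb1]
        simp only
        split_ifs
        · exact le_rfl
        · exact Nat.zero_le _
      by_cases hwx : w = x
      · subst hwx
        rw [if_pos rfl, if_neg hxy.ne] at h1 ⊢
        omega
      · by_cases hwy : w = y
        · subst hwy
          rw [if_neg hwx, if_pos rfl] at h1 ⊢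
          omega
        · rw [if_neg hwx, if_neg hwy] at h1 ⊢
          omega

lemma wt_edge {T : Finset V} (hT : Ind G Finset.univ T) {u v : V} (h : G.Adj u v) :
    2 ≤ wt G T u + wt G T v := by
  have hn : ∀ z ∈ T, z ∉ nbh G T := (ind_iff_disj hT.1).1 hT
  by_cases hu : u ∈ T
  · have h1 : v ∈ nbh G T := mem_nbh.2 ⟨u, hu, h⟩
    have h2 : v ∉ T := fun h3 => hn v h3 h1
    rw [wt_mem hT hu]
    unfold wt
    rw [if_pos h1, if_neg h2]
    norm_num
  · by_cases hv : v ∈ T
    · have h1 : u ∈ nbh G T := mem_nbh.2 ⟨v, hv, h.symm⟩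
      rw [wt_mem hT hv]
      unfold wt
      rw [if_pos h1, if_neg hu]
      norm_num
    · unfold wt
      rw [if_neg hu, if_neg hv]
      split_ifs <;> norm_num

lemma wt_nonneg {T : Finset V} (v : V) : 0 ≤ wt G T v := by
  unfold wt; split_ifs <;> norm_num

lemma card_le_wt {T : Finset V} (hT : Ind G Finset.univ T) (X : Multiset (Sym2 V)) :
    (∀ e ∈ X, e ∈ G.edgeSet) → 2 * (Multiset.card X : ℤ) ≤ ∑ v, (dg X v : ℤ) * wt G T v := by
  induction X using Multiset.induction_on with
  | empty => intro _; simp
  | cons e X ih =>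
    intro hX
    have h1 := ih (fun e he => hX e (Multiset.mem_cons_of_mem he))
    have he := hX e (Multiset.mem_cons_self e X)
    induction e using Sym2.ind with
    | h u v =>
      have huv : G.Adj u v := he
      have h2 : ∑ w, (dg (s(u, v) ::ₘ X) w : ℤ) * wt G T w =
          ∑ w, (dg X w : ℤ) * wt G T w + wt G T u + wt G T v := by
        have : ∀ w, (dg (s(u, v) ::ₘ X) w : ℤ) * wt G T w = (dg X w : ℤ) * wt G T w +
            (if w = u then wt G T w else 0) + (if w = v then wt G T w else 0) := by
          intro w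
          rw [dg_cons_pair u v huv.ne]
          push_cast
          split_ifs <;> ring
        rw [Finset.sum_congr rfl fun w _ => this w, Finset.sum_add_distrib,
          Finset.sum_add_distrib, Finset.sum_ite_eq' Finset.univ u,
          Finset.sum_ite_eq' Finset.univ v]
        simp
      rw [h2, Multiset.card_cons]
      push_cast
      have := wt_edge hT huv
      linarith

lemma sum_wt (b : V → ℕ) (T : Finset V) :
    ∑ v, (b v : ℤ) * wt G T v = bs b Finset.univ + ww G b T := by
  unfold wt ww bs
  have : ∀ v, (b v : ℤ) * (1 + (if v ∈ nbh G T then 1 else 0) - (if v ∈ T then 1 else 0)) =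
      (b v : ℤ) + (if v ∈ nbh G T then (b v : ℤ) else 0) - (if v ∈ T then (b v : ℤ) else 0) := by
    intro v
    split_ifs <;> ring
  rw [Finset.sum_congr rfl fun v _ => this v, Finset.sum_sub_distrib, Finset.sum_add_distrib,
    Finset.sum_ite_mem, Finset.sum_ite_mem, Finset.univ_inter, Finset.univ_inter]
  ring

/-- localized min-max formula -/
theorem loc_minmax (hG : Gap G) (b : V → ℕ) (F : Finset V) (q : ℕ) :
    (¬ ∃ X : Multiset (Sym2 V), (∀ e ∈ X, e ∈ G.edgeSet) ∧ Multiset.card X = q ∧
      ∀ w, w ∉ F → dg X w ≤ b w) ↔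
    ∃ T, F ⊆ T ∧ Ind G Finset.univ T ∧ bs b Finset.univ + ww G b T ≤ 2 * (q : ℤ) - 1 := by
  constructor
  · intro h
    by_contra hcon
    push Not at hcon
    apply h
    set b' : V → ℕ := fun v => if v ∈ F then 2 * q else b v with hb'
    obtain ⟨X, h1, h2, h3⟩ := minmax hG q b' (by
      intro T hT
      by_cases hFT : F ⊆ T
      · have h1 := hcon T hFT hT
        have h2 : bs b' Finset.univ + ww G b' T = bs b Finset.univ + ww G b T := by
          rw [← sum_wt, ← sum_wt]
          apply Finset.sum_congr rfl
          intro v _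
          by_cases hv : v ∈ F
          · rw [wt_mem hT (hFT hv)]; ring
          · rw [hb']; simp only; rw [if_neg hv]
        rw [h2]
        linarith
      · obtain ⟨v, hvF, hvT⟩ := Finset.not_subset.1 hFT
        rw [← sum_wt]
        have h1 : (b' v : ℤ) * wt G T v ≤ ∑ v, (b' v : ℤ) * wt G T v :=
          Finset.single_le_sum (f := fun v => (b' v : ℤ) * wt G T v)
            (fun v _ => mul_nonneg (Int.natCast_nonneg _) (wt_nonneg v)) (Finset.mem_univ v)
        have h2 : (b' v : ℤ) = 2 * q := by
          rw [hb']; simp only; rw [if_pos hvF]; push_cast; ring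
        have h3 : 1 ≤ wt G T v := by
          unfold wt
          rw [if_neg hvT]
          split_ifs <;> norm_num
        rw [h2] at h1
        have h4 : (0 : ℤ) ≤ 2 * q := by positivity
        nlinarith)
    refine ⟨X, h1, h2, fun w hw => ?_⟩
    have := h3 w
    rw [hb'] at this
    simp only at this
    rwa [if_neg hw] at this
  · rintro ⟨T, hFT, hT, h⟩ ⟨X, h1, h2, h3⟩
    have h4 := card_le_wt hT X h1
    rw [h2] at h4
    have h5 : ∑ v, (dg X v : ℤ) * wt G T v ≤ ∑ v, (b v : ℤ) * wt G T v := by
      apply Finset.sum_le_sum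
      intro v _
      by_cases hv : v ∈ F
      · rw [wt_mem hT (hFT hv)]; simp
      · apply mul_le_mul_of_nonneg_right _ (wt_nonneg v)
        exact_mod_cast h3 v hv
    rw [sum_wt (G := G) b T] at h5
    linarith

end Pool.Agent.H803R3
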