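import Mathlib
import Pool.Agent.H803R3.MinMax2
import Pool.Agent.H803R3.DegC
import Pool.Agent.H803R3.Hyp

/-!
Rows of the double complex.
-/

set_option autoImplicit false
set_option linter.unusedSectionVars false

namespace Pool.Agent.H803R3

open Finset Classical

variable {n : ℕ} {K : Type*} [Field K]

/-- faces of the localized degree complexes -/
def PP (G : SimpleGraph (Fin n)) (a : Fin n → ℕ) (q : ℕ) (U F : Finset (Fin n)) : Prop :=
  ∃ X, IsG G X ∧ Multiset.card X = q ∧
    ∀ w, w ∉ F → dg X w + (if w ∈ U then 1 else 0) ≤ a w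

theorem row (G : SimpleGraph (Fin n)) (hG : Gap G) (t q : ℕ)
    (hInd : ∀ (W : Finset (Fin n)) (k : ℕ), t + 2 ≤ k → Ex K (Ind G W) k) (a : Fin n → ℕ)
    (L0 : Finset (Fin n)) (i : ℕ)
    (h1 : 2 * (q : ℤ) + L0ᶜ.card ≤ ((∑ w, a w : ℕ) : ℤ) + i)
    (h2 : (t : ℤ) + q + 1 + L0ᶜ.card ≤ ((∑ w, a w : ℕ) : ℤ) + i) :
    Ex K (fun F => (∀ v, v ∉ L0 → v ∉ F → 1 ≤ a v) ∧ ¬ PP G a q L0ᶜ F) i := by
  set b : Fin n → ℕ := fun v => a v - (if v ∈ L0 then 0 else 1) with hb
  set G0 : Finset (Fin n) := Finset.univ.filter (fun v => v ∉ L0 ∧ a v = 0) with hG0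
  have hbG0 : ∀ x ∈ G0, b x = 0 := by
    intro x hx
    rw [hG0, Finset.mem_filter] at hx
    show a x - _ = 0
    rw [hx.2.2]; omega
  have hallow : ∀ F : Finset (Fin n), (∀ v, v ∉ L0 → v ∉ F → 1 ≤ a v) ↔ G0 ⊆ F := by
    intro F
    constructor
    · intro h x hx
      rw [hG0, Finset.mem_filter] at hx
      by_contra hxF
      have := h x hx.2.1 hxF
      omega
    · intro h v hv hvF
      by_contra h0
      exact hvF (h (by rw [hG0, Finset.mem_filter]; exact ⟨Finset.mem_univ _, hv, by omega⟩))
  have hPP : ∀ F : Finset (Fin n), G0 ⊆ F → (¬ PP G a q L0ᶜ F ↔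
      ∃ T, F ⊆ T ∧ Ind G Finset.univ T ∧ bs b Finset.univ + ww G b T ≤ 2 * (q : ℤ) - 1) := by
    intro F hF
    rw [← loc_minmax hG b F q]
    have hiff : PP G a q L0ᶜ F ↔ ∃ X : Multiset (Sym2 (Fin n)), (∀ e ∈ X, e ∈ G.edgeSet) ∧
        Multiset.card X = q ∧ ∀ w, w ∉ F → dg X w ≤ b w := by
      constructor
      · rintro ⟨X, g1, g2, g3⟩
        refine ⟨X, g1, g2, fun w hw => ?_⟩
        have := g3 w hw
        show dg X w ≤ a w - _
        by_cases hwL : w ∈ L0
        · rw [if_neg (by simpa using hwL)] at this
          rw [if_pos hwL]; exact this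
        · rw [if_pos (by simpa using hwL)] at this
          rw [if_neg hwL]; omega
      · rintro ⟨X, g1, g2, g3⟩
        refine ⟨X, g1, g2, fun w hw => ?_⟩
        have h5 : dg X w ≤ a w - (if w ∈ L0 then 0 else 1) := g3 w hw
        by_cases hwL : w ∈ L0
        · rw [if_neg (by simpa using hwL)]
          rw [if_pos hwL] at h5; exact h5
        · rw [if_pos (by simpa using hwL)]
          rw [if_neg hwL] at h5
          have := (hallow F).2 hF w hwL hw
          omega
    rw [hiff]
  by_cases hI : Ind G Finset.univ G0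
  · have hdG : Disjoint G0 (nbh G G0) := by
      rw [Finset.disjoint_left]
      exact fun x hx => (ind_iff_disj (Finset.subset_univ _)).1 hI x hx
    set W' : Finset (Fin n) := (G0 ∪ nbh G G0)ᶜ with hW'
    set b' : Fin n → ℕ := fun v => if v ∈ W' then b v else 0 with hb'
    have hbs0 : bs b G0 = 0 := by
      unfold bs
      exact Finset.sum_eq_zero fun x hx => by rw [hbG0 x hx]; rfl
    have hWu : Finset.univ = (G0 ∪ nbh G G0) ∪ W' := by
      rw [hW', Finset.union_compl]
    have hbu : bs b Finset.univ = bs b (nbh G G0) + bs b' W' := by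
      rw [hb', bs_ite, Finset.inter_self, hWu, bs_union b (by rw [hW']; exact disjoint_compl_right),
        bs_union b hdG, hbs0, zero_add]
    have hcomb : ∀ T', T' ⊆ W' → bs b Finset.univ + ww G b (G0 ∪ T') =
        2 * bs b (nbh G G0) + bs b' W' + ww G b' T' := by
      intro T' hT'
      have e1 : bs b (G0 ∪ T') = bs b' T' := by
        rw [bs_union b, hbs0, zero_add, hb', bs_ite, Finset.inter_eq_left.2 hT']
        refine Finset.disjoint_of_subset_right hT' ?_
        rw [hW']
        exact Finset.disjoint_of_subset_left Finset.subset_union_left disjoint_compl_right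
      have e2 : bs b (nbh G (G0 ∪ T')) = bs b (nbh G G0) + bs b' (nbh G T') := by
        rw [hb', bs_ite, ← bs_union b, nbh_union]
        · apply bs_eq_of_cover (W := G0ᶜ)
          · intro x hx
            exact hbG0 x (by simpa using hx)
          · intro r hr h
            rcases Finset.mem_union.1 h with h3 | h3
            · exact Finset.mem_union_left _ h3
            · by_cases h4 : r ∈ nbh G G0
              · exact Finset.mem_union_left _ h4
              · refine Finset.mem_union_right _ (Finset.mem_inter.2 ⟨h3, ?_⟩)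
                rw [hW', Finset.mem_compl, Finset.mem_union, not_or]
                exact ⟨Finset.mem_compl.1 hr, h4⟩
          · intro r _ h
            rcases Finset.mem_union.1 h with h3 | h3
            · exact Finset.mem_union_left _ h3
            · exact Finset.mem_union_right _ (Finset.mem_inter.1 h3).1
        · refine Finset.disjoint_of_subset_right Finset.inter_subset_right ?_
          rw [hW']
          exact Finset.disjoint_of_subset_left Finset.subset_union_right disjoint_compl_right
      unfold ww
      rw [hbu, e1, e2]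
      ring
    have hTT : ∀ T' : Finset (Fin n), Ind G W' T' → Ind G Finset.univ (G0 ∪ T') := by
      intro T' hT'
      refine ⟨Finset.subset_univ _, fun x hx y hy hxy => ?_⟩
      rcases Finset.mem_union.1 hx with h3 | h3 <;> rcases Finset.mem_union.1 hy with h4 | h4
      · exact hI.2 x h3 y h4 hxy
      · have h5 := hT'.1 h4
        rw [hW', Finset.mem_compl, Finset.mem_union, not_or] at h5
        exact h5.2 (mem_nbh.2 ⟨x, h3, hxy⟩)
      · have h5 := hT'.1 h3
        rw [hW', Finset.mem_compl, Finset.mem_union, not_or] at h5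
        exact h5.2 (mem_nbh.2 ⟨y, h4, hxy.symm⟩)
      · exact hT'.2 x h3 y h4 hxy
    have hTT' : ∀ T : Finset (Fin n), G0 ⊆ T → Ind G Finset.univ T → Ind G W' (T \ G0) := by
      intro T hT hIT
      refine ⟨fun x hx => ?_, fun x hx y hy => hIT.2 x (Finset.mem_sdiff.1 hx).1 y
        (Finset.mem_sdiff.1 hy).1⟩
      rw [Finset.mem_sdiff] at hx
      rw [hW', Finset.mem_compl, Finset.mem_union, not_or]
      refine ⟨hx.2, fun h => ?_⟩
      obtain ⟨y, hy, hyx⟩ := mem_nbh.1 h
      exact hIT.2 y (hT hy) x hx.1 hyx
    set N' : ℤ := 2 * (q : ℤ) - 1 - 2 * bs b (nbh G G0) with hN'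
    -- total weight
    have hsum : bs b Finset.univ + L0ᶜ.card = ((∑ w, a w : ℕ) : ℤ) + G0.card := by
      have e1 : bs b Finset.univ = ∑ w, ((a w : ℤ) - (if w ∈ L0ᶜ then 1 else 0) +
          (if w ∈ G0 then 1 else 0)) := by
        unfold bs
        refine Finset.sum_congr rfl fun w _ => ?_
        show ((a w - (if w ∈ L0 then 0 else 1) : ℕ) : ℤ) = _
        by_cases hwL : w ∈ L0
        · have h3 : w ∉ L0ᶜ := by simpa using hwL
          have h4 : w ∉ G0 := by
            rw [hG0, Finset.mem_filter]; exact fun h => h.2.1 hwL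
          rw [if_pos hwL, if_neg h3, if_neg h4]; omega
        · have h3 : w ∈ L0ᶜ := by simpa using hwL
          rw [if_neg hwL, if_pos h3]
          by_cases h0 : a w = 0
          · have h4 : w ∈ G0 := by
              rw [hG0, Finset.mem_filter]; exact ⟨Finset.mem_univ _, hwL, h0⟩
            rw [if_pos h4]; omega
          · have h4 : w ∉ G0 := by
              rw [hG0, Finset.mem_filter]; exact fun h => h0 h.2.2
            rw [if_neg h4]; omega
      rw [e1, Finset.sum_add_distrib, Finset.sum_sub_distrib, Finset.sum_ite_mem,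
        Finset.sum_ite_mem, Finset.univ_inter, Finset.univ_inter]
      simp only [Finset.sum_const, nsmul_eq_mul, mul_one]
      push_cast
      ring
    by_cases hi : i < G0.card
    · apply Ex.of_empty
      rintro F ⟨hF, _⟩ hFi
      have := Finset.card_le_card ((hallow F).1 hF)
      omega
    · obtain ⟨i', rfl⟩ : ∃ i', i = G0.card + i' := ⟨i - G0.card, by omega⟩
      have hβ := bs_nonneg b (nbh G G0)
      have key : Ex K (Dl G b' W' (N' - bs b' W')) i' := by
        apply degC hG t W' b' (fun x hx => by show (if x ∈ W' then b x else 0) = 0; rw [if_neg hx])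
          N' ?_ (fun k hk => hInd W' k hk) i' ?_ ?_
        · rw [hN']
          intro h
          obtain ⟨r, hr⟩ := h
          omega
        · push_cast at h1
          rw [hN']
          rw [hbu] at hsum
          push_cast at hsum
          linarith
        · push_cast at h2
          rw [hN']
          rw [hbu] at hsum
          push_cast at hsum
          linarith
      have h3 := shift G0 _ (by
        rintro F ⟨T, hFT, hT, _⟩
        refine Finset.disjoint_of_subset_right (hFT.trans hT.1) ?_
        rw [hW']
        exact Finset.disjoint_of_subset_left Finset.subset_union_left disjoint_compl_right) i' key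
      refine h3.congr fun F => ?_
      rw [hallow F]
      constructor
      · rintro ⟨hF, T, hFT, hT, hw⟩
        refine ⟨hF, (hPP F hF).2 ⟨G0 ∪ T, ?_, hTT T hT, ?_⟩⟩
        · intro x hx
          by_cases hxG : x ∈ G0
          · exact Finset.mem_union_left _ hxG
          · exact Finset.mem_union_right _ (hFT (Finset.mem_sdiff.2 ⟨hx, hxG⟩))
        · rw [hcomb T hT.1]
          rw [hN'] at hw
          linarith
      · rintro ⟨hF, hP⟩
        obtain ⟨T, hFT, hT, hw⟩ := (hPP F hF).1 hP
        have hGT : G0 ⊆ T := hF.trans hFT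
        refine ⟨hF, T \ G0, Finset.sdiff_subset_sdiff hFT (Finset.Subset.refl _), hTT' T hGT hT, ?_⟩
        have h4 := hcomb (T \ G0) (hTT' T hGT hT).1
        rw [Finset.union_sdiff_of_subset hGT] at h4
        rw [hN']
        linarith
  · apply Ex.of_empty
    rintro F ⟨hF, hP⟩ _
    have hF' := (hallow F).1 hF
    obtain ⟨T, hFT, hT, _⟩ := (hPP F hF').1 hP
    exact hI (hT.mono (hF'.trans hFT))

end Pool.Agent.H803R3
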