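import Mathlib
import Pool.Agent.H803R3.Row

/-!
The double complex.
-/

set_option autoImplicit false
set_option linter.unusedSectionVars false

namespace Pool.Agent.H803R3

open Finset

variable {n : ℕ} {K : Type*} [Field K]

/-- left embedding -/
def iL (n : ℕ) : Fin n ↪o (Fin n ⊕ₗ Fin n) :=
  OrderEmbedding.ofStrictMono (fun x => Sum.inlₗ x) Sum.Lex.inl_strictMono

/-- right embedding -/
def iR (n : ℕ) : Fin n ↪o (Fin n ⊕ₗ Fin n) :=
  OrderEmbedding.ofStrictMono (fun x => Sum.inrₗ x) Sum.Lex.inr_strictMono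

lemma iL_ne_iR (x y : Fin n) : iL n x ≠ iR n y := by
  intro h
  have : (Sum.inl x : Fin n ⊕ Fin n) = Sum.inr y := toLex.injective h
  exact absurd this Sum.inl_ne_inr

lemma iLR_cases (z : Fin n ⊕ₗ Fin n) : (∃ x, z = iL n x) ∨ ∃ y, z = iR n y := by
  rcases h : ofLex z with x | y
  · left
    exact ⟨x, by
      have : z = toLex (ofLex z) := rfl
      rw [this, h]; rfl⟩
  · right
    exact ⟨y, by
      have : z = toLex (ofLex z) := rfl
      rw [this, h]; rfl⟩

/-- left part -/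
def lp (H : Finset (Fin n ⊕ₗ Fin n)) : Finset (Fin n) :=
  Finset.univ.filter (fun v => iL n v ∈ H)

/-- right part -/
def rp (H : Finset (Fin n ⊕ₗ Fin n)) : Finset (Fin n) :=
  Finset.univ.filter (fun v => iR n v ∈ H)

lemma mem_lp {H : Finset (Fin n ⊕ₗ Fin n)} {v : Fin n} : v ∈ lp H ↔ iL n v ∈ H := by
  simp [lp]

lemma mem_rp {H : Finset (Fin n ⊕ₗ Fin n)} {v : Fin n} : v ∈ rp H ↔ iR n v ∈ H := by
  simp [rp]

lemma lp_mono {A B : Finset (Fin n ⊕ₗ Fin n)} (h : A ⊆ B) : lp A ⊆ lp B := fun _ hx =>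
  mem_lp.2 (h (mem_lp.1 hx))

lemma rp_mono {A B : Finset (Fin n ⊕ₗ Fin n)} (h : A ⊆ B) : rp A ⊆ rp B := fun _ hx =>
  mem_rp.2 (h (mem_rp.1 hx))

lemma mem_mk {inst : DecidableEq (Fin n ⊕ₗ Fin n)} {L F : Finset (Fin n)} {z : Fin n ⊕ₗ Fin n} :
    z ∈ L.map (iL n).toEmbedding ∪ F.map (iR n).toEmbedding ↔
      (∃ x ∈ L, z = iL n x) ∨ ∃ y ∈ F, z = iR n y := by
  simp only [Finset.mem_union, Finset.mem_map]
  constructor
  · rintro (⟨x, hx, rfl⟩ | ⟨y, hy, rfl⟩)
    · exact Or.inl ⟨x, hx, rfl⟩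
    · exact Or.inr ⟨y, hy, rfl⟩
  · rintro (⟨x, hx, rfl⟩ | ⟨y, hy, rfl⟩)
    · exact Or.inl ⟨x, hx, rfl⟩
    · exact Or.inr ⟨y, hy, rfl⟩

lemma lp_mk {inst : DecidableEq (Fin n ⊕ₗ Fin n)} (L F : Finset (Fin n)) :
    lp (L.map (iL n).toEmbedding ∪ F.map (iR n).toEmbedding) = L := by
  ext v
  rw [mem_lp, mem_mk]
  constructor
  · rintro (⟨x, hx, h⟩ | ⟨y, _, h⟩)
    · rw [(iL n).injective h]; exact hx
    · exact absurd h (iL_ne_iR _ _)
  · exact fun h => Or.inl ⟨v, h, rfl⟩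

lemma rp_mk {inst : DecidableEq (Fin n ⊕ₗ Fin n)} (L F : Finset (Fin n)) :
    rp (L.map (iL n).toEmbedding ∪ F.map (iR n).toEmbedding) = F := by
  ext v
  rw [mem_rp, mem_mk]
  constructor
  · rintro (⟨x, _, h⟩ | ⟨y, hy, h⟩)
    · exact absurd h.symm (iL_ne_iR _ _)
    · rw [(iR n).injective h]; exact hy
  · exact fun h => Or.inr ⟨v, h, rfl⟩

lemma mk_parts {inst : DecidableEq (Fin n ⊕ₗ Fin n)} (H : Finset (Fin n ⊕ₗ Fin n)) :
    H = (lp H).map (iL n).toEmbedding ∪ (rp H).map (iR n).toEmbedding := by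
  ext z
  rw [mem_mk]
  constructor
  · intro hz
    rcases iLR_cases z with ⟨x, rfl⟩ | ⟨y, rfl⟩
    · exact Or.inl ⟨x, mem_lp.2 hz, rfl⟩
    · exact Or.inr ⟨y, mem_rp.2 hz, rfl⟩
  · rintro (⟨x, hx, rfl⟩ | ⟨y, hy, rfl⟩)
    · exact mem_lp.1 hx
    · exact mem_rp.1 hy

lemma lp_insert {inst : DecidableEq (Fin n ⊕ₗ Fin n)} (v : Fin n) (H : Finset (Fin n ⊕ₗ Fin n)) :
    lp (insert (iL n v) H) = insert v (lp H) := by
  ext x
  rw [mem_lp, Finset.mem_insert, Finset.mem_insert, mem_lp, (iL n).injective.eq_iff]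

lemma rp_insert {inst : DecidableEq (Fin n ⊕ₗ Fin n)} (v : Fin n) (H : Finset (Fin n ⊕ₗ Fin n)) :
    rp (insert (iL n v) H) = rp H := by
  ext x
  rw [mem_rp, Finset.mem_insert, mem_rp]
  constructor
  · rintro (h | h)
    · exact absurd h.symm (iL_ne_iR _ _)
    · exact h
  · exact Or.inr

lemma PP.mono {G : SimpleGraph (Fin n)} {a : Fin n → ℕ} {q : ℕ} {U U' F F' : Finset (Fin n)}
    (hU : U' ⊆ U) (hF : F ⊆ F') (h : PP G a q U F) : PP G a q U' F' := by
  obtain ⟨X, h1, h2, h3⟩ := h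
  refine ⟨X, h1, h2, fun w hw => ?_⟩
  have := h3 w (fun h => hw (hF h))
  by_cases hwU : w ∈ U'
  · rw [if_pos (hU hwU)] at this
    rwa [if_pos hwU]
  · rw [if_neg hwU]
    omega

/-- the family indexing the double complex -/
def DD (G : SimpleGraph (Fin n)) (a : Fin n → ℕ) (q : ℕ) (H : Finset (Fin n ⊕ₗ Fin n)) : Prop :=
  (∀ v, v ∉ lp H → v ∉ rp H → 1 ≤ a v) ∧ ¬ PP G a q (lp H)ᶜ (rp H)

lemma DD.conv (G : SimpleGraph (Fin n)) (a : Fin n → ℕ) (q : ℕ) : Conv (DD G a q) := by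
  intro A B C hAB hBC hA hC
  refine ⟨fun v h1 h2 => hA.1 v (fun h => h1 (lp_mono hAB h)) (fun h => h2 (rp_mono hAB h)),
    fun h => hC.2 (h.mono (Finset.compl_subset_compl.2 (lp_mono hBC)) (rp_mono hBC))⟩

theorem DD.ex (G : SimpleGraph (Fin n)) (hG : Gap G) (t q : ℕ)
    (hInd : ∀ (W : Finset (Fin n)) (k : ℕ), t + 2 ≤ k → Ex K (Ind G W) k) (a : Fin n → ℕ) (k : ℕ)
    (h1 : 2 * q + n ≤ ∑ w, a w + k) (h2 : t + q + 1 + n ≤ ∑ w, a w + k) :
    Ex K (DD G a q) k := by
  refine filt (DD G a q) (DD.conv G a q) lp (fun A B h _ _ => lp_mono h) k ?_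
  intro L0
  by_cases hk : k < L0.card
  · apply Ex.of_empty
    rintro H ⟨_, hH⟩ hHk
    have h3 : ((lp H).map (iL n).toEmbedding).card ≤ H.card := by
      apply Finset.card_le_card
      intro z hz
      rw [mk_parts H]
      exact Finset.mem_union_left _ hz
    rw [Finset.card_map, hH] at h3
    omega
  · obtain ⟨i, rfl⟩ : ∃ i, k = L0.card + i := ⟨k - L0.card, by omega⟩
    have hc : L0ᶜ.card + L0.card = n := by
      rw [Finset.card_compl, Fintype.card_fin]
      have := Finset.card_le_univ L0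
      rw [Fintype.card_fin] at this
      omega
    have h3 := row (K := K) G hG t q hInd a L0 i (by omega) (by omega)
    have h4 := transfer (K := K) (iR n) (L0.map (iL n).toEmbedding) _ (by
      intro F _
      rw [Finset.disjoint_left]
      intro z hz hz'
      rw [Finset.mem_map] at hz hz'
      obtain ⟨x, _, rfl⟩ := hz
      obtain ⟨y, _, h⟩ := hz'
      exact iL_ne_iR x y h.symm) i h3
    rw [Finset.card_map] at h4
    refine h4.congr fun H => ?_
    constructor
    · rintro ⟨F, rfl, hF1, hF2⟩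
      unfold DD
      rw [lp_mk, rp_mk]
      exact ⟨⟨hF1, hF2⟩, rfl⟩
    · rintro ⟨⟨hH1, hH2⟩, hH3⟩
      rw [hH3] at hH1 hH2
      refine ⟨rp H, ?_, hH1, hH2⟩
      rw [← hH3]
      exact mk_parts H

theorem DD.ex' (G : SimpleGraph (Fin n)) (q : ℕ) (a : Fin n → ℕ) (k : ℕ) :
    Ex K (fun H => DD G a q H ∧ (rp H).Nonempty) k := by
  refine filt _ ?_ rp (fun A B h _ _ => rp_mono h) k ?_
  · intro A B C hAB hBC hA hC
    exact ⟨DD.conv G a q A B C hAB hBC hA.1 hC.1, hA.2.mono (rp_mono hAB)⟩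
  · intro F0
    rcases F0.eq_empty_or_nonempty with rfl | ⟨v, hv⟩
    · apply Ex.of_empty
      rintro H ⟨⟨_, h1⟩, h2⟩ _
      rw [h2] at h1
      exact Finset.not_nonempty_empty h1
    · apply toggle _ (iL n v)
      intro H
      rw [rp_insert]
      unfold DD
      rw [rp_insert, lp_insert]
      constructor
      · rintro ⟨⟨⟨h1, h2⟩, h3⟩, h4⟩
        refine ⟨⟨⟨fun w hw hw' => h1 w (fun h => hw (Finset.mem_insert_of_mem h)) hw', ?_⟩, h3⟩, h4⟩
        rintro ⟨X, g1, g2, g3⟩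
        apply h2
        refine ⟨X, g1, g2, fun w hw => ?_⟩
        have hwv : w ≠ v := by
          rintro rfl
          exact hw (h4 ▸ hv)
        have h5 := g3 w hw
        have h6 : (w ∈ (insert v (lp H))ᶜ) ↔ w ∈ (lp H)ᶜ := by
          simp only [Finset.mem_compl, Finset.mem_insert, not_or]
          exact ⟨fun h => h.2, fun h => ⟨hwv, h⟩⟩
        simp only [h6] at h5
        exact h5
      · rintro ⟨⟨⟨h1, h2⟩, h3⟩, h4⟩
        refine ⟨⟨⟨fun w hw hw' => h1 w (fun h => ?_) hw', ?_⟩, h3⟩, h4⟩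
        · rcases Finset.mem_insert.1 h with h5 | h5
          · subst h5
            exact hw' (h4 ▸ hv)
          · exact hw h5
        · intro hP
          exact h2 (hP.mono (Finset.compl_subset_compl.2 (Finset.subset_insert _ _))
            (Finset.Subset.refl _))

/-- the non-face complex -/
theorem NF.ex (G : SimpleGraph (Fin n)) (hG : Gap G) (t q : ℕ)
    (hInd : ∀ (W : Finset (Fin n)) (k : ℕ), t + 2 ≤ k → Ex K (Ind G W) k) (a : Fin n → ℕ) (k : ℕ)
    (h1 : 2 * q + n ≤ ∑ w, a w + k) (h2 : t + q + 1 + n ≤ ∑ w, a w + k) :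
    Ex K (fun L => (∀ v, v ∉ L → 1 ≤ a v) ∧ ¬ Face G a q Lᶜ) k := by
  have e := Ex.quot (R := fun H => (rp H).Nonempty) (DD.conv G a q) (by
    intro A B hAB _ _ hA
    exact hA.mono (rp_mono hAB)) (DD.ex (K := K) G hG t q hInd a k h1 h2) (DD.ex' G q a (k + 1))
  have hPF : ∀ L : Finset (Fin n), PP G a q Lᶜ ∅ ↔ Face G a q Lᶜ := by
    intro L
    constructor
    · rintro ⟨X, g1, g2, g3⟩
      exact ⟨X, g1, g2, fun w => g3 w (Finset.notMem_empty w)⟩
    · rintro ⟨X, g1, g2, g3⟩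
      exact ⟨X, g1, g2, fun w _ => g3 w⟩
  refine transfer_back (K := K) (iL n) ∅ _ (fun F _ => Finset.disjoint_empty_left _) k ?_
  rw [Finset.card_empty, zero_add]
  refine e.congr fun H => ?_
  constructor
  · rintro ⟨⟨g1, g2⟩, g3⟩
    rw [Finset.not_nonempty_iff_eq_empty] at g3
    rw [g3] at g1 g2
    refine ⟨lp H, ?_, fun v hv => g1 v hv (Finset.notMem_empty v), fun h => g2 ((hPF _).2 h)⟩
    have := mk_parts (inst := inferInstance) H
    rw [g3, Finset.map_empty, Finset.union_empty] at this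
    rw [Finset.empty_union]
    exact this
  · rintro ⟨F, hH, g1, g2⟩
    have hH' : H = F.map (iL n).toEmbedding ∪ (∅ : Finset (Fin n)).map (iR n).toEmbedding := by
      rw [hH, Finset.map_empty, Finset.union_empty, Finset.empty_union]
    have e1 : lp H = F := by rw [hH', lp_mk]
    have e2 : rp H = ∅ := by rw [hH', rp_mk]
    refine ⟨⟨?_, ?_⟩, ?_⟩
    · intro v hv _
      rw [e1] at hv
      exact g1 v hv
    · rw [e1, e2]
      exact fun h => g2 ((hPF _).1 h)
    · rw [e2]; exact Finset.not_nonempty_empty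

/-- vanishing of Koszul homology of powers -/
theorem pow_not_hasTor (G : SimpleGraph (Fin n)) (hG : Gap G) (t q : ℕ)
    (h : ∀ i d, t + 2 < d → ¬ HasTor (edgeIdeal K G ^ 1) i d) (i d : ℕ) (hd1 : 2 * q < d)
    (hd2 : t + q + 1 < d) : ¬ HasTor (edgeIdeal K G ^ q) i d := by
  apply not_hasTor
  intro a ha
  by_cases hi : n < i
  · intro c hc _
    have hc0 : ∀ T, c T = 0 := by
      intro T
      by_contra h0
      have h1 := (hc T h0).2.2
      have := Finset.card_le_univ T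
      rw [Fintype.card_fin] at this
      omega
    refine ⟨fun _ => 0, fun T hT => absurd rfl hT, fun T => ?_⟩
    rw [hc0 T]; simp [bd]
  · obtain ⟨k, hk⟩ : ∃ k, i + k = n := ⟨n - i, by omega⟩
    apply ex_to_acyc (fun S T hST h => Face.down S T hST h) (k := k)
      (by rw [Fintype.card_fin]; exact hk)
    have hPc : Conv (fun L : Finset (Fin n) => ∀ v, v ∉ L → 1 ≤ a v) :=
      fun A B C hAB _ hA _ v hv => hA v (fun h => hv (hAB h))
    have hP : Ex K (fun L : Finset (Fin n) => ∀ v, v ∉ L → 1 ≤ a v) k := by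
      have : ∃ v, 1 ≤ a v := by
        by_contra hno
        push Not at hno
        have : ∑ w, a w = 0 := Finset.sum_eq_zero fun w _ => by have := hno w; omega
        omega
      obtain ⟨v, hv⟩ := this
      apply toggle _ v
      intro F
      constructor
      · exact fun h w hw => h w (fun h' => hw (Finset.mem_insert_of_mem h'))
      · intro h w hw
        by_cases hwv : w = v
        · subst hwv; exact hv
        · exact h w (fun h' => by
            rcases Finset.mem_insert.1 h' with h'' | h''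
            · exact hwv h''
            · exact hw h'')
    have e := Ex.sub (R := fun L => Face G a q Lᶜ) hPc (by
      intro A B hAB _ _ hA
      exact Face.down _ _ (Finset.compl_subset_compl.2 hAB) hA) hP (by
      intro j hj
      apply NF.ex G hG t q (fun W k hk => ind_ex G t h W k hk) a j
      · omega
      · omega)
    refine e.congr fun L => ?_
    constructor
    · exact fun h => h.2
    · intro h
      refine ⟨fun v hv => ?_, h⟩
      obtain ⟨X, _, _, g3⟩ := h
      have := g3 v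
      rw [if_pos (Finset.mem_compl.2 hv)] at this
      omega

end Pool.Agent.H803R3
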