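import Mathlib
import Pool.Agent.H803R3.Cx
import Pool.Agent.H677R3.AbHom

/-!
Vanishing homology gives vanishing cohomology.
-/

set_option autoImplicit false
set_option linter.unusedSectionVars false

namespace Pool.Agent.H803R3

open Finset
open Pool.Agent.H677R3 (Ab.HV Ab.bd Ab.Sup)

variable {V : Type*} [Fintype V] [LinearOrder V] {K : Type*} [Field K]

lemma ab_sg (x : V) (T : Finset V) : Pool.Agent.H677R3.Ab.sg K x T = sg K T x := by
  unfold Pool.Agent.H677R3.Ab.sg sg
  rfl

lemma pair_bd (c a : Finset V → K) :
    ∑ F, c F * Pool.Agent.H677R3.Ab.bd a F = ∑ G, a G * cb c G := by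
  unfold Pool.Agent.H677R3.Ab.bd cb
  simp only [Finset.mul_sum]
  rw [Finset.sum_sigma', Finset.sum_sigma']
  refine Finset.sum_bij' (fun p _ => ⟨insert p.2 p.1, p.2⟩) (fun p _ => ⟨p.1.erase p.2, p.2⟩)
    ?_ ?_ ?_ ?_ ?_
  · rintro ⟨F, x⟩ h
    simp
  · rintro ⟨G, x⟩ h
    simp
  · rintro ⟨F, x⟩ h
    simp only [Finset.mem_sigma, Finset.mem_univ, Finset.mem_compl, true_and] at h
    simp [Finset.erase_insert h]
  · rintro ⟨G, x⟩ h
    simp only [Finset.mem_sigma, Finset.mem_univ, true_and] at h
    simp [Finset.insert_erase h]
  · rintro ⟨F, x⟩ h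
    simp only [Finset.mem_sigma, Finset.mem_univ, Finset.mem_compl, true_and] at h
    simp only
    rw [Finset.erase_insert h, ab_sg]
    have : sg K (insert x F) x = sg K F x := by
      have := sg_erase (K := K) (insert x F) x
      rw [Finset.erase_insert h] at this
      exact this.symm
    rw [this]; ring

theorem ex_of_hv {X : Finset V → Prop} (hX : ∀ A B, A ⊆ B → X B → X A) {j : ℕ}
    (h : Pool.Agent.H677R3.Ab.HV K X j) : Ex K X j := by
  classical
  intro c hc hcyc
  have hcb : ∀ G, X G → cb c G = 0 := hcyc
  let C : Submodule K (Finset V → K) :=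
    { carrier := {a | ∀ F, a F ≠ 0 → X F ∧ F.card = j}
      add_mem' := by
        intro a b ha hb F hF
        by_cases h1 : a F = 0
        · apply hb
          intro h2
          apply hF
          simp [h1, h2]
        · exact ha F h1
      zero_mem' := fun F hF => absurd rfl hF
      smul_mem' := by
        intro r a ha F hF
        apply ha
        intro h1
        apply hF
        simp [h1] }
  let T0 : (Finset V → K) →ₗ[K] (Finset V → K) :=
    { toFun := Pool.Agent.H677R3.Ab.bd
      map_add' := by
        intro a b
        funext F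
        exact Pool.Agent.H677R3.Ab.bd_add a b F
      map_smul' := by
        intro r a
        funext F
        simp only [Pool.Agent.H677R3.Ab.bd, Pi.smul_apply, smul_eq_mul, RingHom.id_apply,
          Finset.mul_sum]
        exact Finset.sum_congr rfl fun x _ => by ring }
  let T : C →ₗ[K] (Finset V → K) := T0.comp C.subtype
  let φ0 : (Finset V → K) →ₗ[K] K :=
    { toFun := fun a => ∑ F, c F * a F
      map_add' := by
        intro a b
        simp [mul_add, Finset.sum_add_distrib]
      map_smul' := by
        intro r a
        simp only [Pi.smul_apply, smul_eq_mul, RingHom.id_apply, Finset.mul_sum]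
        exact Finset.sum_congr rfl fun x _ => by ring }
  let φ : Module.Dual K C := φ0.comp C.subtype
  have hφ : φ ∈ (LinearMap.ker T).dualAnnihilator := by
    rw [Submodule.mem_dualAnnihilator]
    rintro ⟨a, ha⟩ hker
    rw [LinearMap.mem_ker] at hker
    have hker' : ∀ F, Pool.Agent.H677R3.Ab.bd a F = 0 := fun F => congrFun hker F
    obtain ⟨d, hd1, hd2⟩ := h a ha hker'
    change ∑ F, c F * a F = 0
    have e1 : ∑ F, c F * a F = ∑ F, c F * Pool.Agent.H677R3.Ab.bd d F :=
      Finset.sum_congr rfl fun F _ => by rw [hd2]
    rw [e1, pair_bd]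
    apply Finset.sum_eq_zero
    intro G _
    by_cases h1 : d G = 0
    · rw [h1, zero_mul]
    · rw [hcb G (hd1 G h1).1, mul_zero]
  rw [← LinearMap.range_dualMap_eq_dualAnnihilator_ker] at hφ
  obtain ⟨ψ, hψ⟩ := hφ
  refine ⟨fun F => if X F ∧ F.card + 1 = j then ψ (Pi.single F 1) else 0, ?_, ?_⟩
  · intro F hF
    by_contra h1
    exact hF (if_neg h1)
  · intro G hG
    by_cases hGj : G.card = j
    · have hmem : (Pi.single G 1 : Finset V → K) ∈ C := by
        intro F hF
        by_cases h1 : F = G
        · subst h1; exact ⟨hG, hGj⟩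
        · exact absurd (Pi.single_eq_of_ne h1 _) hF
      have h1 : ψ (Pool.Agent.H677R3.Ab.bd (Pi.single G 1 : Finset V → K)) = c G := by
        have h2 := congrArg (fun f : Module.Dual K C => f ⟨Pi.single G 1, hmem⟩) hψ
        have h3 : φ ⟨Pi.single G 1, hmem⟩ = c G := by
          change ∑ F, c F * (Pi.single G 1 : Finset V → K) F = c G
          rw [Finset.sum_eq_single G]
          · simp
          · intro F _ hFG
            rw [Pi.single_eq_of_ne hFG, mul_zero]
          · intro h; exact absurd (Finset.mem_univ _) h
        exact h2.trans h3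
      rw [← h1]
      have h4 : Pool.Agent.H677R3.Ab.bd (Pi.single G 1 : Finset V → K) =
          ∑ x ∈ G, sg K G x • (Pi.single (G.erase x) 1 : Finset V → K) := by
        funext F
        rw [Finset.sum_apply]
        unfold Pool.Agent.H677R3.Ab.bd
        by_cases hF : ∃ x, x ∉ F ∧ insert x F = G
        · obtain ⟨x, hx, hxG⟩ := hF
          have hxG' : x ∈ G := hxG ▸ Finset.mem_insert_self _ _
          have hFx : F = G.erase x := by rw [← hxG, Finset.erase_insert hx]
          rw [Finset.sum_eq_single x, Finset.sum_eq_single x]
          · rw [hxG, Pi.single_eq_same, mul_one, Pi.smul_apply, ← hFx, Pi.single_eq_same,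
              smul_eq_mul, mul_one, ab_sg, hFx, sg_erase]
          · intro y hy hyx
            rw [Pi.smul_apply, Pi.single_eq_of_ne, smul_zero]
            intro h5
            have : x ∈ G.erase y := Finset.mem_erase.2 ⟨Ne.symm hyx, hxG'⟩
            rw [← h5] at this
            exact hx this
          · intro h5; exact absurd hxG' h5
          · intro y hy hyx
            rw [Pi.single_eq_of_ne, mul_zero]
            intro h5
            have hyG : y ∈ insert x F := by rw [hxG, ← h5]; exact Finset.mem_insert_self _ _
            rcases Finset.mem_insert.1 hyG with h6 | h6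
            · exact hyx h6
            · exact (Finset.mem_compl.1 hy) h6
          · intro h5; exact absurd (Finset.mem_compl.2 hx) h5
        · push Not at hF
          rw [Finset.sum_eq_zero, Finset.sum_eq_zero]
          · intro x hx
            rw [Pi.smul_apply, Pi.single_eq_of_ne, smul_zero]
            rintro rfl
            exact hF x (Finset.notMem_erase _ _) (Finset.insert_erase hx)
          · intro x hx
            rw [Pi.single_eq_of_ne (hF x (Finset.mem_compl.1 hx)), mul_zero]
      rw [h4, map_sum]
      unfold cb
      refine Finset.sum_congr rfl fun x hx => ?_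
      rw [map_smul, smul_eq_mul]
      congr 1
      refine if_pos ⟨hX _ _ (Finset.erase_subset _ _) hG, ?_⟩
      rw [← hGj, Finset.card_erase_of_mem hx]
      have : 0 < G.card := Finset.card_pos.2 ⟨x, hx⟩
      omega
    · have h1 : c G = 0 := by
        by_contra h0
        exact hGj (hc G h0).2
      rw [h1]
      unfold cb
      apply Finset.sum_eq_zero
      intro x hx
      have h3 : ¬ (X (G.erase x) ∧ (G.erase x).card + 1 = j) := by
        rintro ⟨_, h2⟩
        rw [Finset.card_erase_of_mem hx] at h2
        have : 0 < G.card := Finset.card_pos.2 ⟨x, hx⟩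
        omega
      change sg K G x * (if X (G.erase x) ∧ (G.erase x).card + 1 = j then
        ψ (Pi.single (G.erase x) 1) else 0) = 0
      rw [if_neg h3, mul_zero]

end Pool.Agent.H803R3
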