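import Mathlib
import Pool.Agent.H803R3.HvEx
import Pool.Agent.H803R3.Subm
import Pool.Agent.H677R3.AbGeo

/-!
Pieces of the degree complexes.
-/

set_option autoImplicit false
set_option linter.unusedSectionVars false

namespace Pool.Agent.H803R3F

open Finset Pool.Agent.H677R3.EdgeReg Pool.Agent.H677R3.Ab
open Pool.Agent.H803R3 (Ex Conv Ex.congr Ex.of_empty toggle filt shift ex_of_hv)

variable {n : ℕ} {K : Type*} [Field K]

/-- exchange for a priority -/
theorem F2' (G : SimpleGraph (Fin n)) (ρ : Fin n → ℕ) (hρ : Function.Injective ρ)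
    (m m' s : Fin n → ℕ) (hm : IsDeg G m) (hm' : IsDeg G m')
    (hle : ∀ x, m' x ≤ m x + s x) (u : Fin n)
    (hu : m u < m' u) (hlt : ∀ j, ρ j < ρ u → m j = m' j) :
    (∃ v w, (∀ x, e1 v x + e1 w x ≤ s x) ∧ IsDeg G (fun x => m x + e1 v x + e1 w x)) ∨
    (∃ m'' v, ρ u < ρ v ∧ IsDeg G m'' ∧ ∀ x, m'' x + e1 v x = m x + e1 u x) := by
  obtain ⟨A, hA, hAm⟩ := hm
  obtain ⟨B, hB, hBd⟩ := hm'
  rcases exch G _ A B u hA hB le_rfl (by rw [hAm, hBd]; exact hu) with
    ⟨v, A', B', hA', hB', hA'd, hB'd, hv⟩ | ⟨v, A', B', hvu, hA', hB', hA'd, hB'd, hv⟩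
  · left
    refine ⟨u, v, ?_, A', hA', fun x => by rw [hA'd, hAm]⟩
    intro x
    have h1 := hB'd x
    have h2 := hle x
    rw [hBd] at h1
    by_cases hxu : x = u
    · subst hxu
      by_cases hxv : x = v
      · subst hxv
        rw [hAm, hBd, e1_self] at hv
        rw [e1_self]; omega
      · rw [e1_self, e1_ne hxv]; omega
    · by_cases hxv : x = v
      · subst hxv
        rw [hAm, hBd, e1_ne hxu] at hv
        rw [e1_self, e1_ne hxu]; omega
      · rw [e1_ne hxu, e1_ne hxv]; omega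
  · right
    refine ⟨dg A', v, ?_, ⟨A', hA', fun x => rfl⟩, fun x => by rw [hA'd, hAm]⟩
    rw [hAm, hBd] at hv
    rcases lt_trichotomy (ρ v) (ρ u) with h | h | h
    · have := hlt v h; omega
    · exact absurd (hρ h) hvu
    · exact h

lemma isDeg_even {G : SimpleGraph (Fin n)} : ∀ (N : ℕ) (d : Fin n → ℕ), ∑ x, d x ≤ N →
    IsDeg G d → Even (∑ x, d x) := by
  intro N
  induction N using Nat.strong_induction_on with
  | _ N ih =>
    intro d hN hd
    by_cases h0 : ∀ x, d x = 0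
    · rw [Finset.sum_eq_zero fun x _ => h0 x]; exact Even.zero
    · push Not at h0
      obtain ⟨u, hu⟩ := h0
      obtain ⟨v, d', hadj, hd', hdd⟩ := isDeg_sub hd hu
      have h1 : ∑ x, d x = ∑ x, d' x + 2 := by
        rw [← Finset.sum_congr rfl (fun x _ => hdd x), Finset.sum_add_distrib,
          Finset.sum_add_distrib, sum_e1, sum_e1]
      rw [h1]
      have h2 : Even (∑ x, d' x) := ih (∑ x, d' x) (by omega) d' le_rfl hd'
      exact h2.add (by decide)

lemma isDeg_shrink {G : SimpleGraph (Fin n)} (c : ℕ) (hc : Even c) : ∀ (N : ℕ) (d : Fin n → ℕ),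
    ∑ x, d x ≤ N → c ≤ ∑ x, d x → IsDeg G d →
    ∃ d', IsDeg G d' ∧ (∀ x, d' x ≤ d x) ∧ ∑ x, d' x = c := by
  intro N
  induction N using Nat.strong_induction_on with
  | _ N ih =>
    intro d hN hcd hd
    by_cases h0 : ∑ x, d x = c
    · exact ⟨d, hd, fun x => le_rfl, h0⟩
    · have h1 : ∃ u, d u ≠ 0 := by
        by_contra hno
        push Not at hno
        have : ∑ x, d x = 0 := Finset.sum_eq_zero fun x _ => hno x
        omega
      obtain ⟨u, hu⟩ := h1
      obtain ⟨v, d', hadj, hd', hdd⟩ := isDeg_sub hd hu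
      have h2 : ∑ x, d x = ∑ x, d' x + 2 := by
        rw [← Finset.sum_congr rfl (fun x _ => hdd x), Finset.sum_add_distrib,
          Finset.sum_add_distrib, sum_e1, sum_e1]
      have h3 := isDeg_even _ d le_rfl hd
      have h4 : c + 2 ≤ ∑ x, d x := by
        obtain ⟨p, hp⟩ := h3
        obtain ⟨r, hr⟩ := hc
        omega
      obtain ⟨d'', g1, g2, g3⟩ := ih (∑ x, d' x) (by omega) d' le_rfl (by omega) hd'
      exact ⟨d'', g1, fun x => (g2 x).trans (by have := hdd x; omega), g3⟩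

/-- candidates -/
def Cd (G : SimpleGraph (Fin n)) (b : Fin n → ℕ) (F : Finset (Fin n)) (d : Fin n → ℕ) : Prop :=
  IsDeg G d ∧ ∀ w, w ∉ F → d w ≤ b w

/-- degree complex -/
def Fam (G : SimpleGraph (Fin n)) (b : Fin n → ℕ) (q : ℕ) (G0 F : Finset (Fin n)) : Prop :=
  G0 ⊆ F ∧ ¬ ∃ d, Cd G b F d ∧ ∑ x, d x = 2 * q

lemma Cd.mono {G : SimpleGraph (Fin n)} {b : Fin n → ℕ} {F F' : Finset (Fin n)} {d : Fin n → ℕ}
    (h : F ⊆ F') (hd : Cd G b F d) : Cd G b F' d :=
  ⟨hd.1, fun w hw => hd.2 w fun hw' => hw (h hw')⟩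

lemma Fam.conv (G : SimpleGraph (Fin n)) (b : Fin n → ℕ) (q : ℕ) (G0 : Finset (Fin n)) :
    Conv (Fam G b q G0) := by
  intro A B C hAB hBC hA hC
  refine ⟨hA.1.trans hAB, ?_⟩
  rintro ⟨d, h1, h2⟩
  exact hC.2 ⟨d, h1.mono hBC, h2⟩

lemma Fam.sum_lt {G : SimpleGraph (Fin n)} {b : Fin n → ℕ} {q : ℕ} {G0 F : Finset (Fin n)}
    (h : Fam G b q G0 F) {d : Fin n → ℕ} (hd : Cd G b F d) : ∑ x, d x < 2 * q := by
  by_contra hcon
  push Not at hcon
  obtain ⟨d', g1, g2, g3⟩ := isDeg_shrink (2 * q) (by simp) _ d le_rfl hcon hd.1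
  exact h.2 ⟨d', ⟨g1, fun w hw => (g2 w).trans (hd.2 w hw)⟩, g3⟩

/-- value of a vector -/
def vl (e : Fin n ≃ Fin n) (d : Fin n → ℕ) : ℕ ×ₗ Lex (Fin n → ℕ) :=
  toLex (∑ x, d x, toLex fun i => d (e i))

lemma vl_inj (e : Fin n ≃ Fin n) {d d' : Fin n → ℕ} (h : vl e d = vl e d') : d = d' := by
  have h1 := toLex.injective h
  have h2 := (Prod.mk.inj h1).2
  have h3 := toLex.injective h2
  funext x
  have := congrFun h3 (e.symm x)
  simpa using this

/-- local maximality -/
structure Mx (G : SimpleGraph (Fin n)) (b : Fin n → ℕ) (ρ : Fin n → ℕ) (m : Fin n → ℕ)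
    (F : Finset (Fin n)) : Prop where
  le : ∀ w, w ∉ F → m w ≤ b w
  pair : ∀ u v, (∀ x, x ∉ F → m x + e1 u x + e1 v x ≤ b x) → ¬ CC G m u v
  lex : ∀ u v, (∀ x, x ∉ F → m x + e1 u x ≤ b x) → ρ u < ρ v → ¬ DU G m u v

lemma mx_of_max {G : SimpleGraph (Fin n)} {b : Fin n → ℕ} (e : Fin n ≃ Fin n) {m : Fin n → ℕ}
    {F : Finset (Fin n)} (hm : Cd G b F m) (hmax : ∀ d, Cd G b F d → vl e d ≤ vl e m) :
    Mx G b (fun x => (e.symm x : ℕ)) m F := by
  refine ⟨hm.2, ?_, ?_⟩
  · intro u v huv hcc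
    have h1 := hmax _ ⟨hcc, fun w hw => huv w hw⟩
    have h2 : ∑ x, (m x + e1 u x + e1 v x) = ∑ x, m x + 2 := by
      rw [Finset.sum_add_distrib, Finset.sum_add_distrib, sum_e1, sum_e1]
    have h3 : vl e m < vl e (fun x => m x + e1 u x + e1 v x) := by
      unfold vl
      rw [Prod.Lex.toLex_lt_toLex]
      left
      change ∑ x, m x < ∑ x, (m x + e1 u x + e1 v x)
      omega
    exact absurd h1 (not_le.2 h3)
  · rintro u v hu huv ⟨d, hd, hdd⟩
    have huv' : u ≠ v := by
      rintro rfl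
      exact lt_irrefl _ huv
    have h1 := hmax d ⟨hd, fun w hw => by
      have h2 := hu w hw
      have h3 := hdd w
      omega⟩
    have h2 : ∑ x, d x = ∑ x, m x := by
      have h3 : ∑ x, (d x + e1 v x) = ∑ x, (m x + e1 u x) :=
        Finset.sum_congr rfl fun x _ => hdd x
      rw [Finset.sum_add_distrib, Finset.sum_add_distrib, sum_e1, sum_e1] at h3
      omega
    have h3 : vl e m < vl e d := by
      unfold vl
      rw [Prod.Lex.toLex_lt_toLex]
      right
      refine ⟨h2.symm, ?_⟩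
      refine ⟨e.symm u, ?_, ?_⟩
      · intro j hj
        change m (e j) = d (e j)
        have h4 := hdd (e j)
        have h5 : e j ≠ u := by
          rintro rfl
          rw [Equiv.symm_apply_apply] at hj
          exact lt_irrefl _ hj
        have h6 : e j ≠ v := by
          rintro rfl
          rw [Equiv.symm_apply_apply] at huv
          exact absurd (show (j : ℕ) < (e.symm u : ℕ) from hj) (not_lt.2 huv.le)
        rw [e1_ne h5, e1_ne h6] at h4
        omega
      · change m (e (e.symm u)) < d (e (e.symm u))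
        rw [Equiv.apply_symm_apply]
        have h4 := hdd u
        rw [e1_self, e1_ne huv'] at h4
        omega
    exact absurd h1 (not_le.2 h3)

lemma max_of_mx {G : SimpleGraph (Fin n)} {b : Fin n → ℕ} (e : Fin n ≃ Fin n) {m : Fin n → ℕ}
    {F : Finset (Fin n)} (hm : IsDeg G m) (hmx : Mx G b (fun x => (e.symm x : ℕ)) m F) :
    ∀ d, Cd G b F d → vl e d ≤ vl e m := by
  classical
  intro d hd
  by_contra hcon
  push Not at hcon
  have key : ∀ d' : Fin n → ℕ, Cd G b F d' →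
      ∀ x, d' x ≤ m x + (if x ∈ F then d' x + 2 else b x - m x) := by
    intro d' hd' x
    split_ifs with h
    · omega
    · have h1 := hd'.2 x h
      have h2 := hmx.le x h
      omega
  have key2 : ∀ d' : Fin n → ℕ, (∃ v w, (∀ x, e1 v x + e1 w x ≤
      (if x ∈ F then d' x + 2 else b x - m x)) ∧ IsDeg G (fun x => m x + e1 v x + e1 w x)) →
      False := by
    rintro d' ⟨v, w, g1, g2⟩
    refine hmx.pair v w (fun x hx => ?_) g2
    have g3 := g1 x
    rw [if_neg hx] at g3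
    have h2 := hmx.le x hx
    omega
  unfold vl at hcon
  rw [Prod.Lex.toLex_lt_toLex] at hcon
  rcases hcon with hcon | ⟨h1, h2⟩
  · change ∑ x, m x < ∑ x, d x at hcon
    have e1' := isDeg_even _ m le_rfl hm
    have e2' := isDeg_even _ d le_rfl hd.1
    obtain ⟨d', g1, g2, g3⟩ := isDeg_shrink (∑ x, m x + 2) (e1'.add (by decide)) _ d le_rfl (by
      obtain ⟨p, hp⟩ := e1'
      obtain ⟨r, hr⟩ := e2'
      omega) hd.1
    have hd' : Cd G b F d' := ⟨g1, fun w hw => (g2 w).trans (hd.2 w hw)⟩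
    exact key2 d' (F1 G m _ hm _ d' g1 g3 (key d' hd') le_rfl)
  · obtain ⟨i, hi1, hi2⟩ := h2
    change ∀ j, j < i → m (e j) = d (e j) at hi1
    change m (e i) < d (e i) at hi2
    rcases F2' G (fun x => (e.symm x : ℕ)) (fun x y h => e.symm.injective (Fin.ext h)) m d _ hm hd.1
      (key d hd) (e i) hi2 (by
        intro j hj
        rw [Equiv.symm_apply_apply] at hj
        have := hi1 (e.symm j) hj
        rwa [Equiv.apply_symm_apply] at this) with h | ⟨m'', v, g1, g2, g3⟩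
    · exact key2 d h
    · refine hmx.lex (e i) v ?_ g1 ⟨m'', g2, g3⟩
      intro x hx
      by_cases hxi : x = e i
      · subst hxi
        rw [e1_self]
        have := hd.2 _ hx
        omega
      · rw [e1_ne hxi]
        have := hmx.le x hx
        omega

end Pool.Agent.H803R3F
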