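import Mathlib
import Pool.Agent.H803R3.Pc

/-!
Levels.
-/

set_option autoImplicit false
set_option linter.unusedSectionVars false

namespace Pool.Agent.H803R3F

open Finset Pool.Agent.H677R3.EdgeReg Pool.Agent.H677R3.Ab
open Pool.Agent.H803R3 (Ex Conv Ex.congr Ex.of_empty toggle filt shift ex_of_hv)

variable {n : ℕ} {K : Type*} [Field K]

/-- the loop case -/
def HLoop (K : Type*) [Field K] (G : SimpleGraph (Fin n)) (σ : ℕ) : Prop :=
  ∀ m, IsDeg G m → ∀ Λ U' : Finset (Fin n), Λ.Nonempty → (∀ v ∈ Λ, CC G m v v) →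
    (∀ v ∈ Λ, ∀ w ∈ Λ, v ≠ w → ¬ CC G m v w) → (∀ u ∈ U', ∀ v ∈ Λ, ¬ CC G m u v) →
    ∀ j, σ + 1 ≤ j + Λ.card → HV K (Ind (CC G m) U') j

/-- the ordered case -/
def HOrd (K : Type*) [Field K] (G : SimpleGraph (Fin n)) (σ : ℕ) : Prop :=
  ∀ ρ : Fin n → ℕ, Function.Injective ρ → ∀ m, IsDeg G m → ∀ S : Finset (Fin n),
    (∀ x ∈ S, ∀ y, y ∉ S → ρ y < ρ x) → (∀ x ∈ S, m x ≠ 0) →
    (∃ x y m', x ∈ S ∧ y ∈ S ∧ G.Adj x y ∧ IsDeg G m' ∧ ∀ z, m z = m' z + e1 x z + e1 y z) →
    ∀ U : Finset (Fin n), (∀ p ∈ U, ∀ v, ρ p < ρ v → ¬ DU G m p v) →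
    ∀ j, σ + 1 ≤ j → HV K (Ind (CC G m) U) j

lemma mx_iff {G : SimpleGraph (Fin n)} {b ρ m : Fin n → ℕ} {F Λ : Finset (Fin n)}
    (hΛ : ∀ x, x ∈ Λ ↔ m x < b x) (h1 : ∀ x, m x < b x → b x = m x + 1) :
    Mx G b ρ m F ↔ (∀ w, w ∉ F → m w ≤ b w) ∧
      (∀ u v, (u ∈ F ∨ u ∈ Λ) → (v ∈ F ∨ v ∈ Λ) → u ≠ v → ¬ CC G m u v) ∧
      (∀ u ∈ F, ¬ CC G m u u) ∧ (∀ u, (u ∈ F ∨ u ∈ Λ) → ∀ v, ρ u < ρ v → ¬ DU G m u v) := by
  constructor
  · rintro ⟨g1, g2, g3⟩
    refine ⟨g1, ?_, ?_, ?_⟩
    · intro u v hu hv huv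
      apply g2
      intro x hx
      by_cases hxu : x = u
      · subst hxu
        rw [e1_self, e1_ne huv]
        rcases hu with h | h
        · exact absurd h hx
        · have := (hΛ x).1 h; omega
      · by_cases hxv : x = v
        · subst hxv
          rw [e1_self, e1_ne hxu]
          rcases hv with h | h
          · exact absurd h hx
          · have := (hΛ x).1 h; omega
        · rw [e1_ne hxu, e1_ne hxv]
          have := g1 x hx; omega
    · intro u hu
      apply g2
      intro x hx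
      have hxu : x ≠ u := fun h => hx (h ▸ hu)
      rw [e1_ne hxu]
      have := g1 x hx; omega
    · intro u hu v
      apply g3
      intro x hx
      by_cases hxu : x = u
      · subst hxu
        rw [e1_self]
        rcases hu with h | h
        · exact absurd h hx
        · have := (hΛ x).1 h; omega
      · rw [e1_ne hxu]
        have := g1 x hx; omega
  · rintro ⟨g1, g2, g3, g4⟩
    have hsl : ∀ u, (∀ x, x ∉ F → m x + e1 u x ≤ b x) → u ∈ F ∨ u ∈ Λ := by
      intro u hu
      by_cases huF : u ∈ F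
      · exact Or.inl huF
      · right
        rw [hΛ]
        have := hu u huF
        rw [e1_self] at this
        omega
    refine ⟨g1, ?_, ?_⟩
    · intro u v huv
      have hu : u ∈ F ∨ u ∈ Λ := hsl u fun x hx => by have := huv x hx; omega
      have hv : v ∈ F ∨ v ∈ Λ := hsl v fun x hx => by have := huv x hx; omega
      by_cases h : u = v
      · subst h
        by_cases huF : u ∈ F
        · exact g3 u huF
        · exfalso
          have h2 := huv u huF
          rw [e1_self] at h2
          have h3 := h1 u (by omega)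
          omega
      · exact g2 u v hu hv h
    · intro u v hu
      exact g4 u (hsl u hu) v

theorem level_ex (G : SimpleGraph (Fin n)) (b ρ m : Fin n → ℕ) (hρ : Function.Injective ρ)
    (hm : IsDeg G m) (q σ : ℕ) (hmq : ∑ x, m x < 2 * q) (G0 : Finset (Fin n))
    (hb0 : ∀ x ∈ G0, b x = 0) (S : Finset (Fin n)) (hS : ∀ x, x ∈ S ↔ b x ≠ 0)
    (hSρ : ∀ x ∈ S, ∀ y, y ∉ S → ρ y < ρ x) (hbq : q ≤ ∑ x, b x)
    (HL : HLoop K G σ) (HO : HOrd K G σ) (i : ℕ)
    (hi : 2 * q + σ + G0.card ≤ ∑ x, b x + i + 1) :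
    Ex K (fun F => G0 ⊆ F ∧ Mx G b ρ m F) i := by
  classical
  by_cases hA : ∃ x, m x < b x ∧ ¬ CC G m x x
  · obtain ⟨x, hx1, hx2⟩ := hA
    apply toggle _ x
    intro F
    have hxG : x ∉ G0 := fun h => by have := hb0 x h; omega
    constructor
    · rintro ⟨h1, ⟨g1, g2, g3⟩⟩
      refine ⟨h1.trans (Finset.subset_insert _ _), ⟨fun w hw => g1 w fun h =>
        hw (Finset.mem_insert_of_mem h), ?_, ?_⟩⟩
      · intro u v huv
        by_cases hxx : m x + e1 u x + e1 v x ≤ b x
        · apply g2
          intro y hy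
          by_cases hyx : y = x
          · subst hyx; exact hxx
          · exact huv y fun h => by
              rcases Finset.mem_insert.1 h with h' | h'
              · exact hyx h'
              · exact hy h'
        · have hux : u = x := by
            by_contra hne
            rw [e1_ne (Ne.symm hne)] at hxx
            have : e1 v x ≤ 1 := by unfold e1; split_ifs <;> omega
            omega
          have hvx : v = x := by
            by_contra hne
            rw [e1_ne (Ne.symm hne)] at hxx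
            have : e1 u x ≤ 1 := by unfold e1; split_ifs <;> omega
            omega
          rw [hux, hvx]
          exact hx2
      · intro u v hu
        apply g3
        intro y hy
        by_cases hyx : y = x
        · subst hyx
          have : e1 u y ≤ 1 := by unfold e1; split_ifs <;> omega
          omega
        · exact hu y fun h => by
            rcases Finset.mem_insert.1 h with h' | h'
            · exact hyx h'
            · exact hy h'
    · rintro ⟨h1, ⟨g1, g2, g3⟩⟩
      refine ⟨fun y hy => ?_, ⟨fun w hw => ?_, ?_, ?_⟩⟩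
      · rcases Finset.mem_insert.1 (h1 hy) with h' | h'
        · exact absurd (h' ▸ hy) hxG
        · exact h'
      · by_cases hwx : w = x
        · subst hwx; omega
        · exact g1 w fun h => by
            rcases Finset.mem_insert.1 h with h' | h'
            · exact hwx h'
            · exact hw h'
      · exact fun u v huv => g2 u v fun y hy => huv y fun h => hy (Finset.mem_insert_of_mem h)
      · exact fun u v hu => g3 u v fun y hy => hu y fun h => hy (Finset.mem_insert_of_mem h)
  push Not at hA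
  by_cases hB : ∃ x, m x + 2 ≤ b x
  · obtain ⟨x, hx⟩ := hB
    apply Ex.of_empty
    rintro F ⟨_, ⟨g1, g2, _⟩⟩ _
    refine g2 x x ?_ (hA x (by omega))
    intro y hy
    by_cases hyx : y = x
    · subst hyx; rw [e1_self]; omega
    · rw [e1_ne hyx]
      have := g1 y hy; omega
  push Not at hB
  have hΛ1 : ∀ x, m x < b x → b x = m x + 1 := fun x hx => by have := hB x; omega
  set Λ : Finset (Fin n) := Finset.univ.filter (fun x => m x < b x) with hΛd
  have hΛ : ∀ x, x ∈ Λ ↔ m x < b x := fun x => by simp [hΛd]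
  set F0 : Finset (Fin n) := Finset.univ.filter (fun x => b x < m x) with hF0d
  have hF0 : ∀ x, x ∈ F0 ↔ b x < m x := fun x => by simp [hF0d]
  set A : Finset (Fin n) := G0 ∪ F0 with hAd
  set U' : Finset (Fin n) := Finset.univ.filter (fun u => u ∉ A ∧ (∀ v, ρ u < ρ v → ¬ DU G m u v) ∧
    ¬ CC G m u u ∧ ∀ w, (w ∈ A ∨ w ∈ Λ) → ¬ CC G m u w) with hU'd
  have hU' : ∀ u, u ∈ U' ↔ (u ∉ A ∧ (∀ v, ρ u < ρ v → ¬ DU G m u v) ∧
    ¬ CC G m u u ∧ ∀ w, (w ∈ A ∨ w ∈ Λ) → ¬ CC G m u w) := fun u => by simp [hU'd]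
  by_cases hne : ∃ F1, (G0 ⊆ F1 ∧ Mx G b ρ m F1) ∧ F1.card = i
  swap
  · apply Ex.of_empty
    intro F hF hFi
    exact hne ⟨F, hF, hFi⟩
  obtain ⟨F1, ⟨hG1, hM1⟩, hF1i⟩ := hne
  rw [mx_iff hΛ hΛ1] at hM1
  obtain ⟨k1, k2, k3, k4⟩ := hM1
  have hAF : ∀ F : Finset (Fin n), G0 ⊆ F → (∀ w, w ∉ F → m w ≤ b w) → A ⊆ F := by
    intro F hF hle x hx
    rcases Finset.mem_union.1 hx with h | h
    · exact hF h
    · by_contra hxF
      have := hle x hxF
      have := (hF0 x).1 h
      omega
  have hA1 : A ⊆ F1 := hAF F1 hG1 k1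
  obtain ⟨l, hl⟩ : ∃ l, i = A.card + l := ⟨i - A.card, by
    have := Finset.card_le_card hA1; omega⟩
  have hiff : ∀ H : Finset (Fin n), (A ⊆ H ∧ Ind (CC G m) U' (H \ A)) ↔
      (G0 ⊆ H ∧ Mx G b ρ m H) := by
    intro H
    rw [mx_iff hΛ hΛ1]
    constructor
    · rintro ⟨h1, h2, h3⟩
      have hmem : ∀ u, u ∈ H → u ∈ A ∨ u ∈ U' := by
        intro u hu
        by_cases huA : u ∈ A
        · exact Or.inl huA
        · exact Or.inr (h2 (Finset.mem_sdiff.2 ⟨hu, huA⟩))
      refine ⟨Finset.subset_union_left.trans h1, ?_, ?_, ?_, ?_⟩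
      · intro w hw
        by_contra hcon
        apply hw
        apply h1
        exact Finset.mem_union_right _ ((hF0 w).2 (by omega))
      · intro u v hu hv huv
        have hu' : (u ∈ A ∨ u ∈ Λ) ∨ (u ∈ U' ∧ u ∈ H) := by
          rcases hu with h | h
          · rcases hmem u h with h' | h'
            · exact Or.inl (Or.inl h')
            · exact Or.inr ⟨h', h⟩
          · exact Or.inl (Or.inr h)
        have hv' : (v ∈ A ∨ v ∈ Λ) ∨ (v ∈ U' ∧ v ∈ H) := by
          rcases hv with h | h
          · rcases hmem v h with h' | h'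
            · exact Or.inl (Or.inl h')
            · exact Or.inr ⟨h', h⟩
          · exact Or.inl (Or.inr h)
        rcases hu' with hu' | ⟨hu', huH⟩
        · rcases hv' with hv' | ⟨hv', _⟩
          · apply k2 u v _ _ huv
            · rcases hu' with h | h
              · exact Or.inl (hA1 h)
              · exact Or.inr h
            · rcases hv' with h | h
              · exact Or.inl (hA1 h)
              · exact Or.inr h
          · intro hc
            exact ((hU' v).1 hv').2.2.2 u hu' hc.symm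
        · rcases hv' with hv' | ⟨hv', hvH⟩
          · exact ((hU' u).1 hu').2.2.2 v hv'
          · exact h3 u (Finset.mem_sdiff.2 ⟨huH, ((hU' u).1 hu').1⟩) v
              (Finset.mem_sdiff.2 ⟨hvH, ((hU' v).1 hv').1⟩) huv
      · intro u hu
        rcases hmem u hu with h | h
        · exact k3 u (hA1 h)
        · exact ((hU' u).1 h).2.2.1
      · intro u hu
        rcases hu with h | h
        · rcases hmem u h with h' | h'
          · exact k4 u (Or.inl (hA1 h'))
          · exact ((hU' u).1 h').2.1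
        · exact k4 u (Or.inr h)
    · rintro ⟨h1, g1, g2, g3, g4⟩
      have hAH := hAF H h1 g1
      refine ⟨hAH, fun u hu => ?_, fun u hu v hv huv => ?_⟩
      · rw [Finset.mem_sdiff] at hu
        rw [hU']
        refine ⟨hu.2, g4 u (Or.inl hu.1), g3 u hu.1, fun w hw => ?_⟩
        apply g2 u w (Or.inl hu.1)
        · rcases hw with h | h
          · exact Or.inl (hAH h)
          · exact Or.inr h
        · rintro rfl
          rcases hw with h | h
          · exact hu.2 h
          · exact g3 u hu.1 (hA u ((hΛ u).1 h))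
      · exact g2 u v (Or.inl (Finset.mem_sdiff.1 hu).1) (Or.inl (Finset.mem_sdiff.1 hv).1) huv
  refine Ex.congr hiff ?_
  rw [hl]
  apply shift
  · rintro F ⟨h1, _⟩
    rw [Finset.disjoint_left]
    intro x hx hxF
    exact ((hU' x).1 (h1 hxF)).1 hx
  -- counting
  have hev := isDeg_even _ m le_rfl hm
  have hAc : A.card ≤ G0.card + F0.card := Finset.card_union_le _ _
  have hcount : ∑ x, b x + F0.card ≤ ∑ x, m x + Λ.card := by
    have h1 : F0.card = ∑ x, (if x ∈ F0 then 1 else 0) := by simp
    have h2 : Λ.card = ∑ x, (if x ∈ Λ then 1 else 0) := by simp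
    rw [h1, h2, ← Finset.sum_add_distrib, ← Finset.sum_add_distrib]
    apply Finset.sum_le_sum
    intro x _
    by_cases hx1 : x ∈ F0
    · have h3 := (hF0 x).1 hx1
      rw [if_pos hx1]; split_ifs <;> omega
    · rw [if_neg hx1]
      by_cases hx2 : x ∈ Λ
      · have h3 := hΛ1 x ((hΛ x).1 hx2)
        rw [if_pos hx2]; omega
      · rw [if_neg hx2]
        rw [hΛ] at hx2
        omega
  have hm2 : ∑ x, m x + 2 ≤ 2 * q := by
    obtain ⟨r, hr⟩ := hev
    omega
  have hfin : σ + 1 ≤ l + Λ.card := by omega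
  apply ex_of_hv
  · rintro F F' hFF ⟨h1, h2⟩
    exact ⟨hFF.trans h1, fun x hx y hy => h2 x (hFF hx) y (hFF hy)⟩
  by_cases hΛe : Λ.Nonempty
  · apply HL m hm Λ U' hΛe
    · exact fun v hv => hA v ((hΛ v).1 hv)
    · exact fun v hv w hw hvw => k2 v w (Or.inr hv) (Or.inr hw) hvw
    · exact fun u hu v hv => ((hU' u).1 hu).2.2.2 v (Or.inr hv)
    · exact hfin
  · rw [Finset.not_nonempty_iff_eq_empty] at hΛe
    have hge : ∀ x, b x ≤ m x := by
      intro x
      by_contra hcon
      have : x ∈ Λ := (hΛ x).2 (by omega)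
      rw [hΛe] at this
      exact absurd this (Finset.notMem_empty x)
    rw [hΛe, Finset.card_empty, add_zero] at hfin
    refine HO ρ hρ m hm S hSρ (fun x hx => ?_) ?_ U' (fun p hp => ((hU' p).1 hp).2.1) l hfin
    · have h1 := (hS x).1 hx
      have h2 := hge x
      omega
    · -- an edge inside the support
      obtain ⟨B, hB, hBm⟩ := hm
      have hex : ∃ x ∈ S, ∃ y ∈ S, B x y ≠ 0 := by
        by_contra hno
        push Not at hno
        have h1 : ∑ x ∈ S, m x ≤ ∑ y ∈ Sᶜ, m y := by
          calc ∑ x ∈ S, m x = ∑ x ∈ S, ∑ y, B x y :=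
                Finset.sum_congr rfl fun x _ => by rw [← hBm]; rfl
            _ = ∑ x ∈ S, ∑ y ∈ Sᶜ, B x y := by
                refine Finset.sum_congr rfl fun x hx => ?_
                rw [← Finset.sum_add_sum_compl S]
                rw [Finset.sum_eq_zero fun y hy => hno x hx y hy, zero_add]
            _ = ∑ y ∈ Sᶜ, ∑ x ∈ S, B x y := Finset.sum_comm
            _ ≤ ∑ y ∈ Sᶜ, m y := by
                refine Finset.sum_le_sum fun y _ => ?_
                rw [← hBm]
                unfold dg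
                rw [Finset.sum_congr rfl fun x _ => hB.symm x y]
                exact Finset.sum_le_sum_of_subset (Finset.subset_univ S)
        have h2 : ∑ x ∈ S, m x + ∑ y ∈ Sᶜ, m y = ∑ x, m x := Finset.sum_add_sum_compl S m
        have h3 : ∑ x, b x = ∑ x ∈ S, b x := by
          symm
          apply Finset.sum_subset (Finset.subset_univ S)
          intro x _ hx
          by_contra h0
          exact hx ((hS x).2 h0)
        have h4 : ∑ x ∈ S, b x ≤ ∑ x ∈ S, m x := Finset.sum_le_sum fun x _ => hge x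
        omega
      obtain ⟨x, hx, y, hy, hxy⟩ := hex
      obtain ⟨B', hB', _, hB'd⟩ := cfg_sub hB hxy
      exact ⟨x, y, dg B', hx, hy, hB.adj x y hxy, ⟨B', hB', fun _ => rfl⟩, fun z => by
        rw [← hBm, ← hB'd]⟩

end Pool.Agent.H803R3F
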