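import Mathlib
import Pool.Agent.H803R3.Pc2

/-!
Exactness of the degree complexes of powers of edge ideals.
-/

set_option autoImplicit false
set_option linter.unusedSectionVars false

namespace Pool.Agent.H803R3F

open Finset Pool.Agent.H677R3.EdgeReg Pool.Agent.H677R3.Ab
open Pool.Agent.H803R3 (Ex Conv Ex.congr Ex.of_empty toggle filt shift ex_of_hv)

variable {n : ℕ} {K : Type*} [Field K]

lemma isDeg_mul {G : SimpleGraph (Fin n)} {x y : Fin n} (h : G.Adj x y) (q : ℕ) :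
    IsDeg G (fun z => q * (e1 x z + e1 y z)) := by
  induction q with
  | zero =>
    refine isDeg_congr (isDeg_zero G) fun z => by simp
  | succ q ih =>
    refine isDeg_congr (isDeg_add ih h) fun z => by ring

lemma fam_small {G : SimpleGraph (Fin n)} {b : Fin n → ℕ} {q : ℕ} (hb : ∑ x, b x < q)
    {G0 F : Finset (Fin n)} :
    Fam G b q G0 F ↔ G0 ⊆ F ∧ ∀ x ∈ F, ∀ y ∈ F, ¬ G.Adj x y := by
  classical
  unfold Fam
  constructor
  · rintro ⟨h1, h2⟩
    refine ⟨h1, fun x hx y hy hxy => h2 ⟨_, ⟨isDeg_mul hxy q, ?_⟩, ?_⟩⟩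
    · intro w hw
      rw [e1_ne (show w ≠ x from fun h => hw (h ▸ hx)), e1_ne (show w ≠ y from fun h => hw (h ▸ hy))]
      simp
    · rw [← Finset.mul_sum, Finset.sum_add_distrib, sum_e1, sum_e1]; ring
  · rintro ⟨h1, h2⟩
    refine ⟨h1, ?_⟩
    rintro ⟨d, ⟨⟨B, hB, hBd⟩, h3⟩, h4⟩
    have k1 : ∑ x ∈ F, d x ≤ ∑ y ∈ Fᶜ, d y := by
      calc ∑ x ∈ F, d x = ∑ x ∈ F, ∑ y, B x y :=
            Finset.sum_congr rfl fun x _ => by rw [← hBd]; rfl
        _ = ∑ x ∈ F, ∑ y ∈ Fᶜ, B x y := by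
            refine Finset.sum_congr rfl fun x hx => ?_
            rw [← Finset.sum_add_sum_compl F]
            rw [Finset.sum_eq_zero fun y hy => by
              by_contra h0
              exact h2 x hx y hy (hB.adj x y h0), zero_add]
        _ = ∑ y ∈ Fᶜ, ∑ x ∈ F, B x y := Finset.sum_comm
        _ ≤ ∑ y ∈ Fᶜ, d y := by
            refine Finset.sum_le_sum fun y _ => ?_
            rw [← hBd]
            unfold dg
            rw [Finset.sum_congr rfl fun x _ => hB.symm x y]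
            exact Finset.sum_le_sum_of_subset (Finset.subset_univ F)
    have k2 : ∑ x ∈ F, d x + ∑ y ∈ Fᶜ, d y = ∑ x, d x := Finset.sum_add_sum_compl F d
    have k3 : ∑ y ∈ Fᶜ, d y ≤ ∑ y ∈ Fᶜ, b y :=
      Finset.sum_le_sum fun y hy => h3 y (Finset.mem_compl.1 hy)
    have k4 : ∑ y ∈ Fᶜ, b y ≤ ∑ y, b y := Finset.sum_le_sum_of_subset (Finset.subset_univ _)
    omega

lemma ind_star_ex (G : SimpleGraph (Fin n)) (r : ℕ)
    (hadj : ∀ (U0 : Finset (Fin n)) (j : ℕ), r ≤ j → HV K (Ind G.Adj U0) j)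
    (G0 : Finset (Fin n)) (i : ℕ) (hi : r + G0.card ≤ i) :
    Ex K (fun F => G0 ⊆ F ∧ ∀ x ∈ F, ∀ y ∈ F, ¬ G.Adj x y) i := by
  classical
  by_cases hG0 : ∀ x ∈ G0, ∀ y ∈ G0, ¬ G.Adj x y
  · obtain ⟨l, hl⟩ : ∃ l, i = G0.card + l := ⟨i - G0.card, by omega⟩
    set U0 : Finset (Fin n) := Finset.univ.filter (fun u => u ∉ G0 ∧ ∀ w ∈ G0, ¬ G.Adj u w) with hU
    have hU' : ∀ u, u ∈ U0 ↔ (u ∉ G0 ∧ ∀ w ∈ G0, ¬ G.Adj u w) := fun u => by simp [hU]
    have hiff : ∀ H : Finset (Fin n), (G0 ⊆ H ∧ Ind G.Adj U0 (H \ G0)) ↔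
        (G0 ⊆ H ∧ ∀ x ∈ H, ∀ y ∈ H, ¬ G.Adj x y) := by
      intro H
      constructor
      · rintro ⟨h1, h2, h3⟩
        refine ⟨h1, fun x hx y hy hxy => ?_⟩
        by_cases hx0 : x ∈ G0
        · by_cases hy0 : y ∈ G0
          · exact hG0 x hx0 y hy0 hxy
          · exact ((hU' y).1 (h2 (Finset.mem_sdiff.2 ⟨hy, hy0⟩))).2 x hx0 hxy.symm
        · by_cases hy0 : y ∈ G0
          · exact ((hU' x).1 (h2 (Finset.mem_sdiff.2 ⟨hx, hx0⟩))).2 y hy0 hxy
          · exact h3 x (Finset.mem_sdiff.2 ⟨hx, hx0⟩) y (Finset.mem_sdiff.2 ⟨hy, hy0⟩) hxy.ne hxy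
      · rintro ⟨h1, h2⟩
        refine ⟨h1, fun x hx => ?_, fun x hx y hy _ => h2 x (Finset.mem_sdiff.1 hx).1 y
          (Finset.mem_sdiff.1 hy).1⟩
        rw [Finset.mem_sdiff] at hx
        exact (hU' x).2 ⟨hx.2, fun w hw => h2 x hx.1 w (h1 hw)⟩
    refine Ex.congr hiff ?_
    rw [hl]
    apply shift
    · rintro F ⟨h1, _⟩
      rw [Finset.disjoint_left]
      intro x hx hxF
      exact ((hU' x).1 (h1 hxF)).1 hx
    · apply ex_of_hv
      · rintro F F' hFF ⟨h1, h2⟩
        exact ⟨hFF.trans h1, fun x hx y hy => h2 x (hFF hx) y (hFF hy)⟩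
      · exact hadj U0 l (by omega)
  · apply Ex.of_empty
    rintro F ⟨h1, h2⟩ _
    exact hG0 fun x hx y hy => h2 x (h1 hx) y (h1 hy)

lemma vl_sum {e : Fin n ≃ Fin n} {d m : Fin n → ℕ} (h : vl e d ≤ vl e m) :
    ∑ x, d x ≤ ∑ x, m x := by
  unfold vl at h
  rw [Prod.Lex.toLex_le_toLex] at h
  rcases h with h | h
  · exact h.le
  · exact h.1.le

theorem fam_ex (G : SimpleGraph (Fin n)) (b : Fin n → ℕ) (q r σ : ℕ) (hq : 1 ≤ q)
    (G0 : Finset (Fin n)) (hb0 : ∀ x ∈ G0, b x = 0) (HL : HLoop K G σ) (HO : HOrd K G σ)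
    (hadj : ∀ (U0 : Finset (Fin n)) (j : ℕ), r ≤ j → HV K (Ind G.Adj U0) j) (i : ℕ)
    (h1 : 2 * q + σ + G0.card ≤ ∑ x, b x + i + 1) (h2 : r + q + G0.card ≤ ∑ x, b x + i + 1) :
    Ex K (Fam G b q G0) i := by
  classical
  by_cases hb : ∑ x, b x < q
  · refine Ex.congr (fun F => (fam_small hb).symm) ?_
    exact ind_star_ex G r hadj G0 i (by omega)
  push Not at hb
  set S : Finset (Fin n) := Finset.univ.filter (fun x => b x ≠ 0) with hSd
  have hS : ∀ x, x ∈ S ↔ b x ≠ 0 := fun x => by simp [hSd]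
  set f : Fin n → ℕ := fun x => if b x ≠ 0 then 1 else 0 with hf
  set e : Fin n ≃ Fin n := Tuple.sort f with he
  have hmono : Monotone (f ∘ e) := Tuple.monotone_sort f
  have hSρ : ∀ x ∈ S, ∀ y, y ∉ S → ((e.symm y : Fin n) : ℕ) < ((e.symm x : Fin n) : ℕ) := by
    intro x hx y hy
    by_contra hcon
    push Not at hcon
    have h3 : e.symm x ≤ e.symm y := hcon
    have h4 := hmono h3
    simp only [Function.comp_apply, Equiv.apply_symm_apply] at h4
    rw [hS] at hx hy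
    have h5 : f x = 1 := if_pos hx
    have h6 : f y = 0 := if_neg hy
    omega
  set D : Finset (Fin n → ℕ) := Fintype.piFinset (fun _ => Finset.range (2 * q)) with hD
  have hDmem : ∀ d : Fin n → ℕ, ∑ x, d x < 2 * q → d ∈ D := by
    intro d hd
    rw [hD, Fintype.mem_piFinset]
    intro x
    rw [Finset.mem_range]
    have : d x ≤ ∑ x, d x := Finset.single_le_sum (f := d) (fun _ _ => Nat.zero_le _) (Finset.mem_univ x)
    omega
  set lev : Finset (Fin n) → WithBot (ℕ ×ₗ Lex (Fin n → ℕ)) := fun F =>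
    ((D.filter (fun d => Cd G b F d)).image (vl e)).max with hlev
  refine filt (Fam G b q G0) (Fam.conv G b q G0) lev ?_ i ?_
  · intro A B hAB _ _
    apply Finset.max_mono
    apply Finset.image_subset_image
    intro d hd
    rw [Finset.mem_filter] at hd ⊢
    exact ⟨hd.1, hd.2.mono hAB⟩
  · intro l
    by_cases hne : ∃ F1, Fam G b q G0 F1 ∧ lev F1 = l
    swap
    · apply Ex.of_empty
      intro F hF _
      exact hne ⟨F, hF⟩
    obtain ⟨F1, hF1, hl1⟩ := hne
    have hnon : ((D.filter (fun d => Cd G b F1 d)).image (vl e)).Nonempty := by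
      refine ⟨vl e (fun _ => 0), Finset.mem_image_of_mem _ ?_⟩
      rw [Finset.mem_filter]
      exact ⟨hDmem _ (by simp; omega), isDeg_zero G, fun w _ => Nat.zero_le _⟩
    obtain ⟨v0, hv0⟩ := Finset.max_of_nonempty hnon
    have hv0' := Finset.mem_of_max hv0
    obtain ⟨m, hm1, hm2⟩ := Finset.mem_image.1 hv0'
    rw [Finset.mem_filter] at hm1
    have hmq : ∑ x, m x < 2 * q := hF1.sum_lt hm1.2
    have hlv : l = ((vl e m : ℕ ×ₗ Lex (Fin n → ℕ)) : WithBot _) := by
      rw [← hl1, hm2]; exact hv0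
    have hiff : ∀ F : Finset (Fin n), (G0 ⊆ F ∧ Mx G b (fun x => (e.symm x : ℕ)) m F) ↔
        (Fam G b q G0 F ∧ lev F = l) := by
      intro F
      constructor
      · rintro ⟨g1, g2⟩
        have hmax := max_of_mx e hm1.2.1 g2
        refine ⟨⟨g1, ?_⟩, ?_⟩
        · rintro ⟨d, k1, k2⟩
          have := vl_sum (hmax d k1)
          omega
        · rw [hlv]
          apply le_antisymm
          · apply Finset.max_le
            intro a ha
            obtain ⟨d, hd1, rfl⟩ := Finset.mem_image.1 ha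
            rw [Finset.mem_filter] at hd1
            exact WithBot.coe_le_coe.2 (hmax d hd1.2)
          · apply Finset.le_max
            apply Finset.mem_image_of_mem
            rw [Finset.mem_filter]
            exact ⟨hm1.1, hm1.2.1, g2.le⟩
      · rintro ⟨g1, g2⟩
        rw [hlv] at g2
        have k1 := Finset.mem_of_max g2
        obtain ⟨d, hd1, hd2⟩ := Finset.mem_image.1 k1
        have hdm : d = m := vl_inj e hd2
        subst hdm
        rw [Finset.mem_filter] at hd1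
        refine ⟨g1.1, mx_of_max e hd1.2 fun d' hd' => ?_⟩
        have k2 : vl e d' ∈ (D.filter (fun d => Cd G b F d)).image (vl e) := by
          apply Finset.mem_image_of_mem
          rw [Finset.mem_filter]
          exact ⟨hDmem d' (g1.sum_lt hd'), hd'⟩
        exact Finset.le_max_of_eq k2 g2
    refine Ex.congr hiff ?_
    exact level_ex G b _ m (fun x y h => e.symm.injective (Fin.ext h)) hm1.2.1 q σ hmq G0 hb0 S hS
      hSρ hb HL HO i (by omega)

end Pool.Agent.H803R3F
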