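import Mathlib
import Pool.Agent.H803R3.Pc3
import Pool.Agent.H803R3.Dbl

/-!
The double complex for arbitrary graphs.
-/

set_option autoImplicit false
set_option linter.unusedSectionVars false

namespace Pool.Agent.H803R3F

open Finset Pool.Agent.H677R3.EdgeReg
open Pool.Agent.H677R3.Ab (HV Ind CC DU)
open Pool.Agent.H803R3 (Ex Conv toggle filt shift transfer transfer_back iL iR lp rp
  mem_lp mem_rp lp_mono rp_mono lp_mk rp_mk mk_parts lp_insert rp_insert iL_ne_iR iLR_cases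
  ex_to_acyc Acyc)

variable {n : ℕ} {K : Type*} [Field K]

/-- faces of the Koszul complexes -/
def Fc (G : SimpleGraph (Fin n)) (a : Fin n → ℕ) (q : ℕ) (T : Finset (Fin n)) : Prop :=
  ∃ d, IsDeg G d ∧ ∑ x, d x = 2 * q ∧ ∀ x, d x + (if x ∈ T then 1 else 0) ≤ a x

/-- faces of the localized degree complexes -/
def PQ (G : SimpleGraph (Fin n)) (a : Fin n → ℕ) (q : ℕ) (U F : Finset (Fin n)) : Prop :=
  ∃ d, IsDeg G d ∧ ∑ x, d x = 2 * q ∧ ∀ w, w ∉ F → d w + (if w ∈ U then 1 else 0) ≤ a w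

lemma Fc.down {G : SimpleGraph (Fin n)} {a : Fin n → ℕ} {q : ℕ} (S T : Finset (Fin n))
    (hST : S ⊆ T) (h : Fc G a q T) : Fc G a q S := by
  obtain ⟨d, h1, h2, h3⟩ := h
  refine ⟨d, h1, h2, fun x => ?_⟩
  have := h3 x
  by_cases hx : x ∈ S
  · rw [if_pos (hST hx)] at this
    rwa [if_pos hx]
  · rw [if_neg hx]
    omega

lemma PQ.mono {G : SimpleGraph (Fin n)} {a : Fin n → ℕ} {q : ℕ} {U U' F F' : Finset (Fin n)}
    (hU : U' ⊆ U) (hF : F ⊆ F') (h : PQ G a q U F) : PQ G a q U' F' := by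
  obtain ⟨d, h1, h2, h3⟩ := h
  refine ⟨d, h1, h2, fun w hw => ?_⟩
  have := h3 w (fun h => hw (hF h))
  by_cases hwU : w ∈ U'
  · rw [if_pos (hU hwU)] at this
    rwa [if_pos hwU]
  · rw [if_neg hwU]
    omega

theorem rowF (G : SimpleGraph (Fin n)) (q r σ : ℕ) (hq : 1 ≤ q) (HL : HLoop K G σ)
    (HO : HOrd K G σ)
    (hadj : ∀ (U0 : Finset (Fin n)) (j : ℕ), r ≤ j → HV K (Ind G.Adj U0) j) (a : Fin n → ℕ)
    (L0 : Finset (Fin n)) (i : ℕ)
    (h1 : 2 * q + σ + L0ᶜ.card ≤ ∑ x, a x + i + 1) (h2 : r + q + L0ᶜ.card ≤ ∑ x, a x + i + 1) :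
    Ex K (fun F => (∀ v, v ∉ L0 → v ∉ F → 1 ≤ a v) ∧ ¬ PQ G a q L0ᶜ F) i := by
  classical
  set b : Fin n → ℕ := fun v => a v - (if v ∈ L0 then 0 else 1) with hb
  set G0 : Finset (Fin n) := Finset.univ.filter (fun v => v ∉ L0 ∧ a v = 0) with hG0
  have hbG0 : ∀ x ∈ G0, b x = 0 := by
    intro x hx
    rw [hG0, Finset.mem_filter] at hx
    show a x - _ = 0
    rw [hx.2.2]; omega
  have hallow : ∀ F : Finset (Fin n), (∀ v, v ∉ L0 → v ∉ F → 1 ≤ a v) ↔ G0 ⊆ F := by
    intro F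
    constructor
    · intro h x hx
      rw [hG0, Finset.mem_filter] at hx
      by_contra hxF
      have := h x hx.2.1 hxF
      omega
    · intro h v hv hvF
      by_contra h0
      exact hvF (h (by rw [hG0, Finset.mem_filter]; exact ⟨Finset.mem_univ _, hv, by omega⟩))
  have hiff : ∀ F : Finset (Fin n), Fam G b q G0 F ↔
      ((∀ v, v ∉ L0 → v ∉ F → 1 ≤ a v) ∧ ¬ PQ G a q L0ᶜ F) := by
    intro F
    rw [hallow]
    unfold Fam
    have key : G0 ⊆ F → ((∃ d, Cd G b F d ∧ ∑ x, d x = 2 * q) ↔ PQ G a q L0ᶜ F) := by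
      intro hF
      constructor
      · rintro ⟨d, ⟨g1, g2⟩, g3⟩
        refine ⟨d, g1, g3, fun w hw => ?_⟩
        have h5 : d w ≤ a w - (if w ∈ L0 then 0 else 1) := g2 w hw
        by_cases hwL : w ∈ L0
        · rw [if_neg (by simpa using hwL)]
          rw [if_pos hwL] at h5; exact h5
        · rw [if_pos (by simpa using hwL)]
          rw [if_neg hwL] at h5
          have := (hallow F).2 hF w hwL hw
          omega
      · rintro ⟨d, g1, g2, g3⟩
        refine ⟨d, ⟨g1, fun w hw => ?_⟩, g2⟩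
        have := g3 w hw
        show d w ≤ a w - _
        by_cases hwL : w ∈ L0
        · rw [if_neg (by simpa using hwL)] at this
          rw [if_pos hwL]; exact this
        · rw [if_pos (by simpa using hwL)] at this
          rw [if_neg hwL]; omega
    constructor
    · rintro ⟨g1, g2⟩
      exact ⟨g1, fun h => g2 ((key g1).2 h)⟩
    · rintro ⟨g1, g2⟩
      exact ⟨g1, fun h => g2 ((key g1).1 h)⟩
  refine Pool.Agent.H803R3.Ex.congr hiff ?_
  have hsum : ∑ x, b x + L0ᶜ.card = ∑ x, a x + G0.card := by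
    have e1 : L0ᶜ.card = ∑ x, (if x ∈ L0ᶜ then 1 else 0) := by
      rw [Finset.sum_ite_mem, Finset.univ_inter, Finset.card_eq_sum_ones]
    have e2 : G0.card = ∑ x, (if x ∈ G0 then 1 else 0) := by
      rw [Finset.sum_ite_mem, Finset.univ_inter, Finset.card_eq_sum_ones]
    rw [e1, e2, ← Finset.sum_add_distrib, ← Finset.sum_add_distrib]
    refine Finset.sum_congr rfl fun x _ => ?_
    show a x - (if x ∈ L0 then 0 else 1) + _ = _
    by_cases hxL : x ∈ L0
    · have h3 : x ∉ L0ᶜ := by simpa using hxL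
      have h4 : x ∉ G0 := by
        rw [hG0, Finset.mem_filter]
        exact fun h => h.2.1 hxL
      rw [if_pos hxL, if_neg h3, if_neg h4]; omega
    · have h3 : x ∈ L0ᶜ := by simpa using hxL
      rw [if_neg hxL, if_pos h3]
      by_cases hax : a x = 0
      · have h4 : x ∈ G0 := by
          rw [hG0, Finset.mem_filter]
          exact ⟨Finset.mem_univ _, hxL, hax⟩
        rw [if_pos h4]; omega
      · have h4 : x ∉ G0 := by
          rw [hG0, Finset.mem_filter]
          exact fun h => hax h.2.2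
        rw [if_neg h4]; omega
  exact fam_ex G b q r σ hq G0 hbG0 HL HO hadj i (by omega) (by omega)

/-- the family indexing the double complex -/
def DQ (G : SimpleGraph (Fin n)) (a : Fin n → ℕ) (q : ℕ) (H : Finset (Fin n ⊕ₗ Fin n)) : Prop :=
  (∀ v, v ∉ lp H → v ∉ rp H → 1 ≤ a v) ∧ ¬ PQ G a q (lp H)ᶜ (rp H)

lemma DQ.conv (G : SimpleGraph (Fin n)) (a : Fin n → ℕ) (q : ℕ) : Conv (DQ G a q) := by
  intro A B C hAB hBC hA hC
  refine ⟨fun v h1 h2 => hA.1 v (fun h => h1 (lp_mono hAB h)) (fun h => h2 (rp_mono hAB h)),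
    fun h => hC.2 (h.mono (Finset.compl_subset_compl.2 (lp_mono hBC)) (rp_mono hBC))⟩

theorem DQ.ex (G : SimpleGraph (Fin n)) (q r σ : ℕ) (hq : 1 ≤ q) (HL : HLoop K G σ)
    (HO : HOrd K G σ)
    (hadj : ∀ (U0 : Finset (Fin n)) (j : ℕ), r ≤ j → HV K (Ind G.Adj U0) j) (a : Fin n → ℕ) (k : ℕ)
    (h1 : 2 * q + σ + n ≤ ∑ w, a w + k + 1) (h2 : r + q + n ≤ ∑ w, a w + k + 1) :
    Ex K (DQ G a q) k := by
  refine filt (DQ G a q) (DQ.conv G a q) lp (fun A B h _ _ => lp_mono h) k ?_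
  intro L0
  by_cases hk : k < L0.card
  · apply Pool.Agent.H803R3.Ex.of_empty
    rintro H ⟨_, hH⟩ hHk
    have h3 : ((lp H).map (iL n).toEmbedding).card ≤ H.card := by
      apply Finset.card_le_card
      intro z hz
      rw [mk_parts H]
      exact Finset.mem_union_left _ hz
    rw [Finset.card_map, hH] at h3
    omega
  · obtain ⟨i, rfl⟩ : ∃ i, k = L0.card + i := ⟨k - L0.card, by omega⟩
    have hc : L0ᶜ.card + L0.card = n := by
      rw [Finset.card_compl, Fintype.card_fin]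
      have := Finset.card_le_univ L0
      rw [Fintype.card_fin] at this
      omega
    have h3 := rowF (K := K) G q r σ hq HL HO hadj a L0 i (by omega) (by omega)
    have h4 := transfer (K := K) (iR n) (L0.map (iL n).toEmbedding) _ (by
      intro F _
      rw [Finset.disjoint_left]
      intro z hz hz'
      rw [Finset.mem_map] at hz hz'
      obtain ⟨x, _, rfl⟩ := hz
      obtain ⟨y, _, h⟩ := hz'
      exact iL_ne_iR x y h.symm) i h3
    rw [Finset.card_map] at h4
    refine Pool.Agent.H803R3.Ex.congr (fun H => ?_) h4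
    constructor
    · rintro ⟨F, rfl, hF1, hF2⟩
      unfold DQ
      rw [lp_mk, rp_mk]
      exact ⟨⟨hF1, hF2⟩, rfl⟩
    · rintro ⟨⟨hH1, hH2⟩, hH3⟩
      rw [hH3] at hH1 hH2
      refine ⟨rp H, ?_, hH1, hH2⟩
      rw [← hH3]
      exact mk_parts H

theorem DQ.ex' (G : SimpleGraph (Fin n)) (q : ℕ) (a : Fin n → ℕ) (k : ℕ) :
    Ex K (fun H => DQ G a q H ∧ (rp H).Nonempty) k := by
  refine filt _ ?_ rp (fun A B h _ _ => rp_mono h) k ?_
  · intro A B C hAB hBC hA hC
    exact ⟨DQ.conv G a q A B C hAB hBC hA.1 hC.1, hA.2.mono (rp_mono hAB)⟩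
  · intro F0
    rcases F0.eq_empty_or_nonempty with rfl | ⟨v, hv⟩
    · apply Pool.Agent.H803R3.Ex.of_empty
      rintro H ⟨⟨_, h1⟩, h2⟩ _
      rw [h2] at h1
      exact Finset.not_nonempty_empty h1
    · apply toggle _ (iL n v)
      intro H
      rw [rp_insert]
      unfold DQ
      rw [rp_insert, lp_insert]
      constructor
      · rintro ⟨⟨⟨h1, h2⟩, h3⟩, h4⟩
        refine ⟨⟨⟨fun w hw hw' => h1 w (fun h => hw (Finset.mem_insert_of_mem h)) hw', ?_⟩, h3⟩, h4⟩
        rintro ⟨X, g1, g2, g3⟩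
        apply h2
        refine ⟨X, g1, g2, fun w hw => ?_⟩
        have hwv : w ≠ v := by
          rintro rfl
          exact hw (h4 ▸ hv)
        have h5 := g3 w hw
        have h6 : (w ∈ (insert v (lp H))ᶜ) ↔ w ∈ (lp H)ᶜ := by
          simp only [Finset.mem_compl, Finset.mem_insert, not_or]
          exact ⟨fun h => h.2, fun h => ⟨hwv, h⟩⟩
        simp only [h6] at h5
        exact h5
      · rintro ⟨⟨⟨h1, h2⟩, h3⟩, h4⟩
        refine ⟨⟨⟨fun w hw hw' => h1 w (fun h => ?_) hw', ?_⟩, h3⟩, h4⟩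
        · rcases Finset.mem_insert.1 h with h5 | h5
          · subst h5
            exact hw' (h4 ▸ hv)
          · exact hw h5
        · intro hP
          exact h2 (hP.mono (Finset.compl_subset_compl.2 (Finset.subset_insert _ _))
            (Finset.Subset.refl _))

/-- the non-face complex -/
theorem NQ.ex (G : SimpleGraph (Fin n)) (q r σ : ℕ) (hq : 1 ≤ q) (HL : HLoop K G σ)
    (HO : HOrd K G σ)
    (hadj : ∀ (U0 : Finset (Fin n)) (j : ℕ), r ≤ j → HV K (Ind G.Adj U0) j) (a : Fin n → ℕ) (k : ℕ)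
    (h1 : 2 * q + σ + n ≤ ∑ w, a w + k + 1) (h2 : r + q + n ≤ ∑ w, a w + k + 1) :
    Ex K (fun L => (∀ v, v ∉ L → 1 ≤ a v) ∧ ¬ Fc G a q Lᶜ) k := by
  have e := Pool.Agent.H803R3.Ex.quot (R := fun H => (rp H).Nonempty) (DQ.conv G a q) (by
    intro A B hAB _ _ hA
    exact hA.mono (rp_mono hAB)) (DQ.ex (K := K) G q r σ hq HL HO hadj a k h1 h2)
    (DQ.ex' G q a (k + 1))
  have hPF : ∀ L : Finset (Fin n), PQ G a q Lᶜ ∅ ↔ Fc G a q Lᶜ := by
    intro L
    constructor
    · rintro ⟨X, g1, g2, g3⟩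
      exact ⟨X, g1, g2, fun w => g3 w (Finset.notMem_empty w)⟩
    · rintro ⟨X, g1, g2, g3⟩
      exact ⟨X, g1, g2, fun w _ => g3 w⟩
  refine transfer_back (K := K) (iL n) ∅ _ (fun F _ => Finset.disjoint_empty_left _) k ?_
  rw [Finset.card_empty, zero_add]
  refine Pool.Agent.H803R3.Ex.congr (fun H => ?_) e
  constructor
  · rintro ⟨⟨g1, g2⟩, g3⟩
    rw [Finset.not_nonempty_iff_eq_empty] at g3
    rw [g3] at g1 g2
    refine ⟨lp H, ?_, fun v hv => g1 v hv (Finset.notMem_empty v), fun h => g2 ((hPF _).2 h)⟩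
    have := mk_parts (inst := inferInstance) H
    rw [g3, Finset.map_empty, Finset.union_empty] at this
    rw [Finset.empty_union]
    exact this
  · rintro ⟨F, hH, g1, g2⟩
    have hH' : H = F.map (iL n).toEmbedding ∪ (∅ : Finset (Fin n)).map (iR n).toEmbedding := by
      rw [hH, Finset.map_empty, Finset.union_empty, Finset.empty_union]
    have e1 : lp H = F := by rw [hH', lp_mk]
    have e2 : rp H = ∅ := by rw [hH', rp_mk]
    refine ⟨⟨?_, ?_⟩, ?_⟩
    · intro v hv _
      rw [e1] at hv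
      exact g1 v hv
    · rw [e1, e2]
      exact fun h => g2 ((hPF _).1 h)
    · rw [e2]; exact Finset.not_nonempty_empty

/-- acyclicity -/
theorem upper_acyc (G : SimpleGraph (Fin n)) (q r σ : ℕ) (hq : 1 ≤ q) (HL : HLoop K G σ)
    (HO : HOrd K G σ)
    (hadj : ∀ (U0 : Finset (Fin n)) (j : ℕ), r ≤ j → HV K (Ind G.Adj U0) j) (i e : ℕ)
    (he1 : r + q - 1 < e) (he2 : 2 * q - 1 + σ < e) (a : Fin n → ℕ) (ha : ∑ x, a x = i + e) :
    Acyc K Finset.univ (Fc G a q) i := by
  by_cases hi : n < i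
  · intro c hc _
    have hc0 : ∀ T, c T = 0 := by
      intro T
      by_contra h0
      have h1 := (hc T h0).2.2
      have := Finset.card_le_univ T
      rw [Fintype.card_fin] at this
      omega
    refine ⟨fun _ => 0, fun T hT => absurd rfl hT, fun T => ?_⟩
    rw [hc0 T]; simp [Pool.Agent.H803R3.bd]
  · obtain ⟨k, hk⟩ : ∃ k, i + k = n := ⟨n - i, by omega⟩
    apply ex_to_acyc (fun S T hST h => Fc.down S T hST h) (k := k)
      (by rw [Fintype.card_fin]; exact hk)
    have hPc : Conv (fun L : Finset (Fin n) => ∀ v, v ∉ L → 1 ≤ a v) :=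
      fun A B C hAB _ hA _ v hv => hA v (fun h => hv (hAB h))
    have hP : Ex K (fun L : Finset (Fin n) => ∀ v, v ∉ L → 1 ≤ a v) k := by
      have : ∃ v, 1 ≤ a v := by
        by_contra hno
        push Not at hno
        have : ∑ w, a w = 0 := Finset.sum_eq_zero fun w _ => by have := hno w; omega
        omega
      obtain ⟨v, hv⟩ := this
      apply toggle _ v
      intro F
      constructor
      · exact fun h w hw => h w (fun h' => hw (Finset.mem_insert_of_mem h'))
      · intro h w hw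
        by_cases hwv : w = v
        · subst hwv; exact hv
        · exact h w (fun h' => by
            rcases Finset.mem_insert.1 h' with h'' | h''
            · exact hwv h''
            · exact hw h'')
    have e := Pool.Agent.H803R3.Ex.sub (R := fun L => Fc G a q Lᶜ) hPc (by
      intro A B hAB _ _ hA
      exact Fc.down _ _ (Finset.compl_subset_compl.2 hAB) hA) hP (by
      intro j hj
      apply NQ.ex G q r σ hq HL HO hadj a j
      · omega
      · omega)
    refine Pool.Agent.H803R3.Ex.congr (fun L => ?_) e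
    constructor
    · exact fun h => h.2
    · intro h
      refine ⟨fun v hv => ?_, h⟩
      obtain ⟨X, _, _, g3⟩ := h
      have := g3 v
      rw [if_pos (Finset.mem_compl.2 hv)] at this
      omega

/-- the statement for the wrapper -/
theorem upper_comb (G : SimpleGraph (Fin n)) (q r σ : ℕ) (hq : 1 ≤ q) (HL : HLoop K G σ)
    (HO : HOrd K G σ)
    (hadj : ∀ (U0 : Finset (Fin n)) (j : ℕ), r ≤ j → HV K (Ind G.Adj U0) j) (i e : ℕ)
    (he1 : r + q - 1 < e) (he2 : 2 * q - 1 + σ < e) (a : Fin n → ℕ) (ha : ∑ x, a x = i + e)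
    (c : Finset (Fin n) → K) (hc : ∀ T, c T ≠ 0 → Fc G a q T ∧ T.card = i)
    (hcyc : ∀ T, ∑ x ∈ Tᶜ, (-1 : K) ^ (T.filter (· < x)).card * c (insert x T) = 0) :
    ∃ g : Finset (Fin n) → K, (∀ T, g T ≠ 0 → Fc G a q T ∧ T.card = i + 1) ∧
      ∀ T, ∑ x ∈ Tᶜ, (-1 : K) ^ (T.filter (· < x)).card * g (insert x T) = c T := by
  have hbd : ∀ (f : Finset (Fin n) → K) (T : Finset (Fin n)),
      Pool.Agent.H803R3.bd Finset.univ f T =
        ∑ x ∈ Tᶜ, (-1 : K) ^ (T.filter (· < x)).card * f (insert x T) := by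
    intro f T
    unfold Pool.Agent.H803R3.bd
    rfl
  obtain ⟨g, g1, g2⟩ := upper_acyc (K := K) G q r σ hq HL HO hadj i e he1 he2 a ha c
    (fun T hT => ⟨Finset.subset_univ _, hc T hT⟩) (fun T => by rw [hbd]; exact hcyc T)
  exact ⟨g, fun T hT => (g1 T hT).2, fun T => by rw [← hbd]; exact g2 T⟩

end Pool.Agent.H803R3F
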