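import Mathlib
import Pool.Agent.H803R3.Dbl

/-!
The regularity of powers of edge ideals of gap-free graphs, effective form.
-/

set_option autoImplicit false
set_option linter.unusedSectionVars false

namespace Pool.Agent.H803R3

variable {K : Type*} [Field K] {n : ℕ}

lemma two_mul_le_reg (G : SimpleGraph (Fin n)) (hE : ∃ a b, G.Adj a b) (s : ℕ) :
    ((2 * s : ℕ) : ℕ∞) ≤ reg (edgeIdeal K G ^ s) := by
  obtain ⟨a, b, hab⟩ := hE
  exact le_reg (hasTor_zero G hab s)

lemma two_le_reg (G : SimpleGraph (Fin n)) (hE : ∃ a b, G.Adj a b) :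
    ((2 : ℕ) : ℕ∞) ≤ reg (edgeIdeal K G) := by
  have := two_mul_le_reg (K := K) G hE 1
  rwa [pow_one, mul_one] at this

/-- effective linearity -/
theorem reg_pow_eq (G : SimpleGraph (Fin n)) (hE : ∃ a b, G.Adj a b) (hG : Gap G) (s : ℕ)
    (hs : reg (edgeIdeal K G) ≤ ((s + 1 : ℕ) : ℕ∞)) :
    reg (edgeIdeal K G ^ s) = ((2 * s : ℕ) : ℕ∞) := by
  have h2 : 2 ≤ s + 1 := by
    have h3 := (two_le_reg (K := K) G hE).trans hs
    exact_mod_cast h3
  apply le_antisymm _ (two_mul_le_reg G hE s)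
  apply reg_le
  intro i d hd
  obtain ⟨t, rfl⟩ : ∃ t, s = t + 1 := ⟨s - 1, by omega⟩
  refine pow_not_hasTor G hG t (t + 1) ?_ i d hd (by omega)
  intro j e he hT
  rw [pow_one] at hT
  have h4 := (le_reg hT).trans hs
  have h5 : e ≤ t + 1 + 1 := by exact_mod_cast h4
  omega

end Pool.Agent.H803R3
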