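import Mathlib
import Pool.Agent.H816R3.Edge.UpWrap
import Pool.Agent.H816R3.Edge.LowerA
import Pool.Agent.H677R3.AbSusp
import Pool.Agent.H677R3.AbFinal
import Pool.Agent.H803R3.Dc

/-!
The exact formula for the regularity of powers of edge ideals.
-/

set_option autoImplicit false
set_option linter.unusedSectionVars false

namespace Pool.Agent.H803R3F

open Finset Pool.Agent.H677R3 Pool.Agent.H677R3.Ab

variable {n : ℕ} {k : Type*} [Field k]

theorem upperComb (G : SimpleGraph (Fin n)) : Pool.Agent.H816R3.EdgeLow.UpperComb k G := by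
  intro σ r h1 h2 h3 q hq i e he1 he2 a ha c hc1 hc2
  exact upper_comb G q r σ hq h1 h2 h3 i e he1 he2 a ha c hc1 hc2

lemma hv_away_of (G : SimpleGraph (Fin n)) {x y : Fin n} (hxy : G.Adj x y) (j : ℕ)
    (h : ∀ R : Finset (Fin n), (∀ w ∈ R, w ≠ x ∧ w ≠ y ∧ ¬ G.Adj x w ∧ ¬ G.Adj y w) →
      HV k (Ind G.Adj R) j) (U0 : Finset (Fin n)) : HV k (Ind (away G x y).Adj U0) j := by
  classical
  by_cases hU : ∀ w ∈ U0, w ≠ x ∧ w ≠ y ∧ ¬ G.Adj x w ∧ ¬ G.Adj y w
  · refine HV.congr ?_ (h U0 hU)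
    intro F
    constructor
    · rintro ⟨h1, h2⟩
      refine ⟨h1, fun a ha b hb hab hadj => h2 a ha b hb hab ?_⟩
      unfold away at hadj
      simp at hadj
      tauto
    · rintro ⟨h1, h2⟩
      refine ⟨h1, fun a ha b hb hab hadj => h2 a ha b hb hab ?_⟩
      have ha' := hU a (h1 ha)
      have hb' := hU b (h1 hb)
      unfold away
      simp
      tauto
  · push Not at hU
    obtain ⟨w, hw, hw2⟩ := hU
    apply HV.cone w
    rintro F ⟨h1, h2⟩
    refine ⟨Finset.insert_subset hw h1, ?_⟩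
    have hiso : ∀ z, ¬ (away G x y).Adj w z := by
      intro z hz
      unfold away at hz
      simp at hz
      tauto
    intro a ha b hb hab hadj
    rcases Finset.mem_insert.1 ha with rfl | ha
    · exact hiso _ hadj
    · rcases Finset.mem_insert.1 hb with rfl | hb
      · exact hiso _ hadj.symm
      · exact h2 a ha b hb hab hadj

/-- the exact formula -/
theorem formula (k : Type*) [Field k] (G : SimpleGraph (Fin n)) (hG : ∃ u v, G.Adj u v) :
    ∃ r σ : ℕ, 1 ≤ σ ∧ σ + 1 ≤ r ∧ EdgeReg.IsReg (EdgeReg.edgeIdeal k G) r ∧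
      ∀ q, 1 ≤ q → EdgeReg.IsReg ((EdgeReg.edgeIdeal k G) ^ q) (max (r + q - 1) (2 * q - 1 + σ)) := by
  classical
  obtain ⟨u, v, huv⟩ := hG
  have hgen1 := tor_gen (k := k) G huv 1
  rw [pow_one] at hgen1
  obtain ⟨r, hr, _⟩ := reg_exists (EdgeReg.edgeIdeal k G) (2 * 1 + (n + 2)) (by
    intro i e he
    have := triv_bound (k := k) G 1 le_rfl i e (by omega)
    rwa [pow_one] at this) ⟨0, 2 * 1, hgen1⟩
  have hr2 : 2 ≤ r := hr.2 ⟨0, hgen1⟩
  have hbd : ∀ i e, r < e → ¬ EdgeReg.TorNe (EdgeReg.edgeIdeal k G) i e := by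
    intro i e he h
    have := hr.2 ⟨i, h⟩
    omega
  have hP : ∃ s : ℕ, 1 ≤ s ∧ ∀ x y, G.Adj x y → ∀ (U0 : Finset (Fin n)) (j : ℕ), s ≤ j →
      HV k (Ind (away G x y).Adj U0) j := by
    refine ⟨r - 1, by omega, fun x y hxy U0 j hj => ?_⟩
    apply hv_away_of G hxy j
    intro R hR
    refine susp_lower G hxy R hR 1 le_rfl j fun i => ?_
    rw [pow_one]
    exact hbd i _ (by omega)
  set σ := Nat.find hP with hσ
  obtain ⟨hσ1, hσ2⟩ := Nat.find_spec hP
  have hmin : ∀ s, s < σ → 1 ≤ s → ¬ ∀ x y, G.Adj x y → ∀ (U0 : Finset (Fin n)) (j : ℕ), s ≤ j →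
      HV k (Ind (away G x y).Adj U0) j := fun s hs h1 h2 => Nat.find_min hP hs ⟨h1, h2⟩
  have hσr : σ ≤ r - 1 := by
    apply Nat.find_min'
    refine ⟨by omega, fun x y hxy U0 j hj => ?_⟩
    apply hv_away_of G hxy j
    intro R hR
    refine susp_lower G hxy R hR 1 le_rfl j fun i => ?_
    rw [pow_one]
    exact hbd i _ (by omega)
  have hadj := hadj_of_reg G r (by omega) hbd
  refine ⟨r, σ, hσ1, by omega, hr, fun q hq => ?_⟩
  obtain ⟨s, hs, hsB⟩ := reg_exists ((EdgeReg.edgeIdeal k G) ^ q) (max (r + q - 1) (2 * q - 1 + σ)) (by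
    intro i e he
    exact Pool.Agent.H816R3.EdgeLow.hupper G (upperComb G) r σ q hσ1 hq hadj hσ2 i e he)
    ⟨0, 2 * q, tor_gen G huv q⟩
  have hsbd : ∀ i e, s < e → ¬ EdgeReg.TorNe ((EdgeReg.edgeIdeal k G) ^ q) i e := by
    intro i e he h
    have := hs.2 ⟨i, h⟩
    omega
  have hA : r + q - 1 ≤ s := by
    by_contra hcon
    push Not at hcon
    have h1 : ∀ (U0 : Finset (Fin n)) (j : ℕ), r - 1 ≤ j → HV k (Ind G.Adj U0) j := by
      intro U0 j hj
      exact Pool.Agent.H816R3.EdgeLow.lowerA G q hq s hsbd U0 j (by omega) (by omega)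
    obtain ⟨i, hi⟩ := hr.1
    have h2 := ab_upper (k := k) G (r - 1) 1 (by omega) le_rfl h1 i r (by omega)
    rw [pow_one] at h2
    exact h2 hi
  have hB : 2 * q - 1 + σ ≤ s := by
    by_contra hcon
    push Not at hcon
    by_cases h1 : σ = 1
    · have := hs.2 ⟨0, tor_gen G huv q⟩
      omega
    · refine hmin (σ - 1) (by omega) (by omega) fun x y hxy U0 j hj => ?_
      apply hv_away_of G hxy j
      intro R hR
      exact susp_lower G hxy R hR q hq j fun i => hsbd i _ (by omega)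
  have hsm : s = max (r + q - 1) (2 * q - 1 + σ) := le_antisymm hsB (max_le hA hB)
  rw [← hsm]
  exact hs

/-- monotonicity (strict), growth by at most two -/
theorem growth (k : Type*) [Field k] (G : SimpleGraph (Fin n)) (hG : ∃ u v, G.Adj u v) (q : ℕ)
    (hq : 1 ≤ q) : ∃ s t : ℕ, EdgeReg.IsReg ((EdgeReg.edgeIdeal k G) ^ q) s ∧
      EdgeReg.IsReg ((EdgeReg.edgeIdeal k G) ^ (q + 1)) t ∧ s + 1 ≤ t ∧ t ≤ s + 2 := by
  obtain ⟨r, σ, h1, h2, _, h4⟩ := formula k G hG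
  exact ⟨_, _, h4 q hq, h4 (q + 1) (by omega), by omega, by omega⟩

/-- linearity from `reg I - 1` on -/
theorem linear_from (k : Type*) [Field k] (G : SimpleGraph (Fin n)) (hG : ∃ u v, G.Adj u v) :
    ∃ r c : ℕ, EdgeReg.IsReg (EdgeReg.edgeIdeal k G) r ∧ ∀ q, 1 ≤ q → r ≤ q + 1 →
      EdgeReg.IsReg ((EdgeReg.edgeIdeal k G) ^ q) (2 * q + c) := by
  obtain ⟨r, σ, h1, h2, h3, h4⟩ := formula k G hG
  refine ⟨r, σ - 1, h3, fun q hq hrq => ?_⟩
  have h5 := h4 q hq
  have h6 : max (r + q - 1) (2 * q - 1 + σ) = 2 * q + (σ - 1) := by omega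
  rwa [h6] at h5

end Pool.Agent.H803R3F
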