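import Mathlib
import Pool.Agent.H803R3.Reg

/-!
Vector valued Koszul chains and graded matrices.
-/

set_option autoImplicit false
set_option linter.unusedSectionVars false

namespace Pool.Agent.H803R3

open MvPolynomial

variable {K : Type*} [Field K] {n : ℕ}

lemma comp_mul {a : ℕ} {p : MvPolynomial (Fin n) K} (hp : p.IsHomogeneous a) (N : ℕ)
    (x : MvPolynomial (Fin n) K) :
    homogeneousComponent N (p * x) =
      if a ≤ N then p * homogeneousComponent (N - a) x else 0 := by
  have h1 : ∀ i, homogeneousComponent N (p * homogeneousComponent i x) =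
      if N = a + i then p * homogeneousComponent i x else 0 := by
    intro i
    exact homogeneousComponent_of_mem (hp.mul (homogeneousComponent_isHomogeneous i x))
  have h2 : p * x = ∑ i ∈ Finset.range (x.totalDegree + 1), p * homogeneousComponent i x := by
    rw [← Finset.mul_sum, sum_homogeneousComponent]
  rw [h2, map_sum, Finset.sum_congr rfl fun i _ => h1 i]
  by_cases h : a ≤ N
  · rw [if_pos h, Finset.sum_eq_single (N - a)]
    · rw [if_pos (by omega)]
    · intro i _ hi
      rw [if_neg (by omega)]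
    · intro hN
      rw [Finset.mem_range] at hN
      rw [homogeneousComponent_eq_zero _ _ (by omega), mul_zero]
      split_ifs <;> rfl
  · rw [if_neg h]
    apply Finset.sum_eq_zero
    intro i _
    rw [if_neg (by omega)]

/-- homogeneous component in a shifted degree -/
noncomputable def hcd (δ c : ℕ) (p : MvPolynomial (Fin n) K) : MvPolynomial (Fin n) K :=
  if δ ≤ c then homogeneousComponent (c - δ) p else 0

/-- homogeneity in a shifted degree -/
def Hm (δ c : ℕ) (p : MvPolynomial (Fin n) K) : Prop :=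
  p = 0 ∨ (δ ≤ c ∧ p.IsHomogeneous (c - δ))

lemma hcd_hm (δ c : ℕ) (p : MvPolynomial (Fin n) K) : Hm δ c (hcd δ c p) := by
  unfold hcd Hm
  split_ifs with h
  · exact Or.inr ⟨h, homogeneousComponent_isHomogeneous _ _⟩
  · exact Or.inl rfl

lemma Hm.hcd {δ c : ℕ} {p : MvPolynomial (Fin n) K} (h : Hm δ c p) : hcd δ c p = p := by
  unfold Pool.Agent.H803R3.hcd
  rcases h with rfl | ⟨h1, h2⟩
  · split_ifs
    · rw [map_zero]
    · rfl
  · rw [if_pos h1, homogeneousComponent_eq_self h2]

lemma hcd_mul {δ δ' c : ℕ} {p : MvPolynomial (Fin n) K} (hp : Hm δ δ' p)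
    (x : MvPolynomial (Fin n) K) : hcd δ c (p * x) = p * hcd δ' c x := by
  rcases hp with rfl | ⟨h1, h2⟩
  · rw [zero_mul, zero_mul]
    unfold hcd
    split_ifs
    · rw [map_zero]
    · rfl
  · unfold hcd
    by_cases h : δ ≤ c
    · rw [if_pos h, comp_mul h2]
      by_cases h' : δ' ≤ c
      · rw [if_pos h', if_pos (by omega)]
        congr 2
        congr 1
        omega
      · rw [if_neg h', if_neg (by omega), mul_zero]
    · rw [if_neg h, if_neg (by omega), mul_zero]

lemma hcd_mul_one {δ c : ℕ} {p : MvPolynomial (Fin n) K} (hp : p.IsHomogeneous 1)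
    (x : MvPolynomial (Fin n) K) : hcd δ (c + 1) (p * x) = p * hcd δ c x := by
  unfold hcd
  by_cases h : δ ≤ c
  · rw [if_pos h, if_pos (by omega), comp_mul hp, if_pos (by omega)]
    congr 2
    congr 1
    omega
  · rw [if_neg h, mul_zero]
    by_cases h' : δ ≤ c + 1
    · rw [if_pos h', comp_mul hp, if_neg (by omega)]
    · rw [if_neg h']

lemma hcd_add (δ c : ℕ) (p q : MvPolynomial (Fin n) K) :
    hcd δ c (p + q) = hcd δ c p + hcd δ c q := by
  unfold hcd
  split_ifs
  · rw [map_add]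
  · rw [add_zero]

lemma hcd_zero (δ c : ℕ) : hcd δ c (0 : MvPolynomial (Fin n) K) = 0 := by
  unfold hcd
  split_ifs
  · rw [map_zero]
  · rfl

lemma hcd_sum {ι : Type*} (δ c : ℕ) (s : Finset ι) (p : ι → MvPolynomial (Fin n) K) :
    hcd δ c (∑ i ∈ s, p i) = ∑ i ∈ s, hcd δ c (p i) := by
  classical
  induction s using Finset.induction_on with
  | empty => rw [Finset.sum_empty, Finset.sum_empty, hcd_zero]
  | insert a s ha ih => rw [Finset.sum_insert ha, Finset.sum_insert ha, hcd_add, ih]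

/-- truncation of vectors -/
noncomputable def tr {m : ℕ} (δ : Fin m → ℕ) (c : ℕ) (v : Fin m → MvPolynomial (Fin n) K) :
    Fin m → MvPolynomial (Fin n) K := fun k => hcd (δ k) c (v k)

/-- graded matrices -/
def Gd {m m' : ℕ} (D : Matrix (Fin m) (Fin m') (MvPolynomial (Fin n) K)) (δ : Fin m → ℕ)
    (δ' : Fin m' → ℕ) : Prop := ∀ s k, Hm (δ s) (δ' k) (D s k)

lemma tr_hm {m : ℕ} (δ : Fin m → ℕ) (c : ℕ) (v : Fin m → MvPolynomial (Fin n) K) (k : Fin m) :
    Hm (δ k) c (tr δ c v k) := hcd_hm _ _ _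

lemma tr_eq {m : ℕ} {δ : Fin m → ℕ} {c : ℕ} {v : Fin m → MvPolynomial (Fin n) K}
    (h : ∀ k, Hm (δ k) c (v k)) : tr δ c v = v := funext fun k => (h k).hcd

lemma tr_zero {m : ℕ} (δ : Fin m → ℕ) (c : ℕ) :
    tr δ c (0 : Fin m → MvPolynomial (Fin n) K) = 0 := funext fun _ => hcd_zero _ _

lemma tr_mulVec {m m' : ℕ} {D : Matrix (Fin m) (Fin m') (MvPolynomial (Fin n) K)}
    {δ : Fin m → ℕ} {δ' : Fin m' → ℕ} (hD : Gd D δ δ') (c : ℕ)
    (x : Fin m' → MvPolynomial (Fin n) K) :
    tr δ c (D.mulVec x) = D.mulVec (tr δ' c x) := by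
  funext s
  unfold tr Matrix.mulVec dotProduct
  rw [hcd_sum]
  exact Finset.sum_congr rfl fun k _ => hcd_mul (hD s k) (x k)

lemma lift_hom {m m' : ℕ} {D : Matrix (Fin m) (Fin m') (MvPolynomial (Fin n) K)}
    {δ : Fin m → ℕ} {δ' : Fin m' → ℕ} (hD : Gd D δ δ') (c : ℕ)
    {y : Fin m → MvPolynomial (Fin n) K} (hy : ∃ x, D.mulVec x = y)
    (hyc : ∀ k, Hm (δ k) c (y k)) :
    ∃ x, D.mulVec x = y ∧ ∀ k, Hm (δ' k) c (x k) := by
  obtain ⟨x, rfl⟩ := hy
  refine ⟨tr δ' c x, ?_, tr_hm δ' c x⟩
  rw [← tr_mulVec hD, tr_eq hyc]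

/-- vector valued Koszul differential -/
noncomputable def kd {m : ℕ} (f : Finset (Fin n) → Fin m → MvPolynomial (Fin n) K)
    (T : Finset (Fin n)) : Fin m → MvPolynomial (Fin n) K :=
  fun k => koszulD (fun U => f U k) T

lemma kd_eq {m : ℕ} (f : Finset (Fin n) → Fin m → MvPolynomial (Fin n) K)
    (T : Finset (Fin n)) : kd f T = ∑ t ∈ Finset.univ \ T,
      ((-1 : MvPolynomial (Fin n) K) ^ (T.filter (· < t)).card * X t) • f (insert t T) := by
  funext k
  rw [Finset.sum_apply]
  rfl

lemma kd_kd {m : ℕ} (f : Finset (Fin n) → Fin m → MvPolynomial (Fin n) K)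
    (T : Finset (Fin n)) : kd (kd f) T = 0 :=
  funext fun k => koszulD_koszulD (fun U => f U k) T

lemma kd_sub {m : ℕ} (f g : Finset (Fin n) → Fin m → MvPolynomial (Fin n) K)
    (T : Finset (Fin n)) : kd (fun U => f U - g U) T = kd f T - kd g T := by
  rw [kd_eq, kd_eq, kd_eq, ← Finset.sum_sub_distrib]
  exact Finset.sum_congr rfl fun t _ => smul_sub _ _ _

lemma kd_mulVec {m m' : ℕ} (D : Matrix (Fin m) (Fin m') (MvPolynomial (Fin n) K))
    (f : Finset (Fin n) → Fin m' → MvPolynomial (Fin n) K) (T : Finset (Fin n)) :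
    kd (fun U => D.mulVec (f U)) T = D.mulVec (kd f T) := by
  rw [kd_eq, kd_eq]
  have : D.mulVec (∑ t ∈ Finset.univ \ T,
      ((-1 : MvPolynomial (Fin n) K) ^ (T.filter (· < t)).card * X t) • f (insert t T)) =
      D.mulVecLin (∑ t ∈ Finset.univ \ T,
      ((-1 : MvPolynomial (Fin n) K) ^ (T.filter (· < t)).card * X t) • f (insert t T)) := rfl
  rw [this, map_sum]
  refine Finset.sum_congr rfl fun t _ => ?_
  rw [map_smul]
  rfl

lemma kd_mem {m : ℕ} {M : Submodule (MvPolynomial (Fin n) K) (Fin m → MvPolynomial (Fin n) K)}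
    {f : Finset (Fin n) → Fin m → MvPolynomial (Fin n) K} (hf : ∀ T, f T ∈ M)
    (T : Finset (Fin n)) : kd f T ∈ M := by
  rw [kd_eq]
  exact Submodule.sum_mem _ fun t _ => Submodule.smul_mem _ _ (hf _)

lemma kd_congr {m : ℕ} {f g : Finset (Fin n) → Fin m → MvPolynomial (Fin n) K}
    (h : ∀ T, f T = g T) (T : Finset (Fin n)) : kd f T = kd g T := by
  rw [funext h]

lemma kd_card {m : ℕ} {f : Finset (Fin n) → Fin m → MvPolynomial (Fin n) K} {i : ℕ}
    (hf : ∀ T : Finset (Fin n), T.card ≠ i + 1 → f T = 0) {T : Finset (Fin n)}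
    (hT : T.card ≠ i) : kd f T = 0 := by
  rw [kd_eq]
  refine Finset.sum_eq_zero fun t ht => ?_
  rw [Finset.mem_sdiff] at ht
  rw [hf (insert t T), smul_zero]
  rw [Finset.card_insert_of_notMem ht.2]
  omega

lemma hom_sgn (k : ℕ) (t : Fin n) :
    ((-1 : MvPolynomial (Fin n) K) ^ k * X t).IsHomogeneous 1 := by
  have h1 : (-1 : MvPolynomial (Fin n) K) ^ k = C ((-1 : K) ^ k) := by simp
  rw [h1]
  exact (isHomogeneous_X K t).C_mul _

lemma tr_kd {m : ℕ} (δ : Fin m → ℕ) (c : ℕ)
    (f : Finset (Fin n) → Fin m → MvPolynomial (Fin n) K) (T : Finset (Fin n)) :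
    tr δ (c + 1) (kd f T) = kd (fun U => tr δ c (f U)) T := by
  funext k
  show hcd (δ k) (c + 1) (koszulD (fun U => f U k) T) = koszulD (fun U => hcd (δ k) c (f U k)) T
  unfold koszulD
  rw [hcd_sum]
  exact Finset.sum_congr rfl fun t _ => hcd_mul_one (hom_sgn _ t) _

lemma kd_hm {m : ℕ} {δ : Fin m → ℕ} {c : ℕ}
    {f : Finset (Fin n) → Fin m → MvPolynomial (Fin n) K} (hf : ∀ T k, Hm (δ k) c (f T k))
    (T : Finset (Fin n)) (k : Fin m) : Hm (δ k) (c + 1) (kd f T k) := by
  have h1 : kd f T = tr δ (c + 1) (kd f T) := by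
    rw [tr_kd]
    exact kd_congr (fun U => (tr_eq (hf U)).symm) T
  rw [h1]
  exact tr_hm _ _ _ _

/-- exactness of the Koszul complex of a free module -/
theorem free_ex {m : ℕ} (δ : Fin m → ℕ) (i c : ℕ)
    (f : Finset (Fin n) → Fin m → MvPolynomial (Fin n) K)
    (h1 : ∀ T : Finset (Fin n), T.card ≠ i → f T = 0) (h2 : ∀ T k, Hm (δ k) c (f T k))
    (h3 : ∀ T, kd f T = 0) (h4 : 1 ≤ i ∨ ∀ k, δ k < c) :
    ∃ w : Finset (Fin n) → Fin m → MvPolynomial (Fin n) K,
      (∀ U : Finset (Fin n), U.card ≠ i + 1 → w U = 0) ∧ ∀ T, f T = kd w T := by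
  have key : ∀ k, ∃ g : Finset (Fin n) → MvPolynomial (Fin n) K,
      (∀ U : Finset (Fin n), U.card ≠ i + 1 → g U = 0) ∧ ∀ T, f T k = koszulD g T := by
    intro k
    by_cases hk : δ k ≤ c
    · have hpos : 1 ≤ i + (c - δ k) := by
        rcases h4 with h | h
        · omega
        · have := h k; omega
      obtain ⟨g, g1, _, g3⟩ := lift_acyc (K := K) (⊥ : SimpleGraph (Fin n)) 0 i (c - δ k) (by
        intro a ha
        have : ∃ v, 1 ≤ a v := by
          by_contra hno
          push Not at hno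
          have : ∑ w, a w = 0 := Finset.sum_eq_zero fun w _ => by have := hno w; omega
          omega
        obtain ⟨v, hv⟩ := this
        refine acyc_of_levels Finset.univ _ (fun S T hST h => Face.down S T hST h)
          (fun _ => (0 : ℕ)) (fun _ _ _ _ _ => le_rfl) i ?_
        intro T0 _ _ _
        refine ⟨v, Finset.mem_univ _, ?_⟩
        rintro T _ ⟨X, x1, x2, x3⟩ _
        refine ⟨⟨X, x1, x2, fun w => ?_⟩, rfl, rfl⟩
        rw [Multiset.card_eq_zero] at x2
        subst x2
        have := x3 w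
        simp only [dg_zero, zero_add] at this ⊢
        by_cases hwv : w = v
        · subst hwv
          split_ifs <;> omega
        · have hiff : (w ∈ insert v T) ↔ w ∈ T := by simp [hwv]
          simp only [hiff]
          exact this) (fun T => f T k) (fun T hT => by rw [h1 T hT]; rfl) (by
        intro T
        constructor
        · rw [pow_zero, Ideal.one_eq_top]; exact Submodule.mem_top
        · rcases h2 T k with h | h
          · simp only [h]; exact isHomogeneous_zero _ _ _
          · exact h.2) (fun S => congrFun (h3 S) k)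
      exact ⟨g, g1, g3⟩
    · refine ⟨fun _ => 0, fun _ _ => rfl, fun T => ?_⟩
      rcases h2 T k with h | h
      · rw [h]; unfold koszulD; simp
      · exact absurd h.1 hk
  choose g g1 g2 using key
  refine ⟨fun U k => g k U, fun U hU => funext fun k => g1 k U hU, fun T => funext fun k => g2 k T⟩

/-- vanishing of the Koszul homology of a submodule of a free module -/
def Van {m : ℕ} (M : Submodule (MvPolynomial (Fin n) K) (Fin m → MvPolynomial (Fin n) K))
    (δ : Fin m → ℕ) (i c : ℕ) : Prop :=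
  ∀ f : Finset (Fin n) → Fin m → MvPolynomial (Fin n) K,
    (∀ T : Finset (Fin n), T.card ≠ i → f T = 0) → (∀ T, f T ∈ M) →
    (∀ T k, Hm (δ k) c (f T k)) → (∀ T, kd f T = 0) →
    ∃ g : Finset (Fin n) → Fin m → MvPolynomial (Fin n) K,
      (∀ U : Finset (Fin n), U.card ≠ i + 1 → g U = 0) ∧ (∀ U, g U ∈ M) ∧ ∀ T, f T = kd g T

theorem step_a {m m' : ℕ} {D : Matrix (Fin m) (Fin m') (MvPolynomial (Fin n) K)}
    {δ : Fin m → ℕ} {δ' : Fin m' → ℕ} (hD : Gd D δ δ') (i c : ℕ)
    (h : Van (LinearMap.ker D.mulVecLin) δ' i (c + 1)) :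
    Van (LinearMap.range D.mulVecLin) δ (i + 1) c := by
  classical
  intro f f1 f2 f3 f4
  have hu : ∀ T, ∃ x : Fin m' → MvPolynomial (Fin n) K, D.mulVec x = f T ∧
      (∀ k, Hm (δ' k) c (x k)) ∧ (T.card ≠ i + 1 → x = 0) := by
    intro T
    by_cases hT : T.card = i + 1
    · obtain ⟨x, hx⟩ := f2 T
      obtain ⟨y, y1, y2⟩ := lift_hom hD c ⟨x, hx⟩ (f3 T)
      exact ⟨y, y1, y2, fun h => absurd hT h⟩
    · refine ⟨0, ?_, fun k => Or.inl rfl, fun _ => rfl⟩
      rw [f1 T hT]
      exact map_zero D.mulVecLin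
  choose u u1 u2 u3 using hu
  have hku : ∀ T, D.mulVec (kd u T) = 0 := by
    intro T
    rw [← kd_mulVec, kd_congr u1, f4]
  obtain ⟨w, w1, w2, w3⟩ := h (kd u) (fun T hT => kd_card u3 hT) (fun T => hku T)
    (fun T k => kd_hm u2 T k) (fun T => kd_kd u T)
  -- truncate w
  have hw' : ∀ T, kd u T = kd (fun U => tr δ' c (w U)) T := by
    intro T
    rw [← tr_kd, ← w3, tr_eq (fun k => kd_hm u2 T k)]
  have hDw' : ∀ U, D.mulVec (tr δ' c (w U)) = 0 := by
    intro U
    rw [← tr_mulVec hD]
    have : D.mulVec (w U) = 0 := w2 U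
    rw [this, tr_zero]
  have hc0 : ∀ T, kd (fun U => u U - tr δ' c (w U)) T = 0 := by
    intro T
    rw [kd_sub, hw', sub_self]
  have hhm : ∀ T k, Hm (δ' k) c ((u T - tr δ' c (w T)) k) := by
    intro T k
    have h1 : u T - tr δ' c (w T) = tr δ' c (u T - w T) := by
      funext k
      show u T k - hcd (δ' k) c (w T k) = hcd (δ' k) c (u T k - w T k)
      have h2 : hcd (δ' k) c (u T k) = u T k := (u2 T k).hcd
      have h3 : hcd (δ' k) c (u T k) = hcd (δ' k) c (u T k - w T k) + hcd (δ' k) c (w T k) := by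
        rw [← hcd_add, sub_add_cancel]
      rw [h2] at h3
      linear_combination h3
    rw [h1]
    exact tr_hm _ _ _ _
  obtain ⟨v, v1, v2⟩ := free_ex δ' (i + 1) c (fun U => u U - tr δ' c (w U)) (by
    intro T hT
    show u T - tr δ' c (w T) = 0
    rw [u3 T hT, w1 T hT, tr_zero, sub_zero]) hhm hc0 (Or.inl (by omega))
  refine ⟨fun U => D.mulVec (v U), ?_, fun U => ⟨v U, rfl⟩, ?_⟩
  · intro U hU
    show D.mulVec (v U) = 0
    rw [v1 U hU]
    exact map_zero D.mulVecLin
  · intro T
    rw [kd_mulVec, ← v2]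
    show f T = D.mulVecLin (u T - tr δ' c (w T))
    rw [map_sub]
    show f T = D.mulVec (u T) - D.mulVec (tr δ' c (w T))
    rw [hDw', u1, sub_zero]

theorem base_a {m m' : ℕ} {D : Matrix (Fin m) (Fin m') (MvPolynomial (Fin n) K)}
    {δ : Fin m → ℕ} {δ' : Fin m' → ℕ} (hD : Gd D δ δ') (c : ℕ) (h : ∀ k, δ' k < c) :
    Van (LinearMap.range D.mulVecLin) δ 0 c := by
  classical
  intro f f1 f2 f3 f4
  have hu : ∀ T, ∃ x : Fin m' → MvPolynomial (Fin n) K, D.mulVec x = f T ∧
      (∀ k, Hm (δ' k) c (x k)) ∧ (T.card ≠ 0 → x = 0) := by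
    intro T
    by_cases hT : T.card = 0
    · obtain ⟨x, hx⟩ := f2 T
      obtain ⟨y, y1, y2⟩ := lift_hom hD c ⟨x, hx⟩ (f3 T)
      exact ⟨y, y1, y2, fun h => absurd hT h⟩
    · refine ⟨0, ?_, fun k => Or.inl rfl, fun _ => rfl⟩
      rw [f1 T hT]
      exact map_zero D.mulVecLin
  choose u u1 u2 u3 using hu
  have hku : ∀ T, kd u T = 0 := by
    intro T
    rw [kd_eq]
    refine Finset.sum_eq_zero fun t _ => ?_
    rw [u3 (insert t T) (by rw [Finset.card_ne_zero]; exact Finset.insert_nonempty _ _), smul_zero]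
  obtain ⟨v, v1, v2⟩ := free_ex δ' 0 c u u3 u2 hku (Or.inr h)
  refine ⟨fun U => D.mulVec (v U), ?_, fun U => ⟨v U, rfl⟩, ?_⟩
  · intro U hU
    show D.mulVec (v U) = 0
    rw [v1 U hU]
    exact map_zero D.mulVecLin
  · intro T
    rw [kd_mulVec, ← v2, u1]

theorem step_b {m m' : ℕ} {D : Matrix (Fin m) (Fin m') (MvPolynomial (Fin n) K)}
    {δ : Fin m → ℕ} {δ' : Fin m' → ℕ} (hD : Gd D δ δ') (R : ℕ) (hR : ∀ k, δ' k ≤ R)
    (h : ∀ i c, R < c → Van (LinearMap.range D.mulVecLin) δ i c) (i c : ℕ) (hc : R + 1 < c) :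
    Van (LinearMap.ker D.mulVecLin) δ' i c := by
  classical
  obtain ⟨c, rfl⟩ : ∃ c', c = c' + 1 := ⟨c - 1, by omega⟩
  intro z z1 z2 z3 z4
  obtain ⟨w, w1, w2⟩ := free_ex δ' i (c + 1) z z1 z3 z4 (Or.inr fun k => by
    have := hR k; omega)
  have hw' : ∀ T, z T = kd (fun U => tr δ' c (w U)) T := by
    intro T
    rw [← tr_kd, ← w2, tr_eq (z3 T)]
  obtain ⟨v, v1, v2, v3⟩ := h (i + 1) c (by omega) (fun U => D.mulVec (tr δ' c (w U))) (by
      intro T hT
      show D.mulVec (tr δ' c (w T)) = 0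
      rw [w1 T hT, tr_zero]
      exact map_zero D.mulVecLin) (fun T => ⟨_, rfl⟩) (by
      intro T k
      show Hm (δ k) c (D.mulVec (tr δ' c (w T)) k)
      rw [← tr_mulVec hD]
      exact tr_hm _ _ _ _) (by
      intro T
      rw [kd_mulVec, ← hw']
      exact z2 T)
  have hv' : ∀ U, ∃ x : Fin m' → MvPolynomial (Fin n) K, D.mulVec x = v U ∧
      (U.card ≠ i + 1 + 1 → x = 0) := by
    intro U
    by_cases hU : U.card = i + 1 + 1
    · obtain ⟨x, hx⟩ := v2 U
      exact ⟨x, hx, fun h => absurd hU h⟩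
    · refine ⟨0, ?_, fun _ => rfl⟩
      rw [v1 U hU]
      exact map_zero D.mulVecLin
  choose v' v'1 v'2 using hv'
  refine ⟨fun U => tr δ' c (w U) - kd v' U, ?_, ?_, ?_⟩
  · intro U hU
    show tr δ' c (w U) - kd v' U = 0
    rw [w1 U hU, tr_zero, kd_card v'2 hU, sub_zero]
  · intro U
    rw [LinearMap.mem_ker, map_sub]
    show D.mulVec (tr δ' c (w U)) - D.mulVec (kd v' U) = 0
    rw [← kd_mulVec, kd_congr v'1, ← v3, sub_self]
  · intro T
    rw [kd_sub, kd_kd, sub_zero, ← hw']

lemma sum_tr {m : ℕ} (δ : Fin m → ℕ) (v : Fin m → MvPolynomial (Fin n) K) :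
    ∃ N, v = ∑ c ∈ Finset.range N, tr δ c v := by
  refine ⟨(Finset.univ.sup fun k => δ k + (v k).totalDegree) + 1, ?_⟩
  funext k
  rw [Finset.sum_apply]
  have hk : δ k + (v k).totalDegree ≤ Finset.univ.sup fun k => δ k + (v k).totalDegree :=
    Finset.le_sup (f := fun k => δ k + (v k).totalDegree) (Finset.mem_univ k)
  set N := Finset.univ.sup fun k => δ k + (v k).totalDegree with hN
  show v k = ∑ c ∈ Finset.range (N + 1), hcd (δ k) c (v k)
  have h1 : ∀ c ∈ Finset.range (N + 1), hcd (δ k) c (v k) =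
      if δ k ≤ c then homogeneousComponent (c - δ k) (v k) else 0 := fun _ _ => rfl
  rw [Finset.sum_congr rfl h1, ← Finset.sum_filter]
  have h2 : (Finset.range (N + 1)).filter (fun c => δ k ≤ c) =
      (Finset.range (N + 1 - δ k)).map (addRightEmbedding (δ k)) := by
    ext c
    simp only [Finset.mem_filter, Finset.mem_range, Finset.mem_map, addRightEmbedding_apply]
    constructor
    · rintro ⟨g1, g2⟩
      exact ⟨c - δ k, by omega, by omega⟩
    · rintro ⟨j, g1, rfl⟩
      omega
  rw [h2, Finset.sum_map]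
  conv_lhs => rw [← sum_homogeneousComponent (v k)]
  have h3 : Finset.range ((v k).totalDegree + 1) ⊆ Finset.range (N + 1 - δ k) := by
    intro x hx
    rw [Finset.mem_range] at hx ⊢
    omega
  rw [Finset.sum_subset h3]
  · refine Finset.sum_congr rfl fun x _ => ?_
    rw [addRightEmbedding_apply, Nat.add_sub_cancel]
  · intro x _ hx
    rw [Finset.mem_range] at hx
    exact homogeneousComponent_eq_zero _ _ (by omega)

/-- generators in bounded degree -/
theorem gen {m : ℕ} (M : Submodule (MvPolynomial (Fin n) K) (Fin m → MvPolynomial (Fin n) K))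
    (δ : Fin m → ℕ) (R : ℕ) (hM : ∀ v ∈ M, ∀ c, tr δ c v ∈ M)
    (h : ∀ c, R < c → Van M δ 0 c) :
    ∃ (m' : ℕ) (δ' : Fin m' → ℕ) (D : Matrix (Fin m) (Fin m') (MvPolynomial (Fin n) K)),
      Gd D δ δ' ∧ (∀ k, δ' k ≤ R) ∧ LinearMap.range D.mulVecLin = M := by
  classical
  set A : Set (Fin m → MvPolynomial (Fin n) K) :=
    {v | v ∈ M ∧ ∃ c ≤ R, ∀ k, Hm (δ k) c (v k)} with hA
  have hAM : Submodule.span _ A = M := by
    apply le_antisymm
    · rw [Submodule.span_le]
      exact fun v hv => hv.1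
    · have hc : ∀ c, ∀ v ∈ M, (∀ k, Hm (δ k) c (v k)) →
          v ∈ Submodule.span (MvPolynomial (Fin n) K) A := by
        intro c
        induction c using Nat.strong_induction_on with
        | _ c ih =>
          intro v hv hvc
          by_cases hcR : c ≤ R
          · exact Submodule.subset_span ⟨hv, c, hcR, hvc⟩
          · obtain ⟨c', rfl⟩ : ∃ c', c = c' + 1 := ⟨c - 1, by omega⟩
            obtain ⟨g, _, g2, g3⟩ := h (c' + 1) (by omega) (fun T => if T = ∅ then v else 0)
              (by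
                intro T hT
                have : T ≠ ∅ := fun h => hT (by simp [h])
                simp [this]) (by
                intro T
                show (if T = ∅ then v else 0) ∈ M
                split_ifs
                · exact hv
                · exact M.zero_mem) (by
                intro T k
                show Hm (δ k) (c' + 1) ((if T = ∅ then v else 0) k)
                split_ifs
                · exact hvc k
                · exact Or.inl rfl) (by
                intro T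
                rw [kd_eq]
                refine Finset.sum_eq_zero fun t _ => ?_
                rw [if_neg (Finset.insert_ne_empty t T), smul_zero])
            have h1 : v = kd g ∅ := by
              have := g3 ∅
              rwa [if_pos rfl] at this
            have h2 : v = kd (fun U => tr δ c' (g U)) ∅ := by
              rw [← tr_kd, ← h1, tr_eq hvc]
            rw [h2, kd_eq]
            refine Submodule.sum_mem _ fun t _ => Submodule.smul_mem _ _ ?_
            exact ih c' (by omega) _ (hM _ (g2 _) c') (fun k => tr_hm _ _ _ _)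
      intro v hv
      obtain ⟨N, hN⟩ := sum_tr δ v
      rw [hN]
      exact Submodule.sum_mem _ fun c _ => hc c _ (hM v hv c) (fun k => tr_hm _ _ _ _)
  have hfg : (Submodule.span (MvPolynomial (Fin n) K) A).FG := IsNoetherian.noetherian _
  obtain ⟨s, hsA, hs⟩ := (Submodule.fg_span_iff_fg_span_finset_subset A).1 hfg
  have hch : ∀ v : s, ∃ c ≤ R, ∀ k, Hm (δ k) c (v.1 k) := fun v => (hsA v.2).2
  choose cc cc1 cc2 using hch
  set e := s.equivFin with he
  refine ⟨s.card, fun k => cc (e.symm k), fun r k => (e.symm k).1 r, ?_, ?_, ?_⟩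
  · intro r k
    exact cc2 (e.symm k) r
  · intro k
    exact cc1 _
  · rw [← hAM, hs]
    ext v
    rw [LinearMap.mem_range]
    have h1 : (s : Set (Fin m → MvPolynomial (Fin n) K)) =
        Set.range (fun k : Fin s.card => (e.symm k).1) := by
      ext w
      constructor
      · intro hw
        exact ⟨e ⟨w, hw⟩, by simp⟩
      · rintro ⟨k, rfl⟩
        exact (e.symm k).2
    rw [h1, Submodule.mem_span_range_iff_exists_fun]
    constructor
    · rintro ⟨x, hx⟩
      refine ⟨x, ?_⟩
      rw [← hx]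
      funext r
      rw [Finset.sum_apply]
      show _ = ∑ k, (e.symm k).1 r * x k
      refine Finset.sum_congr rfl fun k _ => ?_
      show x k * _ = _
      rw [mul_comm]
    · rintro ⟨x, hx⟩
      refine ⟨x, ?_⟩
      rw [← hx]
      funext r
      rw [Finset.sum_apply]
      show ∑ k, (e.symm k).1 r * x k = _
      refine Finset.sum_congr rfl fun k _ => ?_
      show _ = x k * _
      rw [mul_comm]

end Pool.Agent.H803R3
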