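import Mathlib
import Pool.Agent.H803R3.Grd

/-!
Graded free resolutions and Koszul homology.
-/

set_option autoImplicit false
set_option linter.unusedSectionVars false

namespace Pool.Agent.H803R3

open MvPolynomial

variable {K : Type} [Field K] {n : ℕ}

/-- graded free resolutions with bounded degrees, as in the frozen statement -/
def RegR (J : Ideal (MvPolynomial (Fin n) K)) (r : ℕ) : Prop :=
  ∃ (b : ℕ → ℕ) (deg : ∀ i : ℕ, Fin (b i) → ℕ)
    (g : Fin (b 0) → MvPolynomial (Fin n) K)
    (d : ∀ i : ℕ, Matrix (Fin (b i)) (Fin (b (i + 1))) (MvPolynomial (Fin n) K)),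
    Ideal.span (Set.range g) = J ∧
    (∀ k : Fin (b 0), (g k).IsHomogeneous (deg 0 k)) ∧
    (∀ (i : ℕ) (s : Fin (b i)) (c : Fin (b (i + 1))),
      d i s c = 0 ∨
        (deg i s ≤ deg (i + 1) c ∧ (d i s c).IsHomogeneous (deg (i + 1) c - deg i s))) ∧
    (∀ v : Fin (b 0) → MvPolynomial (Fin n) K,
      (∑ k, g k * v k = 0) ↔ ∃ w, Matrix.mulVec (d 0) w = v) ∧
    (∀ (i : ℕ) (v : Fin (b (i + 1)) → MvPolynomial (Fin n) K),
      Matrix.mulVec (d i) v = 0 ↔ ∃ w, Matrix.mulVec (d (i + 1)) w = v) ∧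
    (∀ (i : ℕ) (k : Fin (b i)), deg i k ≤ r + i)

/-- a bounded resolution bounds the Koszul homology -/
theorem not_hasTor_of_regR {J : Ideal (MvPolynomial (Fin n) K)} {r : ℕ} (h : RegR J r)
    (i c : ℕ) (hc : r < c) : ¬ HasTor J i c := by
  classical
  obtain ⟨b, deg, g, d, h1, h2, h3, h4, h5, h6⟩ := h
  have hG : ∀ j, Gd (d j) (deg j) (deg (j + 1)) := fun j s k => h3 j s k
  have hker : ∀ j, LinearMap.ker (d j).mulVecLin = LinearMap.range (d (j + 1)).mulVecLin := by
    intro j
    ext v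
    exact h5 j v
  have hv : ∀ i j c, r + j + 1 < c → Van (LinearMap.range (d j).mulVecLin) (deg j) i c := by
    intro i
    induction i with
    | zero =>
      intro j c hc
      apply base_a (hG j)
      intro k
      have := h6 (j + 1) k
      omega
    | succ i ih =>
      intro j c hc
      apply step_a (hG j)
      rw [hker]
      exact ih (j + 1) (c + 1) (by omega)
  set D0 : Matrix (Fin 1) (Fin (b 0)) (MvPolynomial (Fin n) K) := fun _ k => g k with hD0
  have hG0 : Gd D0 (fun _ => 0) (deg 0) := fun _ k => Or.inr ⟨Nat.zero_le _, h2 k⟩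
  have hker0 : LinearMap.ker D0.mulVecLin = LinearMap.range (d 0).mulVecLin := by
    ext v
    rw [LinearMap.mem_ker, LinearMap.mem_range]
    constructor
    · intro hv
      exact (h4 v).1 (congrFun hv 0)
    · intro hv
      funext x
      exact (h4 v).2 hv
  have hv0 : Van (LinearMap.range D0.mulVecLin) (fun _ => 0) i c := by
    rcases i with _ | i
    · apply base_a hG0
      intro k
      have := h6 0 k
      omega
    · apply step_a hG0
      rw [hker0]
      exact hv i 0 (c + 1) (by omega)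
  have hmem : ∀ v : Fin 1 → MvPolynomial (Fin n) K, v ∈ LinearMap.range D0.mulVecLin ↔ v 0 ∈ J := by
    intro v
    rw [LinearMap.mem_range, ← h1, Ideal.mem_span_range_iff_exists_fun]
    constructor
    · rintro ⟨x, rfl⟩
      refine ⟨x, ?_⟩
      show _ = ∑ k, g k * x k
      exact Finset.sum_congr rfl fun k _ => mul_comm _ _
    · rintro ⟨x, hx⟩
      refine ⟨x, ?_⟩
      funext k
      rw [Subsingleton.elim k 0, ← hx]
      show ∑ k, g k * x k = _
      exact Finset.sum_congr rfl fun k _ => mul_comm _ _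
  rintro ⟨f, f1, f2, f3, f4⟩
  obtain ⟨w, w1, w2, w3⟩ := hv0 (fun T _ => f T) (fun T hT => funext fun _ => f1 T hT)
    (fun T => (hmem _).2 (f2 T).1) (fun T _ => Or.inr ⟨Nat.zero_le _, (f2 T).2⟩)
    (fun T => funext fun _ => f3 T)
  exact f4 ⟨fun U => w U 0, fun U hU => congrFun (w1 U hU) 0, fun U => (hmem _).1 (w2 U),
    fun T => congrFun (w3 T) 0⟩

/-- a stage of the construction of a resolution -/
structure Stg (K : Type) [Field K] (n r i : ℕ) where
  m : ℕ
  δ : Fin m → ℕ
  M : Submodule (MvPolynomial (Fin n) K) (Fin m → MvPolynomial (Fin n) K)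
  gr : ∀ v ∈ M, ∀ c, tr δ c v ∈ M
  van : ∀ j c, r + i < c → Van M δ j c

/-- data for the next stage -/
structure Nx {n r i : ℕ} (s : Stg K n r i) where
  m' : ℕ
  δ' : Fin m' → ℕ
  D : Matrix (Fin s.m) (Fin m') (MvPolynomial (Fin n) K)
  hD : Gd D s.δ δ'
  hR : ∀ k, δ' k ≤ r + i
  hr : LinearMap.range D.mulVecLin = s.M

lemma nx_nonempty {r i : ℕ} (s : Stg K n r i) : Nonempty (Nx s) := by
  obtain ⟨m', δ', D, h1, h2, h3⟩ := gen s.M s.δ (r + i) s.gr (fun c hc => s.van 0 c hc)
  exact ⟨⟨m', δ', D, h1, h2, h3⟩⟩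

/-- choice of the next data -/
noncomputable def nx {r i : ℕ} (s : Stg K n r i) : Nx s := Classical.choice (nx_nonempty s)

/-- the next stage -/
noncomputable def Nx.toStg {r i : ℕ} {s : Stg K n r i} (x : Nx s) : Stg K n r (i + 1) where
  m := x.m'
  δ := x.δ'
  M := LinearMap.ker x.D.mulVecLin
  gr := by
    intro v hv c
    rw [LinearMap.mem_ker] at hv ⊢
    have h1 : x.D.mulVec v = 0 := hv
    show x.D.mulVec (tr x.δ' c v) = 0
    rw [← tr_mulVec x.hD, h1, tr_zero]
  van := by
    intro j c hc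
    refine step_b x.hD (r + i) x.hR ?_ j c (by omega)
    intro i' c' hc'
    rw [x.hr]
    exact s.van i' c' hc'

lemma Nx.exact {r i : ℕ} {s : Stg K n r i} (x : Nx s) (y : Nx x.toStg)
    (v : Fin x.m' → MvPolynomial (Fin n) K) :
    x.D.mulVec v = 0 ↔ ∃ w : Fin y.m' → MvPolynomial (Fin n) K, y.D.mulVec w = v := by
  have h1 : ∀ v : Fin x.toStg.m → MvPolynomial (Fin n) K,
      v ∈ LinearMap.range y.D.mulVecLin ↔ v ∈ x.toStg.M := by
    intro v
    rw [y.hr]
  exact (h1 v).symm

/-- all stages -/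
noncomputable def sq {r : ℕ} (s0 : Stg K n r 0) : ∀ i : ℕ, Stg K n r i
  | 0 => s0
  | i + 1 => (nx (sq s0 i)).toStg

theorem regR_of_not_hasTor {J : Ideal (MvPolynomial (Fin n) K)} {r : ℕ}
    (hJ : ∀ p ∈ J, ∀ c, homogeneousComponent c p ∈ J)
    (h : ∀ i c, r < c → ¬ HasTor J i c) : RegR J r := by
  classical
  set s0 : Stg K n r 0 := {
    m := 1
    δ := fun _ => 0
    M := Submodule.comap (LinearMap.proj (R := MvPolynomial (Fin n) K)
      (φ := fun _ : Fin 1 => MvPolynomial (Fin n) K) 0) J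
    gr := by
      intro v hv c
      rw [Submodule.mem_comap] at hv ⊢
      show hcd 0 c (v 0) ∈ J
      unfold hcd
      rw [if_pos (Nat.zero_le _)]
      exact hJ _ hv _
    van := by
      intro j c hc f f1 f2 f3 f4
      by_contra hno
      apply h j c (by omega)
      refine ⟨fun T => f T 0, fun T hT => congrFun (f1 T hT) 0, ?_, fun T => congrFun (f4 T) 0, ?_⟩
      · intro T
        refine ⟨f2 T, ?_⟩
        rcases f3 T 0 with h1 | h1
        · simp only [h1]; exact isHomogeneous_zero _ _ _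
        · exact h1.2
      · rintro ⟨w, w1, w2, w3⟩
        apply hno
        refine ⟨fun U _ => w U, fun U hU => funext fun _ => w1 U hU, fun U => w2 U, fun T => ?_⟩
        funext k
        rw [Subsingleton.elim k 0]
        exact w3 T } with hs0
  have hM0 : ∀ v : Fin 1 → MvPolynomial (Fin n) K, v ∈ s0.M ↔ v 0 ∈ J := fun v => Iff.rfl
  refine ⟨fun i => (sq s0 (i + 1)).m, fun i => (sq s0 (i + 1)).δ, fun k => (nx s0).D 0 k,
    fun i => (nx (sq s0 (i + 1))).D, ?_, ?_, ?_, ?_, ?_, ?_⟩
  · ext p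
    rw [Ideal.mem_span_range_iff_exists_fun]
    have h1 : (fun _ => p) ∈ LinearMap.range (nx s0).D.mulVecLin ↔ p ∈ J := by
      rw [(nx s0).hr]
      exact hM0 _
    rw [← h1, LinearMap.mem_range]
    constructor
    · rintro ⟨x, hx⟩
      refine ⟨x, ?_⟩
      funext k
      rw [Subsingleton.elim k 0, ← hx]
      show ∑ k, (nx s0).D 0 k * x k = _
      exact Finset.sum_congr rfl fun k _ => mul_comm _ _
    · rintro ⟨x, hx⟩
      refine ⟨x, ?_⟩
      have h2 := congrFun hx 0
      rw [← h2]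
      show _ = ∑ k, (nx s0).D 0 k * x k
      exact Finset.sum_congr rfl fun k _ => mul_comm _ _
  · intro k
    rcases (nx s0).hD 0 k with h1 | h1
    · show ((nx s0).D 0 k).IsHomogeneous _
      rw [h1]; exact isHomogeneous_zero _ _ _
    · exact h1.2
  · intro i s c
    exact (nx (sq s0 (i + 1))).hD s c
  · intro v
    have h1 := Nx.exact (nx s0) (nx (sq s0 1)) v
    refine Iff.trans ?_ h1
    constructor
    · intro hv
      funext k
      rw [Subsingleton.elim k 0]
      exact hv
    · intro hv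
      exact congrFun hv 0
  · intro i v
    exact Nx.exact (nx (sq s0 (i + 1))) (nx (sq s0 (i + 1 + 1))) v
  · intro i k
    exact (nx (sq s0 i)).hR k

end Pool.Agent.H803R3
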